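import Pool.Agent.H565.MK.LW
set_option autoImplicit false

/-!
# The multilinear Kakeya estimate for tubes close to the coordinate directions

Guth's induction on scales, in a continuous form (averages over all cubes of a given size).
-/

namespace Pool.Agent.H565.MK
open MeasureTheory Finset Metric
open scoped ENNReal

section Axis

variable {I : Type} [Fintype I]

/-- Averages over cubes. -/
theorem avg_cubes (f : (I → ℝ) → ℝ≥0∞) (hf : Measurable f) (z : I → ℝ) (S s : ℝ) (hs : 0 ≤ s) :
    ENNReal.ofReal ((2 * s) ^ Fintype.card I) * ∫⁻ y in closedBall z S, f y ≤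
      ∫⁻ c in closedBall z (S + s), ∫⁻ y in closedBall c s, f y := by
  have hmeas : Measurable (fun q : (I → ℝ) × (I → ℝ) =>
      {q : (I → ℝ) × (I → ℝ) | dist q.2 q.1 ≤ s}.indicator (fun q => f q.2) q) := by
    refine (hf.comp measurable_snd).indicator ?_
    exact measurableSet_le (measurable_snd.dist measurable_fst) measurable_const
  have h1 : ∀ c : I → ℝ, ∫⁻ y in closedBall c s, f y =
      ∫⁻ y, {q : (I → ℝ) × (I → ℝ) | dist q.2 q.1 ≤ s}.indicator (fun q => f q.2) (c, y) := by
    intro c
    rw [← lintegral_indicator measurableSet_closedBall]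
    refine lintegral_congr fun y => ?_
    by_cases hy : dist y c ≤ s
    · rw [Set.indicator_of_mem (show y ∈ closedBall c s from hy), Set.indicator_of_mem]
      exact hy
    · rw [Set.indicator_of_notMem (show y ∉ closedBall c s from hy), Set.indicator_of_notMem]
      exact hy
  simp only [h1]
  rw [lintegral_lintegral_swap hmeas.aemeasurable]
  calc ENNReal.ofReal ((2 * s) ^ Fintype.card I) * ∫⁻ y in closedBall z S, f y
      = ∫⁻ y in closedBall z S, ENNReal.ofReal ((2 * s) ^ Fintype.card I) * f y := by
        rw [lintegral_const_mul _ hf]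
    _ ≤ ∫⁻ y in closedBall z S, ∫⁻ c in closedBall z (S + s),
          {q : (I → ℝ) × (I → ℝ) | dist q.2 q.1 ≤ s}.indicator (fun q => f q.2) (c, y) := by
        refine setLIntegral_mono' measurableSet_closedBall fun y hy => ?_
        have h2 : ∫⁻ c in closedBall z (S + s),
            {q : (I → ℝ) × (I → ℝ) | dist q.2 q.1 ≤ s}.indicator (fun q => f q.2) (c, y) ≥
            ∫⁻ c in closedBall y s, f y := by
          rw [← lintegral_indicator measurableSet_closedBall,
            ← lintegral_indicator measurableSet_closedBall]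
          refine lintegral_mono fun c => ?_
          by_cases hc : dist c y ≤ s
          · rw [Set.indicator_of_mem (show c ∈ closedBall y s from hc), Set.indicator_of_mem,
              Set.indicator_of_mem]
            · show dist y c ≤ s
              rwa [dist_comm]
            · show dist c z ≤ S + s
              calc dist c z ≤ dist c y + dist y z := dist_triangle _ _ _
                _ ≤ S + s := by
                  have : dist y z ≤ S := hy
                  linarith
          · rw [Set.indicator_of_notMem (show c ∉ closedBall y s from hc)]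
            exact zero_le
        refine le_trans (le_of_eq ?_) h2
        rw [setLIntegral_const, Real.volume_pi_closedBall y hs, mul_comm]
    _ ≤ _ := setLIntegral_le_lintegral _ _

/-- The set of the points which are at distance `≤ w`, in the directions of the coordinates `≠ j`,
of the line `y l = b l + u l * y j`. -/
def tub (j : I) (b u : I → ℝ) (w : ℝ) : Set (I → ℝ) := {y | ∀ l, l ≠ j → |y l - b l - u l * y j| ≤ w}

theorem measurableSet_tub (j : I) (b u : I → ℝ) (w : ℝ) : MeasurableSet (tub j b u w) := by
  have e : tub j b u w = ⋂ l, ⋂ (_ : l ≠ j), {y : I → ℝ | |y l - b l - u l * y j| ≤ w} := by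
    ext x
    simp [tub]
  rw [e]
  refine MeasurableSet.iInter fun l => MeasurableSet.iInter fun _ => ?_
  have h : Measurable fun y : I → ℝ => y l - b l - u l * y j :=
    ((measurable_pi_apply l).sub_const _).sub ((measurable_pi_apply j).const_mul _)
  exact measurableSet_le h.norm measurable_const

/-- The product which is estimated. -/
noncomputable def mprod (J : Finset I) {ι : Type} (P : I → Finset ι) (c : ι → ℝ≥0∞)
    (b u : I → ι → I → ℝ) (w : ℝ) (y : I → ℝ) : ℝ≥0∞ :=
  ∏ j ∈ J, (∑ i ∈ P j, c i * (tub j (b j i) (u j i) w).indicator (fun _ => (1 : ℝ≥0∞)) y)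
        ^ ((1 : ℝ) / ((J.card : ℝ) - 1))

theorem measurable_mprod (J : Finset I) {ι : Type} (P : I → Finset ι) (c : ι → ℝ≥0∞)
    (b u : I → ι → I → ℝ) (w : ℝ) : Measurable (mprod J P c b u w) := by
  unfold mprod
  refine Finset.measurable_fun_prod _ fun j _ => Measurable.pow_const ?_ _
  exact Finset.measurable_fun_sum _ fun i _ =>
    (measurable_const.indicator (measurableSet_tub _ _ _ _)).const_mul _

variable [DecidableEq I]

theorem axis_step (J : Finset I) (hJ : 2 ≤ J.card) {ι : Type} (P : I → Finset ι) (c : ι → ℝ≥0∞)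
    (b u : I → ι → I → ℝ) (w γ : ℝ) (hw : 0 < w) (hγ : 0 < γ) (hγ2 : γ ≤ 1 / 2)
    (hu : ∀ j i l, l ≠ j → |u j i l| ≤ γ) (z : I → ℝ) (S : ℝ) :
    ∫⁻ y in closedBall z S, mprod J P c b u w y ≤
      ENNReal.ofReal ((3 * γ) ^ Fintype.card I) *
        ∫⁻ y in closedBall z (S + w / (2 * γ)), mprod J P c b u (2 / γ * w) y := by
  have hk2 : (2 : ℝ) ≤ J.card := by exact_mod_cast hJ
  have hp0 : (0 : ℝ) < (1 : ℝ) / ((J.card : ℝ) - 1) := by
    have : (0 : ℝ) < (J.card : ℝ) - 1 := by linarith
    positivity
  set n := Fintype.card I with hn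
  have hs0 : 0 < w / (2 * γ) := by positivity
  have key : ∀ x : I → ℝ, ∫⁻ y in closedBall x (w / (2 * γ)), mprod J P c b u w y ≤
      ENNReal.ofReal ((3 * w) ^ n) * mprod J P c b u (2 / γ * w) x := by
    intro x
    have h1 := lw_box J hJ P (fun i j => c i *
      (tub j (b j i) (u j i) (2 / γ * w)).indicator (fun _ => (1 : ℝ≥0∞)) x)
      (fun i j l => b j i l + u j i l * x j) (3 / 2 * w)
    rw [show 2 * (3 / 2 * w) = 3 * w by ring, ← ENNReal.ofReal_pow (by positivity)] at h1
    refine le_trans ?_ h1
    rw [← lintegral_indicator measurableSet_closedBall]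
    refine lintegral_mono fun y => ?_
    by_cases hy : y ∈ closedBall x (w / (2 * γ))
    · rw [Set.indicator_of_mem hy]
      unfold mprod
      refine Finset.prod_le_prod' fun j hj => ENNReal.rpow_le_rpow ?_ hp0.le
      refine Finset.sum_le_sum fun i _ => ?_
      rw [mul_assoc]
      gcongr
      by_cases hyt : y ∈ tub j (b j i) (u j i) w
      · have hd : ∀ l, |y l - x l| ≤ w / (2 * γ) := by
          intro l
          have := dist_le_pi_dist y x l
          rw [Real.dist_eq] at this
          exact this.trans hy
        have hγd : γ * (w / (2 * γ)) = w / 2 := by field_simp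
        have hwγ : w ≤ w / (2 * γ) := by
          rw [le_div_iff₀ (by positivity)]
          nlinarith
        have hup : ∀ l, l ≠ j → |u j i l * (y j - x j)| ≤ w / 2 := by
          intro l hl
          rw [abs_mul]
          calc |u j i l| * |y j - x j| ≤ γ * (w / (2 * γ)) :=
                mul_le_mul (hu j i l hl) (hd j) (abs_nonneg _) hγ.le
            _ = w / 2 := hγd
        have hx1 : x ∈ tub j (b j i) (u j i) (2 / γ * w) := by
          intro l hl
          have e : x l - b j i l - u j i l * x j =
              (y l - b j i l - u j i l * y j) - (y l - x l) + u j i l * (y j - x j) := by ring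
          rw [e]
          have h3 := hyt l hl
          have h4 := hd l
          have h5 := hup l hl
          have e6 : 2 / γ * w = 4 * (w / (2 * γ)) := by
            field_simp
            ring
          rw [e6]
          calc |(y l - b j i l - u j i l * y j) - (y l - x l) + u j i l * (y j - x j)|
              ≤ |(y l - b j i l - u j i l * y j) - (y l - x l)| + |u j i l * (y j - x j)| :=
                abs_add_le _ _
            _ ≤ |y l - b j i l - u j i l * y j| + |y l - x l| + |u j i l * (y j - x j)| := by
                gcongr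
                exact abs_sub _ _
            _ ≤ 4 * (w / (2 * γ)) := by linarith
        have hy1 : y ∈ box j (fun l => b j i l + u j i l * x j) (3 / 2 * w) := by
          intro l hl
          have e : y l - (b j i l + u j i l * x j) =
              (y l - b j i l - u j i l * y j) + u j i l * (y j - x j) := by ring
          simp only [e]
          have h3 := hyt l hl
          have h5 := hup l hl
          calc |(y l - b j i l - u j i l * y j) + u j i l * (y j - x j)|
              ≤ |y l - b j i l - u j i l * y j| + |u j i l * (y j - x j)| := abs_add_le _ _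
            _ ≤ 3 / 2 * w := by linarith
        rw [Set.indicator_of_mem hyt, Set.indicator_of_mem hx1, Set.indicator_of_mem hy1, one_mul]
      · rw [Set.indicator_of_notMem hyt]
        exact zero_le
    · rw [Set.indicator_of_notMem hy]
      exact zero_le
  have h2 := avg_cubes (mprod J P c b u w) (measurable_mprod J P c b u w) z S (w / (2 * γ)) hs0.le
  have h3 : ∫⁻ x in closedBall z (S + w / (2 * γ)), ∫⁻ y in closedBall x (w / (2 * γ)),
      mprod J P c b u w y ≤ ENNReal.ofReal ((3 * w) ^ n) *
        ∫⁻ x in closedBall z (S + w / (2 * γ)), mprod J P c b u (2 / γ * w) x := by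
    rw [← lintegral_const_mul _ (measurable_mprod J P c b u _)]
    exact lintegral_mono fun x => key x
  have h4 := h2.trans h3
  have h5 : (2 * (w / (2 * γ))) ^ n * (3 * γ) ^ n = (3 * w) ^ n := by
    rw [← mul_pow]
    congr 1
    field_simp
  rw [← h5, ENNReal.ofReal_mul (by positivity), mul_assoc] at h4
  refine (ENNReal.mul_le_mul_iff_right ?_ ENNReal.ofReal_ne_top).1 h4
  rw [ne_eq, ENNReal.ofReal_eq_zero, not_le]
  positivity

/-- **The multilinear Kakeya estimate for tubes close to the coordinate directions.** -/
theorem axis (J : Finset I) (hJ : 2 ≤ J.card) {ι : Type} (P : I → Finset ι) (c : ι → ℝ≥0∞)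
    (b u : I → ι → I → ℝ) (γ : ℝ) (hγ : 0 < γ) (hγ2 : γ ≤ 1 / 2)
    (hu : ∀ j i l, l ≠ j → |u j i l| ≤ γ) (z : I → ℝ) (M : ℕ) :
    ∀ (w S : ℝ), 0 < w → 0 ≤ S →
    ∫⁻ y in closedBall z S, mprod J P c b u w y ≤
      ENNReal.ofReal ((3 * γ) ^ (Fintype.card I * M) *
        (2 * (S + ((2 / γ) ^ M - 1) * w)) ^ Fintype.card I) *
        ∏ j ∈ J, (∑ i ∈ P j, c i) ^ ((1 : ℝ) / ((J.card : ℝ) - 1)) := by
  have hk2 : (2 : ℝ) ≤ J.card := by exact_mod_cast hJ
  have hp0 : (0 : ℝ) < (1 : ℝ) / ((J.card : ℝ) - 1) := by
    have : (0 : ℝ) < (J.card : ℝ) - 1 := by linarith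
    positivity
  have h2γ : 1 ≤ 2 / γ := by
    rw [le_div_iff₀ hγ]
    linarith
  induction M with
  | zero =>
    intro w S hw hS
    rw [pow_zero, sub_self, zero_mul, add_zero, Nat.mul_zero, pow_zero, one_mul, mul_comm,
      ← Real.volume_pi_closedBall z hS, ← setLIntegral_const]
    refine lintegral_mono fun y => ?_
    unfold mprod
    refine Finset.prod_le_prod' fun j hj => ENNReal.rpow_le_rpow ?_ hp0.le
    refine Finset.sum_le_sum fun i _ => ?_
    calc c i * (tub j (b j i) (u j i) w).indicator (fun _ => (1 : ℝ≥0∞)) y ≤ c i * 1 := by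
          gcongr
          exact Set.indicator_le_self' (fun _ _ => zero_le_one) y
      _ = c i := mul_one _
  | succ M ih =>
    intro w S hw hS
    refine (axis_step J hJ P c b u w γ hw hγ hγ2 hu z S).trans ?_
    have h1 := ih (2 / γ * w) (S + w / (2 * γ)) (by positivity) (by positivity)
    refine (mul_le_mul_right h1 _).trans ?_
    have h2M : 1 ≤ (2 / γ) ^ M := one_le_pow₀ h2γ
    have h3 : S + w / (2 * γ) + ((2 / γ) ^ M - 1) * (2 / γ * w) ≤
        S + ((2 / γ) ^ (M + 1) - 1) * w := by
      have e1 : w / (2 * γ) = (2 / γ * w) / 4 := by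
        field_simp
        ring
      rw [e1, pow_succ]
      have : w ≤ 3 / 4 * (2 / γ * w) := by
        have h5 : 2 ≤ 1 / γ := by
          rw [le_div_iff₀ hγ]
          linarith
        have h6 : 2 / γ * w = 2 * (1 / γ) * w := by ring
        rw [h6]
        nlinarith
      nlinarith
    have h4 : 0 ≤ S + w / (2 * γ) + ((2 / γ) ^ M - 1) * (2 / γ * w) := by
      have : 0 ≤ ((2 / γ) ^ M - 1) * (2 / γ * w) := by
        apply mul_nonneg
        · linarith
        · positivity
      positivity
    rw [← mul_assoc, ← ENNReal.ofReal_mul (by positivity)]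
    refine mul_le_mul_left ?_ _
    refine ENNReal.ofReal_le_ofReal ?_
    calc (3 * γ) ^ Fintype.card I * ((3 * γ) ^ (Fintype.card I * M) *
          (2 * (S + w / (2 * γ) + ((2 / γ) ^ M - 1) * (2 / γ * w))) ^ Fintype.card I)
        = (3 * γ) ^ (Fintype.card I * (M + 1)) *
          (2 * (S + w / (2 * γ) + ((2 / γ) ^ M - 1) * (2 / γ * w))) ^ Fintype.card I := by
          rw [← mul_assoc, ← pow_add, show Fintype.card I + Fintype.card I * M =
            Fintype.card I * (M + 1) by ring]
      _ ≤ (3 * γ) ^ (Fintype.card I * (M + 1)) *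
          (2 * (S + ((2 / γ) ^ (M + 1) - 1) * w)) ^ Fintype.card I := by
          gcongr

end Axis

end Pool.Agent.H565.MK
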