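import Pool.Agent.H565.MK.Greedy
set_option autoImplicit false

/-!
# The broad–narrow inequality at a point
-/

namespace Pool.Agent.H565.MK
open Finset
open scoped ENNReal

theorem sum_rpow_le {α : Type*} (s : Finset α) (f : α → ℝ≥0∞) {q : ℝ} (hq : 1 ≤ q) :
    ∑ i ∈ s, f i ^ q ≤ (∑ i ∈ s, f i) ^ q := by
  classical
  induction s using Finset.induction_on with
  | empty => simp
  | insert a s ha ih =>
    rw [Finset.sum_insert ha, Finset.sum_insert ha]
    exact (add_le_add_right ih _).trans (ENNReal.add_rpow_le_rpow_add _ _ hq)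

section Cells

variable {F : Type*} [NormedAddCommGroup F] [InnerProductSpace ℝ F] [FiniteDimensional ℝ F]
variable {ι : Type} {G : Type} [DecidableEq G]

open Classical in
/-- **Broad–narrow dichotomy** for a finite family of weighted vectors. -/
theorem bn (s : Finset ι) (c : ι → ℝ≥0∞) (hc : ∀ i, c i ≠ ∞) (e : ι → F) (g : ι → G) (N : ℕ)
    (hN : 1 ≤ N) (hg : (s.image g).card ≤ N) (h : ℝ) (hh : 0 < h) (k : ℕ) (hk : 1 ≤ k) :
    (∃ V : Submodule ℝ F, Module.finrank ℝ V < k ∧
      ∑ i ∈ s, c i ≤ 2 * ∑ i ∈ s.filter (fun i => Metric.infDist (e i) V ≤ h), c i) ∨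
    (∃ t : Fin k → ι, (∀ j, t j ∈ s) ∧
      (∀ (lam : Fin k → ℝ) (j : Fin k), h / 2 ^ k * |lam j| ≤ ‖∑ l, lam l • e (t l)‖) ∧
      ∀ j, ∑ i ∈ s, c i ≤ 2 * N * ∑ i ∈ s.filter (fun i => g i = g (t j)), c i) := by
  set W : ℝ≥0∞ := ∑ i ∈ s, c i with hW
  have hWt : W ≠ ∞ := by
    rw [hW, ENNReal.sum_ne_top]
    exact fun i _ => hc i
  have hN0 : (2 * (N : ℝ≥0∞)) ≠ 0 := by
    simp only [ne_eq, mul_eq_zero, OfNat.ofNat_ne_zero, Nat.cast_eq_zero, false_or]
    omega
  have hNt : (2 * (N : ℝ≥0∞)) ≠ ∞ := ENNReal.mul_ne_top (by simp) (by simp)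
  set H : Finset ι := s.filter (fun i => W ≤ 2 * N * ∑ i' ∈ s.filter (fun i' => g i' = g i), c i')
    with hH
  set L : Finset ι := s.filter (fun i => ¬ W ≤ 2 * N * ∑ i' ∈ s.filter (fun i' => g i' = g i), c i')
    with hL
  have hsplit : W = ∑ i ∈ H, c i + ∑ i ∈ L, c i := by
    rw [hW, hH, hL, Finset.sum_filter_add_sum_filter_not]
  have hLle : ∑ i ∈ L, c i ≤ W / 2 := by
    have h1 : ∑ i ∈ L, c i = ∑ σ ∈ L.image g, ∑ i ∈ L.filter (fun i => g i = σ), c i :=
      (Finset.sum_fiberwise_of_maps_to (fun i hi => Finset.mem_image_of_mem g hi) c).symm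
    rw [h1]
    have h2 : ∀ σ ∈ L.image g, ∑ i ∈ L.filter (fun i => g i = σ), c i ≤ W / (2 * N) := by
      intro σ hσ
      obtain ⟨i, hi, rfl⟩ := Finset.mem_image.1 hσ
      rw [hL, Finset.mem_filter] at hi
      have h3 := hi.2
      push Not at h3
      rw [ENNReal.le_div_iff_mul_le (Or.inl hN0) (Or.inl hNt), mul_comm]
      refine le_trans ?_ h3.le
      gcongr
      exact Finset.filter_subset _ _
    refine (Finset.sum_le_sum h2).trans ?_
    rw [Finset.sum_const, nsmul_eq_mul]
    have h4 : ((L.image g).card : ℝ≥0∞) ≤ N := by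
      have : (L.image g).card ≤ N :=
        (Finset.card_le_card (Finset.image_subset_image (Finset.filter_subset _ _))).trans hg
      exact_mod_cast this
    calc ((L.image g).card : ℝ≥0∞) * (W / (2 * N)) ≤ N * (W / (2 * N)) := by gcongr
      _ = W / 2 := by
        have hN0' : (N : ℝ≥0∞) ≠ 0 := by
          simp only [ne_eq, Nat.cast_eq_zero]
          omega
        rw [ENNReal.div_eq_inv_mul, ENNReal.mul_inv (Or.inl (by simp)) (Or.inl (by simp)),
          ENNReal.div_eq_inv_mul, ← mul_assoc, ← mul_assoc, mul_comm (N : ℝ≥0∞), mul_assoc (2⁻¹),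
          ENNReal.mul_inv_cancel hN0' (by simp), mul_one]
  have hHge : W ≤ 2 * ∑ i ∈ H, c i := by
    have h1 : W ≤ ∑ i ∈ H, c i + W / 2 := by
      calc W = ∑ i ∈ H, c i + ∑ i ∈ L, c i := hsplit
        _ ≤ _ := by gcongr
    have h2 : W / 2 ≤ ∑ i ∈ H, c i := by
      have h3 : W / 2 + W / 2 ≤ ∑ i ∈ H, c i + W / 2 := by rwa [ENNReal.add_halves]
      exact (ENNReal.add_le_add_iff_right (ENNReal.div_ne_top hWt (by simp))).1 h3
    rw [ENNReal.div_le_iff' (by simp) (by simp)] at h2
    exact h2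
  have hHs : H ⊆ s := Finset.filter_subset _ _
  by_cases hHe : H = ∅
  · left
    refine ⟨⊥, by rw [finrank_bot]; omega, ?_⟩
    rw [hHe, Finset.sum_empty, mul_zero] at hHge
    exact hHge.trans (by simp)
  · rcases greedy (H.image e) ((Finset.nonempty_iff_ne_empty.2 hHe).image e) h hh k with
      ⟨V, hV, hd⟩ | ⟨e', he', htr⟩
    · left
      refine ⟨V, hV, hHge.trans ?_⟩
      gcongr
      intro i hi
      rw [Finset.mem_filter]
      exact ⟨hHs hi, hd _ (Finset.mem_image_of_mem e hi)⟩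
    · right
      have h1 : ∀ j, ∃ i ∈ H, e i = e' j := fun j => Finset.mem_image.1 (he' j)
      choose t ht hte using h1
      refine ⟨t, fun j => hHs (ht j), ?_, ?_⟩
      · intro lam j
        have := htr lam j
        simpa only [hte] using this
      · intro j
        exact (Finset.mem_filter.1 (ht j)).2

variable [Fintype ι]

open Classical in
/-- The `k`-tuples of classes of level `m + 2` inside the class `τ` of level `m` which contain a
transversal `k`-tuple of vectors. -/
noncomputable def adm (cell : ℕ → ι → G) (e : ι → F) (h : ℕ → ℝ) (k m : ℕ) (τ : G) :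
    Finset (Fin k → G) :=
  (Fintype.piFinset (fun _ : Fin k =>
    (univ.filter (fun i => cell m i = τ)).image (cell (m + 2)))).filter
    (fun σ => ∃ t : Fin k → ι, (∀ j, cell m (t j) = τ ∧ cell (m + 2) (t j) = σ j) ∧
      ∀ (lam : Fin k → ℝ) (j : Fin k), h m / 2 ^ k * |lam j| ≤ ‖∑ l, lam l • e (t l)‖)

/-- The sum over the classes of level `m`. -/
noncomputable def Ph (cell : ℕ → ι → G) (c : ι → ℝ≥0∞) (q : ℝ) (S : Finset ι) (m : ℕ) : ℝ≥0∞ :=
  ∑ τ ∈ univ.image (cell m), (∑ i ∈ S.filter (fun i => cell m i = τ), c i) ^ q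

/-- The transversal part. -/
noncomputable def Br (cell : ℕ → ι → G) (e : ι → F) (h : ℕ → ℝ) (k : ℕ) (c : ι → ℝ≥0∞) (p : ℝ)
    (S : Finset ι) (m : ℕ) : ℝ≥0∞ :=
  ∑ τ ∈ univ.image (cell m), ∑ σ ∈ adm cell e h k m τ,
    ∏ j, (∑ i ∈ S.filter (fun i => cell m i = τ ∧ cell (m + 2) i = σ j), c i) ^ p

open Classical in
theorem level (cell : ℕ → ι → G) (e : ι → F) (h : ℕ → ℝ) (k : ℕ) (hk : 2 ≤ k) (c : ι → ℝ≥0∞)
    (hc : ∀ i, c i ≠ ∞) (N N₁ : ℕ) (hN : 1 ≤ N) (m : ℕ) (hh : 0 < h m)
    (hcard : ∀ τ, ((univ.filter (fun i => cell m i = τ)).image (cell (m + 2))).card ≤ N)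
    (S : Finset ι) (Fl : ℝ≥0∞)
    (hFlat : ∀ (τ : G) (V : Submodule ℝ F), Module.finrank ℝ V < k →
      ∑ i ∈ S.filter (fun i => cell m i = τ), c i ≤
        2 * ∑ i ∈ (S.filter (fun i => cell m i = τ)).filter
          (fun i => Metric.infDist (e i) V ≤ h m), c i →
      (((S.filter (fun i => cell m i = τ)).filter
          (fun i => Metric.infDist (e i) V ≤ h m)).image (cell (m + 1))).card ≤ N₁ ∨
      ∑ i ∈ S.filter (fun i => cell m i = τ), c i ≤ Fl) :
    Ph cell c (1 + 1 / ((k : ℝ) - 1)) S m ≤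
      (2 * N) ^ (1 + 1 / ((k : ℝ) - 1)) * Br cell e h k c (1 / ((k : ℝ) - 1)) S m +
      (∑ i ∈ S, c i) * Fl ^ (1 / ((k : ℝ) - 1)) +
      2 ^ (1 + 1 / ((k : ℝ) - 1)) * (N₁ : ℝ≥0∞) ^ (1 / ((k : ℝ) - 1)) *
        Ph cell c (1 + 1 / ((k : ℝ) - 1)) S (m + 1) := by
  have hk2 : (2 : ℝ) ≤ k := by exact_mod_cast hk
  have hk1 : (0 : ℝ) < (k : ℝ) - 1 := by linarith
  have hp0 : (0 : ℝ) < 1 / ((k : ℝ) - 1) := by positivity
  have hpk' : (k : ℝ) * (1 / ((k : ℝ) - 1)) = 1 + 1 / ((k : ℝ) - 1) := by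
    field_simp
    ring
  generalize hp : 1 / ((k : ℝ) - 1) = p at hp0 hpk' ⊢
  have hpk : p * (k : ℝ) = 1 + p := by rw [mul_comm]; exact hpk'
  set q : ℝ := 1 + p with hq
  have hq1 : 1 ≤ q := by linarith
  have hq0 : 0 ≤ q := by linarith
  -- the inequality for one class
  have key : ∀ τ, (∑ i ∈ S.filter (fun i => cell m i = τ), c i) ^ q ≤
      (2 * N) ^ q * ∑ σ ∈ adm cell e h k m τ,
        ∏ j, (∑ i ∈ S.filter (fun i => cell m i = τ ∧ cell (m + 2) i = σ j), c i) ^ p +
      (∑ i ∈ S.filter (fun i => cell m i = τ), c i) * Fl ^ p +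
      2 ^ q * (N₁ : ℝ≥0∞) ^ p * ∑ σ ∈ univ.image (cell (m + 1)),
        (∑ i ∈ (S.filter (fun i => cell m i = τ)).filter (fun i => cell (m + 1) i = σ), c i) ^ q := by
    intro τ
    set s : Finset ι := S.filter (fun i => cell m i = τ) with hs
    have hsub : (s.image (cell (m + 2))).card ≤ N := by
      refine (Finset.card_le_card (Finset.image_subset_image ?_)).trans (hcard τ)
      intro i hi
      rw [hs, Finset.mem_filter] at hi
      exact Finset.mem_filter.2 ⟨Finset.mem_univ _, hi.2⟩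
    rcases bn s c hc e (cell (m + 2)) N hN hsub (h m) hh k (by omega) with
      ⟨V, hV, hW⟩ | ⟨t, hts, htr, hW⟩
    · set P : Finset ι := s.filter (fun i => Metric.infDist (e i) V ≤ h m) with hP
      have hPs : P ⊆ s := Finset.filter_subset _ _
      rcases hFlat τ V hV hW with hcP | h2
      swap
      · have h3 : (∑ i ∈ s, c i) ^ q ≤ (∑ i ∈ s, c i) * Fl ^ p := by
          calc (∑ i ∈ s, c i) ^ q = (∑ i ∈ s, c i) * (∑ i ∈ s, c i) ^ p := by
                rw [hq, ENNReal.rpow_add_of_nonneg _ _ zero_le_one hp0.le, ENNReal.rpow_one]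
            _ ≤ (∑ i ∈ s, c i) * Fl ^ p := by gcongr
        refine h3.trans ?_
        rw [add_assoc, add_comm]
        refine le_trans ?_ le_self_add
        exact le_self_add
      · have h1 : ∑ i ∈ P, c i ≤ ∑ σ ∈ P.image (cell (m + 1)),
            ∑ i ∈ s.filter (fun i => cell (m + 1) i = σ), c i := by
          rw [← Finset.sum_fiberwise_of_maps_to
            (fun i hi => Finset.mem_image_of_mem (cell (m + 1)) hi) c]
          gcongr
        have h2 : (∑ i ∈ s, c i) ^ q ≤ 2 ^ q * (N₁ : ℝ≥0∞) ^ p *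
            ∑ σ ∈ univ.image (cell (m + 1)),
              (∑ i ∈ s.filter (fun i => cell (m + 1) i = σ), c i) ^ q := by
          calc (∑ i ∈ s, c i) ^ q ≤ (2 * ∑ σ ∈ P.image (cell (m + 1)),
                ∑ i ∈ s.filter (fun i => cell (m + 1) i = σ), c i) ^ q := by
                gcongr
                exact hW.trans (by gcongr)
            _ = 2 ^ q * (∑ σ ∈ P.image (cell (m + 1)),
                ∑ i ∈ s.filter (fun i => cell (m + 1) i = σ), c i) ^ q :=
                ENNReal.mul_rpow_of_nonneg _ _ hq0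
            _ ≤ 2 ^ q * (((P.image (cell (m + 1))).card : ℝ≥0∞) ^ (q - 1) *
                ∑ σ ∈ P.image (cell (m + 1)),
                (∑ i ∈ s.filter (fun i => cell (m + 1) i = σ), c i) ^ q) := by
                gcongr
                exact ENNReal.rpow_sum_le_const_mul_sum_rpow _ _ hq1
            _ ≤ 2 ^ q * ((N₁ : ℝ≥0∞) ^ p * ∑ σ ∈ univ.image (cell (m + 1)),
                (∑ i ∈ s.filter (fun i => cell (m + 1) i = σ), c i) ^ q) := by
                have e1 : q - 1 = p := by rw [hq]; ring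
                rw [e1]
                gcongr
                exact Finset.subset_univ P
            _ = _ := by ring
        exact h2.trans le_add_self
    · set σ : Fin k → G := fun j => cell (m + 2) (t j) with hσ
      have hτ : ∀ j, cell m (t j) = τ := fun j => by
        have := hts j
        rw [hs, Finset.mem_filter] at this
        exact this.2
      have hσa : σ ∈ adm cell e h k m τ := by
        unfold adm
        rw [Finset.mem_filter, Fintype.mem_piFinset]
        refine ⟨fun j => ?_, t, fun j => ⟨hτ j, rfl⟩, htr⟩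
        exact Finset.mem_image_of_mem _ (Finset.mem_filter.2 ⟨Finset.mem_univ _, hτ j⟩)
      have h1 : (∑ i ∈ s, c i) ^ q ≤ (2 * N) ^ q *
          ∏ j, (∑ i ∈ S.filter (fun i => cell m i = τ ∧ cell (m + 2) i = σ j), c i) ^ p := by
        calc (∑ i ∈ s, c i) ^ q = ∏ _j : Fin k, (∑ i ∈ s, c i) ^ p := by
              rw [Finset.prod_const, Finset.card_univ, Fintype.card_fin, ← ENNReal.rpow_natCast,
                ← ENNReal.rpow_mul, hpk]
          _ ≤ ∏ j : Fin k, (2 * N * ∑ i ∈ s.filter (fun i => cell (m + 2) i = cell (m + 2) (t j)),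
                c i) ^ p := Finset.prod_le_prod' fun j _ => ENNReal.rpow_le_rpow (hW j) hp0.le
          _ = (2 * N) ^ q * ∏ j : Fin k, (∑ i ∈ s.filter (fun i => cell (m + 2) i =
                cell (m + 2) (t j)), c i) ^ p := by
              simp only [ENNReal.mul_rpow_of_nonneg _ _ hp0.le]
              rw [Finset.prod_mul_distrib, Finset.prod_const, Finset.card_univ, Fintype.card_fin,
                ← ENNReal.mul_rpow_of_nonneg _ _ hp0.le, ← ENNReal.rpow_natCast,
                ← ENNReal.rpow_mul, hpk]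
          _ = _ := by
              simp only [hs, hσ, Finset.filter_filter]
      refine h1.trans ?_
      rw [add_assoc]
      refine le_trans ?_ le_self_add
      gcongr
      exact Finset.single_le_sum (f := fun σ : Fin k → G => ∏ j, (∑ i ∈ S.filter
        (fun i => cell m i = τ ∧ cell (m + 2) i = σ j), c i) ^ p) (fun _ _ => zero_le) hσa
  calc Ph cell c q S m ≤ ∑ τ ∈ univ.image (cell m), ((2 * N) ^ q * ∑ σ ∈ adm cell e h k m τ,
        ∏ j, (∑ i ∈ S.filter (fun i => cell m i = τ ∧ cell (m + 2) i = σ j), c i) ^ p +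
      (∑ i ∈ S.filter (fun i => cell m i = τ), c i) * Fl ^ p +
      2 ^ q * (N₁ : ℝ≥0∞) ^ p * ∑ σ ∈ univ.image (cell (m + 1)),
        (∑ i ∈ (S.filter (fun i => cell m i = τ)).filter (fun i => cell (m + 1) i = σ), c i) ^ q) :=
        Finset.sum_le_sum fun τ _ => key τ
    _ = (2 * N) ^ q * Br cell e h k c p S m +
        (∑ τ ∈ univ.image (cell m), ∑ i ∈ S.filter (fun i => cell m i = τ), c i) * Fl ^ p +
        2 ^ q * (N₁ : ℝ≥0∞) ^ p * ∑ τ ∈ univ.image (cell m), ∑ σ ∈ univ.image (cell (m + 1)),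
        (∑ i ∈ (S.filter (fun i => cell m i = τ)).filter (fun i => cell (m + 1) i = σ), c i) ^ q := by
        rw [Finset.sum_add_distrib, Finset.sum_add_distrib, ← Finset.mul_sum, ← Finset.mul_sum,
          ← Finset.sum_mul]
        rfl
    _ ≤ _ := by
        gcongr
        · exact le_of_eq (Finset.sum_fiberwise_of_maps_to
            (fun i _ => Finset.mem_image_of_mem (cell m) (Finset.mem_univ i)) c)
        · rw [Finset.sum_comm]
          unfold Ph
          refine Finset.sum_le_sum fun σ _ => ?_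
          refine (sum_rpow_le _ _ hq1).trans ?_
          gcongr
          rw [← Finset.sum_fiberwise_of_maps_to (s := S.filter (fun i => cell (m + 1) i = σ))
            (t := univ.image (cell m)) (g := cell m)
            (fun i _ => Finset.mem_image_of_mem (cell m) (Finset.mem_univ i)) c]
          refine le_of_eq (Finset.sum_congr rfl fun τ _ => ?_)
          rw [Finset.filter_comm]

end Cells

end Pool.Agent.H565.MK
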