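import Pool.Agent.H565.MK.Fam
set_option autoImplicit false

/-!
# Consequences of the multiscale inequality
-/

namespace Pool.Agent.H565.MK
open MeasureTheory Finset Metric
open scoped ENNReal

section Cor

variable {n : ℕ} {ι : Type}

/-- At all points the directions near subspaces of dimension `< k` have dimension at most `β`. -/
def Spread (k : ℕ) (β B δ : ℝ) (a e : ι → E n) : Prop :=
  ∀ (x y : E n) (V : Submodule ℝ (E n)), Module.finrank ℝ V < k → ∀ r ρ : ℝ, δ ≤ r → r ≤ ρ →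
    Covered e {i | x ∈ tube δ (a i) (e i) ∧ ‖e i - y‖ ≤ ρ ∧ infDist (e i) V ≤ r} r
      (B * (ρ / r) ^ β)

theorem flatMult_eq_zero {k K : ℕ} (hn : 1 ≤ n) (hK : 1 ≤ K) {β B δ : ℝ} (hβ : 0 ≤ β) (hB : 0 ≤ B)
    (a e : ι → E n) (h : Spread k β B δ a e) (x : E n) :
    flatMult k K (B * √n ^ β * (K : ℝ) ^ β) δ a e x = 0 := by
  have hK1 : (1 : ℝ) ≤ K := by exact_mod_cast hK
  have hK0 : (0 : ℝ) < K := by linarith
  have hsn : 1 ≤ √(n : ℝ) := by
    rw [Real.one_le_sqrt]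
    exact_mod_cast hn
  unfold flatMult
  simp only [ENNReal.iSup_eq_zero]
  intro y m hδ hf
  exfalso
  obtain ⟨V, hV, _, hnc⟩ := hf
  apply hnc
  by_cases hne : ∃ i₀, i₀ ∈ near e (bush δ a e x y (1 / (K : ℝ) ^ m)) V (1 / (K : ℝ) ^ (m + 1))
  · obtain ⟨i₀, hi₀⟩ := hne
    have hle : 1 / (K : ℝ) ^ (m + 1) ≤ √n * (1 / (K : ℝ) ^ m) := by
      have h1 : 1 / (K : ℝ) ^ (m + 1) ≤ 1 / (K : ℝ) ^ m := by
        apply one_div_le_one_div_of_le (by positivity)
        exact pow_le_pow_right₀ hK1 (by omega)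
      have h2 : 0 < 1 / (K : ℝ) ^ m := by positivity
      nlinarith
    obtain ⟨Z, hZ, hZ2⟩ := h x (e i₀) V hV (1 / (K : ℝ) ^ (m + 1)) (√n * (1 / (K : ℝ) ^ m)) hδ hle
    refine ⟨Z, hZ.trans (le_of_eq ?_), fun i hi => hZ2 i ⟨hi.1.1, ?_, hi.2⟩⟩
    · have e1 : √n * (1 / (K : ℝ) ^ m) / (1 / (K : ℝ) ^ (m + 1)) = √n * K := by
        rw [pow_succ]
        field_simp
      rw [e1, Real.mul_rpow (by positivity) hK0.le]
      ring
    · refine norm_le_of_coord _ _ (by positivity) fun l => ?_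
      have h3 := hi.1.2 l
      have h4 := hi₀.1.2 l
      rw [PiLp.sub_apply, abs_le]
      constructor <;> linarith [h3.1, h3.2, h4.1, h4.2]
  · refine ⟨∅, by simp; positivity, fun i hi => absurd ⟨i, hi⟩ hne⟩

/-- The loss for the best value of `K`. -/
theorem best_K (C : ℝ) (hC : 1 ≤ C) : ∃ C' : ℝ, 1 ≤ C' ∧ ∀ δ : ℝ, 0 < δ → δ ≤ 1 →
    ∃ K : ℕ, C ≤ K ∧ (K : ℝ) ^ C * C ^ (Real.log (1 / δ) / Real.log K) ≤
      C' * Real.exp (C' * √(Real.log (1 / δ))) := by
  have hlC : 0 ≤ Real.log C := Real.log_nonneg hC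
  have h3C : 1 ≤ (C + 3) ^ C := Real.one_le_rpow (by linarith) (by linarith)
  refine ⟨(C + 3) ^ C + (C + Real.log C), by linarith, ?_⟩
  intro δ hδ hδ1
  have hv1 : 1 ≤ 1 / δ := by rw [le_div_iff₀ hδ]; linarith
  have hlv : 0 ≤ Real.log (1 / δ) := Real.log_nonneg hv1
  obtain ⟨s, hs⟩ : ∃ s, s = √(Real.log (1 / δ)) := ⟨_, rfl⟩
  have hs0 : 0 ≤ s := by rw [hs]; positivity
  have hss : Real.log (1 / δ) = s * s := by rw [hs, Real.mul_self_sqrt hlv]
  rw [← hs, hss]
  refine ⟨max ⌈C⌉₊ (max 3 ⌈Real.exp s⌉₊), ?_, ?_⟩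
  · exact (Nat.le_ceil C).trans (by exact_mod_cast le_max_left _ _)
  · obtain ⟨K, hK⟩ : ∃ K : ℕ, K = max ⌈C⌉₊ (max 3 ⌈Real.exp s⌉₊) := ⟨_, rfl⟩
    rw [← hK]
    have hes : 1 ≤ Real.exp s := Real.one_le_exp hs0
    have hK3 : (3 : ℝ) ≤ K := by
      rw [hK]
      exact_mod_cast (le_max_left _ _).trans (le_max_right _ _)
    have hKs : Real.exp s ≤ K := by
      refine (Nat.le_ceil _).trans ?_
      rw [hK]
      exact_mod_cast (le_max_right _ _).trans (le_max_right _ _)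
    have hKle : (K : ℝ) ≤ (C + 3) * Real.exp s := by
      rw [hK]
      push_cast
      refine max_le ?_ (max_le ?_ ?_)
      · have := (Nat.ceil_lt_add_one (by linarith : 0 ≤ C)).le
        nlinarith
      · nlinarith
      · have := (Nat.ceil_lt_add_one (by linarith : 0 ≤ Real.exp s)).le
        nlinarith
    have hlK : s ≤ Real.log K := by
      rw [Real.le_log_iff_exp_le (by linarith)]
      exact hKs
    have hlK0 : 0 < Real.log K := Real.log_pos (by linarith)
    have hX : s * s / Real.log K ≤ s := by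
      rw [div_le_iff₀ hlK0]
      nlinarith
    have hC0 : 0 < C := by linarith
    calc (K : ℝ) ^ C * C ^ (s * s / Real.log K) ≤ ((C + 3) * Real.exp s) ^ C * C ^ s := by
          refine mul_le_mul (Real.rpow_le_rpow (by linarith) hKle (by linarith))
            (Real.rpow_le_rpow_of_exponent_le hC hX) (by positivity) (by positivity)
      _ = (C + 3) ^ C * Real.exp ((C + Real.log C) * s) := by
          rw [Real.mul_rpow (by linarith) (by positivity), ← Real.exp_mul,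
            Real.rpow_def_of_pos hC0 s, mul_assoc, ← Real.exp_add]
          congr 2
          ring
      _ ≤ ((C + 3) ^ C + (C + Real.log C)) *
          Real.exp (((C + 3) ^ C + (C + Real.log C)) * s) := by
          have h5 : 0 ≤ C + Real.log C := by linarith
          refine mul_le_mul (by linarith) (Real.exp_le_exp.2
            (mul_le_mul_of_nonneg_right (by linarith) hs0)) (Real.exp_pos _).le (by linarith)

theorem mult_ne_top [Fintype ι] (δ : ℝ) (a e : ι → E n) (x : E n) : mult δ a e x ≤ Fintype.card ι := by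
  unfold mult
  calc ∑ i, (tube δ (a i) (e i)).indicator (fun _ => (1 : ℝ≥0∞)) x ≤ ∑ _i : ι, (1 : ℝ≥0∞) := by
        gcongr with i _
        exact Set.indicator_le_self' (fun _ _ => zero_le_one) x
    _ = Fintype.card ι := by simp

theorem measurable_mult [Fintype ι] (δ : ℝ) (a e : ι → E n) : Measurable (mult δ a e) := by
  unfold mult
  exact Finset.measurable_fun_sum _ fun i _ =>
    measurable_const.indicator (measurableSet_tube _ _ _)

theorem int_mult [Fintype ι] (δ : ℝ) (a e : ι → E n) :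
    ∫⁻ x, mult δ a e x = ∑ i, volume (tube δ (a i) (e i)) := by
  unfold mult
  rw [lintegral_finsetSum]
  · refine Finset.sum_congr rfl fun i _ => ?_
    rw [lintegral_indicator_const (measurableSet_tube _ _ _), one_mul]
  · exact fun i _ => measurable_const.indicator (measurableSet_tube _ _ _)

/-- Larger exponents. -/
theorem larger_exp [Fintype ι] (δ : ℝ) (a e : ι → E n) {q₀ q : ℝ} (hq0 : 0 < q₀) (hq : q₀ ≤ q) :
    ∫⁻ x, mult δ a e x ^ q ≤
      (Fintype.card ι : ℝ≥0∞) ^ (q - q₀) * ∫⁻ x, mult δ a e x ^ q₀ := by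
  rw [← lintegral_const_mul _ ((measurable_mult δ a e).pow_const _)]
  refine lintegral_mono fun x => ?_
  have h1 : mult δ a e x ^ q = mult δ a e x ^ (q - q₀) * mult δ a e x ^ q₀ := by
    rw [← ENNReal.rpow_add_of_nonneg _ _ (by linarith) hq0.le]
    congr 1
    ring
  rw [h1]
  exact mul_le_mul_left (ENNReal.rpow_le_rpow (mult_ne_top δ a e x) (sub_nonneg.2 hq)) _

theorem int_pow_lt_top [Fintype ι] (hn : 1 ≤ n) {δ : ℝ} (hδ : 0 < δ) (hδ1 : δ ≤ 1) (a e : ι → E n)
    (he : ∀ i, ‖e i‖ = 1) {q : ℝ} (hq : 1 ≤ q) : ∫⁻ x, mult δ a e x ^ q < ∞ := by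
  refine (larger_exp δ a e one_pos hq).trans_lt ?_
  simp only [ENNReal.rpow_one]
  rw [int_mult]
  refine ENNReal.mul_lt_top (ENNReal.rpow_lt_top_of_nonneg (by linarith) (by simp)) ?_
  rw [ENNReal.sum_lt_top]
  intro i _
  exact (volume_tube hn hδ hδ1 (a i) (e i) (he i)).trans_lt ENNReal.ofReal_lt_top

theorem flatMult_le [Fintype ι] (k K : ℕ) (N δ : ℝ) (a e : ι → E n) (x : E n) :
    flatMult k K N δ a e x ≤ mult δ a e x := by
  classical
  unfold flatMult
  refine iSup_le fun y => iSup_le fun m => iSup_le fun _ => iSup_le fun _ => ?_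
  rw [← sum_thr_one, Finset.sum_const, nsmul_eq_mul, mul_one]
  have h1 : bush δ a e x y (1 / (K : ℝ) ^ m) ⊆ (thr δ a e x : Set ι) := by
    intro i hi
    rw [Finset.mem_coe, mem_thr]
    exact hi.1
  have h2 := Set.ncard_le_ncard h1 (Finset.finite_toSet _)
  rw [Set.ncard_coe_finset] at h2
  exact_mod_cast h2

theorem measurable_flatMult [Fintype ι] (k K : ℕ) (N δ : ℝ) (a e : ι → E n) :
    Measurable (flatMult k K N δ a e) := by
  have h : flatMult k K N δ a e = fun x => flF k K N δ e (thr δ a e x) := by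
    funext x
    exact flatMult_eq k K N δ a e x
  rw [h]
  exact measurable_thr δ a e _

/-- Absorption. -/
theorem absorb {X : Type*} [MeasurableSpace X] (μ : Measure X) {p : ℝ} (hp : 0 < p)
    (f g : X → ℝ≥0∞) (hf : Measurable f) (hg : Measurable g) (L : ℝ) (hL : 1 ≤ L) (D : ℝ≥0∞)
    (hfin : ∫⁻ x, f x ^ (1 + p) ∂μ ≠ ∞)
    (h : ∫⁻ x, f x ^ (1 + p) ∂μ ≤ ENNReal.ofReal L * (D + ∫⁻ x, f x * g x ^ p ∂μ)) :
    ∫⁻ x, f x ^ (1 + p) ∂μ ≤ ENNReal.ofReal ((2 * L) ^ (2 + 1 / p)) *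
      (D + ∫⁻ x, g x ^ (1 + p) ∂μ) := by
  have hL0 : 0 < L := by linarith
  have hpt : ∀ x, ENNReal.ofReal L * (f x * g x ^ p) ≤ 2⁻¹ * f x ^ (1 + p) +
      ENNReal.ofReal ((2 * L) ^ (1 + 1 / p)) * g x ^ (1 + p) := by
    intro x
    have hf1 : f x ^ (1 + p) = f x * f x ^ p := by
      rw [ENNReal.rpow_add_of_nonneg _ _ zero_le_one hp.le, ENNReal.rpow_one]
    have hg1 : g x ^ (1 + p) = g x * g x ^ p := by
      rw [ENNReal.rpow_add_of_nonneg _ _ zero_le_one hp.le, ENNReal.rpow_one]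
    rcases le_total (ENNReal.ofReal (2 * L) * g x ^ p) (f x ^ p) with h1 | h1
    · refine le_trans ?_ le_self_add
      rw [hf1]
      calc ENNReal.ofReal L * (f x * g x ^ p)
          = 2⁻¹ * (f x * (ENNReal.ofReal (2 * L) * g x ^ p)) := by
            rw [ENNReal.ofReal_mul (by norm_num), ENNReal.ofReal_ofNat]
            have : (2⁻¹ : ℝ≥0∞) * 2 = 1 := ENNReal.inv_mul_cancel (by norm_num) (by norm_num)
            calc ENNReal.ofReal L * (f x * g x ^ p) =
                (2⁻¹ * 2) * (ENNReal.ofReal L * (f x * g x ^ p)) := by rw [this, one_mul]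
              _ = _ := by ring
        _ ≤ 2⁻¹ * (f x * f x ^ p) := by gcongr
    · refine le_trans ?_ le_add_self
      have h2 : f x ≤ ENNReal.ofReal ((2 * L) ^ (1 / p)) * g x := by
        have h3 : (f x ^ p) ^ (1 / p) ≤ (ENNReal.ofReal (2 * L) * g x ^ p) ^ (1 / p) :=
          ENNReal.rpow_le_rpow h1 (by positivity)
        rw [← ENNReal.rpow_mul, mul_one_div_cancel hp.ne', ENNReal.rpow_one,
          ENNReal.mul_rpow_of_nonneg _ _ (by positivity), ← ENNReal.rpow_mul,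
          mul_one_div_cancel hp.ne', ENNReal.rpow_one,
          ENNReal.ofReal_rpow_of_nonneg (by positivity) (by positivity)] at h3
        exact h3
      calc ENNReal.ofReal L * (f x * g x ^ p)
          ≤ ENNReal.ofReal (2 * L) * ((ENNReal.ofReal ((2 * L) ^ (1 / p)) * g x) * g x ^ p) := by
            gcongr
            linarith
        _ = ENNReal.ofReal ((2 * L) ^ (1 + 1 / p)) * g x ^ (1 + p) := by
            rw [hg1, Real.rpow_add (by positivity), Real.rpow_one,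
              ENNReal.ofReal_mul (p := 2 * L) (by positivity)]
            simp only [mul_assoc]
  have hint : ENNReal.ofReal L * ∫⁻ x, f x * g x ^ p ∂μ ≤ 2⁻¹ * ∫⁻ x, f x ^ (1 + p) ∂μ +
      ENNReal.ofReal ((2 * L) ^ (1 + 1 / p)) * ∫⁻ x, g x ^ (1 + p) ∂μ := by
    have m1 : Measurable fun x => f x * g x ^ p := hf.mul (hg.pow_const _)
    have m2 : Measurable fun x => f x ^ (1 + p) := hf.pow_const _
    have m3 : Measurable fun x => g x ^ (1 + p) := hg.pow_const _
    have m4 : Measurable fun x => 2⁻¹ * f x ^ (1 + p) := m2.const_mul _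
    rw [← lintegral_const_mul _ m1, ← lintegral_const_mul _ m2, ← lintegral_const_mul _ m3,
      ← lintegral_add_left m4]
    exact lintegral_mono hpt
  obtain ⟨A, hA⟩ : ∃ A, A = ∫⁻ x, f x ^ (1 + p) ∂μ := ⟨_, rfl⟩
  obtain ⟨G, hG⟩ : ∃ G, G = ∫⁻ x, g x ^ (1 + p) ∂μ := ⟨_, rfl⟩
  rw [← hA] at h hint hfin ⊢
  rw [← hG] at hint ⊢
  have h4 : A ≤ (ENNReal.ofReal L * D + ENNReal.ofReal ((2 * L) ^ (1 + 1 / p)) * G) +
      2⁻¹ * A := by
    calc A ≤ ENNReal.ofReal L * D + ENNReal.ofReal L * ∫⁻ x, f x * g x ^ p ∂μ := by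
          rw [← mul_add]
          exact h
      _ ≤ ENNReal.ofReal L * D + (2⁻¹ * A + ENNReal.ofReal ((2 * L) ^ (1 + 1 / p)) * G) := by
          gcongr
      _ = _ := by ring
  have h5 : 2⁻¹ * A ≤ ENNReal.ofReal L * D + ENNReal.ofReal ((2 * L) ^ (1 + 1 / p)) * G := by
    have h6 : 2⁻¹ * A + 2⁻¹ * A = A := by
      rw [← add_mul, ENNReal.inv_two_add_inv_two, one_mul]
    have h7 : 2⁻¹ * A ≠ ∞ := ENNReal.mul_ne_top (by simp) hfin
    have h8 : 2⁻¹ * A + 2⁻¹ * A ≤ (ENNReal.ofReal L * D +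
        ENNReal.ofReal ((2 * L) ^ (1 + 1 / p)) * G) + 2⁻¹ * A := by
      rw [h6]
      exact h4
    exact (ENNReal.add_le_add_iff_right h7).1 h8
  have h9 : A ≤ 2 * (ENNReal.ofReal L * D + ENNReal.ofReal ((2 * L) ^ (1 + 1 / p)) * G) := by
    calc A = 2 * (2⁻¹ * A) := by
          rw [← mul_assoc, ENNReal.mul_inv_cancel (by norm_num) (by norm_num), one_mul]
      _ ≤ _ := by gcongr
  refine h9.trans ?_
  have hLL : L ≤ (2 * L) ^ (1 + 1 / p) := by
    calc L ≤ (2 * L) ^ (1 : ℝ) := by rw [Real.rpow_one]; linarith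
      _ ≤ _ := by
        apply Real.rpow_le_rpow_of_exponent_le (by linarith)
        have : 0 < 1 / p := by positivity
        linarith
  calc 2 * (ENNReal.ofReal L * D + ENNReal.ofReal ((2 * L) ^ (1 + 1 / p)) * G)
      ≤ 2 * (ENNReal.ofReal ((2 * L) ^ (1 + 1 / p)) * D +
        ENNReal.ofReal ((2 * L) ^ (1 + 1 / p)) * G) := by gcongr
    _ = (2 * ENNReal.ofReal ((2 * L) ^ (1 + 1 / p))) * (D + G) := by ring
    _ ≤ ENNReal.ofReal ((2 * L) ^ (2 + 1 / p)) * (D + G) := by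
      refine mul_le_mul_left ?_ _
      have e2 : (2 : ℝ≥0∞) = ENNReal.ofReal 2 := by simp
      rw [e2, ← ENNReal.ofReal_mul (by norm_num)]
      refine ENNReal.ofReal_le_ofReal ?_
      have e3 : (2 * L) ^ (2 + 1 / p) = (2 * L) * (2 * L) ^ (1 + 1 / p) := by
        rw [show (2 : ℝ) + 1 / p = 1 + (1 + 1 / p) by ring, Real.rpow_add (by positivity) 1,
          Real.rpow_one]
      rw [e3]
      exact mul_le_mul_of_nonneg_right (by linarith) (by positivity)

end Cor

end Pool.Agent.H565.MK
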