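import Pool.Agent.H565.MK.Integ
set_option autoImplicit false

/-!
# A constant
-/

namespace Pool.Agent.H565.MK
open MeasureTheory Finset Metric
open scoped ENNReal

section Core

theorem XX_eq {n k K : ℕ} (hn : 1 ≤ n) (hK : 1 ≤ K) (δ : ℝ) (m M' : ℕ) :
    XX n k K δ m M' = (n.factorial : ℝ) * (18 * (K : ℝ) ^ 2) ^ n * (6 ^ M') ^ n *
      (δ ^ n * (K : ℝ) ^ m) := by
  have hK0 : (0 : ℝ) < K := by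
    have : (1 : ℝ) ≤ K := by exact_mod_cast hK
    linarith
  have hsn : 0 < √(n : ℝ) := Real.sqrt_pos.2 (by exact_mod_cast hn)
  obtain ⟨l, rfl⟩ : ∃ l, n = l + 1 := ⟨n - 1, by omega⟩
  unfold XX
  rw [Nat.add_sub_cancel]
  have e1 : 12 * δ / ((2 ^ (k + 1) * √((l + 1 : ℕ) : ℝ) / K) * (1 / (K : ℝ) ^ (m + 1) / 2 ^ k)) =
      6 * K ^ 2 / √((l + 1 : ℕ) : ℝ) * (δ * (K : ℝ) ^ m) := by
    rw [pow_succ, pow_succ]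
    field_simp
    ring
  rw [e1, mul_pow (6 * (K : ℝ) ^ 2 / √((l + 1 : ℕ) : ℝ)),
    div_pow (6 * (K : ℝ) ^ 2) (√((l + 1 : ℕ) : ℝ))]
  have e2 : (1 / (K : ℝ) ^ m) ^ l * (δ * (K : ℝ) ^ m) ^ (l + 1) = δ ^ (l + 1) * (K : ℝ) ^ m := by
    rw [mul_pow, pow_succ ((K : ℝ) ^ m), one_div, inv_pow]
    field_simp
  have e3 : √((l + 1 : ℕ) : ℝ) ^ (l + 1) * ((6 * (K : ℝ) ^ 2) ^ (l + 1) /
      √((l + 1 : ℕ) : ℝ) ^ (l + 1)) = (6 * (K : ℝ) ^ 2) ^ (l + 1) := by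
    field_simp
  calc ((l + 1).factorial : ℝ) * √((l + 1 : ℕ) : ℝ) ^ (l + 1) * (1 / (K : ℝ) ^ m) ^ l *
        (6 ^ M') ^ (l + 1) * ((6 * (K : ℝ) ^ 2) ^ (l + 1) / √((l + 1 : ℕ) : ℝ) ^ (l + 1) *
        (δ * (K : ℝ) ^ m) ^ (l + 1)) * 3 ^ (l + 1)
      = ((l + 1).factorial : ℝ) * (√((l + 1 : ℕ) : ℝ) ^ (l + 1) * ((6 * (K : ℝ) ^ 2) ^ (l + 1) /
        √((l + 1 : ℕ) : ℝ) ^ (l + 1))) * 3 ^ (l + 1) *
        (6 ^ M') ^ (l + 1) * ((1 / (K : ℝ) ^ m) ^ l * (δ * (K : ℝ) ^ m) ^ (l + 1)) := by ring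
    _ = _ := by
      rw [e2, e3, show (18 : ℝ) * (K : ℝ) ^ 2 = 6 * (K : ℝ) ^ 2 * 3 by ring, mul_pow _ (3 : ℝ)]
      ring

end Core

end Pool.Agent.H565.MK
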