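import Pool.Agent.H565.MK.Core
set_option autoImplicit false

/-!
# The multiscale broad–narrow inequality with an explicit dependence on the ratio `K` of the scales
-/

namespace Pool.Agent.H565.MK
open MeasureTheory Finset Metric
open scoped ENNReal

section Core2

/-- The real inequality for the transversal part at the scale `1 / u`. -/
theorem real_bound2 {n : ℕ} (hn : 1 ≤ n) {u v δ α β p lam A s D C : ℝ} (hu : 1 ≤ u) (huv : u ≤ v)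
    (hδ : δ = 1 / v) (hp : 0 < p) (hβ : 0 ≤ β)
    (h1 : α * p - 1 ≤ lam) (h2 : β * p ≤ lam) (hA : 0 ≤ A) (hs : 0 < s) (hD : 0 ≤ D)
    (hC : 0 ≤ C) :
    u ^ (β * p) * (C * D * (δ ^ n * u)) * (A * (s * (v / u)) ^ α) ^ p ≤
      C * D * A ^ p * s ^ (α * p) * v ^ lam * δ ^ (n - 1) := by
  have hu0 : 0 < u := by linarith
  have hv0 : 0 < v := by linarith
  have hv1 : 1 ≤ v := by linarith
  have hw1 : 1 ≤ v / u := by rwa [le_div_iff₀ hu0, one_mul]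
  have hw0 : 0 < v / u := by linarith
  have hlam : 0 ≤ lam := le_trans (by positivity) h2
  have hδ0 : 0 < δ := by rw [hδ]; positivity
  have e1 : (A * (s * (v / u)) ^ α) ^ p = A ^ p * s ^ (α * p) * (v / u) ^ (α * p) := by
    rw [Real.mul_rpow hA (by positivity), ← Real.rpow_mul (by positivity),
      Real.mul_rpow hs.le hw0.le]
    ring
  have e2 : δ ^ n * u * (v / u) ^ (α * p) = δ ^ (n - 1) * (v / u) ^ (α * p - 1) := by
    obtain ⟨l, rfl⟩ : ∃ l, n = l + 1 := ⟨n - 1, by omega⟩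
    rw [Nat.add_sub_cancel, pow_succ, Real.rpow_sub_one hw0.ne', hδ]
    field_simp
  have e3 : (v / u) ^ (α * p - 1) ≤ (v / u) ^ lam := Real.rpow_le_rpow_of_exponent_le hw1 h1
  have e4 : u ^ (β * p) ≤ u ^ lam := Real.rpow_le_rpow_of_exponent_le hu h2
  have e5 : u ^ lam * (v / u) ^ lam = v ^ lam := by
    rw [← Real.mul_rpow hu0.le hw0.le]
    congr 1
    field_simp
  calc u ^ (β * p) * (C * D * (δ ^ n * u)) * (A * (s * (v / u)) ^ α) ^ p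
      = u ^ (β * p) * (C * D) * (A ^ p * s ^ (α * p)) *
        (δ ^ n * u * (v / u) ^ (α * p)) := by rw [e1]; ring
    _ = u ^ (β * p) * (C * D) * (A ^ p * s ^ (α * p)) *
        (δ ^ (n - 1) * (v / u) ^ (α * p - 1)) := by rw [e2]
    _ ≤ u ^ lam * (C * D) * (A ^ p * s ^ (α * p)) *
        (δ ^ (n - 1) * (v / u) ^ lam) := by gcongr
    _ = C * D * A ^ p * s ^ (α * p) * (u ^ lam * (v / u) ^ lam) * δ ^ (n - 1) := by
        ring
    _ = _ := by rw [e5]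

/-- `x ^ m ≤ x ^ (log v / log y)` if `y ^ m ≤ v`. -/
theorem pow_le_log {x y v : ℝ} {m : ℕ} (hx : 1 ≤ x) (hy : 1 < y) (h : y ^ m ≤ v) :
    x ^ m ≤ x ^ (Real.log v / Real.log y) := by
  rw [← Real.rpow_natCast]
  apply Real.rpow_le_rpow_of_exponent_le hx
  rw [le_div_iff₀ (Real.log_pos hy)]
  have h2 := Real.log_le_log (by positivity) h
  rwa [Real.log_pow] at h2

variable {n : ℕ}

/-- The constants. -/
noncomputable def cc5 (n k K : ℕ) (p α A : ℝ) : ℝ :=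
  (2 * ((K ^ 2) ^ n : ℕ)) ^ (1 + p) * (((K ^ 2) ^ n : ℕ) : ℝ) ^ k *
    ((n.factorial : ℝ) * (18 * (K : ℝ) ^ 2) ^ n * A ^ p * √n ^ (α * p))

/-- The constants. -/
noncomputable def cc6 (n K : ℕ) (p α A : ℝ) : ℝ :=
  A ^ p * (√n * K) ^ (α * p) * ((n.factorial : ℝ) * 6 ^ n)

theorem cc5_nonneg (n k K : ℕ) (p α A : ℝ) (hA : 0 ≤ A) : 0 ≤ cc5 n k K p α A := by
  unfold cc5
  positivity

theorem cc6_nonneg (n K : ℕ) (p α A : ℝ) (hA : 0 ≤ A) : 0 ≤ cc6 n K p α A := by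
  unfold cc6
  positivity

theorem cc5_le (n k K : ℕ) (hK : 1 ≤ K) (p α A : ℝ) (hp : 0 < p) (hα : 0 ≤ α) (hA : 0 ≤ A) :
    cc5 n k K p α A ≤ (2 ^ (1 + p) * ((n.factorial : ℝ) * 18 ^ n) * A ^ p * √n ^ (α * p)) *
      (K : ℝ) ^ (2 * n * (1 + p) + 2 * n * k + 2 * n + α * p) := by
  have hK1 : (1 : ℝ) ≤ K := by exact_mod_cast hK
  have hK0 : (0 : ℝ) < K := by linarith
  have hNNr : (((K ^ 2) ^ n : ℕ) : ℝ) = (K : ℝ) ^ (2 * n : ℝ) := by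
    push_cast
    rw [← pow_mul, ← Real.rpow_natCast]
    push_cast
    rfl
  have e2 : ((K : ℝ) ^ 2) ^ n = (K : ℝ) ^ (2 * n : ℝ) := by
    rw [← pow_mul, ← Real.rpow_natCast]
    push_cast
    rfl
  have e1 : cc5 n k K p α A = (2 ^ (1 + p) * ((n.factorial : ℝ) * 18 ^ n) * A ^ p *
      √n ^ (α * p)) * ((K : ℝ) ^ (2 * n * (1 + p)) * (K : ℝ) ^ (2 * n * k : ℝ) *
      (K : ℝ) ^ (2 * n : ℝ)) := by
    unfold cc5
    rw [hNNr, Real.mul_rpow (by norm_num) (by positivity), ← Real.rpow_mul hK0.le,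
      mul_pow (18 : ℝ), ← Real.rpow_natCast ((K : ℝ) ^ (2 * n : ℝ)) k,
      ← Real.rpow_mul hK0.le, e2]
    ring
  rw [e1, ← Real.rpow_add hK0, ← Real.rpow_add hK0]
  refine mul_le_mul_of_nonneg_left ?_ (by positivity)
  apply Real.rpow_le_rpow_of_exponent_le hK1
  have : 0 ≤ α * p := by positivity
  linarith

theorem cc6_le (n k K : ℕ) (hK : 1 ≤ K) (p α A : ℝ) (hp : 0 < p) (hA : 0 ≤ A) :
    cc6 n K p α A ≤ (A ^ p * √n ^ (α * p) * ((n.factorial : ℝ) * 6 ^ n)) *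
      (K : ℝ) ^ (2 * n * (1 + p) + 2 * n * k + 2 * n + α * p) := by
  have hK1 : (1 : ℝ) ≤ K := by exact_mod_cast hK
  have hK0 : (0 : ℝ) < K := by linarith
  have e1 : cc6 n K p α A = (A ^ p * √n ^ (α * p) * ((n.factorial : ℝ) * 6 ^ n)) *
      (K : ℝ) ^ (α * p) := by
    unfold cc6
    rw [Real.mul_rpow (by positivity) hK0.le]
    ring
  rw [e1]
  refine mul_le_mul_of_nonneg_left ?_ (by positivity)
  apply Real.rpow_le_rpow_of_exponent_le hK1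
  have : 0 ≤ 2 * (n : ℝ) * (1 + p) + 2 * n * k + 2 * n := by positivity
  linarith

/-- The transversal part at one level. -/
theorem br_level {k : ℕ} (hk : 2 ≤ k) (hkn : k ≤ n) (α β A lam : ℝ) (hα : 0 ≤ α) (hβ : 0 ≤ β)
    (hA : 0 ≤ A) (hl1 : α * (1 / ((k : ℝ) - 1)) - 1 ≤ lam) (hl2 : β * (1 / ((k : ℝ) - 1)) ≤ lam)
    {K : ℕ} (hK1 : 1 ≤ K) (hKn : 2 ^ (k + 2) * √n ≤ (K : ℝ)) {δ v : ℝ} (hδ : 0 < δ) (hδ1 : δ ≤ 1)
    (hδv : δ = 1 / v) (hv1 : 1 ≤ v) {ι : Type} [Fintype ι] (a e : ι → E n) (he : ∀ i, ‖e i‖ = 1)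
    (c : ι → ℝ≥0∞) (m M' : ℕ) (hm : (K : ℝ) ^ m ≤ v)
    (hM'1 : (2 / (2 ^ (k + 1) * √n / K)) ^ M' ≤ v)
    (hM'2 : v ≤ (2 / (2 ^ (k + 1) * √n / K)) ^ (M' + 1))
    (hcell : ∀ τ, (univ.filter (fun i => cell K e m i = τ)).card ≤
      ⌊A * (√n * (v / (K : ℝ) ^ m)) ^ α⌋₊) (Z : ℝ) (hZ : (((6 : ℝ) ^ M') ^ n) ≤ Z)
    (W R : ℝ) (hR : 0 ≤ R) (L : ℝ≥0∞) (hL : L ≤ ENNReal.ofReal (R * ((K : ℝ) ^ m) ^ (β * (1 / ((k : ℝ) - 1)))))
    (hW : W = R * (Z * cc5 n k K (1 / ((k : ℝ) - 1)) α A) * v ^ lam * δ ^ (n - 1)) :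
    L * ((2 * (((K ^ 2) ^ n : ℕ) : ℝ≥0∞)) ^ (1 + 1 / ((k : ℝ) - 1)) * ∫⁻ x, Br (cell K e) e
      (fun m => 1 / (K : ℝ) ^ (m + 1)) k c (1 / ((k : ℝ) - 1)) (thr δ a e x) m) ≤
      ENNReal.ofReal W * ∑ i, c i ^ (1 + 1 / ((k : ℝ) - 1)) := by
  classical
  have hk2 : (2 : ℝ) ≤ k := by exact_mod_cast hk
  have hk1 : (0 : ℝ) < (k : ℝ) - 1 := by linarith
  have hn1 : 1 ≤ n := by omega
  have hp0 : 0 < 1 / ((k : ℝ) - 1) := by positivity
  have hK1r : (1 : ℝ) ≤ K := by exact_mod_cast hK1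
  have hK0 : (0 : ℝ) < K := by linarith
  have hv0 : 0 < v := by linarith
  have hKm1 : 1 ≤ (K : ℝ) ^ m := one_le_pow₀ hK1r
  have h9 := int_br hk hkn hK1 hKn a e he c hδ hδ1 m M' (by
      rw [hδv, mul_one_div, div_le_one hv0]
      exact hM'1) (by
      rw [hδv, mul_one_div, le_div_iff₀ hv0, one_mul]
      exact hM'2) _ hcell
  generalize 1 / ((k : ℝ) - 1) = p at hp0 hl1 hl2 h9 hL hW ⊢
  have hfl : ((⌊A * (√n * (v / (K : ℝ) ^ m)) ^ α⌋₊ : ℕ) : ℝ≥0∞) ^ p ≤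
      ENNReal.ofReal ((A * (√n * (v / (K : ℝ) ^ m)) ^ α) ^ p) := by
    rw [← ENNReal.ofReal_rpow_of_nonneg (by positivity) hp0.le]
    refine ENNReal.rpow_le_rpow ?_ hp0.le
    rw [← ENNReal.ofReal_natCast]
    exact ENNReal.ofReal_le_ofReal (Nat.floor_le (by positivity))
  have h10 := real_bound2 (n := n) (u := (K : ℝ) ^ m) (v := v) (δ := δ) (α := α) (β := β)
    (p := p) (lam := lam) (A := A) (s := √n) (D := (6 ^ M') ^ n)
    (C := (n.factorial : ℝ) * (18 * (K : ℝ) ^ 2) ^ n)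
    hn1 hKm1 hm hδv hp0 hβ hl1 hl2 hA (Real.sqrt_pos.2 (by exact_mod_cast hn1)) (by positivity)
    (by positivity)
  have hXX : XX n k K δ m M' = (n.factorial : ℝ) * (18 * (K : ℝ) ^ 2) ^ n * (6 ^ M') ^ n *
      (δ ^ n * (K : ℝ) ^ m) := XX_eq hn1 hK1 δ m M'
  have hXX0 : 0 ≤ XX n k K δ m M' := by
    rw [hXX]
    positivity
  have hc5 : cc5 n k K p α A = (2 * ((K ^ 2) ^ n : ℕ)) ^ (1 + p) * (((K ^ 2) ^ n : ℕ) : ℝ) ^ k *
    ((n.factorial : ℝ) * (18 * (K : ℝ) ^ 2) ^ n * A ^ p * √n ^ (α * p)) := rfl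
  rw [hc5] at hW
  have hNNk : (((((K ^ 2) ^ n) ^ k : ℕ)) : ℝ≥0∞) = ENNReal.ofReal ((((K ^ 2) ^ n : ℕ) : ℝ) ^ k) := by
    rw [ENNReal.ofReal_pow (by positivity), ENNReal.ofReal_natCast]
    push_cast
    rfl
  rw [hNNk] at h9
  generalize hNN : (K ^ 2) ^ n = NN at h9 hW hNNk ⊢
  have hNNe : (2 * (NN : ℝ≥0∞)) ^ (1 + p) = ENNReal.ofReal ((2 * (NN : ℝ)) ^ (1 + p)) := by
    rw [← ENNReal.ofReal_rpow_of_nonneg (by positivity) (by positivity),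
      ENNReal.ofReal_mul (by norm_num), ENNReal.ofReal_natCast]
    norm_num
  generalize hSq : ∑ i, c i ^ (1 + p) = Sq at h9 ⊢
  generalize hbr : ∫⁻ x, Br (cell K e) e (fun m => 1 / (K : ℝ) ^ (m + 1)) k c p (thr δ a e x) m
    = br at h9 ⊢
  calc L * ((2 * (NN : ℝ≥0∞)) ^ (1 + p) * br)
      ≤ ENNReal.ofReal (R * ((K : ℝ) ^ m) ^ (β * p)) *
        (ENNReal.ofReal ((2 * (NN : ℝ)) ^ (1 + p)) * (ENNReal.ofReal ((NN : ℝ) ^ k) *
        (ENNReal.ofReal (XX n k K δ m M') *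
        (ENNReal.ofReal ((A * (√n * (v / (K : ℝ) ^ m)) ^ α) ^ p) * Sq)))) := by
        rw [hNNe]
        refine mul_le_mul' hL (mul_le_mul_right (h9.trans ?_) _)
        refine mul_le_mul_right (mul_le_mul_right (mul_le_mul_left hfl _) _) _
    _ = ENNReal.ofReal (R * ((K : ℝ) ^ m) ^ (β * p) * ((2 * (NN : ℝ)) ^ (1 + p) *
        ((NN : ℝ) ^ k * (XX n k K δ m M' *
        (A * (√n * (v / (K : ℝ) ^ m)) ^ α) ^ p)))) * Sq := by
        rw [ENNReal.ofReal_mul (p := R * ((K : ℝ) ^ m) ^ (β * p)) (by positivity),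
          ENNReal.ofReal_mul (p := (2 * (NN : ℝ)) ^ (1 + p)) (by positivity),
          ENNReal.ofReal_mul (p := (NN : ℝ) ^ k) (by positivity), ENNReal.ofReal_mul hXX0]
        simp only [mul_assoc]
    _ ≤ ENNReal.ofReal W * Sq := by
        refine mul_le_mul_left (ENNReal.ofReal_le_ofReal ?_) _
        rw [hXX, hW]
        calc R * ((K : ℝ) ^ m) ^ (β * p) * ((2 * (NN : ℝ)) ^ (1 + p) *
            ((NN : ℝ) ^ k * ((n.factorial : ℝ) * (18 * (K : ℝ) ^ 2) ^ n * (6 ^ M') ^ n *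
            (δ ^ n * (K : ℝ) ^ m) * (A * (√n * (v / (K : ℝ) ^ m)) ^ α) ^ p)))
            = (R * (2 * (NN : ℝ)) ^ (1 + p) * (NN : ℝ) ^ k) *
              (((K : ℝ) ^ m) ^ (β * p) * ((n.factorial : ℝ) * (18 * (K : ℝ) ^ 2) ^ n *
              (6 ^ M') ^ n * (δ ^ n * (K : ℝ) ^ m)) *
              (A * (√n * (v / (K : ℝ) ^ m)) ^ α) ^ p) := by ring
          _ ≤ (R * (2 * (NN : ℝ)) ^ (1 + p) * (NN : ℝ) ^ k) *
              ((n.factorial : ℝ) * (18 * (K : ℝ) ^ 2) ^ n * (6 ^ M') ^ n * A ^ p *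
              √n ^ (α * p) * v ^ lam * δ ^ (n - 1)) :=
              mul_le_mul_of_nonneg_left h10 (by positivity)
          _ ≤ (R * (2 * (NN : ℝ)) ^ (1 + p) * (NN : ℝ) ^ k) *
              ((n.factorial : ℝ) * (18 * (K : ℝ) ^ 2) ^ n * Z * A ^ p *
              √n ^ (α * p) * v ^ lam * δ ^ (n - 1)) := by gcongr
          _ = _ := by ring

/-- The last level. -/
theorem last_level {k : ℕ} (hn1 : 1 ≤ n) (α A p : ℝ) (hα : 0 ≤ α) (hA : 0 ≤ A) (hp0 : 0 < p)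
    {K : ℕ} (hK1 : 1 ≤ K) {δ v : ℝ} (hδ : 0 < δ) (hδ1 : δ ≤ 1) (hv1 : 1 ≤ v)
    {ι : Type} [Fintype ι] (a e : ι → E n) (he : ∀ i, ‖e i‖ = 1)
    (c : ι → ℝ≥0∞) (M : ℕ) (hM : v ≤ (K : ℝ) ^ (M + 1))
    (hcell : ∀ τ, (univ.filter (fun i => cell K e M i = τ)).card ≤
      ⌊A * (√n * (v / (K : ℝ) ^ M)) ^ α⌋₊) :
    ∫⁻ x, Ph (cell K e) c (1 + p) (thr δ a e x) M ≤
      ENNReal.ofReal (cc6 n K p α A * δ ^ (n - 1)) * ∑ i, c i ^ (1 + p) := by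
  have hK1r : (1 : ℝ) ≤ K := by exact_mod_cast hK1
  have hK0 : (0 : ℝ) < K := by linarith
  have hv0 : 0 < v := by linarith
  have h11 := int_ph (K := K) a e c (δ := δ) hp0 M _ hcell
    (ENNReal.ofReal ((n.factorial : ℝ) * 6 ^ n * δ ^ (n - 1)))
    (fun i => volume_tube hn1 hδ hδ1 (a i) (e i) (he i))
  have hfl : ((⌊A * (√n * (v / (K : ℝ) ^ M)) ^ α⌋₊ : ℕ) : ℝ≥0∞) ^ p ≤
      ENNReal.ofReal (A ^ p * (√n * K) ^ (α * p)) := by
    have e1 : A ^ p * (√n * K) ^ (α * p) = (A * (√n * K) ^ α) ^ p := by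
      rw [Real.mul_rpow hA (by positivity), ← Real.rpow_mul (by positivity)]
    rw [e1, ← ENNReal.ofReal_rpow_of_nonneg (by positivity) hp0.le]
    refine ENNReal.rpow_le_rpow ?_ hp0.le
    rw [← ENNReal.ofReal_natCast]
    refine ENNReal.ofReal_le_ofReal ((Nat.floor_le (by positivity)).trans ?_)
    refine mul_le_mul_of_nonneg_left (Real.rpow_le_rpow (by positivity) ?_ hα) hA
    refine mul_le_mul_of_nonneg_left ?_ (by positivity)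
    rw [div_le_iff₀ (by positivity), ← pow_succ']
    exact hM
  refine h11.trans ((mul_le_mul_left hfl _).trans (le_of_eq ?_))
  rw [← mul_assoc, ← ENNReal.ofReal_mul (by positivity)]
  unfold cc6
  congr 2
  ring

/-- The sum over the levels. -/
theorem sum_levels (M : ℕ) (L : ℝ≥0∞) (b : ℕ → ℝ≥0∞) (f φ Sq : ℝ≥0∞) (T W1 W2 W3 : ℝ)
    (hT : (M : ℝ) ≤ T) (hb : ∀ m < M, L ^ m * b m ≤ ENNReal.ofReal W1 * Sq)
    (hf : ∀ m ≤ M, L ^ m ≤ ENNReal.ofReal W2) (hφ : φ ≤ ENNReal.ofReal W3 * Sq) :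
    ∑ m ∈ range M, L ^ m * (b m + f) + L ^ M * φ ≤
      ENNReal.ofReal T * (ENNReal.ofReal W1 * Sq + ENNReal.ofReal W2 * f) +
        ENNReal.ofReal W2 * (ENNReal.ofReal W3 * Sq) := by
  refine add_le_add ?_ (mul_le_mul' (hf M le_rfl) hφ)
  calc ∑ m ∈ range M, L ^ m * (b m + f)
      ≤ ∑ _m ∈ range M, (ENNReal.ofReal W1 * Sq + ENNReal.ofReal W2 * f) := by
        refine Finset.sum_le_sum fun m hm => ?_
        rw [Finset.mem_range] at hm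
        rw [mul_add]
        exact add_le_add (hb m hm) (mul_le_mul_left (hf m hm.le) _)
    _ = (M : ℝ≥0∞) * (ENNReal.ofReal W1 * Sq + ENNReal.ofReal W2 * f) := by
        rw [Finset.sum_const, Finset.card_range, nsmul_eq_mul]
    _ ≤ _ := by
        refine mul_le_mul_left ?_ _
        rw [← ENNReal.ofReal_natCast]
        exact ENNReal.ofReal_le_ofReal hT

/-- The final arithmetic. -/
theorem final_arith (f Sq : ℝ≥0∞) (H T Z R vl d c5 c6 : ℝ) (hH : 0 ≤ H) (hT : 1 ≤ T) (hZ : 1 ≤ Z)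
    (hR : 1 ≤ R) (hvl : 0 ≤ vl) (hd : 0 ≤ d) (hc5 : 0 ≤ c5) (hc6 : 0 ≤ c6) :
    ENNReal.ofReal H * (ENNReal.ofReal T * (ENNReal.ofReal (R * (Z * c5) * vl * d) * Sq +
      ENNReal.ofReal (R * vl) * f) + ENNReal.ofReal (R * vl) * (ENNReal.ofReal (c6 * d) * Sq)) ≤
    ENNReal.ofReal (H * (c5 + c6 + 1) * (T * Z * R) * vl) * (ENNReal.ofReal d * Sq + f) := by
  have hR0 : 0 ≤ R := by linarith
  have hT0 : 0 ≤ T := by linarith
  have hZ0 : 0 ≤ Z := by linarith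
  have e1 : ENNReal.ofReal H * (ENNReal.ofReal T * (ENNReal.ofReal (R * (Z * c5) * vl * d) * Sq +
      ENNReal.ofReal (R * vl) * f) + ENNReal.ofReal (R * vl) * (ENNReal.ofReal (c6 * d) * Sq)) =
      ENNReal.ofReal (H * (T * (R * (Z * c5) * vl) + R * vl * c6)) * (ENNReal.ofReal d * Sq) +
      ENNReal.ofReal (H * (T * (R * vl))) * f := by
    rw [ENNReal.ofReal_mul hH, ENNReal.ofReal_mul hH, ENNReal.ofReal_add (by positivity)
      (by positivity), ENNReal.ofReal_mul (q := d) (by positivity),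
      ENNReal.ofReal_mul (p := c6) hc6, ENNReal.ofReal_mul (p := T) hT0,
      ENNReal.ofReal_mul (p := T) hT0, ENNReal.ofReal_mul (p := R * vl) (q := c6) (by positivity)]
    ring
  rw [e1, mul_add (ENNReal.ofReal (H * (c5 + c6 + 1) * (T * Z * R) * vl))]
  have hTZ : 1 ≤ T * Z := by nlinarith
  have hRv : 0 ≤ R * vl := by positivity
  refine add_le_add (mul_le_mul_left (ENNReal.ofReal_le_ofReal ?_) _)
    (mul_le_mul_left (ENNReal.ofReal_le_ofReal ?_) _)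
  · have h1 : H * (T * (R * (Z * c5) * vl) + R * vl * c6) =
        H * ((T * Z) * c5 + c6) * (R * vl) := by ring
    have h2 : H * (c5 + c6 + 1) * (T * Z * R) * vl = H * ((T * Z) * (c5 + c6 + 1)) * (R * vl) := by
      ring
    rw [h1, h2]
    refine mul_le_mul_of_nonneg_right (mul_le_mul_of_nonneg_left ?_ hH) hRv
    nlinarith
  · have h1 : H * (T * (R * vl)) = H * (T * 1) * (R * vl) := by ring
    have h2 : H * (c5 + c6 + 1) * (T * Z * R) * vl = H * (T * (Z * (c5 + c6 + 1))) * (R * vl) := by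
      ring
    rw [h1, h2]
    refine mul_le_mul_of_nonneg_right (mul_le_mul_of_nonneg_left ?_ hH) hRv
    refine mul_le_mul_of_nonneg_left ?_ hT0
    nlinarith

/-- The first level. -/
theorem first_level {K : ℕ} {δ p : ℝ} (hp0 : 0 < p) {ι : Type} [Fintype ι] (a e : ι → E n)
    (he : ∀ i, ‖e i‖ = 1) (c : ι → ℝ≥0∞) :
    ∫⁻ x, (∑ i ∈ thr δ a e x, c i) ^ (1 + p) ≤
      ENNReal.ofReal ((3 ^ n) ^ p) * ∫⁻ x, Ph (cell K e) c (1 + p) (thr δ a e x) 0 := by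
  classical
  have h0 : ∀ x, (∑ i ∈ thr δ a e x, c i) ^ (1 + p) ≤
      ENNReal.ofReal ((3 ^ n) ^ p) * Ph (cell K e) c (1 + p) (thr δ a e x) 0 := by
    intro x
    have e1 : ∑ i ∈ thr δ a e x, c i = ∑ τ ∈ univ.image (cell K e 0),
        ∑ i ∈ (thr δ a e x).filter (fun i => cell K e 0 i = τ), c i :=
      (Finset.sum_fiberwise_of_maps_to
        (fun i _ => Finset.mem_image_of_mem (cell K e 0) (Finset.mem_univ i)) c).symm
    rw [e1]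
    refine (ENNReal.rpow_sum_le_const_mul_sum_rpow _ _ (by linarith)).trans ?_
    rw [add_sub_cancel_left]
    unfold Ph
    refine mul_le_mul_left ?_ _
    rw [← ENNReal.ofReal_rpow_of_nonneg (by positivity) hp0.le]
    refine ENNReal.rpow_le_rpow ?_ hp0.le
    rw [← ENNReal.ofReal_natCast]
    refine ENNReal.ofReal_le_ofReal ?_
    exact_mod_cast cell_zero_card K e he
  have hPhm : Measurable fun x => Ph (cell K e) c (1 + p) (thr δ a e x) 0 :=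
    measurable_thr δ a e (fun S => Ph (cell K e) c (1 + p) S 0)
  rw [← lintegral_const_mul _ hPhm]
  exact lintegral_mono h0

/-- The number of directions in a cell. -/
theorem cell_count {A α : ℝ} {K : ℕ} (hK1 : 1 ≤ K) (hn1 : 1 ≤ n) {δ v : ℝ}
    (hδ : 0 < δ) (hδv : δ = 1 / v) {ι : Type} [Fintype ι] (e : ι → E n)
    (hDim : ∀ (i : ι) (ρ : ℝ), δ ≤ ρ → (Nat.card {j // ‖e j - e i‖ ≤ ρ} : ℝ) ≤ A * (ρ / δ) ^ α)
    (m : ℕ) (hKm : (K : ℝ) ^ m ≤ v) (τ : Fin n → ℤ) :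
    (univ.filter (fun i => cell K e m i = τ)).card ≤ ⌊A * (√n * (v / (K : ℝ) ^ m)) ^ α⌋₊ := by
  classical
  have hsn : 1 ≤ √(n : ℝ) := by
    rw [Real.one_le_sqrt]
    exact_mod_cast hn1
  have hK1r : (1 : ℝ) ≤ K := by exact_mod_cast hK1
  have hKm0 : (0 : ℝ) < (K : ℝ) ^ m := by positivity
  have hv0 : 0 < v := by linarith
  rcases (univ.filter (fun i => cell K e m i = τ)).eq_empty_or_nonempty with h0 | ⟨i, hi⟩
  · rw [h0, Finset.card_empty]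
    exact Nat.zero_le _
  · refine Nat.le_floor ?_
    have hρ : δ ≤ √n * (1 / (K : ℝ) ^ m) := by
      have h3 : δ ≤ 1 / (K : ℝ) ^ m := by
        rw [hδv]
        exact one_div_le_one_div_of_le hKm0 hKm
      have h4 : 0 < 1 / (K : ℝ) ^ m := by positivity
      nlinarith
    have h5 := hDim i _ hρ
    have h6 : ((univ.filter (fun i => cell K e m i = τ)).card : ℝ) ≤
        (Nat.card {j // ‖e j - e i‖ ≤ √n * (1 / (K : ℝ) ^ m)} : ℝ) := by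
      rw [Nat.card_eq_fintype_card, Fintype.card_subtype]
      have : (univ.filter (fun i => cell K e m i = τ)).card ≤
          (univ.filter (fun j => ‖e j - e i‖ ≤ √n * (1 / (K : ℝ) ^ m))).card := by
        refine Finset.card_le_card fun j hj => ?_
        rw [Finset.mem_filter] at hi hj ⊢
        exact ⟨Finset.mem_univ _, cell_dist hK1 e m j i (hj.2.trans hi.2.symm)⟩
      exact_mod_cast this
    refine h6.trans (h5.trans (le_of_eq ?_))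
    congr 2
    rw [hδv]
    field_simp

/-- The multiscale inequality for one value of `K`. -/
theorem core_aux {k : ℕ} (hk : 2 ≤ k) (hkn : k ≤ n) (α β A B lam : ℝ) (hα : 0 ≤ α) (hβ : 0 ≤ β)
    (hA : 0 ≤ A) (hB : 1 ≤ B) (hl1 : α * (1 / ((k : ℝ) - 1)) - 1 ≤ lam)
    (hl2 : β * (1 / ((k : ℝ) - 1)) ≤ lam) (R : ℝ)
    (hR : 2 ^ (1 + 1 / ((k : ℝ) - 1)) * (3 ^ n * B) ^ (1 / ((k : ℝ) - 1)) ≤ R) (hR1 : 1 ≤ R)
    {K : ℕ} (hK : (4 : ℝ) ^ k * n ≤ K) {δ : ℝ} (hδ : 0 < δ) (hδ1 : δ ≤ 1)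
    {ι : Type} [Fintype ι] (a e : ι → E n) (he : ∀ i, ‖e i‖ = 1)
    (hDim : ∀ (i : ι) (ρ : ℝ), δ ≤ ρ → (Nat.card {j // ‖e j - e i‖ ≤ ρ} : ℝ) ≤ A * (ρ / δ) ^ α)
    (c : ι → ℝ≥0∞) (hc : ∀ i, c i ≠ ∞) (Fl : Finset ι → ℝ≥0∞)
    (hFl : ∀ (S : Finset ι) (m : ℕ), δ ≤ 1 / (K : ℝ) ^ (m + 1) → ∀ (τ : Fin n → ℤ)
        (V : Submodule ℝ (E n)), Module.finrank ℝ V < k →
        ∀ s P : Finset ι, (∀ i, i ∈ s ↔ i ∈ S ∧ cell K e m i = τ) →
        (∀ i, i ∈ P ↔ i ∈ s ∧ infDist (e i) V ≤ 1 / (K : ℝ) ^ (m + 1)) →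
        ∑ i ∈ s, c i ≤ 2 * ∑ i ∈ P, c i →
        (∃ Z : Finset (E n), (Z.card : ℝ) ≤ B * (K : ℝ) ^ β ∧
          ∀ i ∈ P, ∃ z ∈ Z, ‖e i - z‖ ≤ 1 / (K : ℝ) ^ (m + 1)) ∨
        ∑ i ∈ s, c i ≤ Fl S) :
    ∫⁻ x, (∑ i ∈ thr δ a e x, c i) ^ (1 + 1 / ((k : ℝ) - 1)) ≤
        ENNReal.ofReal ((3 ^ n) ^ (1 / ((k : ℝ) - 1)) *
          (cc5 n k K (1 / ((k : ℝ) - 1)) α A + cc6 n K (1 / ((k : ℝ) - 1)) α A + 1) *
          (2 ^ (Real.log (1 / δ) / Real.log K) * (36 ^ n) ^ (Real.log (1 / δ) / Real.log K) *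
            R ^ (Real.log (1 / δ) / Real.log K)) * (1 / δ) ^ lam) *
          (ENNReal.ofReal (δ ^ (n - 1)) * ∑ i, c i ^ (1 + 1 / ((k : ℝ) - 1)) +
            ∫⁻ x, (∑ i ∈ thr δ a e x, c i) * Fl (thr δ a e x) ^ (1 / ((k : ℝ) - 1))) := by
  classical
  have hk2 : (2 : ℝ) ≤ k := by exact_mod_cast hk
  have hk1 : (0 : ℝ) < (k : ℝ) - 1 := by linarith
  have hn1 : 1 ≤ n := by omega
  have hp0 : 0 < 1 / ((k : ℝ) - 1) := by positivity
  have hn1r : (1 : ℝ) ≤ n := by exact_mod_cast hn1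
  have hsn : 1 ≤ √(n : ℝ) := by rwa [Real.one_le_sqrt]
  have h2k : (4 : ℝ) ≤ 2 ^ k := by
    calc (4 : ℝ) = 2 ^ 2 := by norm_num
      _ ≤ 2 ^ k := pow_le_pow_right₀ (by norm_num) hk
  have hsq : √(n : ℝ) * √(n : ℝ) = n := Real.mul_self_sqrt (by positivity)
  have h4k : (4 : ℝ) ^ k = 2 ^ k * 2 ^ k := by rw [← mul_pow]; norm_num
  have hKn : 2 ^ (k + 2) * √n ≤ (K : ℝ) := by
    refine le_trans ?_ hK
    calc 2 ^ (k + 2) * √(n : ℝ) = (2 ^ k * 4) * (√(n : ℝ) * 1) := by rw [pow_add]; ring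
      _ ≤ (2 ^ k * 2 ^ k) * (√(n : ℝ) * √(n : ℝ)) := by gcongr
      _ = _ := by rw [hsq, h4k]
  have hK4 : (4 : ℝ) ≤ K := by
    refine le_trans ?_ hKn
    rw [pow_add]
    nlinarith
  have hK0 : (0 : ℝ) < K := by linarith
  have hK1 : 1 ≤ K := by
    have : (1 : ℝ) ≤ K := by linarith
    exact_mod_cast this
  have hlogK : 0 < Real.log K := Real.log_pos (by linarith)
  have hG' : 2 / (2 ^ (k + 1) * √n / K) = K / (2 ^ k * √n) := by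
    rw [pow_succ]
    field_simp
  have hG2 : (K : ℝ) ≤ (2 / (2 ^ (k + 1) * √n / K)) * (2 / (2 ^ (k + 1) * √n / K)) := by
    rw [hG', div_mul_div_comm, le_div_iff₀ (by positivity)]
    have e1 : (2 : ℝ) ^ k * √n * (2 ^ k * √n) = 4 ^ k * n := by
      rw [h4k]
      linear_combination (2 ^ k * 2 ^ k) * hsq
    rw [e1]
    exact mul_le_mul_of_nonneg_left hK hK0.le
  have hG0 : 0 < 2 / (2 ^ (k + 1) * √n / K) := by rw [hG']; positivity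
  have hbr0 := fun (v : ℝ) (hδv : δ = 1 / v) (hv1 : 1 ≤ v) (m M' : ℕ) hm h1 h2 h3 Z hZ W R
    hR L hL hW => br_level (n := n) hk hkn α β A lam hα hβ hA hl1 hl2 hK1 hKn hδ hδ1 hδv hv1 a e
    he c m M' hm h1 h2 h3 Z hZ W R hR L hL hW
  generalize hG : 2 / (2 ^ (k + 1) * √n / (K : ℝ)) = G at hG2 hG0 hbr0
  have hG1 : 1 < G := by nlinarith
  have hlogG : Real.log K ≤ 2 * Real.log G := by
    have h1 := Real.log_le_log hK0 hG2
    rw [Real.log_mul hG0.ne' hG0.ne'] at h1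
    linarith
  obtain ⟨v, hv⟩ : ∃ v, v = 1 / δ := ⟨_, rfl⟩
  have hv1 : 1 ≤ v := by rw [hv, le_div_iff₀ hδ]; linarith
  have hv0 : 0 < v := by linarith
  have hδv : δ = 1 / v := by rw [hv]; field_simp
  have hlogv : 0 ≤ Real.log v := Real.log_nonneg hv1
  obtain ⟨X, hX⟩ : ∃ X, X = Real.log v / Real.log K := ⟨_, rfl⟩
  have hX0 : 0 ≤ X := by rw [hX]; positivity
  obtain ⟨M, hM1, hM2⟩ := exists_nat_pow_near hv1 (by linarith : (1 : ℝ) < K)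
  obtain ⟨M', hM'1, hM'2⟩ := exists_nat_pow_near hv1 hG1
  have hKmv : ∀ m ≤ M, (K : ℝ) ^ m ≤ v := fun m hm =>
    (pow_le_pow_right₀ (by linarith) hm).trans hM1
  have hcell : ∀ m, m ≤ M → ∀ τ, (univ.filter (fun i => cell K e m i = τ)).card ≤
      ⌊A * (√n * (v / (K : ℝ) ^ m)) ^ α⌋₊ := fun m hm τ =>
    cell_count hK1 hn1 hδ hδv e hDim m (hKmv m hm) τ
  have hbr1 := fun m (hm : m ≤ M) Z hZ W R hR L hL hW => hbr0 v hδv hv1 m M' (hKmv m hm) hM'1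
    hM'2.le (hcell m hm) Z hZ W R hR L hL hW
  rw [← hv, ← hX]
  have hlst := last_level (k := k) hn1 α A (1 / ((k : ℝ) - 1)) hα hA hp0 hK1 hδ hδ1 hv1 a e he c M
    hM2.le (hcell M le_rfl)
  have hfst := first_level (K := K) (δ := δ) hp0 a e he c
  -- the level inequality
  have hNN1 : 1 ≤ (K ^ 2) ^ n := Nat.one_le_pow _ _ (Nat.pow_pos hK1)
  have hlev0 := fun (m : ℕ) (hh : 0 < (fun m => 1 / (K : ℝ) ^ (m + 1)) m) N₁ x Fl' hF =>
    level (cell K e) e (fun m => 1 / (K : ℝ) ^ (m + 1)) k hk c hc ((K ^ 2) ^ n) N₁ hNN1 m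
      hh (fun τ => cell_card hK1 e m τ) (thr δ a e x) Fl' hF
  generalize 1 / ((k : ℝ) - 1) = p at hp0 hl1 hl2 hR hbr1 hlst hfst hlev0 ⊢
  -- the narrow constant
  obtain ⟨N₁, hN₁⟩ : ∃ N₁ : ℕ, N₁ = ⌊B * (K : ℝ) ^ β⌋₊ * 3 ^ n := ⟨_, rfl⟩
  have hN₁r : (N₁ : ℝ) ≤ 3 ^ n * B * (K : ℝ) ^ β := by
    rw [hN₁]
    push_cast
    have h7 := Nat.floor_le (by positivity : 0 ≤ B * (K : ℝ) ^ β)
    calc (⌊B * (K : ℝ) ^ β⌋₊ : ℝ) * 3 ^ n ≤ (B * (K : ℝ) ^ β) * 3 ^ n := by gcongr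
      _ = _ := by ring
  obtain ⟨L, hL⟩ : ∃ L : ℝ≥0∞, L = 2 ^ (1 + p) * (N₁ : ℝ≥0∞) ^ p := ⟨_, rfl⟩
  have hLle : L ≤ ENNReal.ofReal (R * (K : ℝ) ^ (β * p)) := by
    have e1 : L = ENNReal.ofReal (2 ^ (1 + p) * (N₁ : ℝ) ^ p) := by
      rw [ENNReal.ofReal_mul (by positivity), ← ENNReal.ofReal_rpow_of_nonneg (by norm_num)
        (by positivity), ← ENNReal.ofReal_rpow_of_nonneg (by positivity) hp0.le,
        ENNReal.ofReal_natCast]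
      norm_num [hL]
    rw [e1]
    refine ENNReal.ofReal_le_ofReal ?_
    calc (2 : ℝ) ^ (1 + p) * (N₁ : ℝ) ^ p ≤ 2 ^ (1 + p) * (3 ^ n * B * (K : ℝ) ^ β) ^ p := by
          gcongr
      _ = 2 ^ (1 + p) * (3 ^ n * B) ^ p * (K : ℝ) ^ (β * p) := by
          rw [Real.mul_rpow (by positivity) (by positivity), ← Real.rpow_mul hK0.le]
          ring
      _ ≤ R * (K : ℝ) ^ (β * p) := by gcongr
  have hR0 : 0 ≤ R := by linarith
  have hRX0 : 0 ≤ R ^ X := by positivity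
  have hLm : ∀ m ≤ M, L ^ m ≤ ENNReal.ofReal (R ^ X * ((K : ℝ) ^ m) ^ (β * p)) := by
    intro m hm
    calc L ^ m ≤ (ENNReal.ofReal (R * (K : ℝ) ^ (β * p))) ^ m := by gcongr
      _ = ENNReal.ofReal (R ^ m * ((K : ℝ) ^ m) ^ (β * p)) := by
        rw [← ENNReal.ofReal_pow (by positivity), mul_pow]
        congr 2
        rw [← Real.rpow_natCast ((K : ℝ) ^ (β * p)), ← Real.rpow_mul hK0.le,
          ← Real.rpow_natCast (K : ℝ) m, ← Real.rpow_mul hK0.le, mul_comm (β * p)]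
      _ ≤ _ := by
        refine ENNReal.ofReal_le_ofReal (mul_le_mul_of_nonneg_right ?_ (by positivity))
        rw [hX]
        exact pow_le_log hR1 (by linarith) (hKmv m hm)
  have hLm2 : ∀ m ≤ M, L ^ m ≤ ENNReal.ofReal (R ^ X * v ^ lam) := by
    intro m hm
    refine (hLm m hm).trans (ENNReal.ofReal_le_ofReal (mul_le_mul_of_nonneg_left ?_ hRX0))
    have hKm1 : 1 ≤ (K : ℝ) ^ m := one_le_pow₀ (by linarith)
    calc ((K : ℝ) ^ m) ^ (β * p) ≤ v ^ (β * p) :=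
          Real.rpow_le_rpow (by positivity) (hKmv m hm) (by positivity)
      _ ≤ v ^ lam := Real.rpow_le_rpow_of_exponent_le hv1 (by linarith)
  have h6M : ((6 : ℝ) ^ M') ^ n ≤ (36 ^ n) ^ X := by
    calc ((6 : ℝ) ^ M') ^ n = (6 ^ n) ^ M' := by rw [← pow_mul, ← pow_mul, mul_comm]
      _ ≤ (6 ^ n) ^ (Real.log v / Real.log G) :=
          pow_le_log (one_le_pow₀ (by norm_num)) hG1 hM'1
      _ ≤ (6 ^ n) ^ (2 * X) := by
          apply Real.rpow_le_rpow_of_exponent_le (one_le_pow₀ (by norm_num))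
          rw [div_le_iff₀ (Real.log_pos hG1), hX, mul_assoc, div_mul_eq_mul_div,
            ← mul_div_assoc, le_div_iff₀ hlogK]
          nlinarith
      _ = (36 ^ n) ^ X := by
          rw [Real.rpow_mul (by positivity)]
          congr 1
          rw [Real.rpow_ofNat, ← pow_mul, mul_comm, pow_mul]
          norm_num
  have hMv : (M : ℝ) ≤ 2 ^ X := by
    calc (M : ℝ) ≤ 2 ^ M := by exact_mod_cast Nat.lt_two_pow_self.le
      _ ≤ 2 ^ X := by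
        rw [hX]
        exact pow_le_log (by norm_num) (by linarith) hM1
  have hlev : ∀ m < M, ∀ x, Ph (cell K e) c (1 + p) (thr δ a e x) m ≤
      (2 * (((K ^ 2) ^ n : ℕ) : ℝ≥0∞)) ^ (1 + p) * Br (cell K e) e
        (fun m => 1 / (K : ℝ) ^ (m + 1)) k c p
        (thr δ a e x) m + (∑ i ∈ thr δ a e x, c i) * Fl (thr δ a e x) ^ p +
      L * Ph (cell K e) c (1 + p) (thr δ a e x) (m + 1) := by
    intro m hm x
    have hδm : δ ≤ 1 / (K : ℝ) ^ (m + 1) := by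
      rw [hδv]
      exact one_div_le_one_div_of_le (by positivity) (hKmv (m + 1) hm)
    rw [hL]
    refine hlev0 m (by positivity) N₁ x (Fl (thr δ a e x)) ?_
    intro τ V hV hW
    rcases hFl (thr δ a e x) m hδm τ V hV _ _ (fun i => Finset.mem_filter)
      (fun i => Finset.mem_filter) hW with ⟨Z, hZ, hcov⟩ | h8
    · left
      refine (cell_cover hK1 e (m + 1) _ Z hcov).trans ?_
      rw [hN₁]
      exact Nat.mul_le_mul_right _ (Nat.le_floor hZ)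
    · exact Or.inr h8
  obtain ⟨f, hf⟩ : ∃ f, f = ∫⁻ x, (∑ i ∈ thr δ a e x, c i) * Fl (thr δ a e x) ^ p := ⟨_, rfl⟩
  have hφ : ∀ m < M, ∫⁻ x, Ph (cell K e) c (1 + p) (thr δ a e x) m ≤
      ((2 * (((K ^ 2) ^ n : ℕ) : ℝ≥0∞)) ^ (1 + p) * ∫⁻ x, Br (cell K e) e
        (fun m => 1 / (K : ℝ) ^ (m + 1)) k c p
        (thr δ a e x) m) + f + L * ∫⁻ x, Ph (cell K e) c (1 + p) (thr δ a e x) (m + 1) := by
    intro m hm
    refine (lintegral_mono (hlev m hm)).trans (le_of_eq ?_)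
    have m1 : Measurable fun x => Br (cell K e) e (fun m => 1 / (K : ℝ) ^ (m + 1)) k c p
        (thr δ a e x) m :=
      measurable_thr δ a e (fun S => Br (cell K e) e (fun m => 1 / (K : ℝ) ^ (m + 1)) k c p S m)
    have m2 : Measurable fun x => (∑ i ∈ thr δ a e x, c i) * Fl (thr δ a e x) ^ p :=
      measurable_thr δ a e (fun S => (∑ i ∈ S, c i) * Fl S ^ p)
    have m3 : Measurable fun x => Ph (cell K e) c (1 + p) (thr δ a e x) (m + 1) :=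
      measurable_thr δ a e (fun S => Ph (cell K e) c (1 + p) S (m + 1))
    have m4 : Measurable fun x => (2 * (((K ^ 2) ^ n : ℕ) : ℝ≥0∞)) ^ (1 + p) * Br (cell K e) e
        (fun m => 1 / (K : ℝ) ^ (m + 1)) k c p (thr δ a e x) m := m1.const_mul _
    have m5 : Measurable fun x => (2 * (((K ^ 2) ^ n : ℕ) : ℝ≥0∞)) ^ (1 + p) * Br (cell K e) e
        (fun m => 1 / (K : ℝ) ^ (m + 1)) k c p (thr δ a e x) m +
        (∑ i ∈ thr δ a e x, c i) * Fl (thr δ a e x) ^ p := m4.add m2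
    rw [lintegral_add_left m5, lintegral_add_left m4,
      lintegral_const_mul _ m1, lintegral_const_mul _ m3, hf]
  have hit := iter (fun m => ∫⁻ x, Ph (cell K e) c (1 + p) (thr δ a e x) m)
    (fun m => (2 * (((K ^ 2) ^ n : ℕ) : ℝ≥0∞)) ^ (1 + p) * ∫⁻ x, Br (cell K e) e
      (fun m => 1 / (K : ℝ) ^ (m + 1)) k c p (thr δ a e x) m) f L M hφ
  rw [← hf]
  have hbr2 : ∀ m < M, L ^ m * ((2 * (((K ^ 2) ^ n : ℕ) : ℝ≥0∞)) ^ (1 + p) * ∫⁻ x,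
      Br (cell K e) e (fun m => 1 / (K : ℝ) ^ (m + 1)) k c p (thr δ a e x) m) ≤
      ENNReal.ofReal (R ^ X * ((36 ^ n) ^ X * cc5 n k K p α A) * v ^ lam * δ ^ (n - 1)) *
        ∑ i, c i ^ (1 + p) := fun m hm =>
    hbr1 m hm.le ((36 ^ n) ^ X) h6M _ (R ^ X) hRX0 (L ^ m) (hLm m hm.le) rfl
  have hsum := sum_levels M L (fun m => (2 * (((K ^ 2) ^ n : ℕ) : ℝ≥0∞)) ^ (1 + p) * ∫⁻ x,
      Br (cell K e) e (fun m => 1 / (K : ℝ) ^ (m + 1)) k c p (thr δ a e x) m) f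
      (∫⁻ x, Ph (cell K e) c (1 + p) (thr δ a e x) M) (∑ i, c i ^ (1 + p)) (2 ^ X)
      (R ^ X * ((36 ^ n) ^ X * cc5 n k K p α A) * v ^ lam * δ ^ (n - 1)) (R ^ X * v ^ lam)
      (cc6 n K p α A * δ ^ (n - 1)) hMv hbr2 hLm2 hlst
  refine hfst.trans ?_
  refine (mul_le_mul_right (hit.trans hsum) _).trans ?_
  exact final_arith f (∑ i, c i ^ (1 + p)) ((3 ^ n) ^ p) (2 ^ X) ((36 ^ n) ^ X) (R ^ X) (v ^ lam)
    (δ ^ (n - 1)) (cc5 n k K p α A) (cc6 n K p α A) (by positivity)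
    (Real.one_le_rpow (by norm_num) hX0)
    (Real.one_le_rpow (one_le_pow₀ (by norm_num)) hX0)
    (Real.one_le_rpow hR1 hX0) (by positivity) (by positivity) (cc5_nonneg _ _ _ _ _ _ hA)
    (cc6_nonneg _ _ _ _ _ hA)

/-- **The multiscale inequality**, with an explicit dependence on `K`. -/
theorem core2 {k : ℕ} (hk : 2 ≤ k) (hkn : k ≤ n) (α β A B : ℝ) (hα : 0 ≤ α) (hβ : 0 ≤ β)
    (hA : 0 ≤ A) (hB : 1 ≤ B) :
    ∃ C : ℝ, 1 ≤ C ∧ ∀ K : ℕ, C ≤ K → ∀ δ : ℝ, 0 < δ → δ ≤ 1 →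
      ∀ (ι : Type) [Fintype ι] (a e : ι → E n), (∀ i, ‖e i‖ = 1) →
      (∀ (i : ι) (ρ : ℝ), δ ≤ ρ → (Nat.card {j // ‖e j - e i‖ ≤ ρ} : ℝ) ≤ A * (ρ / δ) ^ α) →
      ∀ c : ι → ℝ≥0∞, (∀ i, c i ≠ ∞) → ∀ Fl : Finset ι → ℝ≥0∞,
      (∀ (S : Finset ι) (m : ℕ), δ ≤ 1 / (K : ℝ) ^ (m + 1) → ∀ (τ : Fin n → ℤ)
        (V : Submodule ℝ (E n)), Module.finrank ℝ V < k →
        ∀ s P : Finset ι, (∀ i, i ∈ s ↔ i ∈ S ∧ cell K e m i = τ) →
        (∀ i, i ∈ P ↔ i ∈ s ∧ infDist (e i) V ≤ 1 / (K : ℝ) ^ (m + 1)) →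
        ∑ i ∈ s, c i ≤ 2 * ∑ i ∈ P, c i →
        (∃ Z : Finset (E n), (Z.card : ℝ) ≤ B * (K : ℝ) ^ β ∧
          ∀ i ∈ P, ∃ z ∈ Z, ‖e i - z‖ ≤ 1 / (K : ℝ) ^ (m + 1)) ∨
        ∑ i ∈ s, c i ≤ Fl S) →
      ∫⁻ x, (∑ i ∈ thr δ a e x, c i) ^ (1 + 1 / ((k : ℝ) - 1)) ≤
        ENNReal.ofReal ((K : ℝ) ^ C * C ^ (Real.log (1 / δ) / Real.log K) *
          (1 / δ) ^ (max (max (α / ((k : ℝ) - 1) - 1) (β / ((k : ℝ) - 1))) 0)) *
          (ENNReal.ofReal (δ ^ (n - 1)) * ∑ i, c i ^ (1 + 1 / ((k : ℝ) - 1)) +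
            ∫⁻ x, (∑ i ∈ thr δ a e x, c i) * Fl (thr δ a e x) ^ (1 / ((k : ℝ) - 1))) := by
  have hk2 : (2 : ℝ) ≤ k := by exact_mod_cast hk
  have hk1 : (0 : ℝ) < (k : ℝ) - 1 := by linarith
  have hp0 : 0 < 1 / ((k : ℝ) - 1) := by positivity
  have hn1 : 1 ≤ n := by omega
  obtain ⟨lam, hlam⟩ : ∃ lam, lam = max (max (α / ((k : ℝ) - 1) - 1) (β / ((k : ℝ) - 1))) 0 :=
    ⟨_, rfl⟩
  have hl1 : α * (1 / ((k : ℝ) - 1)) - 1 ≤ lam := by
    have : α / ((k : ℝ) - 1) - 1 ≤ lam := by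
      rw [hlam]
      exact (le_max_left _ _).trans (le_max_left _ _)
    rwa [div_eq_mul_one_div] at this
  have hl2 : β * (1 / ((k : ℝ) - 1)) ≤ lam := by
    have : β / ((k : ℝ) - 1) ≤ lam := by
      rw [hlam]
      exact (le_max_right _ _).trans (le_max_left _ _)
    rwa [div_eq_mul_one_div] at this
  rw [← hlam]
  obtain ⟨R, hRe⟩ : ∃ R : ℝ, R = 2 ^ (1 + 1 / ((k : ℝ) - 1)) * (3 ^ n * B) ^ (1 / ((k : ℝ) - 1)) :=
    ⟨_, rfl⟩
  have hR1 : 1 ≤ R := by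
    have h1 : (1 : ℝ) ≤ 2 ^ (1 + 1 / ((k : ℝ) - 1)) :=
      Real.one_le_rpow (by norm_num) (by positivity)
    have h2 : (1 : ℝ) ≤ (3 ^ n * B) ^ (1 / ((k : ℝ) - 1)) := by
      refine Real.one_le_rpow ?_ hp0.le
      have h3 : (1 : ℝ) ≤ 3 ^ n := one_le_pow₀ (by norm_num)
      nlinarith
    rw [hRe]
    nlinarith
  have haux := fun {K : ℕ} hK {δ : ℝ} hδ hδ1 {ι : Type} [Fintype ι] (a e : ι → E n) he hDim c hc
    Fl hFl => core_aux (n := n) hk hkn α β A B lam hα hβ hA hB hl1 hl2 R hRe.ge hR1 (K := K) hK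
    (δ := δ) hδ hδ1 (ι := ι) a e he hDim c hc Fl hFl
  have h5 := fun {K : ℕ} (hK : 1 ≤ K) => cc5_le n k K hK (1 / ((k : ℝ) - 1)) α A hp0 hα hA
  have h6 := fun {K : ℕ} (hK : 1 ≤ K) => cc6_le n k K hK (1 / ((k : ℝ) - 1)) α A hp0 hA
  generalize 1 / ((k : ℝ) - 1) = p at hp0 hl1 hl2 haux h5 h6 ⊢
  obtain ⟨c₅, hc₅⟩ : ∃ c₅ : ℝ, c₅ = 2 ^ (1 + p) * ((n.factorial : ℝ) * 18 ^ n) * A ^ p *
    √n ^ (α * p) := ⟨_, rfl⟩
  obtain ⟨c₆, hc₆⟩ : ∃ c₆ : ℝ, c₆ = A ^ p * √n ^ (α * p) * ((n.factorial : ℝ) * 6 ^ n) := ⟨_, rfl⟩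
  have hc₅0 : 0 ≤ c₅ := by rw [hc₅]; positivity
  have hc₆0 : 0 ≤ c₆ := by rw [hc₆]; positivity
  rw [← hc₅] at h5
  rw [← hc₆] at h6
  obtain ⟨e0, he0⟩ : ∃ e0 : ℝ, e0 = 2 * n * (1 + p) + 2 * n * k + 2 * n + α * p := ⟨_, rfl⟩
  rw [← he0] at h5 h6
  have he00 : 0 ≤ e0 := by rw [he0]; positivity
  have hCCa : 0 ≤ (4 : ℝ) ^ k * n := by positivity
  have hCCb : 0 ≤ ((3 : ℝ) ^ n) ^ p * (c₅ + c₆ + 1) := by positivity
  have hCCc : 0 ≤ 2 * 36 ^ n * R := by positivity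
  refine ⟨1 + 4 ^ k * n + (e0 + 1) + (3 ^ n) ^ p * (c₅ + c₆ + 1) + 2 * 36 ^ n * R, by linarith,
    fun K hKK δ hδ hδ1 ι _ a e he hDim c hc Fl hFl => ?_⟩
  obtain ⟨CC, hCC⟩ : ∃ CC, CC = 1 + 4 ^ k * n + (e0 + 1) + (3 ^ n) ^ p * (c₅ + c₆ + 1) +
    2 * 36 ^ n * R := ⟨_, rfl⟩
  rw [← hCC] at hKK ⊢
  have hK : (4 : ℝ) ^ k * n ≤ K := by linarith
  have hn1r : (1 : ℝ) ≤ n := by exact_mod_cast hn1
  have h4k : (4 : ℝ) ≤ 4 ^ k := by
    calc (4 : ℝ) = 4 ^ 1 := by norm_num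
      _ ≤ 4 ^ k := pow_le_pow_right₀ (by norm_num) (by omega)
  have hK4 : (4 : ℝ) ≤ K := by nlinarith
  have hK0 : (0 : ℝ) < K := by linarith
  have hK1 : 1 ≤ K := by
    have : (1 : ℝ) ≤ K := by linarith
    exact_mod_cast this
  refine (haux hK hδ hδ1 a e he hDim c hc Fl hFl).trans ?_
  refine mul_le_mul_left (ENNReal.ofReal_le_ofReal ?_) _
  obtain ⟨X, hX⟩ : ∃ X, X = Real.log (1 / δ) / Real.log K := ⟨_, rfl⟩
  have hX0 : 0 ≤ X := by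
    rw [hX]
    refine div_nonneg (Real.log_nonneg ?_) (Real.log_nonneg (by linarith))
    rw [le_div_iff₀ hδ]
    linarith
  rw [← hX]
  refine mul_le_mul_of_nonneg_right (mul_le_mul ?_ ?_ (by positivity) (by positivity))
    (by positivity)
  · have g1 : 1 ≤ (K : ℝ) ^ e0 := Real.one_le_rpow (by linarith) he00
    have h3n : 0 ≤ ((3 : ℝ) ^ n) ^ p := by positivity
    calc (3 ^ n) ^ p * (cc5 n k K p α A + cc6 n K p α A + 1) ≤ (3 ^ n) ^ p * (c₅ * (K : ℝ) ^ e0 +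
          c₆ * (K : ℝ) ^ e0 + 1 * (K : ℝ) ^ e0) := by
          refine mul_le_mul_of_nonneg_left ?_ h3n
          have := h5 hK1
          have := h6 hK1
          linarith
      _ = ((3 ^ n) ^ p * (c₅ + c₆ + 1)) * (K : ℝ) ^ e0 := by ring
      _ ≤ (K : ℝ) * (K : ℝ) ^ e0 := by
          refine mul_le_mul_of_nonneg_right ?_ (by positivity)
          linarith
      _ = (K : ℝ) ^ (1 + e0) := by rw [Real.rpow_add hK0, Real.rpow_one]
      _ ≤ (K : ℝ) ^ CC := by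
          apply Real.rpow_le_rpow_of_exponent_le (by linarith)
          linarith
  · rw [← Real.mul_rpow (by norm_num) (by positivity), ← Real.mul_rpow (by positivity)
      (by linarith)]
    exact Real.rpow_le_rpow (by positivity) (by linarith) hX0

end Core2

end Pool.Agent.H565.MK
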