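import Pool.Agent.H565.MK.Core2
set_option autoImplicit false

/-!
# The multiscale inequality with a sum over the flat classes
-/

namespace Pool.Agent.H565.MK
open MeasureTheory Finset Metric
open scoped ENNReal

section Level

variable {F : Type*} [NormedAddCommGroup F] [InnerProductSpace ℝ F] [FiniteDimensional ℝ F]
variable {ι : Type} {G : Type} [DecidableEq G] [Fintype ι]

open Classical in
/-- The level inequality, with a general term for the flat classes. -/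
theorem level' (cell : ℕ → ι → G) (e : ι → F) (h : ℕ → ℝ) (k : ℕ) (hk : 2 ≤ k) (c : ι → ℝ≥0∞)
    (hc : ∀ i, c i ≠ ∞) (N N₁ : ℕ) (hN : 1 ≤ N) (m : ℕ) (hh : 0 < h m)
    (hcard : ∀ τ, ((univ.filter (fun i => cell m i = τ)).image (cell (m + 2))).card ≤ N)
    (S : Finset ι) (g : G → ℝ≥0∞)
    (hFlat : ∀ (τ : G) (V : Submodule ℝ F), Module.finrank ℝ V < k →
      ∑ i ∈ S.filter (fun i => cell m i = τ), c i ≤
        2 * ∑ i ∈ (S.filter (fun i => cell m i = τ)).filter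
          (fun i => Metric.infDist (e i) V ≤ h m), c i →
      (((S.filter (fun i => cell m i = τ)).filter
          (fun i => Metric.infDist (e i) V ≤ h m)).image (cell (m + 1))).card ≤ N₁ ∨
      (∑ i ∈ S.filter (fun i => cell m i = τ), c i) ^ (1 + 1 / ((k : ℝ) - 1)) ≤ g τ) :
    Ph cell c (1 + 1 / ((k : ℝ) - 1)) S m ≤
      (2 * N) ^ (1 + 1 / ((k : ℝ) - 1)) * Br cell e h k c (1 / ((k : ℝ) - 1)) S m +
      ∑ τ ∈ univ.image (cell m), g τ +
      2 ^ (1 + 1 / ((k : ℝ) - 1)) * (N₁ : ℝ≥0∞) ^ (1 / ((k : ℝ) - 1)) *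
        Ph cell c (1 + 1 / ((k : ℝ) - 1)) S (m + 1) := by
  have hk2 : (2 : ℝ) ≤ k := by exact_mod_cast hk
  have hk1 : (0 : ℝ) < (k : ℝ) - 1 := by linarith
  have hp0 : (0 : ℝ) < 1 / ((k : ℝ) - 1) := by positivity
  have hpk' : (k : ℝ) * (1 / ((k : ℝ) - 1)) = 1 + 1 / ((k : ℝ) - 1) := by
    field_simp
    ring
  generalize hp : 1 / ((k : ℝ) - 1) = p at hp0 hpk' hFlat ⊢
  have hpk : p * (k : ℝ) = 1 + p := by rw [mul_comm]; exact hpk'
  set q : ℝ := 1 + p with hq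
  have hq1 : 1 ≤ q := by linarith
  have hq0 : 0 ≤ q := by linarith
  -- the inequality for one class
  have key : ∀ τ, (∑ i ∈ S.filter (fun i => cell m i = τ), c i) ^ q ≤
      (2 * N) ^ q * ∑ σ ∈ adm cell e h k m τ,
        ∏ j, (∑ i ∈ S.filter (fun i => cell m i = τ ∧ cell (m + 2) i = σ j), c i) ^ p +
      g τ +
      2 ^ q * (N₁ : ℝ≥0∞) ^ p * ∑ σ ∈ univ.image (cell (m + 1)),
        (∑ i ∈ (S.filter (fun i => cell m i = τ)).filter (fun i => cell (m + 1) i = σ), c i) ^ q := by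
    intro τ
    set s : Finset ι := S.filter (fun i => cell m i = τ) with hs
    have hsub : (s.image (cell (m + 2))).card ≤ N := by
      refine (Finset.card_le_card (Finset.image_subset_image ?_)).trans (hcard τ)
      intro i hi
      rw [hs, Finset.mem_filter] at hi
      exact Finset.mem_filter.2 ⟨Finset.mem_univ _, hi.2⟩
    rcases bn s c hc e (cell (m + 2)) N hN hsub (h m) hh k (by omega) with
      ⟨V, hV, hW⟩ | ⟨t, hts, htr, hW⟩
    · set P : Finset ι := s.filter (fun i => Metric.infDist (e i) V ≤ h m) with hP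
      have hPs : P ⊆ s := Finset.filter_subset _ _
      rcases hFlat τ V hV hW with hcP | h2
      swap
      · refine h2.trans ?_
        rw [add_assoc, add_comm]
        refine le_trans ?_ le_self_add
        exact le_self_add
      · have h1 : ∑ i ∈ P, c i ≤ ∑ σ ∈ P.image (cell (m + 1)),
            ∑ i ∈ s.filter (fun i => cell (m + 1) i = σ), c i := by
          rw [← Finset.sum_fiberwise_of_maps_to
            (fun i hi => Finset.mem_image_of_mem (cell (m + 1)) hi) c]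
          gcongr
        have h2 : (∑ i ∈ s, c i) ^ q ≤ 2 ^ q * (N₁ : ℝ≥0∞) ^ p *
            ∑ σ ∈ univ.image (cell (m + 1)),
              (∑ i ∈ s.filter (fun i => cell (m + 1) i = σ), c i) ^ q := by
          calc (∑ i ∈ s, c i) ^ q ≤ (2 * ∑ σ ∈ P.image (cell (m + 1)),
                ∑ i ∈ s.filter (fun i => cell (m + 1) i = σ), c i) ^ q := by
                gcongr
                exact hW.trans (by gcongr)
            _ = 2 ^ q * (∑ σ ∈ P.image (cell (m + 1)),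
                ∑ i ∈ s.filter (fun i => cell (m + 1) i = σ), c i) ^ q :=
                ENNReal.mul_rpow_of_nonneg _ _ hq0
            _ ≤ 2 ^ q * (((P.image (cell (m + 1))).card : ℝ≥0∞) ^ (q - 1) *
                ∑ σ ∈ P.image (cell (m + 1)),
                (∑ i ∈ s.filter (fun i => cell (m + 1) i = σ), c i) ^ q) := by
                gcongr
                exact ENNReal.rpow_sum_le_const_mul_sum_rpow _ _ hq1
            _ ≤ 2 ^ q * ((N₁ : ℝ≥0∞) ^ p * ∑ σ ∈ univ.image (cell (m + 1)),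
                (∑ i ∈ s.filter (fun i => cell (m + 1) i = σ), c i) ^ q) := by
                have e1 : q - 1 = p := by rw [hq]; ring
                rw [e1]
                gcongr
                exact Finset.subset_univ P
            _ = _ := by ring
        exact h2.trans le_add_self
    · set σ : Fin k → G := fun j => cell (m + 2) (t j) with hσ
      have hτ : ∀ j, cell m (t j) = τ := fun j => by
        have := hts j
        rw [hs, Finset.mem_filter] at this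
        exact this.2
      have hσa : σ ∈ adm cell e h k m τ := by
        unfold adm
        rw [Finset.mem_filter, Fintype.mem_piFinset]
        refine ⟨fun j => ?_, t, fun j => ⟨hτ j, rfl⟩, htr⟩
        exact Finset.mem_image_of_mem _ (Finset.mem_filter.2 ⟨Finset.mem_univ _, hτ j⟩)
      have h1 : (∑ i ∈ s, c i) ^ q ≤ (2 * N) ^ q *
          ∏ j, (∑ i ∈ S.filter (fun i => cell m i = τ ∧ cell (m + 2) i = σ j), c i) ^ p := by
        calc (∑ i ∈ s, c i) ^ q = ∏ _j : Fin k, (∑ i ∈ s, c i) ^ p := by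
              rw [Finset.prod_const, Finset.card_univ, Fintype.card_fin, ← ENNReal.rpow_natCast,
                ← ENNReal.rpow_mul, hpk]
          _ ≤ ∏ j : Fin k, (2 * N * ∑ i ∈ s.filter (fun i => cell (m + 2) i = cell (m + 2) (t j)),
                c i) ^ p := Finset.prod_le_prod' fun j _ => ENNReal.rpow_le_rpow (hW j) hp0.le
          _ = (2 * N) ^ q * ∏ j : Fin k, (∑ i ∈ s.filter (fun i => cell (m + 2) i =
                cell (m + 2) (t j)), c i) ^ p := by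
              simp only [ENNReal.mul_rpow_of_nonneg _ _ hp0.le]
              rw [Finset.prod_mul_distrib, Finset.prod_const, Finset.card_univ, Fintype.card_fin,
                ← ENNReal.mul_rpow_of_nonneg _ _ hp0.le, ← ENNReal.rpow_natCast,
                ← ENNReal.rpow_mul, hpk]
          _ = _ := by
              simp only [hs, hσ, Finset.filter_filter]
      refine h1.trans ?_
      rw [add_assoc]
      refine le_trans ?_ le_self_add
      gcongr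
      exact Finset.single_le_sum (f := fun σ : Fin k → G => ∏ j, (∑ i ∈ S.filter
        (fun i => cell m i = τ ∧ cell (m + 2) i = σ j), c i) ^ p) (fun _ _ => zero_le) hσa
  calc Ph cell c q S m ≤ ∑ τ ∈ univ.image (cell m), ((2 * N) ^ q * ∑ σ ∈ adm cell e h k m τ,
        ∏ j, (∑ i ∈ S.filter (fun i => cell m i = τ ∧ cell (m + 2) i = σ j), c i) ^ p +
      g τ +
      2 ^ q * (N₁ : ℝ≥0∞) ^ p * ∑ σ ∈ univ.image (cell (m + 1)),
        (∑ i ∈ (S.filter (fun i => cell m i = τ)).filter (fun i => cell (m + 1) i = σ), c i) ^ q) :=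
        Finset.sum_le_sum fun τ _ => key τ
    _ = (2 * N) ^ q * Br cell e h k c p S m +
        ∑ τ ∈ univ.image (cell m), g τ +
        2 ^ q * (N₁ : ℝ≥0∞) ^ p * ∑ τ ∈ univ.image (cell m), ∑ σ ∈ univ.image (cell (m + 1)),
        (∑ i ∈ (S.filter (fun i => cell m i = τ)).filter (fun i => cell (m + 1) i = σ), c i) ^ q := by
        rw [Finset.sum_add_distrib, Finset.sum_add_distrib, ← Finset.mul_sum, ← Finset.mul_sum]
        rfl
    _ ≤ _ := by
        refine add_le_add le_rfl (mul_le_mul_right ?_ _)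
        rw [Finset.sum_comm]
        unfold Ph
        refine Finset.sum_le_sum fun σ _ => ?_
        refine (sum_rpow_le _ _ hq1).trans ?_
        refine ENNReal.rpow_le_rpow ?_ hq0
        rw [← Finset.sum_fiberwise_of_maps_to (s := S.filter (fun i => cell (m + 1) i = σ))
          (t := univ.image (cell m)) (g := cell m)
          (fun i _ => Finset.mem_image_of_mem (cell m) (Finset.mem_univ i)) c]
        refine le_of_eq (Finset.sum_congr rfl fun τ _ => ?_)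
        rw [Finset.filter_comm]

end Level

section Core3

variable {n : ℕ}

theorem iter' (φ b f : ℕ → ℝ≥0∞) (L : ℝ≥0∞) (M : ℕ)
    (h : ∀ m < M, φ m ≤ b m + f m + L * φ (m + 1)) :
    φ 0 ≤ ∑ m ∈ range M, L ^ m * (b m + f m) + L ^ M * φ M := by
  induction M with
  | zero => simp
  | succ M ih =>
    refine (ih (fun m hm => h m (by omega))).trans ?_
    rw [Finset.sum_range_succ, add_assoc]
    gcongr
    calc L ^ M * φ M ≤ L ^ M * (b M + f M + L * φ (M + 1)) := by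
          gcongr
          exact h M (by omega)
      _ = _ := by rw [pow_succ]; ring

/-- The sum over the levels. -/
theorem sum_levels' (M : ℕ) (L : ℝ≥0∞) (b f : ℕ → ℝ≥0∞) (φ Sq : ℝ≥0∞) (T W1 W2 W3 : ℝ)
    (hT : (M : ℝ) ≤ T) (hb : ∀ m < M, L ^ m * b m ≤ ENNReal.ofReal W1 * Sq)
    (hf : ∀ m ≤ M, L ^ m ≤ ENNReal.ofReal W2) (hφ : φ ≤ ENNReal.ofReal W3 * Sq) :
    ∑ m ∈ range M, L ^ m * (b m + f m) + L ^ M * φ ≤
      (ENNReal.ofReal T * (ENNReal.ofReal W1 * Sq) + ENNReal.ofReal W2 * ∑ m ∈ range M, f m) +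
        ENNReal.ofReal W2 * (ENNReal.ofReal W3 * Sq) := by
  refine add_le_add ?_ (mul_le_mul' (hf M le_rfl) hφ)
  calc ∑ m ∈ range M, L ^ m * (b m + f m)
      ≤ ∑ m ∈ range M, (ENNReal.ofReal W1 * Sq + ENNReal.ofReal W2 * f m) := by
        refine Finset.sum_le_sum fun m hm => ?_
        rw [Finset.mem_range] at hm
        rw [mul_add]
        exact add_le_add (hb m hm) (mul_le_mul_left (hf m hm.le) _)
    _ = (M : ℝ≥0∞) * (ENNReal.ofReal W1 * Sq) + ENNReal.ofReal W2 * ∑ m ∈ range M, f m := by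
        rw [Finset.sum_add_distrib, Finset.sum_const, Finset.card_range, nsmul_eq_mul,
          Finset.mul_sum]
    _ ≤ _ := by
        refine add_le_add (mul_le_mul_left ?_ _) le_rfl
        rw [← ENNReal.ofReal_natCast]
        exact ENNReal.ofReal_le_ofReal hT

/-- The final arithmetic. -/
theorem final_arith' (f Sq : ℝ≥0∞) (H T Z R vl w d c5 c6 : ℝ) (hH : 0 ≤ H) (hT : 1 ≤ T) (hZ : 1 ≤ Z)
    (hR : 1 ≤ R) (hw : 0 ≤ w) (hwv : w ≤ vl) (hd : 0 ≤ d) (hc5 : 0 ≤ c5) (hc6 : 0 ≤ c6) :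
    ENNReal.ofReal H * ((ENNReal.ofReal T * (ENNReal.ofReal (R * (Z * c5) * vl * d) * Sq) +
      ENNReal.ofReal (R * w) * f) + ENNReal.ofReal (R * w) * (ENNReal.ofReal (c6 * d) * Sq)) ≤
    ENNReal.ofReal (H * (c5 + c6 + 1) * (T * Z * R)) *
      (ENNReal.ofReal (vl * d) * Sq + ENNReal.ofReal w * f) := by
  have hvl : 0 ≤ vl := hw.trans hwv
  have e1 : ENNReal.ofReal H * ((ENNReal.ofReal T * (ENNReal.ofReal (R * (Z * c5) * vl * d) * Sq) +
      ENNReal.ofReal (R * w) * f) + ENNReal.ofReal (R * w) * (ENNReal.ofReal (c6 * d) * Sq)) =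
      ENNReal.ofReal (H * T * (R * (Z * c5) * vl * d) + H * (R * w) * (c6 * d)) * Sq +
      ENNReal.ofReal (H * (R * w)) * f := by
    rw [ENNReal.ofReal_add (by positivity) (by positivity),
      ENNReal.ofReal_mul (p := H * T) (by positivity), ENNReal.ofReal_mul (p := H) (q := T) hH,
      ENNReal.ofReal_mul (p := H * (R * w)) (by positivity),
      ENNReal.ofReal_mul (p := H) (q := R * w) hH]
    ring
  have e2 : ENNReal.ofReal (H * (c5 + c6 + 1) * (T * Z * R)) *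
      (ENNReal.ofReal (vl * d) * Sq + ENNReal.ofReal w * f) =
      ENNReal.ofReal (H * (c5 + c6 + 1) * (T * Z * R) * (vl * d)) * Sq +
      ENNReal.ofReal (H * (c5 + c6 + 1) * (T * Z * R) * w) * f := by
    rw [ENNReal.ofReal_mul (p := H * (c5 + c6 + 1) * (T * Z * R)) (q := vl * d) (by positivity),
      ENNReal.ofReal_mul (p := H * (c5 + c6 + 1) * (T * Z * R)) (q := w) (by positivity)]
    ring
  rw [e1, e2]
  have hTZ : 1 ≤ T * Z := by nlinarith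
  refine add_le_add (mul_le_mul_left (ENNReal.ofReal_le_ofReal ?_) _)
    (mul_le_mul_left (ENNReal.ofReal_le_ofReal ?_) _)
  · have h1 : H * (R * w) * (c6 * d) ≤ H * (R * vl) * (c6 * d) := by gcongr
    have h2 : H * (R * vl) * (c6 * d) ≤ T * Z * (H * (R * vl) * (c6 * d)) := by
      have : 0 ≤ H * (R * vl) * (c6 * d) := by positivity
      nlinarith
    have h3 : 0 ≤ H * (T * Z * R) * (vl * d) := by positivity
    have e3 : H * (c5 + c6 + 1) * (T * Z * R) * (vl * d) =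
        H * T * (R * (Z * c5) * vl * d) + T * Z * (H * (R * vl) * (c6 * d)) +
        H * (T * Z * R) * (vl * d) := by ring
    rw [e3]
    linarith
  · have e3 : H * (c5 + c6 + 1) * (T * Z * R) * w = (T * Z) * (H * (R * w)) +
        (c5 + c6) * (H * (T * Z * R) * w) := by ring
    rw [e3]
    have h2 : H * (R * w) ≤ T * Z * (H * (R * w)) := by
      have : 0 ≤ H * (R * w) := by positivity
      nlinarith
    have h3 : 0 ≤ (c5 + c6) * (H * (T * Z * R) * w) := by positivity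
    linarith

/-- The multiscale inequality for one value of `K`, with a sum over the flat classes. -/
theorem core_aux' {k : ℕ} (hk : 2 ≤ k) (hkn : k ≤ n) (α β A B lam : ℝ) (hα : 0 ≤ α) (hβ : 0 ≤ β)
    (hA : 0 ≤ A) (hB : 1 ≤ B) (hl1 : α * (1 / ((k : ℝ) - 1)) - 1 ≤ lam)
    (hl2 : β * (1 / ((k : ℝ) - 1)) ≤ lam) (R : ℝ)
    (hR : 2 ^ (1 + 1 / ((k : ℝ) - 1)) * (3 ^ n * B) ^ (1 / ((k : ℝ) - 1)) ≤ R) (hR1 : 1 ≤ R)
    {K : ℕ} (hK : (4 : ℝ) ^ k * n ≤ K) {δ : ℝ} (hδ : 0 < δ) (hδ1 : δ ≤ 1)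
    {ι : Type} [Fintype ι] (a e : ι → E n) (he : ∀ i, ‖e i‖ = 1)
    (hDim : ∀ (i : ι) (ρ : ℝ), δ ≤ ρ → (Nat.card {j // ‖e j - e i‖ ≤ ρ} : ℝ) ≤ A * (ρ / δ) ^ α)
    (c : ι → ℝ≥0∞) (hc : ∀ i, c i ≠ ∞) (Gf : ℕ → (Fin n → ℤ) → Finset ι → ℝ≥0∞)
    (M : ℕ) (hM1 : (K : ℝ) ^ M ≤ 1 / δ) (hM2 : 1 / δ < (K : ℝ) ^ (M + 1))
    (hFl : ∀ (S : Finset ι) (m : ℕ), m < M → ∀ (τ : Fin n → ℤ)
        (V : Submodule ℝ (E n)), Module.finrank ℝ V < k →
        ∀ s P : Finset ι, (∀ i, i ∈ s ↔ i ∈ S ∧ cell K e m i = τ) →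
        (∀ i, i ∈ P ↔ i ∈ s ∧ infDist (e i) V ≤ 1 / (K : ℝ) ^ (m + 1)) →
        ∑ i ∈ s, c i ≤ 2 * ∑ i ∈ P, c i →
        (∃ Z : Finset (E n), (Z.card : ℝ) ≤ B * (K : ℝ) ^ β ∧
          ∀ i ∈ P, ∃ z ∈ Z, ‖e i - z‖ ≤ 1 / (K : ℝ) ^ (m + 1)) ∨
        (∑ i ∈ s, c i) ^ (1 + 1 / ((k : ℝ) - 1)) ≤ Gf m τ S) :
    ∫⁻ x, (∑ i ∈ thr δ a e x, c i) ^ (1 + 1 / ((k : ℝ) - 1)) ≤
        ENNReal.ofReal ((3 ^ n) ^ (1 / ((k : ℝ) - 1)) *
          (cc5 n k K (1 / ((k : ℝ) - 1)) α A + cc6 n K (1 / ((k : ℝ) - 1)) α A + 1) *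
          (2 ^ (Real.log (1 / δ) / Real.log K) * (36 ^ n) ^ (Real.log (1 / δ) / Real.log K) *
            R ^ (Real.log (1 / δ) / Real.log K))) *
          (ENNReal.ofReal ((1 / δ) ^ lam * δ ^ (n - 1)) * ∑ i, c i ^ (1 + 1 / ((k : ℝ) - 1)) +
            ENNReal.ofReal ((1 / δ) ^ (β * (1 / ((k : ℝ) - 1)))) *
            ∑ m ∈ range M, ∑ τ ∈ univ.image (cell K e m), ∫⁻ x, Gf m τ (thr δ a e x)) := by
  classical
  have hk2 : (2 : ℝ) ≤ k := by exact_mod_cast hk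
  have hk1 : (0 : ℝ) < (k : ℝ) - 1 := by linarith
  have hn1 : 1 ≤ n := by omega
  have hp0 : 0 < 1 / ((k : ℝ) - 1) := by positivity
  have hn1r : (1 : ℝ) ≤ n := by exact_mod_cast hn1
  have hsn : 1 ≤ √(n : ℝ) := by rwa [Real.one_le_sqrt]
  have h2k : (4 : ℝ) ≤ 2 ^ k := by
    calc (4 : ℝ) = 2 ^ 2 := by norm_num
      _ ≤ 2 ^ k := pow_le_pow_right₀ (by norm_num) hk
  have hsq : √(n : ℝ) * √(n : ℝ) = n := Real.mul_self_sqrt (by positivity)
  have h4k : (4 : ℝ) ^ k = 2 ^ k * 2 ^ k := by rw [← mul_pow]; norm_num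
  have hKn : 2 ^ (k + 2) * √n ≤ (K : ℝ) := by
    refine le_trans ?_ hK
    calc 2 ^ (k + 2) * √(n : ℝ) = (2 ^ k * 4) * (√(n : ℝ) * 1) := by rw [pow_add]; ring
      _ ≤ (2 ^ k * 2 ^ k) * (√(n : ℝ) * √(n : ℝ)) := by gcongr
      _ = _ := by rw [hsq, h4k]
  have hK4 : (4 : ℝ) ≤ K := by
    refine le_trans ?_ hKn
    rw [pow_add]
    nlinarith
  have hK0 : (0 : ℝ) < K := by linarith
  have hK1 : 1 ≤ K := by
    have : (1 : ℝ) ≤ K := by linarith
    exact_mod_cast this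
  have hlogK : 0 < Real.log K := Real.log_pos (by linarith)
  have hG' : 2 / (2 ^ (k + 1) * √n / K) = K / (2 ^ k * √n) := by
    rw [pow_succ]
    field_simp
  have hG2 : (K : ℝ) ≤ (2 / (2 ^ (k + 1) * √n / K)) * (2 / (2 ^ (k + 1) * √n / K)) := by
    rw [hG', div_mul_div_comm, le_div_iff₀ (by positivity)]
    have e1 : (2 : ℝ) ^ k * √n * (2 ^ k * √n) = 4 ^ k * n := by
      rw [h4k]
      linear_combination (2 ^ k * 2 ^ k) * hsq
    rw [e1]
    exact mul_le_mul_of_nonneg_left hK hK0.le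
  have hG0 : 0 < 2 / (2 ^ (k + 1) * √n / K) := by rw [hG']; positivity
  have hbr0 := fun (v : ℝ) (hδv : δ = 1 / v) (hv1 : 1 ≤ v) (m M' : ℕ) hm h1 h2 h3 Z hZ W R
    hR L hL hW => br_level (n := n) hk hkn α β A lam hα hβ hA hl1 hl2 hK1 hKn hδ hδ1 hδv hv1 a e
    he c m M' hm h1 h2 h3 Z hZ W R hR L hL hW
  generalize hG : 2 / (2 ^ (k + 1) * √n / (K : ℝ)) = G at hG2 hG0 hbr0
  have hG1 : 1 < G := by nlinarith
  have hlogG : Real.log K ≤ 2 * Real.log G := by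
    have h1 := Real.log_le_log hK0 hG2
    rw [Real.log_mul hG0.ne' hG0.ne'] at h1
    linarith
  obtain ⟨v, hv⟩ : ∃ v, v = 1 / δ := ⟨_, rfl⟩
  have hv1 : 1 ≤ v := by rw [hv, le_div_iff₀ hδ]; linarith
  have hv0 : 0 < v := by linarith
  have hδv : δ = 1 / v := by rw [hv]; field_simp
  have hlogv : 0 ≤ Real.log v := Real.log_nonneg hv1
  obtain ⟨X, hX⟩ : ∃ X, X = Real.log v / Real.log K := ⟨_, rfl⟩
  have hX0 : 0 ≤ X := by rw [hX]; positivity
  rw [← hv] at hM1 hM2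
  obtain ⟨M', hM'1, hM'2⟩ := exists_nat_pow_near hv1 hG1
  have hKmv : ∀ m ≤ M, (K : ℝ) ^ m ≤ v := fun m hm =>
    (pow_le_pow_right₀ (by linarith) hm).trans hM1
  have hcell : ∀ m, m ≤ M → ∀ τ, (univ.filter (fun i => cell K e m i = τ)).card ≤
      ⌊A * (√n * (v / (K : ℝ) ^ m)) ^ α⌋₊ := fun m hm τ =>
    cell_count hK1 hn1 hδ hδv e hDim m (hKmv m hm) τ
  have hbr1 := fun m (hm : m ≤ M) Z hZ W R hR L hL hW => hbr0 v hδv hv1 m M' (hKmv m hm) hM'1
    hM'2.le (hcell m hm) Z hZ W R hR L hL hW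
  rw [← hv, ← hX]
  have hlst := last_level (k := k) hn1 α A (1 / ((k : ℝ) - 1)) hα hA hp0 hK1 hδ hδ1 hv1 a e he c M
    hM2.le (hcell M le_rfl)
  have hfst := first_level (K := K) (δ := δ) hp0 a e he c
  -- the level inequality
  have hNN1 : 1 ≤ (K ^ 2) ^ n := Nat.one_le_pow _ _ (Nat.pow_pos hK1)
  have hlev0 := fun (m : ℕ) (hh : 0 < (fun m => 1 / (K : ℝ) ^ (m + 1)) m) N₁ x Fl' hF =>
    level' (cell K e) e (fun m => 1 / (K : ℝ) ^ (m + 1)) k hk c hc ((K ^ 2) ^ n) N₁ hNN1 m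
      hh (fun τ => cell_card hK1 e m τ) (thr δ a e x) Fl' hF
  generalize 1 / ((k : ℝ) - 1) = p at hp0 hl1 hl2 hR hbr1 hlst hfst hlev0 hFl ⊢
  -- the narrow constant
  obtain ⟨N₁, hN₁⟩ : ∃ N₁ : ℕ, N₁ = ⌊B * (K : ℝ) ^ β⌋₊ * 3 ^ n := ⟨_, rfl⟩
  have hN₁r : (N₁ : ℝ) ≤ 3 ^ n * B * (K : ℝ) ^ β := by
    rw [hN₁]
    push_cast
    have h7 := Nat.floor_le (by positivity : 0 ≤ B * (K : ℝ) ^ β)
    calc (⌊B * (K : ℝ) ^ β⌋₊ : ℝ) * 3 ^ n ≤ (B * (K : ℝ) ^ β) * 3 ^ n := by gcongr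
      _ = _ := by ring
  obtain ⟨L, hL⟩ : ∃ L : ℝ≥0∞, L = 2 ^ (1 + p) * (N₁ : ℝ≥0∞) ^ p := ⟨_, rfl⟩
  have hLle : L ≤ ENNReal.ofReal (R * (K : ℝ) ^ (β * p)) := by
    have e1 : L = ENNReal.ofReal (2 ^ (1 + p) * (N₁ : ℝ) ^ p) := by
      rw [ENNReal.ofReal_mul (by positivity), ← ENNReal.ofReal_rpow_of_nonneg (by norm_num)
        (by positivity), ← ENNReal.ofReal_rpow_of_nonneg (by positivity) hp0.le,
        ENNReal.ofReal_natCast]
      norm_num [hL]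
    rw [e1]
    refine ENNReal.ofReal_le_ofReal ?_
    calc (2 : ℝ) ^ (1 + p) * (N₁ : ℝ) ^ p ≤ 2 ^ (1 + p) * (3 ^ n * B * (K : ℝ) ^ β) ^ p := by
          gcongr
      _ = 2 ^ (1 + p) * (3 ^ n * B) ^ p * (K : ℝ) ^ (β * p) := by
          rw [Real.mul_rpow (by positivity) (by positivity), ← Real.rpow_mul hK0.le]
          ring
      _ ≤ R * (K : ℝ) ^ (β * p) := by gcongr
  have hR0 : 0 ≤ R := by linarith
  have hRX0 : 0 ≤ R ^ X := by positivity
  have hLm : ∀ m ≤ M, L ^ m ≤ ENNReal.ofReal (R ^ X * ((K : ℝ) ^ m) ^ (β * p)) := by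
    intro m hm
    calc L ^ m ≤ (ENNReal.ofReal (R * (K : ℝ) ^ (β * p))) ^ m := by gcongr
      _ = ENNReal.ofReal (R ^ m * ((K : ℝ) ^ m) ^ (β * p)) := by
        rw [← ENNReal.ofReal_pow (by positivity), mul_pow]
        congr 2
        rw [← Real.rpow_natCast ((K : ℝ) ^ (β * p)), ← Real.rpow_mul hK0.le,
          ← Real.rpow_natCast (K : ℝ) m, ← Real.rpow_mul hK0.le, mul_comm (β * p)]
      _ ≤ _ := by
        refine ENNReal.ofReal_le_ofReal (mul_le_mul_of_nonneg_right ?_ (by positivity))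
        rw [hX]
        exact pow_le_log hR1 (by linarith) (hKmv m hm)
  have hLm2 : ∀ m ≤ M, L ^ m ≤ ENNReal.ofReal (R ^ X * v ^ (β * p)) := by
    intro m hm
    refine (hLm m hm).trans (ENNReal.ofReal_le_ofReal (mul_le_mul_of_nonneg_left ?_ hRX0))
    exact Real.rpow_le_rpow (by positivity) (hKmv m hm) (by positivity)
  have h6M : ((6 : ℝ) ^ M') ^ n ≤ (36 ^ n) ^ X := by
    calc ((6 : ℝ) ^ M') ^ n = (6 ^ n) ^ M' := by rw [← pow_mul, ← pow_mul, mul_comm]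
      _ ≤ (6 ^ n) ^ (Real.log v / Real.log G) :=
          pow_le_log (one_le_pow₀ (by norm_num)) hG1 hM'1
      _ ≤ (6 ^ n) ^ (2 * X) := by
          apply Real.rpow_le_rpow_of_exponent_le (one_le_pow₀ (by norm_num))
          rw [div_le_iff₀ (Real.log_pos hG1), hX, mul_assoc, div_mul_eq_mul_div,
            ← mul_div_assoc, le_div_iff₀ hlogK]
          nlinarith
      _ = (36 ^ n) ^ X := by
          rw [Real.rpow_mul (by positivity)]
          congr 1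
          rw [Real.rpow_ofNat, ← pow_mul, mul_comm, pow_mul]
          norm_num
  have hMv : (M : ℝ) ≤ 2 ^ X := by
    calc (M : ℝ) ≤ 2 ^ M := by exact_mod_cast Nat.lt_two_pow_self.le
      _ ≤ 2 ^ X := by
        rw [hX]
        exact pow_le_log (by norm_num) (by linarith) hM1
  have hlev : ∀ m < M, ∀ x, Ph (cell K e) c (1 + p) (thr δ a e x) m ≤
      (2 * (((K ^ 2) ^ n : ℕ) : ℝ≥0∞)) ^ (1 + p) * Br (cell K e) e
        (fun m => 1 / (K : ℝ) ^ (m + 1)) k c p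
        (thr δ a e x) m + ∑ τ ∈ univ.image (cell K e m), Gf m τ (thr δ a e x) +
      L * Ph (cell K e) c (1 + p) (thr δ a e x) (m + 1) := by
    intro m hm x
    rw [hL]
    refine hlev0 m (by positivity) N₁ x (fun τ => Gf m τ (thr δ a e x)) ?_
    intro τ V hV hW
    rcases hFl (thr δ a e x) m hm τ V hV _ _ (fun i => Finset.mem_filter)
      (fun i => Finset.mem_filter) hW with ⟨Z, hZ, hcov⟩ | h8
    · left
      refine (cell_cover hK1 e (m + 1) _ Z hcov).trans ?_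
      rw [hN₁]
      exact Nat.mul_le_mul_right _ (Nat.le_floor hZ)
    · exact Or.inr h8
  obtain ⟨f, hf⟩ : ∃ f : ℕ → ℝ≥0∞, ∀ m, f m = ∑ τ ∈ univ.image (cell K e m),
    ∫⁻ x, Gf m τ (thr δ a e x) := ⟨_, fun _ => rfl⟩
  have hφ : ∀ m < M, ∫⁻ x, Ph (cell K e) c (1 + p) (thr δ a e x) m ≤
      ((2 * (((K ^ 2) ^ n : ℕ) : ℝ≥0∞)) ^ (1 + p) * ∫⁻ x, Br (cell K e) e
        (fun m => 1 / (K : ℝ) ^ (m + 1)) k c p
        (thr δ a e x) m) + f m + L * ∫⁻ x, Ph (cell K e) c (1 + p) (thr δ a e x) (m + 1) := by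
    intro m hm
    refine (lintegral_mono (hlev m hm)).trans (le_of_eq ?_)
    have m1 : Measurable fun x => Br (cell K e) e (fun m => 1 / (K : ℝ) ^ (m + 1)) k c p
        (thr δ a e x) m :=
      measurable_thr δ a e (fun S => Br (cell K e) e (fun m => 1 / (K : ℝ) ^ (m + 1)) k c p S m)
    have m2 : Measurable fun x => ∑ τ ∈ univ.image (cell K e m), Gf m τ (thr δ a e x) :=
      measurable_thr δ a e (fun S => ∑ τ ∈ univ.image (cell K e m), Gf m τ S)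
    have m3 : Measurable fun x => Ph (cell K e) c (1 + p) (thr δ a e x) (m + 1) :=
      measurable_thr δ a e (fun S => Ph (cell K e) c (1 + p) S (m + 1))
    have m4 : Measurable fun x => (2 * (((K ^ 2) ^ n : ℕ) : ℝ≥0∞)) ^ (1 + p) * Br (cell K e) e
        (fun m => 1 / (K : ℝ) ^ (m + 1)) k c p (thr δ a e x) m := m1.const_mul _
    have m5 : Measurable fun x => (2 * (((K ^ 2) ^ n : ℕ) : ℝ≥0∞)) ^ (1 + p) * Br (cell K e) e
        (fun m => 1 / (K : ℝ) ^ (m + 1)) k c p (thr δ a e x) m +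
        ∑ τ ∈ univ.image (cell K e m), Gf m τ (thr δ a e x) := m4.add m2
    rw [lintegral_add_left m5, lintegral_add_left m4,
      lintegral_const_mul _ m1, lintegral_const_mul _ m3, hf, lintegral_finsetSum]
    intro τ _
    exact measurable_thr δ a e (fun S => Gf m τ S)
  have hit := iter' (fun m => ∫⁻ x, Ph (cell K e) c (1 + p) (thr δ a e x) m)
    (fun m => (2 * (((K ^ 2) ^ n : ℕ) : ℝ≥0∞)) ^ (1 + p) * ∫⁻ x, Br (cell K e) e
      (fun m => 1 / (K : ℝ) ^ (m + 1)) k c p (thr δ a e x) m) f L M hφ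
  simp only [← hf]
  have hbr2 : ∀ m < M, L ^ m * ((2 * (((K ^ 2) ^ n : ℕ) : ℝ≥0∞)) ^ (1 + p) * ∫⁻ x,
      Br (cell K e) e (fun m => 1 / (K : ℝ) ^ (m + 1)) k c p (thr δ a e x) m) ≤
      ENNReal.ofReal (R ^ X * ((36 ^ n) ^ X * cc5 n k K p α A) * v ^ lam * δ ^ (n - 1)) *
        ∑ i, c i ^ (1 + p) := fun m hm =>
    hbr1 m hm.le ((36 ^ n) ^ X) h6M _ (R ^ X) hRX0 (L ^ m) (hLm m hm.le) rfl
  have hsum := sum_levels' M L (fun m => (2 * (((K ^ 2) ^ n : ℕ) : ℝ≥0∞)) ^ (1 + p) * ∫⁻ x,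
      Br (cell K e) e (fun m => 1 / (K : ℝ) ^ (m + 1)) k c p (thr δ a e x) m) f
      (∫⁻ x, Ph (cell K e) c (1 + p) (thr δ a e x) M) (∑ i, c i ^ (1 + p)) (2 ^ X)
      (R ^ X * ((36 ^ n) ^ X * cc5 n k K p α A) * v ^ lam * δ ^ (n - 1)) (R ^ X * v ^ (β * p))
      (cc6 n K p α A * δ ^ (n - 1)) hMv hbr2 hLm2 hlst
  refine hfst.trans ?_
  refine (mul_le_mul_right (hit.trans hsum) _).trans ?_
  exact final_arith' (∑ m ∈ range M, f m) (∑ i, c i ^ (1 + p)) ((3 ^ n) ^ p) (2 ^ X) ((36 ^ n) ^ X) (R ^ X) (v ^ lam)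
    (v ^ (β * p)) (δ ^ (n - 1)) (cc5 n k K p α A) (cc6 n K p α A) (by positivity)
    (Real.one_le_rpow (by norm_num) hX0)
    (Real.one_le_rpow (one_le_pow₀ (by norm_num)) hX0)
    (Real.one_le_rpow hR1 hX0) (by positivity)
    (Real.rpow_le_rpow_of_exponent_le hv1 (by linarith)) (by positivity)
    (cc5_nonneg _ _ _ _ _ _ hA)
    (cc6_nonneg _ _ _ _ _ hA)

/-- The multiscale inequality with a sum over the flat classes, `β = 0`. -/
theorem core3 {k : ℕ} (hk : 2 ≤ k) (hkn : k ≤ n) (α A : ℝ) (hα : 0 ≤ α) (hA : 0 ≤ A) :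
    ∃ C : ℝ, 1 ≤ C ∧ ∀ K : ℕ, C ≤ K → ∀ δ : ℝ, 0 < δ → δ ≤ 1 →
      ∀ (ι : Type) [Fintype ι] (a e : ι → E n), (∀ i, ‖e i‖ = 1) →
      (∀ (i : ι) (ρ : ℝ), δ ≤ ρ → (Nat.card {j // ‖e j - e i‖ ≤ ρ} : ℝ) ≤ A * (ρ / δ) ^ α) →
      ∀ c : ι → ℝ≥0∞, (∀ i, c i ≠ ∞) → ∀ Gf : ℕ → (Fin n → ℤ) → Finset ι → ℝ≥0∞,
      ∀ M : ℕ, (K : ℝ) ^ M ≤ 1 / δ → 1 / δ < (K : ℝ) ^ (M + 1) →
      (∀ (S : Finset ι) (m : ℕ), m < M → ∀ (τ : Fin n → ℤ)
        (V : Submodule ℝ (E n)), Module.finrank ℝ V < k →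
        ∀ s P : Finset ι, (∀ i, i ∈ s ↔ i ∈ S ∧ cell K e m i = τ) →
        (∀ i, i ∈ P ↔ i ∈ s ∧ infDist (e i) V ≤ 1 / (K : ℝ) ^ (m + 1)) →
        ∑ i ∈ s, c i ≤ 2 * ∑ i ∈ P, c i →
        (∑ i ∈ s, c i) ^ (1 + 1 / ((k : ℝ) - 1)) ≤ Gf m τ S) →
      ∫⁻ x, (∑ i ∈ thr δ a e x, c i) ^ (1 + 1 / ((k : ℝ) - 1)) ≤
        ENNReal.ofReal ((K : ℝ) ^ C * C ^ (Real.log (1 / δ) / Real.log K)) *
          (ENNReal.ofReal ((1 / δ) ^ (max (α / ((k : ℝ) - 1) - 1) 0) * δ ^ (n - 1)) *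
              ∑ i, c i ^ (1 + 1 / ((k : ℝ) - 1)) +
            ∑ m ∈ range M, ∑ τ ∈ univ.image (cell K e m), ∫⁻ x, Gf m τ (thr δ a e x)) := by
  have hk2 : (2 : ℝ) ≤ k := by exact_mod_cast hk
  have hk1 : (0 : ℝ) < (k : ℝ) - 1 := by linarith
  have hp0 : 0 < 1 / ((k : ℝ) - 1) := by positivity
  have hn1 : 1 ≤ n := by omega
  obtain ⟨lam, hlam⟩ : ∃ lam, lam = max (α / ((k : ℝ) - 1) - 1) 0 := ⟨_, rfl⟩
  have hl1 : α * (1 / ((k : ℝ) - 1)) - 1 ≤ lam := by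
    have : α / ((k : ℝ) - 1) - 1 ≤ lam := by
      rw [hlam]
      exact le_max_left _ _
    rwa [div_eq_mul_one_div] at this
  have hl2 : (0 : ℝ) * (1 / ((k : ℝ) - 1)) ≤ lam := by
    rw [zero_mul, hlam]
    exact le_max_right _ _
  rw [← hlam]
  obtain ⟨R, hRe⟩ : ∃ R : ℝ, R = 2 ^ (1 + 1 / ((k : ℝ) - 1)) *
    (3 ^ n * 1) ^ (1 / ((k : ℝ) - 1)) := ⟨_, rfl⟩
  have hR1 : 1 ≤ R := by
    have h1 : (1 : ℝ) ≤ 2 ^ (1 + 1 / ((k : ℝ) - 1)) :=
      Real.one_le_rpow (by norm_num) (by positivity)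
    have h2 : (1 : ℝ) ≤ (3 ^ n * 1) ^ (1 / ((k : ℝ) - 1)) := by
      refine Real.one_le_rpow ?_ hp0.le
      have h3 : (1 : ℝ) ≤ 3 ^ n := one_le_pow₀ (by norm_num)
      nlinarith
    rw [hRe]
    nlinarith
  have haux := fun {K : ℕ} hK {δ : ℝ} hδ hδ1 {ι : Type} [Fintype ι] (a e : ι → E n) he hDim c hc
    Gf M hM1 hM2 hFl => core_aux' (n := n) hk hkn α 0 A 1 lam hα le_rfl hA le_rfl hl1 hl2 R
    hRe.ge hR1 (K := K) hK (δ := δ) hδ hδ1 (ι := ι) a e he hDim c hc Gf M hM1 hM2 hFl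
  have h5 := fun {K : ℕ} (hK : 1 ≤ K) => cc5_le n k K hK (1 / ((k : ℝ) - 1)) α A hp0 hα hA
  have h6 := fun {K : ℕ} (hK : 1 ≤ K) => cc6_le n k K hK (1 / ((k : ℝ) - 1)) α A hp0 hA
  generalize 1 / ((k : ℝ) - 1) = p at hp0 hl1 hl2 haux h5 h6 ⊢
  obtain ⟨c₅, hc₅⟩ : ∃ c₅ : ℝ, c₅ = 2 ^ (1 + p) * ((n.factorial : ℝ) * 18 ^ n) * A ^ p *
    √n ^ (α * p) := ⟨_, rfl⟩
  obtain ⟨c₆, hc₆⟩ : ∃ c₆ : ℝ, c₆ = A ^ p * √n ^ (α * p) * ((n.factorial : ℝ) * 6 ^ n) := ⟨_, rfl⟩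
  have hc₅0 : 0 ≤ c₅ := by rw [hc₅]; positivity
  have hc₆0 : 0 ≤ c₆ := by rw [hc₆]; positivity
  rw [← hc₅] at h5
  rw [← hc₆] at h6
  obtain ⟨e0, he0⟩ : ∃ e0 : ℝ, e0 = 2 * n * (1 + p) + 2 * n * k + 2 * n + α * p := ⟨_, rfl⟩
  rw [← he0] at h5 h6
  have he00 : 0 ≤ e0 := by rw [he0]; positivity
  have hCCa : 0 ≤ (4 : ℝ) ^ k * n := by positivity
  have hCCb : 0 ≤ ((3 : ℝ) ^ n) ^ p * (c₅ + c₆ + 1) := by positivity
  have hCCc : 0 ≤ 2 * 36 ^ n * R := by positivity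
  refine ⟨1 + 4 ^ k * n + (e0 + 1) + (3 ^ n) ^ p * (c₅ + c₆ + 1) + 2 * 36 ^ n * R, by linarith,
    fun K hKK δ hδ hδ1 ι _ a e he hDim c hc Gf M hM1 hM2 hFl => ?_⟩
  obtain ⟨CC, hCC⟩ : ∃ CC, CC = 1 + 4 ^ k * n + (e0 + 1) + (3 ^ n) ^ p * (c₅ + c₆ + 1) +
    2 * 36 ^ n * R := ⟨_, rfl⟩
  rw [← hCC] at hKK ⊢
  have hK : (4 : ℝ) ^ k * n ≤ K := by linarith
  have hn1r : (1 : ℝ) ≤ n := by exact_mod_cast hn1
  have h4k : (4 : ℝ) ≤ 4 ^ k := by
    calc (4 : ℝ) = 4 ^ 1 := by norm_num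
      _ ≤ 4 ^ k := pow_le_pow_right₀ (by norm_num) (by omega)
  have hK4 : (4 : ℝ) ≤ K := by nlinarith
  have hK0 : (0 : ℝ) < K := by linarith
  have hK1 : 1 ≤ K := by
    have : (1 : ℝ) ≤ K := by linarith
    exact_mod_cast this
  have hmain := haux hK hδ hδ1 a e he hDim c hc Gf M hM1 hM2
    (fun S m hm τ V hV s P hs hP hW => Or.inr (hFl S m hm τ V hV s P hs hP hW))
  rw [zero_mul, Real.rpow_zero, ENNReal.ofReal_one, one_mul] at hmain
  refine hmain.trans ?_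
  refine mul_le_mul_left (ENNReal.ofReal_le_ofReal ?_) _
  obtain ⟨X, hX⟩ : ∃ X, X = Real.log (1 / δ) / Real.log K := ⟨_, rfl⟩
  have hX0 : 0 ≤ X := by
    rw [hX]
    refine div_nonneg (Real.log_nonneg ?_) (Real.log_nonneg (by linarith))
    rw [le_div_iff₀ hδ]
    linarith
  rw [← hX]
  refine mul_le_mul ?_ ?_ (by positivity) (by positivity)
  · have g1 : 1 ≤ (K : ℝ) ^ e0 := Real.one_le_rpow (by linarith) he00
    have h3n : 0 ≤ ((3 : ℝ) ^ n) ^ p := by positivity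
    calc (3 ^ n) ^ p * (cc5 n k K p α A + cc6 n K p α A + 1) ≤ (3 ^ n) ^ p * (c₅ * (K : ℝ) ^ e0 +
          c₆ * (K : ℝ) ^ e0 + 1 * (K : ℝ) ^ e0) := by
          refine mul_le_mul_of_nonneg_left ?_ h3n
          have := h5 hK1
          have := h6 hK1
          linarith
      _ = ((3 ^ n) ^ p * (c₅ + c₆ + 1)) * (K : ℝ) ^ e0 := by ring
      _ ≤ (K : ℝ) * (K : ℝ) ^ e0 := by
          refine mul_le_mul_of_nonneg_right ?_ (by positivity)
          linarith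
      _ = (K : ℝ) ^ (1 + e0) := by rw [Real.rpow_add hK0, Real.rpow_one]
      _ ≤ (K : ℝ) ^ CC := by
          apply Real.rpow_le_rpow_of_exponent_le (by linarith)
          linarith
  · rw [← Real.mul_rpow (by norm_num) (by positivity), ← Real.mul_rpow (by positivity)
      (by linarith)]
    exact Real.rpow_le_rpow (by positivity) (by linarith) hX0

end Core3

end Pool.Agent.H565.MK
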