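import Pool.Agent.H565.MK.Core2
set_option autoImplicit false

/-!
# The multiscale inequality on a set
-/

namespace Pool.Agent.H565.MK
open MeasureTheory Finset Metric
open scoped ENNReal

section Core4

variable {n : ℕ}

/-- The first level. -/
theorem first_levelG (G : Set (E n)) {K : ℕ} {δ p : ℝ} (hp0 : 0 < p) {ι : Type} [Fintype ι] (a e : ι → E n)
    (he : ∀ i, ‖e i‖ = 1) (c : ι → ℝ≥0∞) :
    ∫⁻ x in G, (∑ i ∈ thr δ a e x, c i) ^ (1 + p) ≤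
      ENNReal.ofReal ((3 ^ n) ^ p) * ∫⁻ x in G, Ph (cell K e) c (1 + p) (thr δ a e x) 0 := by
  classical
  have h0 : ∀ x, (∑ i ∈ thr δ a e x, c i) ^ (1 + p) ≤
      ENNReal.ofReal ((3 ^ n) ^ p) * Ph (cell K e) c (1 + p) (thr δ a e x) 0 := by
    intro x
    have e1 : ∑ i ∈ thr δ a e x, c i = ∑ τ ∈ univ.image (cell K e 0),
        ∑ i ∈ (thr δ a e x).filter (fun i => cell K e 0 i = τ), c i :=
      (Finset.sum_fiberwise_of_maps_to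
        (fun i _ => Finset.mem_image_of_mem (cell K e 0) (Finset.mem_univ i)) c).symm
    rw [e1]
    refine (ENNReal.rpow_sum_le_const_mul_sum_rpow _ _ (by linarith)).trans ?_
    rw [add_sub_cancel_left]
    unfold Ph
    refine mul_le_mul_left ?_ _
    rw [← ENNReal.ofReal_rpow_of_nonneg (by positivity) hp0.le]
    refine ENNReal.rpow_le_rpow ?_ hp0.le
    rw [← ENNReal.ofReal_natCast]
    refine ENNReal.ofReal_le_ofReal ?_
    exact_mod_cast cell_zero_card K e he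
  have hPhm : Measurable fun x => Ph (cell K e) c (1 + p) (thr δ a e x) 0 :=
    measurable_thr δ a e (fun S => Ph (cell K e) c (1 + p) S 0)
  rw [← lintegral_const_mul _ hPhm]
  exact lintegral_mono h0

/-- The multiscale inequality for one value of `K`. -/
theorem core_auxG (G : Set (E n)) {k : ℕ} (hk : 2 ≤ k) (hkn : k ≤ n) (α β A B lam : ℝ) (hα : 0 ≤ α) (hβ : 0 ≤ β)
    (hA : 0 ≤ A) (hB : 1 ≤ B) (hl1 : α * (1 / ((k : ℝ) - 1)) - 1 ≤ lam)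
    (hl2 : β * (1 / ((k : ℝ) - 1)) ≤ lam) (R : ℝ)
    (hR : 2 ^ (1 + 1 / ((k : ℝ) - 1)) * (3 ^ n * B) ^ (1 / ((k : ℝ) - 1)) ≤ R) (hR1 : 1 ≤ R)
    {K : ℕ} (hK : (4 : ℝ) ^ k * n ≤ K) {δ : ℝ} (hδ : 0 < δ) (hδ1 : δ ≤ 1)
    {ι : Type} [Fintype ι] (a e : ι → E n) (he : ∀ i, ‖e i‖ = 1)
    (hDim : ∀ (i : ι) (ρ : ℝ), δ ≤ ρ → (Nat.card {j // ‖e j - e i‖ ≤ ρ} : ℝ) ≤ A * (ρ / δ) ^ α)
    (c : ι → ℝ≥0∞) (hc : ∀ i, c i ≠ ∞) (Fl : Finset ι → ℝ≥0∞)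
    (hFl : ∀ (S : Finset ι) (m : ℕ), δ ≤ 1 / (K : ℝ) ^ (m + 1) → ∀ (τ : Fin n → ℤ)
        (V : Submodule ℝ (E n)), Module.finrank ℝ V < k →
        ∀ s P : Finset ι, (∀ i, i ∈ s ↔ i ∈ S ∧ cell K e m i = τ) →
        (∀ i, i ∈ P ↔ i ∈ s ∧ infDist (e i) V ≤ 1 / (K : ℝ) ^ (m + 1)) →
        ∑ i ∈ s, c i ≤ 2 * ∑ i ∈ P, c i →
        (∃ Z : Finset (E n), (Z.card : ℝ) ≤ B * (K : ℝ) ^ β ∧
          ∀ i ∈ P, ∃ z ∈ Z, ‖e i - z‖ ≤ 1 / (K : ℝ) ^ (m + 1)) ∨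
        ∑ i ∈ s, c i ≤ Fl S) :
    ∫⁻ x in G, (∑ i ∈ thr δ a e x, c i) ^ (1 + 1 / ((k : ℝ) - 1)) ≤
        ENNReal.ofReal ((3 ^ n) ^ (1 / ((k : ℝ) - 1)) *
          (cc5 n k K (1 / ((k : ℝ) - 1)) α A + cc6 n K (1 / ((k : ℝ) - 1)) α A + 1) *
          (2 ^ (Real.log (1 / δ) / Real.log K) * (36 ^ n) ^ (Real.log (1 / δ) / Real.log K) *
            R ^ (Real.log (1 / δ) / Real.log K)) * (1 / δ) ^ lam) *
          (ENNReal.ofReal (δ ^ (n - 1)) * ∑ i, c i ^ (1 + 1 / ((k : ℝ) - 1)) +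
            ∫⁻ x in G, (∑ i ∈ thr δ a e x, c i) * Fl (thr δ a e x) ^ (1 / ((k : ℝ) - 1))) := by
  classical
  have hk2 : (2 : ℝ) ≤ k := by exact_mod_cast hk
  have hk1 : (0 : ℝ) < (k : ℝ) - 1 := by linarith
  have hn1 : 1 ≤ n := by omega
  have hp0 : 0 < 1 / ((k : ℝ) - 1) := by positivity
  have hn1r : (1 : ℝ) ≤ n := by exact_mod_cast hn1
  have hsn : 1 ≤ √(n : ℝ) := by rwa [Real.one_le_sqrt]
  have h2k : (4 : ℝ) ≤ 2 ^ k := by
    calc (4 : ℝ) = 2 ^ 2 := by norm_num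
      _ ≤ 2 ^ k := pow_le_pow_right₀ (by norm_num) hk
  have hsq : √(n : ℝ) * √(n : ℝ) = n := Real.mul_self_sqrt (by positivity)
  have h4k : (4 : ℝ) ^ k = 2 ^ k * 2 ^ k := by rw [← mul_pow]; norm_num
  have hKn : 2 ^ (k + 2) * √n ≤ (K : ℝ) := by
    refine le_trans ?_ hK
    calc 2 ^ (k + 2) * √(n : ℝ) = (2 ^ k * 4) * (√(n : ℝ) * 1) := by rw [pow_add]; ring
      _ ≤ (2 ^ k * 2 ^ k) * (√(n : ℝ) * √(n : ℝ)) := by gcongr
      _ = _ := by rw [hsq, h4k]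
  have hK4 : (4 : ℝ) ≤ K := by
    refine le_trans ?_ hKn
    rw [pow_add]
    nlinarith
  have hK0 : (0 : ℝ) < K := by linarith
  have hK1 : 1 ≤ K := by
    have : (1 : ℝ) ≤ K := by linarith
    exact_mod_cast this
  have hlogK : 0 < Real.log K := Real.log_pos (by linarith)
  have hG' : 2 / (2 ^ (k + 1) * √n / K) = K / (2 ^ k * √n) := by
    rw [pow_succ]
    field_simp
  have hG2 : (K : ℝ) ≤ (2 / (2 ^ (k + 1) * √n / K)) * (2 / (2 ^ (k + 1) * √n / K)) := by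
    rw [hG', div_mul_div_comm, le_div_iff₀ (by positivity)]
    have e1 : (2 : ℝ) ^ k * √n * (2 ^ k * √n) = 4 ^ k * n := by
      rw [h4k]
      linear_combination (2 ^ k * 2 ^ k) * hsq
    rw [e1]
    exact mul_le_mul_of_nonneg_left hK hK0.le
  have hG0 : 0 < 2 / (2 ^ (k + 1) * √n / K) := by rw [hG']; positivity
  have hbr0 := fun (v : ℝ) (hδv : δ = 1 / v) (hv1 : 1 ≤ v) (m M' : ℕ) hm h1 h2 h3 Z hZ W R
    hR L hL hW => br_level (n := n) hk hkn α β A lam hα hβ hA hl1 hl2 hK1 hKn hδ hδ1 hδv hv1 a e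
    he c m M' hm h1 h2 h3 Z hZ W R hR L hL hW
  generalize hG : 2 / (2 ^ (k + 1) * √n / (K : ℝ)) = Gm at hG2 hG0 hbr0
  have hG1 : 1 < Gm := by nlinarith
  have hlogG : Real.log K ≤ 2 * Real.log Gm := by
    have h1 := Real.log_le_log hK0 hG2
    rw [Real.log_mul hG0.ne' hG0.ne'] at h1
    linarith
  obtain ⟨v, hv⟩ : ∃ v, v = 1 / δ := ⟨_, rfl⟩
  have hv1 : 1 ≤ v := by rw [hv, le_div_iff₀ hδ]; linarith
  have hv0 : 0 < v := by linarith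
  have hδv : δ = 1 / v := by rw [hv]; field_simp
  have hlogv : 0 ≤ Real.log v := Real.log_nonneg hv1
  obtain ⟨X, hX⟩ : ∃ X, X = Real.log v / Real.log K := ⟨_, rfl⟩
  have hX0 : 0 ≤ X := by rw [hX]; positivity
  obtain ⟨M, hM1, hM2⟩ := exists_nat_pow_near hv1 (by linarith : (1 : ℝ) < K)
  obtain ⟨M', hM'1, hM'2⟩ := exists_nat_pow_near hv1 hG1
  have hKmv : ∀ m ≤ M, (K : ℝ) ^ m ≤ v := fun m hm =>
    (pow_le_pow_right₀ (by linarith) hm).trans hM1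
  have hcell : ∀ m, m ≤ M → ∀ τ, (univ.filter (fun i => cell K e m i = τ)).card ≤
      ⌊A * (√n * (v / (K : ℝ) ^ m)) ^ α⌋₊ := fun m hm τ =>
    cell_count hK1 hn1 hδ hδv e hDim m (hKmv m hm) τ
  have hbr1 := fun m (hm : m ≤ M) Z hZ W R hR L hL hW => hbr0 v hδv hv1 m M' (hKmv m hm) hM'1
    hM'2.le (hcell m hm) Z hZ W R hR L hL hW
  rw [← hv, ← hX]
  have hlst := last_level (k := k) hn1 α A (1 / ((k : ℝ) - 1)) hα hA hp0 hK1 hδ hδ1 hv1 a e he c M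
    hM2.le (hcell M le_rfl)
  have hfst := first_levelG G (K := K) (δ := δ) hp0 a e he c
  -- the level inequality
  have hNN1 : 1 ≤ (K ^ 2) ^ n := Nat.one_le_pow _ _ (Nat.pow_pos hK1)
  have hlev0 := fun (m : ℕ) (hh : 0 < (fun m => 1 / (K : ℝ) ^ (m + 1)) m) N₁ x Fl' hF =>
    level (cell K e) e (fun m => 1 / (K : ℝ) ^ (m + 1)) k hk c hc ((K ^ 2) ^ n) N₁ hNN1 m
      hh (fun τ => cell_card hK1 e m τ) (thr δ a e x) Fl' hF
  generalize 1 / ((k : ℝ) - 1) = p at hp0 hl1 hl2 hR hbr1 hlst hfst hlev0 ⊢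
  -- the narrow constant
  obtain ⟨N₁, hN₁⟩ : ∃ N₁ : ℕ, N₁ = ⌊B * (K : ℝ) ^ β⌋₊ * 3 ^ n := ⟨_, rfl⟩
  have hN₁r : (N₁ : ℝ) ≤ 3 ^ n * B * (K : ℝ) ^ β := by
    rw [hN₁]
    push_cast
    have h7 := Nat.floor_le (by positivity : 0 ≤ B * (K : ℝ) ^ β)
    calc (⌊B * (K : ℝ) ^ β⌋₊ : ℝ) * 3 ^ n ≤ (B * (K : ℝ) ^ β) * 3 ^ n := by gcongr
      _ = _ := by ring
  obtain ⟨L, hL⟩ : ∃ L : ℝ≥0∞, L = 2 ^ (1 + p) * (N₁ : ℝ≥0∞) ^ p := ⟨_, rfl⟩
  have hLle : L ≤ ENNReal.ofReal (R * (K : ℝ) ^ (β * p)) := by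
    have e1 : L = ENNReal.ofReal (2 ^ (1 + p) * (N₁ : ℝ) ^ p) := by
      rw [ENNReal.ofReal_mul (by positivity), ← ENNReal.ofReal_rpow_of_nonneg (by norm_num)
        (by positivity), ← ENNReal.ofReal_rpow_of_nonneg (by positivity) hp0.le,
        ENNReal.ofReal_natCast]
      norm_num [hL]
    rw [e1]
    refine ENNReal.ofReal_le_ofReal ?_
    calc (2 : ℝ) ^ (1 + p) * (N₁ : ℝ) ^ p ≤ 2 ^ (1 + p) * (3 ^ n * B * (K : ℝ) ^ β) ^ p := by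
          gcongr
      _ = 2 ^ (1 + p) * (3 ^ n * B) ^ p * (K : ℝ) ^ (β * p) := by
          rw [Real.mul_rpow (by positivity) (by positivity), ← Real.rpow_mul hK0.le]
          ring
      _ ≤ R * (K : ℝ) ^ (β * p) := by gcongr
  have hR0 : 0 ≤ R := by linarith
  have hRX0 : 0 ≤ R ^ X := by positivity
  have hLm : ∀ m ≤ M, L ^ m ≤ ENNReal.ofReal (R ^ X * ((K : ℝ) ^ m) ^ (β * p)) := by
    intro m hm
    calc L ^ m ≤ (ENNReal.ofReal (R * (K : ℝ) ^ (β * p))) ^ m := by gcongr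
      _ = ENNReal.ofReal (R ^ m * ((K : ℝ) ^ m) ^ (β * p)) := by
        rw [← ENNReal.ofReal_pow (by positivity), mul_pow]
        congr 2
        rw [← Real.rpow_natCast ((K : ℝ) ^ (β * p)), ← Real.rpow_mul hK0.le,
          ← Real.rpow_natCast (K : ℝ) m, ← Real.rpow_mul hK0.le, mul_comm (β * p)]
      _ ≤ _ := by
        refine ENNReal.ofReal_le_ofReal (mul_le_mul_of_nonneg_right ?_ (by positivity))
        rw [hX]
        exact pow_le_log hR1 (by linarith) (hKmv m hm)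
  have hLm2 : ∀ m ≤ M, L ^ m ≤ ENNReal.ofReal (R ^ X * v ^ lam) := by
    intro m hm
    refine (hLm m hm).trans (ENNReal.ofReal_le_ofReal (mul_le_mul_of_nonneg_left ?_ hRX0))
    have hKm1 : 1 ≤ (K : ℝ) ^ m := one_le_pow₀ (by linarith)
    calc ((K : ℝ) ^ m) ^ (β * p) ≤ v ^ (β * p) :=
          Real.rpow_le_rpow (by positivity) (hKmv m hm) (by positivity)
      _ ≤ v ^ lam := Real.rpow_le_rpow_of_exponent_le hv1 (by linarith)
  have h6M : ((6 : ℝ) ^ M') ^ n ≤ (36 ^ n) ^ X := by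
    calc ((6 : ℝ) ^ M') ^ n = (6 ^ n) ^ M' := by rw [← pow_mul, ← pow_mul, mul_comm]
      _ ≤ (6 ^ n) ^ (Real.log v / Real.log Gm) :=
          pow_le_log (one_le_pow₀ (by norm_num)) hG1 hM'1
      _ ≤ (6 ^ n) ^ (2 * X) := by
          apply Real.rpow_le_rpow_of_exponent_le (one_le_pow₀ (by norm_num))
          rw [div_le_iff₀ (Real.log_pos hG1), hX, mul_assoc, div_mul_eq_mul_div,
            ← mul_div_assoc, le_div_iff₀ hlogK]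
          nlinarith
      _ = (36 ^ n) ^ X := by
          rw [Real.rpow_mul (by positivity)]
          congr 1
          rw [Real.rpow_ofNat, ← pow_mul, mul_comm, pow_mul]
          norm_num
  have hMv : (M : ℝ) ≤ 2 ^ X := by
    calc (M : ℝ) ≤ 2 ^ M := by exact_mod_cast Nat.lt_two_pow_self.le
      _ ≤ 2 ^ X := by
        rw [hX]
        exact pow_le_log (by norm_num) (by linarith) hM1
  have hlev : ∀ m < M, ∀ x, Ph (cell K e) c (1 + p) (thr δ a e x) m ≤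
      (2 * (((K ^ 2) ^ n : ℕ) : ℝ≥0∞)) ^ (1 + p) * Br (cell K e) e
        (fun m => 1 / (K : ℝ) ^ (m + 1)) k c p
        (thr δ a e x) m + (∑ i ∈ thr δ a e x, c i) * Fl (thr δ a e x) ^ p +
      L * Ph (cell K e) c (1 + p) (thr δ a e x) (m + 1) := by
    intro m hm x
    have hδm : δ ≤ 1 / (K : ℝ) ^ (m + 1) := by
      rw [hδv]
      exact one_div_le_one_div_of_le (by positivity) (hKmv (m + 1) hm)
    rw [hL]
    refine hlev0 m (by positivity) N₁ x (Fl (thr δ a e x)) ?_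
    intro τ V hV hW
    rcases hFl (thr δ a e x) m hδm τ V hV _ _ (fun i => Finset.mem_filter)
      (fun i => Finset.mem_filter) hW with ⟨Z, hZ, hcov⟩ | h8
    · left
      refine (cell_cover hK1 e (m + 1) _ Z hcov).trans ?_
      rw [hN₁]
      exact Nat.mul_le_mul_right _ (Nat.le_floor hZ)
    · exact Or.inr h8
  obtain ⟨f, hf⟩ : ∃ f, f = ∫⁻ x in G, (∑ i ∈ thr δ a e x, c i) * Fl (thr δ a e x) ^ p := ⟨_, rfl⟩
  have hφ : ∀ m < M, ∫⁻ x in G, Ph (cell K e) c (1 + p) (thr δ a e x) m ≤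
      ((2 * (((K ^ 2) ^ n : ℕ) : ℝ≥0∞)) ^ (1 + p) * ∫⁻ x in G, Br (cell K e) e
        (fun m => 1 / (K : ℝ) ^ (m + 1)) k c p
        (thr δ a e x) m) + f + L * ∫⁻ x in G, Ph (cell K e) c (1 + p) (thr δ a e x) (m + 1) := by
    intro m hm
    refine (lintegral_mono (hlev m hm)).trans (le_of_eq ?_)
    have m1 : Measurable fun x => Br (cell K e) e (fun m => 1 / (K : ℝ) ^ (m + 1)) k c p
        (thr δ a e x) m :=
      measurable_thr δ a e (fun S => Br (cell K e) e (fun m => 1 / (K : ℝ) ^ (m + 1)) k c p S m)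
    have m2 : Measurable fun x => (∑ i ∈ thr δ a e x, c i) * Fl (thr δ a e x) ^ p :=
      measurable_thr δ a e (fun S => (∑ i ∈ S, c i) * Fl S ^ p)
    have m3 : Measurable fun x => Ph (cell K e) c (1 + p) (thr δ a e x) (m + 1) :=
      measurable_thr δ a e (fun S => Ph (cell K e) c (1 + p) S (m + 1))
    have m4 : Measurable fun x => (2 * (((K ^ 2) ^ n : ℕ) : ℝ≥0∞)) ^ (1 + p) * Br (cell K e) e
        (fun m => 1 / (K : ℝ) ^ (m + 1)) k c p (thr δ a e x) m := m1.const_mul _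
    have m5 : Measurable fun x => (2 * (((K ^ 2) ^ n : ℕ) : ℝ≥0∞)) ^ (1 + p) * Br (cell K e) e
        (fun m => 1 / (K : ℝ) ^ (m + 1)) k c p (thr δ a e x) m +
        (∑ i ∈ thr δ a e x, c i) * Fl (thr δ a e x) ^ p := m4.add m2
    rw [lintegral_add_left m5, lintegral_add_left m4,
      lintegral_const_mul _ m1, lintegral_const_mul _ m3, hf]
  have hit := iter (fun m => ∫⁻ x in G, Ph (cell K e) c (1 + p) (thr δ a e x) m)
    (fun m => (2 * (((K ^ 2) ^ n : ℕ) : ℝ≥0∞)) ^ (1 + p) * ∫⁻ x in G, Br (cell K e) e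
      (fun m => 1 / (K : ℝ) ^ (m + 1)) k c p (thr δ a e x) m) f L M hφ
  rw [← hf]
  have hbr2 : ∀ m < M, L ^ m * ((2 * (((K ^ 2) ^ n : ℕ) : ℝ≥0∞)) ^ (1 + p) * ∫⁻ x in G,
      Br (cell K e) e (fun m => 1 / (K : ℝ) ^ (m + 1)) k c p (thr δ a e x) m) ≤
      ENNReal.ofReal (R ^ X * ((36 ^ n) ^ X * cc5 n k K p α A) * v ^ lam * δ ^ (n - 1)) *
        ∑ i, c i ^ (1 + p) := fun m hm =>
    (mul_le_mul_right (mul_le_mul_right (setLIntegral_le_lintegral G _) _) _).trans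
      (hbr1 m hm.le ((36 ^ n) ^ X) h6M _ (R ^ X) hRX0 (L ^ m) (hLm m hm.le) rfl)
  have hsum := sum_levels M L (fun m => (2 * (((K ^ 2) ^ n : ℕ) : ℝ≥0∞)) ^ (1 + p) * ∫⁻ x in G,
      Br (cell K e) e (fun m => 1 / (K : ℝ) ^ (m + 1)) k c p (thr δ a e x) m) f
      (∫⁻ x in G, Ph (cell K e) c (1 + p) (thr δ a e x) M) (∑ i, c i ^ (1 + p)) (2 ^ X)
      (R ^ X * ((36 ^ n) ^ X * cc5 n k K p α A) * v ^ lam * δ ^ (n - 1)) (R ^ X * v ^ lam)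
      (cc6 n K p α A * δ ^ (n - 1)) hMv hbr2 hLm2
      ((setLIntegral_le_lintegral G _).trans hlst)
  refine hfst.trans ?_
  refine (mul_le_mul_right (hit.trans hsum) _).trans ?_
  exact final_arith f (∑ i, c i ^ (1 + p)) ((3 ^ n) ^ p) (2 ^ X) ((36 ^ n) ^ X) (R ^ X) (v ^ lam)
    (δ ^ (n - 1)) (cc5 n k K p α A) (cc6 n K p α A) (by positivity)
    (Real.one_le_rpow (by norm_num) hX0)
    (Real.one_le_rpow (one_le_pow₀ (by norm_num)) hX0)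
    (Real.one_le_rpow hR1 hX0) (by positivity) (by positivity) (cc5_nonneg _ _ _ _ _ _ hA)
    (cc6_nonneg _ _ _ _ _ hA)

/-- **The multiscale inequality**, with an explicit dependence on `K`. -/
theorem core2G {k : ℕ} (hk : 2 ≤ k) (hkn : k ≤ n) (α β A B : ℝ) (hα : 0 ≤ α) (hβ : 0 ≤ β)
    (hA : 0 ≤ A) (hB : 1 ≤ B) :
    ∃ C : ℝ, 1 ≤ C ∧ ∀ K : ℕ, C ≤ K → ∀ δ : ℝ, 0 < δ → δ ≤ 1 →
      ∀ (ι : Type) [Fintype ι] (a e : ι → E n), (∀ i, ‖e i‖ = 1) →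
      (∀ (i : ι) (ρ : ℝ), δ ≤ ρ → (Nat.card {j // ‖e j - e i‖ ≤ ρ} : ℝ) ≤ A * (ρ / δ) ^ α) →
      ∀ G : Set (E n), ∀ c : ι → ℝ≥0∞, (∀ i, c i ≠ ∞) → ∀ Fl : Finset ι → ℝ≥0∞,
      (∀ (S : Finset ι) (m : ℕ), δ ≤ 1 / (K : ℝ) ^ (m + 1) → ∀ (τ : Fin n → ℤ)
        (V : Submodule ℝ (E n)), Module.finrank ℝ V < k →
        ∀ s P : Finset ι, (∀ i, i ∈ s ↔ i ∈ S ∧ cell K e m i = τ) →
        (∀ i, i ∈ P ↔ i ∈ s ∧ infDist (e i) V ≤ 1 / (K : ℝ) ^ (m + 1)) →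
        ∑ i ∈ s, c i ≤ 2 * ∑ i ∈ P, c i →
        (∃ Z : Finset (E n), (Z.card : ℝ) ≤ B * (K : ℝ) ^ β ∧
          ∀ i ∈ P, ∃ z ∈ Z, ‖e i - z‖ ≤ 1 / (K : ℝ) ^ (m + 1)) ∨
        ∑ i ∈ s, c i ≤ Fl S) →
      ∫⁻ x in G, (∑ i ∈ thr δ a e x, c i) ^ (1 + 1 / ((k : ℝ) - 1)) ≤
        ENNReal.ofReal ((K : ℝ) ^ C * C ^ (Real.log (1 / δ) / Real.log K) *
          (1 / δ) ^ (max (max (α / ((k : ℝ) - 1) - 1) (β / ((k : ℝ) - 1))) 0)) *
          (ENNReal.ofReal (δ ^ (n - 1)) * ∑ i, c i ^ (1 + 1 / ((k : ℝ) - 1)) +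
            ∫⁻ x in G, (∑ i ∈ thr δ a e x, c i) * Fl (thr δ a e x) ^ (1 / ((k : ℝ) - 1))) := by
  have hk2 : (2 : ℝ) ≤ k := by exact_mod_cast hk
  have hk1 : (0 : ℝ) < (k : ℝ) - 1 := by linarith
  have hp0 : 0 < 1 / ((k : ℝ) - 1) := by positivity
  have hn1 : 1 ≤ n := by omega
  obtain ⟨lam, hlam⟩ : ∃ lam, lam = max (max (α / ((k : ℝ) - 1) - 1) (β / ((k : ℝ) - 1))) 0 :=
    ⟨_, rfl⟩
  have hl1 : α * (1 / ((k : ℝ) - 1)) - 1 ≤ lam := by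
    have : α / ((k : ℝ) - 1) - 1 ≤ lam := by
      rw [hlam]
      exact (le_max_left _ _).trans (le_max_left _ _)
    rwa [div_eq_mul_one_div] at this
  have hl2 : β * (1 / ((k : ℝ) - 1)) ≤ lam := by
    have : β / ((k : ℝ) - 1) ≤ lam := by
      rw [hlam]
      exact (le_max_right _ _).trans (le_max_left _ _)
    rwa [div_eq_mul_one_div] at this
  rw [← hlam]
  obtain ⟨R, hRe⟩ : ∃ R : ℝ, R = 2 ^ (1 + 1 / ((k : ℝ) - 1)) * (3 ^ n * B) ^ (1 / ((k : ℝ) - 1)) :=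
    ⟨_, rfl⟩
  have hR1 : 1 ≤ R := by
    have h1 : (1 : ℝ) ≤ 2 ^ (1 + 1 / ((k : ℝ) - 1)) :=
      Real.one_le_rpow (by norm_num) (by positivity)
    have h2 : (1 : ℝ) ≤ (3 ^ n * B) ^ (1 / ((k : ℝ) - 1)) := by
      refine Real.one_le_rpow ?_ hp0.le
      have h3 : (1 : ℝ) ≤ 3 ^ n := one_le_pow₀ (by norm_num)
      nlinarith
    rw [hRe]
    nlinarith
  have haux := fun (G : Set (E n)) {K : ℕ} hK {δ : ℝ} hδ hδ1 {ι : Type} [Fintype ι]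
    (a e : ι → E n) he hDim c hc
    Fl hFl => core_auxG G (n := n) hk hkn α β A B lam hα hβ hA hB hl1 hl2 R hRe.ge hR1 (K := K) hK
    (δ := δ) hδ hδ1 (ι := ι) a e he hDim c hc Fl hFl
  have h5 := fun {K : ℕ} (hK : 1 ≤ K) => cc5_le n k K hK (1 / ((k : ℝ) - 1)) α A hp0 hα hA
  have h6 := fun {K : ℕ} (hK : 1 ≤ K) => cc6_le n k K hK (1 / ((k : ℝ) - 1)) α A hp0 hA
  generalize 1 / ((k : ℝ) - 1) = p at hp0 hl1 hl2 haux h5 h6 ⊢
  obtain ⟨c₅, hc₅⟩ : ∃ c₅ : ℝ, c₅ = 2 ^ (1 + p) * ((n.factorial : ℝ) * 18 ^ n) * A ^ p *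
    √n ^ (α * p) := ⟨_, rfl⟩
  obtain ⟨c₆, hc₆⟩ : ∃ c₆ : ℝ, c₆ = A ^ p * √n ^ (α * p) * ((n.factorial : ℝ) * 6 ^ n) := ⟨_, rfl⟩
  have hc₅0 : 0 ≤ c₅ := by rw [hc₅]; positivity
  have hc₆0 : 0 ≤ c₆ := by rw [hc₆]; positivity
  rw [← hc₅] at h5
  rw [← hc₆] at h6
  obtain ⟨e0, he0⟩ : ∃ e0 : ℝ, e0 = 2 * n * (1 + p) + 2 * n * k + 2 * n + α * p := ⟨_, rfl⟩
  rw [← he0] at h5 h6
  have he00 : 0 ≤ e0 := by rw [he0]; positivity
  have hCCa : 0 ≤ (4 : ℝ) ^ k * n := by positivity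
  have hCCb : 0 ≤ ((3 : ℝ) ^ n) ^ p * (c₅ + c₆ + 1) := by positivity
  have hCCc : 0 ≤ 2 * 36 ^ n * R := by positivity
  refine ⟨1 + 4 ^ k * n + (e0 + 1) + (3 ^ n) ^ p * (c₅ + c₆ + 1) + 2 * 36 ^ n * R, by linarith,
    fun K hKK δ hδ hδ1 ι _ a e he hDim G c hc Fl hFl => ?_⟩
  obtain ⟨CC, hCC⟩ : ∃ CC, CC = 1 + 4 ^ k * n + (e0 + 1) + (3 ^ n) ^ p * (c₅ + c₆ + 1) +
    2 * 36 ^ n * R := ⟨_, rfl⟩
  rw [← hCC] at hKK ⊢
  have hK : (4 : ℝ) ^ k * n ≤ K := by linarith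
  have hn1r : (1 : ℝ) ≤ n := by exact_mod_cast hn1
  have h4k : (4 : ℝ) ≤ 4 ^ k := by
    calc (4 : ℝ) = 4 ^ 1 := by norm_num
      _ ≤ 4 ^ k := pow_le_pow_right₀ (by norm_num) (by omega)
  have hK4 : (4 : ℝ) ≤ K := by nlinarith
  have hK0 : (0 : ℝ) < K := by linarith
  have hK1 : 1 ≤ K := by
    have : (1 : ℝ) ≤ K := by linarith
    exact_mod_cast this
  refine (haux G hK hδ hδ1 a e he hDim c hc Fl hFl).trans ?_
  refine mul_le_mul_left (ENNReal.ofReal_le_ofReal ?_) _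
  obtain ⟨X, hX⟩ : ∃ X, X = Real.log (1 / δ) / Real.log K := ⟨_, rfl⟩
  have hX0 : 0 ≤ X := by
    rw [hX]
    refine div_nonneg (Real.log_nonneg ?_) (Real.log_nonneg (by linarith))
    rw [le_div_iff₀ hδ]
    linarith
  rw [← hX]
  refine mul_le_mul_of_nonneg_right (mul_le_mul ?_ ?_ (by positivity) (by positivity))
    (by positivity)
  · have g1 : 1 ≤ (K : ℝ) ^ e0 := Real.one_le_rpow (by linarith) he00
    have h3n : 0 ≤ ((3 : ℝ) ^ n) ^ p := by positivity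
    calc (3 ^ n) ^ p * (cc5 n k K p α A + cc6 n K p α A + 1) ≤ (3 ^ n) ^ p * (c₅ * (K : ℝ) ^ e0 +
          c₆ * (K : ℝ) ^ e0 + 1 * (K : ℝ) ^ e0) := by
          refine mul_le_mul_of_nonneg_left ?_ h3n
          have := h5 hK1
          have := h6 hK1
          linarith
      _ = ((3 ^ n) ^ p * (c₅ + c₆ + 1)) * (K : ℝ) ^ e0 := by ring
      _ ≤ (K : ℝ) * (K : ℝ) ^ e0 := by
          refine mul_le_mul_of_nonneg_right ?_ (by positivity)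
          linarith
      _ = (K : ℝ) ^ (1 + e0) := by rw [Real.rpow_add hK0, Real.rpow_one]
      _ ≤ (K : ℝ) ^ CC := by
          apply Real.rpow_le_rpow_of_exponent_le (by linarith)
          linarith
  · rw [← Real.mul_rpow (by norm_num) (by positivity), ← Real.mul_rpow (by positivity)
      (by linarith)]
    exact Real.rpow_le_rpow (by positivity) (by linarith) hX0

end Core4

end Pool.Agent.H565.MK
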