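import Pool.Agent.H565.MK.Cor
import Pool.Graph.R_pool_sql_team_seeded_1acbe0a2.Results.MP_850839_an.LossRemoval
set_option autoImplicit false

/-!
# The equivalence of the tube inequality with the inequality for the flat parts
-/

namespace Pool.Agent.H565.MK
open MeasureTheory Finset Metric
open scoped ENNReal
open Pool.Agent.Results.MP_850839_an.LossRemoval (Holds holds_iff)

section Equiv

variable {n : ℕ}

theorem mult_eq {ι : Type} [Fintype ι] (δ : ℝ) (a e : ι → E n) (x : E n) :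
    mult δ a e x = Pool.Agent.Y254.mult (fun i => Pool.Agent.W46.KK.tube δ (a i) (e i)) x := rfl

/-- The absorbed inequality for `k = n`. -/
theorem absorbed (hn : 2 ≤ n) (B : ℝ) (hB : 1 ≤ B) :
    ∃ C : ℝ, 1 ≤ C ∧ ∀ K : ℕ, C ≤ K → ∀ δ : ℝ, 0 < δ → δ < 1 →
      ∀ (ι : Type) [Fintype ι] (a e : ι → E n), (∀ i, ‖e i‖ = 1) →
      (∀ i j, i ≠ j → δ ≤ ‖e i - e j‖) →
      ∫⁻ x, mult δ a e x ^ (1 + 1 / ((n : ℝ) - 1)) ≤
        ENNReal.ofReal ((K : ℝ) ^ C * C ^ (Real.log (1 / δ) / Real.log K)) *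
          (ENNReal.ofReal (δ ^ (n - 1)) * Fintype.card ι +
            ∫⁻ x, flatMult n K B δ a e x ^ (1 + 1 / ((n : ℝ) - 1))) := by
  have hn2 : (2 : ℝ) ≤ n := by exact_mod_cast hn
  have hn1 : (0 : ℝ) < (n : ℝ) - 1 := by linarith
  have hp0 : 0 < 1 / ((n : ℝ) - 1) := by positivity
  obtain ⟨C, hC1, hC⟩ := mult_le_sep (n := n) hn le_rfl 0 B le_rfl hB
  have hCn : 1 ≤ C ^ (n + 1 : ℝ) := Real.one_le_rpow hC1 (by positivity)
  refine ⟨(C + 1) * (n + 1) + C ^ (n + 1 : ℝ) + 2, by nlinarith, ?_⟩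
  intro K hK δ hδ hδ1 ι _ a e he hsep
  have hKC : C ≤ K := by nlinarith
  have hK2 : (2 : ℝ) ≤ K := by nlinarith
  have hK0 : (0 : ℝ) < K := by linarith
  have h := hC K hKC δ hδ hδ1 ι a e he hsep
  have e1 : max ((n : ℝ) - n) 0 / ((n : ℝ) - 1) = 0 := by
    rw [sub_self, max_self, zero_div]
  rw [e1, Real.rpow_zero, mul_one, Real.rpow_zero, mul_one] at h
  have hv1 : 1 ≤ 1 / δ := by rw [le_div_iff₀ hδ]; linarith
  have hX0 : 0 ≤ Real.log (1 / δ) / Real.log K :=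
    div_nonneg (Real.log_nonneg hv1) (Real.log_nonneg (by linarith))
  generalize hX : Real.log (1 / δ) / Real.log K = X at h hX0
  have hCX : 1 ≤ C ^ X := Real.one_le_rpow hC1 hX0
  have hKC1 : 1 ≤ (K : ℝ) ^ C := Real.one_le_rpow (by linarith) (by linarith)
  have hL1 : 1 ≤ (K : ℝ) ^ C * C ^ X := by nlinarith
  have hab := absorb volume hp0 (mult δ a e) (flatMult n K B δ a e) (measurable_mult δ a e)
    (measurable_flatMult n K B δ a e) ((K : ℝ) ^ C * C ^ X) hL1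
    (ENNReal.ofReal (δ ^ (n - 1)) * Fintype.card ι)
    (int_pow_lt_top (by omega) hδ hδ1.le a e he (by linarith)).ne h
  refine hab.trans (mul_le_mul_left (ENNReal.ofReal_le_ofReal ?_) _)
  have e2 : 2 + 1 / (1 / ((n : ℝ) - 1)) = (n : ℝ) + 1 := by
    field_simp
    ring
  rw [e2]
  have hC0 : 0 < C := by linarith
  calc (2 * ((K : ℝ) ^ C * C ^ X)) ^ ((n : ℝ) + 1)
      ≤ ((K : ℝ) * ((K : ℝ) ^ C * C ^ X)) ^ ((n : ℝ) + 1) := by
        refine Real.rpow_le_rpow (by positivity) ?_ (by positivity)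
        exact mul_le_mul_of_nonneg_right hK2 (by positivity)
    _ = (K : ℝ) ^ ((C + 1) * ((n : ℝ) + 1)) * (C ^ ((n : ℝ) + 1)) ^ X := by
        have e3 : (K : ℝ) * ((K : ℝ) ^ C * C ^ X) = (K : ℝ) ^ (C + 1) * C ^ X := by
          rw [Real.rpow_add hK0, Real.rpow_one]
          ring
        rw [e3, Real.mul_rpow (by positivity) (by positivity), ← Real.rpow_mul hK0.le,
          ← Real.rpow_mul hC0.le, ← Real.rpow_mul hC0.le, mul_comm X]
    _ ≤ (K : ℝ) ^ ((C + 1) * (n + 1) + C ^ (n + 1 : ℝ) + 2) *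
        ((C + 1) * (n + 1) + C ^ (n + 1 : ℝ) + 2) ^ X := by
        refine mul_le_mul ?_ ?_ (by positivity) (by positivity)
        · apply Real.rpow_le_rpow_of_exponent_le (by linarith)
          linarith
        · refine Real.rpow_le_rpow (by positivity) ?_ hX0
          nlinarith

/-- The inequality for the flat parts. -/
def FlatInequality (n K : ℕ) (B δ D : ℝ) : Prop :=
  ∀ (ι : Type) [Fintype ι] (a e : ι → E n), (∀ i, ‖e i‖ = 1) →
    (∀ i j, i ≠ j → δ ≤ ‖e i - e j‖) →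
    ∫⁻ x, flatMult n K B δ a e x ^ ((n : ℝ) / ((n : ℝ) - 1)) ≤
      ENNReal.ofReal (D * (δ ^ (n - 1) * Fintype.card ι))

theorem exp_eq (hn : 2 ≤ n) : (n : ℝ) / ((n : ℝ) - 1) = 1 + 1 / ((n : ℝ) - 1) := by
  have hn2 : (2 : ℝ) ≤ n := by exact_mod_cast hn
  have hn1 : (0 : ℝ) < (n : ℝ) - 1 := by linarith
  field_simp
  ring

/-- The inequality for the flat parts implies the tube inequality with a loss. -/
theorem flat_imp_loss (hn : 2 ≤ n) (B : ℝ) (hB : 1 ≤ B)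
    (h : ∀ ε : ℝ, 0 < ε → ∀ K₁ : ℕ, ∃ C : ℝ, 0 < C ∧ ∀ δ : ℝ, 0 < δ → δ < 1 →
      ∃ K : ℕ, K₁ ≤ K ∧ (K : ℝ) ≤ C * δ ^ (-ε) ∧ FlatInequality n K B δ (C * δ ^ (-ε)))
    (ε : ℝ) (hε : 0 < ε) : ∃ C : ℝ, 0 ≤ C ∧ ∀ δ : ℝ, 0 < δ → δ < 1 →
      ∀ (ι : Type) [Fintype ι] (a e : ι → E n), (∀ i, ‖e i‖ = 1) →
      (∀ i j, i ≠ j → δ ≤ ‖e i - e j‖) →
      ∫⁻ x, mult δ a e x ^ ((n : ℝ) / ((n : ℝ) - 1)) ≤
        ENNReal.ofReal (C * (δ ^ (-ε) * (δ ^ (n - 1) * Fintype.card ι))) := by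
  obtain ⟨C₁, hC₁, hab⟩ := absorbed hn B hB
  have hlC : 0 ≤ Real.log C₁ := Real.log_nonneg hC₁
  have hC₁0 : 0 < C₁ := by linarith
  obtain ⟨ε₀, hε₀⟩ : ∃ ε₀ : ℝ, ε₀ = ε / (4 * (C₁ + 1)) := ⟨_, rfl⟩
  have hε₀0 : 0 < ε₀ := by rw [hε₀]; positivity
  have hε₀a : ε₀ * C₁ ≤ ε / 4 := by
    rw [hε₀, div_mul_eq_mul_div, div_le_div_iff₀ (by positivity) (by norm_num)]
    nlinarith
  have hε₀b : ε₀ ≤ ε / 4 := by
    rw [hε₀, div_le_div_iff₀ (by positivity) (by norm_num)]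
    nlinarith
  obtain ⟨C, hC0, hC⟩ := h ε₀ hε₀0 (⌈C₁⌉₊ + ⌈Real.exp (4 * Real.log C₁ / ε)⌉₊ + 2)
  refine ⟨C ^ C₁ * (1 + C), by positivity, ?_⟩
  intro δ hδ hδ1 ι _ a e he hsep
  obtain ⟨K, hK1, hK2, hFI⟩ := hC δ hδ hδ1
  obtain ⟨v, hv⟩ : ∃ v, v = 1 / δ := ⟨_, rfl⟩
  have hv1 : 1 ≤ v := by rw [hv, le_div_iff₀ hδ]; linarith
  have hv0 : 0 < v := by linarith
  have hδv : ∀ s : ℝ, δ ^ (-s) = v ^ s := by
    intro s
    rw [hv, one_div, Real.inv_rpow hδ.le, Real.rpow_neg hδ.le]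
  have hK1r : (⌈C₁⌉₊ : ℝ) + ⌈Real.exp (4 * Real.log C₁ / ε)⌉₊ + 2 ≤ K := by exact_mod_cast hK1
  have hKa : C₁ ≤ K := by
    have := Nat.le_ceil C₁
    have h2 : (0 : ℝ) ≤ ⌈Real.exp (4 * Real.log C₁ / ε)⌉₊ := Nat.cast_nonneg _
    linarith
  have hKb : Real.exp (4 * Real.log C₁ / ε) ≤ K := by
    have := Nat.le_ceil (Real.exp (4 * Real.log C₁ / ε))
    have h2 : (0 : ℝ) ≤ ⌈C₁⌉₊ := Nat.cast_nonneg _
    linarith
  have hKc : (2 : ℝ) ≤ K := by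
    have h2 : (0 : ℝ) ≤ ⌈C₁⌉₊ := Nat.cast_nonneg _
    have h3 : (0 : ℝ) ≤ ⌈Real.exp (4 * Real.log C₁ / ε)⌉₊ := Nat.cast_nonneg _
    linarith
  have hK0 : (0 : ℝ) < K := by linarith
  have hlK : 0 < Real.log K := Real.log_pos (by linarith)
  have hlK2 : 4 * Real.log C₁ / ε ≤ Real.log K := by
    rwa [Real.le_log_iff_exp_le hK0]
  have hlv : 0 ≤ Real.log v := Real.log_nonneg hv1
  have hX : C₁ ^ (Real.log v / Real.log K) ≤ v ^ (ε / 4) := by
    rw [Real.rpow_def_of_pos hC₁0, Real.rpow_def_of_pos hv0]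
    apply Real.exp_le_exp.2
    rw [mul_div_assoc', div_le_iff₀ hlK]
    rw [div_le_iff₀ hε] at hlK2
    nlinarith
  have hKC : (K : ℝ) ^ C₁ ≤ C ^ C₁ * v ^ (ε / 4) := by
    rw [hδv] at hK2
    calc (K : ℝ) ^ C₁ ≤ (C * v ^ ε₀) ^ C₁ := Real.rpow_le_rpow hK0.le hK2 hC₁0.le
      _ = C ^ C₁ * v ^ (ε₀ * C₁) := by
        rw [Real.mul_rpow hC0.le (by positivity), ← Real.rpow_mul hv0.le]
      _ ≤ C ^ C₁ * v ^ (ε / 4) := by
        refine mul_le_mul_of_nonneg_left ?_ (by positivity)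
        exact Real.rpow_le_rpow_of_exponent_le hv1 hε₀a
  have h1 := hab K hKa δ hδ hδ1 ι a e he hsep
  have h2 := hFI ι a e he hsep
  rw [exp_eq hn] at h2 ⊢
  rw [← hv] at h1
  have hcard : ENNReal.ofReal (δ ^ (n - 1)) * Fintype.card ι =
      ENNReal.ofReal (δ ^ (n - 1) * Fintype.card ι) := by
    rw [ENNReal.ofReal_mul (by positivity), ENNReal.ofReal_natCast]
  rw [hcard] at h1
  refine h1.trans ?_
  refine (mul_le_mul_right (add_le_add_right h2 _) _).trans ?_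
  rw [← ENNReal.ofReal_add (by positivity) (by rw [hδv]; positivity),
    ← ENNReal.ofReal_mul (by positivity)]
  refine ENNReal.ofReal_le_ofReal ?_
  obtain ⟨Y, hY⟩ : ∃ Y, Y = δ ^ (n - 1) * (Fintype.card ι : ℝ) := ⟨_, rfl⟩
  have hY0 : 0 ≤ Y := by rw [hY]; positivity
  rw [← hY, hδv, hδv]
  have hve : v ^ ε₀ ≤ v ^ (ε / 4) := Real.rpow_le_rpow_of_exponent_le hv1 hε₀b
  have hv4 : 1 ≤ v ^ (ε / 4) := Real.one_le_rpow hv1 (by positivity)
  calc (K : ℝ) ^ C₁ * C₁ ^ (Real.log v / Real.log K) * (Y + C * v ^ ε₀ * Y)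
      ≤ (C ^ C₁ * v ^ (ε / 4)) * v ^ (ε / 4) * (v ^ (ε / 4) * Y + C * v ^ (ε / 4) * Y) := by
        refine mul_le_mul (mul_le_mul hKC hX (by positivity) (by positivity)) ?_
          (by positivity) (by positivity)
        refine add_le_add ?_ ?_
        · nlinarith
        · refine mul_le_mul_of_nonneg_right (mul_le_mul_of_nonneg_left hve hC0.le) hY0
    _ = C ^ C₁ * (1 + C) * ((v ^ (ε / 4) * v ^ (ε / 4) * v ^ (ε / 4)) * Y) := by ring
    _ ≤ C ^ C₁ * (1 + C) * (v ^ ε * Y) := by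
        refine mul_le_mul_of_nonneg_left (mul_le_mul_of_nonneg_right ?_ hY0) (by positivity)
        rw [← Real.rpow_add hv0, ← Real.rpow_add hv0]
        exact Real.rpow_le_rpow_of_exponent_le hv1 (by linarith)

/-- **The tube inequality of the problem is equivalent to the inequality for the flat parts.** -/
theorem equivalence (hn : 3 ≤ n) (B : ℝ) (hB : 1 ≤ B) :
    (∀ q : ℝ, (n : ℝ) / ((n : ℝ) - 1) < q → ∃ C : ℝ, 0 < C ∧ ∀ δ : ℝ, 0 < δ → δ < 1 →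
      Holds n q δ C) ↔
    (∀ ε : ℝ, 0 < ε → ∀ K₁ : ℕ, ∃ C : ℝ, 0 < C ∧ ∀ δ : ℝ, 0 < δ → δ < 1 →
      ∃ K : ℕ, K₁ ≤ K ∧ (K : ℝ) ≤ C * δ ^ (-ε) ∧ FlatInequality n K B δ (C * δ ^ (-ε))) := by
  obtain ⟨d, rfl⟩ : ∃ d, n = d + 1 := ⟨n - 1, by omega⟩
  have hd : 2 ≤ d := by omega
  have hdr : (2 : ℝ) ≤ (d : ℝ) := by exact_mod_cast hd
  have hd0 : (0 : ℝ) < d := by linarith
  rw [Pool.Agent.Results.MP_850839_an.LossRemoval.result (d + 1) hn _ le_rfl]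
  have e1 : (((d + 1 : ℕ) : ℝ)) / ((((d + 1 : ℕ) : ℝ)) - 1) = 1 + 1 / (d : ℝ) := by
    push_cast
    rw [add_sub_cancel_right, add_div, div_self hd0.ne']
  have hq0 : (0 : ℝ) < 1 + 1 / (d : ℝ) := by positivity
  have e2 : (1 : ℝ) + 1 / (d : ℝ) - 1 / (d : ℝ) = 1 := by ring
  constructor
  · intro h ε hε K₁
    obtain ⟨C, hC, hH⟩ := h (ε / (1 + 1 / (d : ℝ))) (by positivity)
    refine ⟨K₁ + C ^ (1 + 1 / (d : ℝ)), by positivity, ?_⟩
    intro δ hδ hδ1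
    have hδε : 1 ≤ δ ^ (-ε) := by
      rw [Real.rpow_neg hδ.le]
      exact (one_le_inv₀ (by positivity)).2 (Real.rpow_le_one hδ.le hδ1.le hε.le)
    have hCq : 0 < C ^ (1 + 1 / (d : ℝ)) := by positivity
    refine ⟨K₁, le_rfl, ?_, ?_⟩
    · have hK₁ : (0 : ℝ) ≤ K₁ := Nat.cast_nonneg _
      nlinarith
    · intro ι _ a e he hsep
      rw [e1]
      have h1 := hH δ hδ hδ1
      rw [e1, holds_iff hd hq0 hδ (by positivity)] at h1
      have h2 := h1 ι a e he hsep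
      rw [e2, Real.rpow_one] at h2
      refine (lintegral_mono fun x => ENNReal.rpow_le_rpow
        (flatMult_le (d + 1) K₁ B δ a e x) hq0.le).trans (h2.trans ?_)
      refine ENNReal.ofReal_le_ofReal ?_
      rw [Nat.add_sub_cancel, Real.mul_rpow hC.le (by positivity), ← Real.rpow_mul hδ.le]
      have e3 : -(ε / (1 + 1 / (d : ℝ))) * (1 + 1 / (d : ℝ)) = -ε := by
        field_simp
      rw [e3]
      refine mul_le_mul_of_nonneg_right (mul_le_mul_of_nonneg_right ?_ (by positivity))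
        (by positivity)
      have hK₁ : (0 : ℝ) ≤ K₁ := Nat.cast_nonneg _
      linarith
  · intro h ε hε
    obtain ⟨C, hC, hL⟩ := flat_imp_loss (by omega) B hB h (ε * (1 + 1 / (d : ℝ))) (by positivity)
    refine ⟨(C + 1) ^ (1 / (1 + 1 / (d : ℝ))), by positivity, ?_⟩
    intro δ hδ hδ1
    rw [e1, holds_iff hd hq0 hδ (by positivity)]
    intro ι _ a e he hsep
    have h2 := hL δ hδ hδ1 ι a e he hsep
    rw [e1, Nat.add_sub_cancel] at h2
    refine h2.trans (ENNReal.ofReal_le_ofReal ?_)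
    rw [e2, Real.rpow_one, Real.mul_rpow (by positivity) (by positivity),
      ← Real.rpow_mul (by positivity), ← Real.rpow_mul hδ.le,
      one_div_mul_cancel hq0.ne', Real.rpow_one, neg_mul]
    rw [← mul_assoc]
    refine mul_le_mul_of_nonneg_right (mul_le_mul_of_nonneg_right ?_ (by positivity))
      (by positivity)
    linarith

end Equiv

end Pool.Agent.H565.MK
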