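import Pool.Agent.H565.MK.Lin
set_option autoImplicit false

/-!
# Extension of a transversal family of directions to a basis, with a bound for the determinant
-/

namespace Pool.Agent.H565.MK
open MeasureTheory Finset Metric
open scoped ENNReal

section Ext

variable {n : ℕ}

theorem dt_le (J : Finset (Fin n)) (j₀ : Fin n) (hj₀ : j₀ ∈ J) (v : Fin n → E n) (ρ D : ℝ)
    (hρ : 0 < ρ) (hD : 1 ≤ D) (h0 : ‖v j₀‖ ≤ 1) (h1 : ∀ j ∈ J, ‖v j - v j₀‖ ≤ D * ρ)
    (h2 : ∀ j, j ∉ J → ‖v j‖ ≤ ρ) :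
    |dt v| ≤ (n.factorial : ℝ) * D ^ n * ρ ^ (n - 1) := by
  classical
  set v' : Fin n → E n := fun j => if j ∈ J ∧ j ≠ j₀ then v j - v j₀ else v j with hv'
  have hv'0 : v' j₀ = v j₀ := by simp [hv']
  have hdet : dt v = dt v' := by
    unfold dt
    refine Matrix.det_eq_of_forall_row_eq_smul_add_const
      (fun j => if j ∈ J ∧ j ≠ j₀ then (1 : ℝ) else 0) j₀ (by simp) ?_
    intro j l
    simp only [Matrix.of_apply, hv'0]
    simp only [hv']
    split_ifs with h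
    · simp
    · simp
  set s : Fin n → ℝ := fun j => if j = j₀ then 1 else ρ with hs
  have hs0 : ∀ j, 0 < s j := by
    intro j
    simp only [hs]
    split_ifs
    · exact one_pos
    · exact hρ
  set B : Matrix (Fin n) (Fin n) ℝ := Matrix.of fun j l => v' j l / s j with hB
  have hdet2 : dt v' = (∏ j, s j) * B.det := by
    rw [← Matrix.det_mul_column]
    unfold dt
    congr 1
    ext j l
    simp only [Matrix.of_apply, hB]
    have := hs0 j
    field_simp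
  have hprod : ∏ j, s j = ρ ^ (n - 1) := by
    rw [← Finset.mul_prod_erase Finset.univ s (Finset.mem_univ j₀)]
    have e1 : s j₀ = 1 := by simp [hs]
    rw [e1, one_mul, Finset.prod_congr rfl (g := fun _ => ρ)]
    · rw [Finset.prod_const, Finset.card_erase_of_mem (Finset.mem_univ _), Finset.card_univ,
        Fintype.card_fin]
    · intro j hj
      have := Finset.ne_of_mem_erase hj
      simp [hs, this]
  have hent : ∀ j l, |B j l| ≤ D := by
    intro j l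
    simp only [hB, Matrix.of_apply, abs_div, abs_of_pos (hs0 j)]
    rw [div_le_iff₀ (hs0 j)]
    have hc : ∀ x : E n, |x l| ≤ ‖x‖ := by
      intro x
      have := PiLp.norm_apply_le x l
      rwa [Real.norm_eq_abs] at this
    by_cases hj0 : j = j₀
    · have e1 : s j = 1 := by simp [hs, hj0]
      rw [e1, hj0, hv'0, mul_one]
      exact ((hc _).trans h0).trans hD
    · have e1 : s j = ρ := by simp [hs, hj0]
      rw [e1]
      by_cases hj : j ∈ J
      · have e2 : v' j = v j - v j₀ := by simp [hv', hj, hj0]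
        rw [e2]
        exact (hc _).trans (h1 j hj)
      · have e2 : v' j = v j := by simp [hv', hj]
        rw [e2]
        refine ((hc _).trans (h2 j hj)).trans ?_
        nlinarith
  have hB1 : |B.det| ≤ (n.factorial : ℝ) * D ^ n := by
    have h3 := Matrix.det_le (A := B) (abv := AbsoluteValue.abs) (x := D) hent
    rw [Fintype.card_fin, nsmul_eq_mul] at h3
    exact h3
  rw [hdet, hdet2, hprod, abs_mul, abs_of_pos (by positivity : (0 : ℝ) < ρ ^ (n - 1))]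
  calc ρ ^ (n - 1) * |B.det| ≤ ρ ^ (n - 1) * ((n.factorial : ℝ) * D ^ n) := by gcongr
    _ = _ := by ring

/-- Extension to a basis. -/
theorem exists_ext (J : Finset (Fin n)) (w : Fin n → E n) (ρ θ : ℝ) (hρ : 0 < ρ)
    (hθρ : θ ≤ ρ) (hθ : ∀ (lam : Fin n → ℝ), ∀ j ∈ J, θ * |lam j| ≤ ‖∑ l ∈ J, lam l • w l‖) :
    ∃ v : Fin n → E n, (∀ j ∈ J, v j = w j) ∧ (∀ j, j ∉ J → ‖v j‖ ≤ ρ) ∧
      ∀ (lam : Fin n → ℝ) (j : Fin n), θ * |lam j| ≤ ‖∑ l, lam l • v l‖ := by
  classical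
  set V : Submodule ℝ (E n) := Submodule.span ℝ ((J.image w : Finset (E n)) : Set (E n)) with hV
  have hVr : Module.finrank ℝ V ≤ J.card :=
    (finrank_span_finset_le_card (R := ℝ) (J.image w)).trans Finset.card_image_le
  have hVp : Fintype.card {j // j ∉ J} ≤ Fintype.card (Fin (Module.finrank ℝ Vᗮ)) := by
    have h1 := Submodule.finrank_add_finrank_orthogonal V
    rw [finrank_euclideanSpace_fin] at h1
    rw [Fintype.card_fin]
    have h2 : Fintype.card {j // j ∉ J} = n - J.card := by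
      rw [Fintype.card_subtype_compl, Fintype.card_fin]
      simp
    rw [h2]
    omega
  obtain ⟨f⟩ := Function.Embedding.nonempty_of_card_le hVp
  set g : Fin n → E n := fun j => if h : j ∉ J then
    ((stdOrthonormalBasis ℝ Vᗮ (f ⟨j, h⟩) : Vᗮ) : E n) else 0 with hg
  have hgo : ∀ j l, j ∉ J → l ∉ J → inner ℝ (g j) (g l) = if j = l then (1 : ℝ) else 0 := by
    intro j l hj hl
    simp only [hg, dif_pos hj, dif_pos hl]
    rw [← Submodule.coe_inner, orthonormal_iff_ite.1 (stdOrthonormalBasis ℝ Vᗮ).orthonormal]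
    by_cases hjl : j = l
    · subst hjl
      simp
    · have : f ⟨j, hj⟩ ≠ f ⟨l, hl⟩ := fun h => hjl (by simpa using f.injective h)
      rw [if_neg this, if_neg hjl]
  have hgV : ∀ j, j ∉ J → ∀ x ∈ V, inner ℝ x (g j) = 0 := by
    intro j hj x hx
    simp only [hg, dif_pos hj]
    exact (Submodule.mem_orthogonal V _).1 (stdOrthonormalBasis ℝ Vᗮ (f ⟨j, hj⟩)).2 x hx
  have hgn : ∀ j, j ∉ J → ‖g j‖ = 1 := by
    intro j hj
    have h1 := hgo j j hj hj
    rw [if_pos rfl, real_inner_self_eq_norm_sq] at h1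
    nlinarith [norm_nonneg (g j)]
  have hwV : ∀ j ∈ J, w j ∈ V := fun j hj =>
    Submodule.subset_span (Finset.mem_coe.2 (Finset.mem_image_of_mem w hj))
  set v : Fin n → E n := fun j => if j ∈ J then w j else ρ • g j with hv
  refine ⟨v, fun j hj => by simp [hv, hj], fun j hj => ?_, ?_⟩
  · simp only [hv, if_neg hj]
    rw [norm_smul, hgn j hj, mul_one, Real.norm_eq_abs, abs_of_pos hρ]
  · intro lam j
    set X : E n := ∑ l ∈ J, lam l • w l with hX
    set Y : E n := ∑ l ∈ Jᶜ, (lam l * ρ) • g l with hY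
    have hsum : ∑ l, lam l • v l = X + Y := by
      rw [← Finset.sum_add_sum_compl J]
      congr 1
      · refine Finset.sum_congr rfl fun l hl => ?_
        simp [hv, hl]
      · refine Finset.sum_congr rfl fun l hl => ?_
        rw [Finset.mem_compl] at hl
        simp only [hv, if_neg hl]
        rw [smul_smul]
    have hXV : X ∈ V := Submodule.sum_mem _ fun l hl => Submodule.smul_mem _ _ (hwV l hl)
    have hXY : inner ℝ X Y = 0 := by
      rw [hY, inner_sum]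
      refine Finset.sum_eq_zero fun l hl => ?_
      rw [Finset.mem_compl] at hl
      rw [real_inner_smul_right, hgV l hl X hXV, mul_zero]
    rw [hsum]
    by_cases hj : j ∈ J
    · refine (hθ lam j hj).trans ?_
      rw [← hX]
      have h1 := norm_add_sq_real X Y
      rw [hXY] at h1
      have h2 : ‖X‖ ^ 2 ≤ ‖X + Y‖ ^ 2 := by nlinarith [sq_nonneg ‖Y‖]
      exact (pow_le_pow_iff_left₀ (norm_nonneg _) (norm_nonneg _) two_ne_zero).1 h2
    · have h1 : inner ℝ (X + Y) (g j) = lam j * ρ := by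
        rw [inner_add_left, hgV j hj X hXV, zero_add, hY, sum_inner,
          Finset.sum_eq_single j]
        · rw [real_inner_smul_left, hgo j j hj hj, if_pos rfl, mul_one]
        · intro l hl hlj
          rw [Finset.mem_compl] at hl
          rw [real_inner_smul_left, hgo l j hl hj, if_neg hlj, mul_zero]
        · intro h
          exact absurd (Finset.mem_compl.2 hj) h
      have h2 := abs_real_inner_le_norm (X + Y) (g j)
      rw [h1, hgn j hj, mul_one, abs_mul, abs_of_pos hρ] at h2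
      refine le_trans ?_ h2
      rw [mul_comm]
      gcongr

/-- **Multilinear Kakeya for caps of the size `ρ`** (`Guth`, `Bennett–Carbery–Tao`). -/
theorem ml_caps (J : Finset (Fin n)) (hJ : 2 ≤ J.card) (w : Fin n → E n) (ρ θ D : ℝ) (hρ : 0 < ρ)
    (hθ0 : 0 < θ) (hθρ : θ ≤ ρ) (hD : 1 ≤ D)
    (hθ : ∀ (lam : Fin n → ℝ), ∀ j ∈ J, θ * |lam j| ≤ ‖∑ l ∈ J, lam l • w l‖)
    (hw1 : ∀ j ∈ J, ‖w j‖ = 1) (hwd : ∀ j ∈ J, ∀ l ∈ J, ‖w j - w l‖ ≤ D * ρ)
    {ι : Type} (a e : ι → E n) (P : Fin n → Finset ι) (c : ι → ℝ≥0∞) (γ δ : ℝ) (hδ : 0 < δ)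
    (hγ : 0 < γ) (hγ2 : γ ≤ 1 / 2)
    (hP : ∀ j ∈ J, ∀ i ∈ P j, ‖e i - w j‖ ≤ γ * θ / 2) (z : E n) (M : ℕ)
    (hM : (2 / γ) ^ M * δ ≤ 1) (hM2 : 1 ≤ (2 / γ) ^ (M + 1) * δ) :
    ∫⁻ x in closedBall z 1, ∏ j ∈ J, (∑ i ∈ P j, c i *
      (cyl δ (a i) (e i)).indicator (fun _ => (1 : ℝ≥0∞)) x) ^ ((1 : ℝ) / ((J.card : ℝ) - 1)) ≤
      ENNReal.ofReal ((n.factorial : ℝ) * D ^ n * ρ ^ (n - 1) * (6 ^ M) ^ n *
        (12 * δ / (γ * θ)) ^ n) *
        ∏ j ∈ J, (∑ i ∈ P j, c i) ^ ((1 : ℝ) / ((J.card : ℝ) - 1)) := by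
  obtain ⟨v, hv1, hv2, hv3⟩ := exists_ext J w ρ θ hρ hθρ hθ
  obtain ⟨j₀, hj₀⟩ : J.Nonempty := by
    rw [← Finset.card_pos]
    omega
  have hdt := dt_le J j₀ hj₀ v ρ D hρ hD (by rw [hv1 j₀ hj₀, hw1 j₀ hj₀])
    (fun j hj => by rw [hv1 j hj, hv1 j₀ hj₀]; exact hwd j hj j₀ hj₀) hv2
  have h1 := ml_basis J hJ v θ hθ0 hv3 a e P c γ δ hδ hγ hγ2
    (fun j hj i hi => by rw [hv1 j hj]; exact hP j hj i hi) z M
  refine h1.trans ?_
  refine mul_le_mul_left (ENNReal.ofReal_le_ofReal ?_) _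
  have h2 : (2 * (1 / θ + ((2 / γ) ^ M - 1) * (2 * δ / θ))) ≤ 6 / θ := by
    have : ((2 / γ) ^ M - 1) * (2 * δ / θ) ≤ 2 / θ := by
      have e1 : ((2 / γ) ^ M - 1) * (2 * δ / θ) = (((2 / γ) ^ M - 1) * δ) * (2 / θ) := by ring
      rw [e1]
      have : ((2 / γ) ^ M - 1) * δ ≤ 1 := by nlinarith
      calc (((2 / γ) ^ M - 1) * δ) * (2 / θ) ≤ 1 * (2 / θ) := by gcongr
        _ = 2 / θ := one_mul _
    have e2 : 6 / θ = 2 * (1 / θ + 2 / θ) := by ring
    rw [e2]
    gcongr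
  have h2γ : 1 ≤ (2 / γ) ^ M := by
    apply one_le_pow₀
    rw [le_div_iff₀ hγ]
    linarith
  have h20 : 0 ≤ (2 * (1 / θ + ((2 / γ) ^ M - 1) * (2 * δ / θ))) := by
    have : 0 ≤ ((2 / γ) ^ M - 1) * (2 * δ / θ) := mul_nonneg (by linarith) (by positivity)
    positivity
  have h3 : γ ^ M ≤ 2 ^ (M + 1) * δ / γ := by
    rw [le_div_iff₀ hγ, ← pow_succ]
    have : (2 / γ) ^ (M + 1) * γ ^ (M + 1) = 2 ^ (M + 1) := by
      rw [← mul_pow]
      congr 1
      field_simp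
    have h4 : γ ^ (M + 1) * 1 ≤ γ ^ (M + 1) * ((2 / γ) ^ (M + 1) * δ) := by gcongr
    calc γ ^ (M + 1) = γ ^ (M + 1) * 1 := (mul_one _).symm
      _ ≤ γ ^ (M + 1) * ((2 / γ) ^ (M + 1) * δ) := h4
      _ = 2 ^ (M + 1) * δ := by rw [← this]; ring
  calc |dt v| * ((3 * γ) ^ (n * M) * (2 * (1 / θ + ((2 / γ) ^ M - 1) * (2 * δ / θ))) ^ n)
      ≤ ((n.factorial : ℝ) * D ^ n * ρ ^ (n - 1)) * ((3 * γ) ^ (n * M) * (6 / θ) ^ n) := by
        gcongr
    _ = ((n.factorial : ℝ) * D ^ n * ρ ^ (n - 1)) * ((3 ^ M * γ ^ M) ^ n * (6 / θ) ^ n) := by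
        rw [mul_comm n M, pow_mul, mul_pow]
    _ ≤ ((n.factorial : ℝ) * D ^ n * ρ ^ (n - 1)) * ((3 ^ M * (2 ^ (M + 1) * δ / γ)) ^ n *
        (6 / θ) ^ n) := by
        gcongr
    _ = (n.factorial : ℝ) * D ^ n * ρ ^ (n - 1) * (6 ^ M) ^ n *
        (12 * δ / (γ * θ)) ^ n := by
        have e3 : (3 ^ M * (2 ^ (M + 1) * δ / γ)) * (6 / θ) = 6 ^ M * (12 * δ / (γ * θ)) := by
          rw [pow_succ, show (6 : ℝ) ^ M = 3 ^ M * 2 ^ M by rw [← mul_pow]; norm_num]
          field_simp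
          ring
        rw [mul_assoc ((n.factorial : ℝ) * D ^ n * ρ ^ (n - 1)) ((6 ^ M) ^ n), ← mul_pow,
          ← mul_pow, e3]

end Ext

end Pool.Agent.H565.MK
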