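import Pool.Agent.H565.MK.Core2
import Pool.Graph.R_seed8.TH705.RR.Vol
set_option autoImplicit false

/-!
# The flat parts of bushes, and the inequality for families with separated directions
-/

namespace Pool.Agent.H565.MK
open MeasureTheory Finset Metric
open scoped ENNReal

section Fam

variable {n : ℕ} {ι : Type}

/-- The number of the `δ`-tubes with centres `a i` and directions `e i` that contain `x`. -/
noncomputable def mult [Fintype ι] (δ : ℝ) (a e : ι → E n) (x : E n) : ℝ≥0∞ :=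
  ∑ i, (tube δ (a i) (e i)).indicator (fun _ => (1 : ℝ≥0∞)) x

/-- The tubes through `x` whose directions lie in the half-open cube with corner `y` and side `ρ`. -/
def bush (δ : ℝ) (a e : ι → E n) (x y : E n) (ρ : ℝ) : Set ι :=
  {i | x ∈ tube δ (a i) (e i) ∧ ∀ l, y l ≤ e i l ∧ e i l < y l + ρ}

/-- The members of `s` whose directions are within `r` of the subspace `V`. -/
def near (e : ι → E n) (s : Set ι) (V : Submodule ℝ (E n)) (r : ℝ) : Set ι :=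
  {i | i ∈ s ∧ infDist (e i) V ≤ r}

/-- The directions of `s` can be covered by at most `N` closed balls of radius `r`. -/
def Covered (e : ι → E n) (s : Set ι) (r N : ℝ) : Prop :=
  ∃ Z : Finset (E n), (Z.card : ℝ) ≤ N ∧ ∀ i ∈ s, ∃ z ∈ Z, ‖e i - z‖ ≤ r

/-- `s` is flat at the scale `r`: for some linear subspace `V` of dimension `< k`, the directions of
at least half of the members of `s` are within `r` of `V`, and these directions cannot be covered by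
`N` balls of radius `r`. -/
def IsFlat (k : ℕ) (N r : ℝ) (e : ι → E n) (s : Set ι) : Prop :=
  ∃ V : Submodule ℝ (E n), Module.finrank ℝ V < k ∧ s.ncard ≤ 2 * (near e s V r).ncard ∧
    ¬ Covered e (near e s V r) r N

/-- The number of tubes in the largest flat bush at `x`: the bushes are given by cubes of
directions of the sides `K ^ (-m)`, and they are flat at the scale `K ^ (-(m+1)) ≥ δ`. -/
noncomputable def flatMult (k K : ℕ) (N δ : ℝ) (a e : ι → E n) (x : E n) : ℝ≥0∞ :=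
  ⨆ (y : E n) (m : ℕ) (_ : δ ≤ 1 / (K : ℝ) ^ (m + 1))
    (_ : IsFlat k N (1 / (K : ℝ) ^ (m + 1)) e (bush δ a e x y (1 / (K : ℝ) ^ m))),
    ((bush δ a e x y (1 / (K : ℝ) ^ m)).ncard : ℝ≥0∞)

/-- The same as a function of the set of the tubes through `x`. -/
noncomputable def flF (k K : ℕ) (N δ : ℝ) (e : ι → E n) (S : Finset ι) : ℝ≥0∞ :=
  ⨆ (y : E n) (m : ℕ) (_ : δ ≤ 1 / (K : ℝ) ^ (m + 1))
    (_ : IsFlat k N (1 / (K : ℝ) ^ (m + 1)) e
      {i | i ∈ S ∧ ∀ l, y l ≤ e i l ∧ e i l < y l + 1 / (K : ℝ) ^ m}),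
    ((Set.ncard {i | i ∈ S ∧ ∀ l, y l ≤ e i l ∧ e i l < y l + 1 / (K : ℝ) ^ m} : ℕ) : ℝ≥0∞)

theorem flatMult_eq [Fintype ι] (k K : ℕ) (N δ : ℝ) (a e : ι → E n) (x : E n) :
    flatMult k K N δ a e x = flF k K N δ e (thr δ a e x) := by
  have h : ∀ (y : E n) (ρ : ℝ), bush δ a e x y ρ =
      {i | i ∈ thr δ a e x ∧ ∀ l, y l ≤ e i l ∧ e i l < y l + ρ} := by
    intro y ρ
    ext i
    simp only [bush, Set.mem_ofPred_eq, mem_thr]
  unfold flatMult flF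
  simp only [h]

theorem sum_thr_one [Fintype ι] (δ : ℝ) (a e : ι → E n) (x : E n) :
    ∑ _i ∈ thr δ a e x, (1 : ℝ≥0∞) = mult δ a e x := by
  have h := sum_thr δ a e (fun _ => (1 : ℝ≥0∞)) x (fun _ => True)
  simp only [Finset.filter_true, one_mul] at h
  rw [h]
  rfl

theorem flat_fl {k K : ℕ} (hK : 1 ≤ K) (N δ : ℝ) (e : ι → E n) (S : Finset ι) (m : ℕ)
    (hδ : δ ≤ 1 / (K : ℝ) ^ (m + 1)) (τ : Fin n → ℤ) (V : Submodule ℝ (E n))
    (hV : Module.finrank ℝ V < k) (s P : Finset ι) (hs : ∀ i, i ∈ s ↔ i ∈ S ∧ cell K e m i = τ)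
    (hP : ∀ i, i ∈ P ↔ i ∈ s ∧ infDist (e i) V ≤ 1 / (K : ℝ) ^ (m + 1))
    (hW : ∑ _i ∈ s, (1 : ℝ≥0∞) ≤ 2 * ∑ _i ∈ P, (1 : ℝ≥0∞)) :
    (∃ Z : Finset (E n), (Z.card : ℝ) ≤ N ∧
      ∀ i ∈ P, ∃ z ∈ Z, ‖e i - z‖ ≤ 1 / (K : ℝ) ^ (m + 1)) ∨
    ∑ _i ∈ s, (1 : ℝ≥0∞) ≤ flF k K N δ e S := by
  by_cases hcov : ∃ Z : Finset (E n), (Z.card : ℝ) ≤ N ∧
      ∀ i ∈ P, ∃ z ∈ Z, ‖e i - z‖ ≤ 1 / (K : ℝ) ^ (m + 1)
  · exact Or.inl hcov
  · right
    have hK0 : (0 : ℝ) < (K : ℝ) ^ m := by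
      have : (1 : ℝ) ≤ K := by exact_mod_cast hK
      positivity
    set y : E n := WithLp.toLp 2 (fun l => (τ l : ℝ) / (K : ℝ) ^ m) with hy
    have hset : {i | i ∈ S ∧ ∀ l, y l ≤ e i l ∧ e i l < y l + 1 / (K : ℝ) ^ m} = (s : Set ι) := by
      ext i
      simp only [Set.mem_ofPred_eq, Finset.mem_coe]
      rw [hs]
      refine and_congr_right fun _ => ?_
      constructor
      · intro h
        funext l
        obtain ⟨h1, h2⟩ := h l
        have hyl : y l = (τ l : ℝ) / (K : ℝ) ^ m := rfl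
        rw [hyl] at h1 h2
        unfold cell
        rw [Int.floor_eq_iff]
        rw [div_le_iff₀ hK0] at h1
        rw [← add_div, lt_div_iff₀ hK0] at h2
        exact ⟨by linarith, by linarith⟩
      · intro h l
        have h1 := congrFun h l
        unfold cell at h1
        rw [Int.floor_eq_iff] at h1
        have hyl : y l = (τ l : ℝ) / (K : ℝ) ^ m := rfl
        rw [hyl, div_le_iff₀ hK0, ← add_div, lt_div_iff₀ hK0]
        exact ⟨by linarith [h1.1], by linarith [h1.2]⟩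
    have hnear : near e (s : Set ι) V (1 / (K : ℝ) ^ (m + 1)) = (P : Set ι) := by
      ext i
      simp only [near, Set.mem_ofPred_eq, Finset.mem_coe]
      rw [hP]
    have hflat : IsFlat k N (1 / (K : ℝ) ^ (m + 1)) e
        {i | i ∈ S ∧ ∀ l, y l ≤ e i l ∧ e i l < y l + 1 / (K : ℝ) ^ m} := by
      rw [hset]
      refine ⟨V, hV, ?_, ?_⟩
      · rw [hnear, Set.ncard_coe_finset, Set.ncard_coe_finset]
        rw [Finset.sum_const, Finset.sum_const, nsmul_eq_mul, nsmul_eq_mul, mul_one, mul_one] at hW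
        exact_mod_cast hW
      · rw [hnear]
        rintro ⟨Z, hZ, hZ2⟩
        exact hcov ⟨Z, hZ, fun i hi => hZ2 i (Finset.mem_coe.2 hi)⟩
    have h3 : ∑ _i ∈ s, (1 : ℝ≥0∞) = ((Set.ncard {i | i ∈ S ∧
        ∀ l, y l ≤ e i l ∧ e i l < y l + 1 / (K : ℝ) ^ m} : ℕ) : ℝ≥0∞) := by
      rw [hset, Set.ncard_coe_finset, Finset.sum_const, nsmul_eq_mul, mul_one]
    rw [h3]
    unfold flF
    exact le_iSup_of_le y (le_iSup_of_le m (le_iSup_of_le hδ (le_iSup_of_le hflat le_rfl)))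

/-- **The inequality for direction sets of dimension `α`.** -/
theorem mult_le {k : ℕ} (hk : 2 ≤ k) (hkn : k ≤ n) (α β A B : ℝ) (hα : 0 ≤ α) (hβ : 0 ≤ β)
    (hA : 0 ≤ A) (hB : 1 ≤ B) :
    ∃ C : ℝ, 1 ≤ C ∧ ∀ K : ℕ, C ≤ K → ∀ δ : ℝ, 0 < δ → δ ≤ 1 →
      ∀ (ι : Type) [Fintype ι] (a e : ι → E n), (∀ i, ‖e i‖ = 1) →
      (∀ (i : ι) (ρ : ℝ), δ ≤ ρ → (Nat.card {j // ‖e j - e i‖ ≤ ρ} : ℝ) ≤ A * (ρ / δ) ^ α) →
      ∫⁻ x, mult δ a e x ^ (1 + 1 / ((k : ℝ) - 1)) ≤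
        ENNReal.ofReal ((K : ℝ) ^ C * C ^ (Real.log (1 / δ) / Real.log K) *
          (1 / δ) ^ (max (max (α / ((k : ℝ) - 1) - 1) (β / ((k : ℝ) - 1))) 0)) *
          (ENNReal.ofReal (δ ^ (n - 1)) * Fintype.card ι +
            ∫⁻ x, mult δ a e x * flatMult k K (B * (K : ℝ) ^ β) δ a e x ^ (1 / ((k : ℝ) - 1))) := by
  obtain ⟨C, hC1, hC⟩ := core2 hk hkn α β A B hα hβ hA hB
  refine ⟨C, hC1, ?_⟩
  intro K hK δ hδ hδ1 ι _ a e he hDim
  have hK1 : 1 ≤ K := by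
    have : (1 : ℝ) ≤ K := hC1.trans hK
    exact_mod_cast this
  have h := hC K hK δ hδ hδ1 ι a e he hDim (fun _ => 1) (fun _ => by simp)
    (flF k K (B * (K : ℝ) ^ β) δ e) (fun S m hm τ V hV s P hs hP hW =>
      flat_fl hK1 _ δ e S m hm τ V hV s P hs hP hW)
  have hcard : ∀ x, ((thr δ a e x).card : ℝ≥0∞) = mult δ a e x := by
    intro x
    rw [← sum_thr_one, Finset.sum_const, nsmul_eq_mul, mul_one]
  simp only [ENNReal.one_rpow, Finset.sum_const, Finset.card_univ, nsmul_eq_mul, mul_one, hcard]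
    at h
  simp only [flatMult_eq]
  exact h

/-- Counting separated directions. -/
theorem count_dirs (hn : 1 ≤ n) : ∃ A : ℝ, 1 ≤ A ∧ ∀ δ : ℝ, 0 < δ → δ < 1 →
    ∀ (ι : Type) [Fintype ι] (e : ι → E n), (∀ i, ‖e i‖ = 1) →
    (∀ i j, i ≠ j → δ ≤ ‖e i - e j‖) → ∀ (i : ι) (ρ : ℝ), δ ≤ ρ →
      (Nat.card {j // ‖e j - e i‖ ≤ ρ} : ℝ) ≤ A * (ρ / δ) ^ ((n : ℝ) - 1) := by
  classical
  obtain ⟨A, hA, h⟩ := Pool.Agent.TH705.RR.count (n := n) hn
  refine ⟨A, hA, ?_⟩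
  intro δ hδ hδ1 ι _ e he hsep i ρ hρ
  have h1 := h δ hδ hδ1 e he hsep (e i) (he i) (univ.filter (fun j => ‖e j - e i‖ ≤ ρ)) ρ hρ ?_
  · rw [Nat.card_eq_fintype_card, Fintype.card_subtype]
    refine h1.trans (le_of_eq ?_)
    congr 1
    rw [← Real.rpow_natCast, Nat.cast_sub hn, Nat.cast_one]
  · intro j hj
    rw [Finset.mem_filter] at hj
    refine le_trans ?_ hj.2
    have h2 := Pool.Agent.TH705.RR.sn_sq (he i) (he j)
    have h3 : ‖e j - e i‖ ^ 2 = 2 - 2 * inner ℝ (e i) (e j) := by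
      rw [norm_sub_sq_real, he i, he j, real_inner_comm]
      ring
    have h4 : Pool.Agent.TH705.RR.sn (e i) (e j) ^ 2 ≤ ‖e j - e i‖ ^ 2 := by
      rw [h2, h3]
      nlinarith [sq_nonneg (1 - inner ℝ (e i) (e j) : ℝ)]
    exact (pow_le_pow_iff_left₀ (Pool.Agent.TH705.RR.sn_nonneg _ _) (norm_nonneg _)
      two_ne_zero).1 h4

/-- **The inequality for separated directions.** -/
theorem mult_le_sep {k : ℕ} (hk : 2 ≤ k) (hkn : k ≤ n) (β B : ℝ) (hβ : 0 ≤ β) (hB : 1 ≤ B) :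
    ∃ C : ℝ, 1 ≤ C ∧ ∀ K : ℕ, C ≤ K → ∀ δ : ℝ, 0 < δ → δ < 1 →
      ∀ (ι : Type) [Fintype ι] (a e : ι → E n), (∀ i, ‖e i‖ = 1) →
      (∀ i j, i ≠ j → δ ≤ ‖e i - e j‖) →
      ∫⁻ x, mult δ a e x ^ (1 + 1 / ((k : ℝ) - 1)) ≤
        ENNReal.ofReal ((K : ℝ) ^ C * C ^ (Real.log (1 / δ) / Real.log K) *
          (1 / δ) ^ (max ((n : ℝ) - k) β / ((k : ℝ) - 1))) *
          (ENNReal.ofReal (δ ^ (n - 1)) * Fintype.card ι +
            ∫⁻ x, mult δ a e x * flatMult k K (B * (K : ℝ) ^ β) δ a e x ^ (1 / ((k : ℝ) - 1))) := by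
  have hk2 : (2 : ℝ) ≤ k := by exact_mod_cast hk
  have hk1 : (0 : ℝ) < (k : ℝ) - 1 := by linarith
  have hknr : (k : ℝ) ≤ n := by exact_mod_cast hkn
  obtain ⟨A, hA, hcount⟩ := count_dirs (n := n) (by omega)
  obtain ⟨C, hC1, hC⟩ := mult_le (n := n) hk hkn ((n : ℝ) - 1) β A B (by linarith) hβ (by linarith)
    hB
  refine ⟨C, hC1, ?_⟩
  intro K hK δ hδ hδ1 ι _ a e he hsep
  have h := hC K hK δ hδ hδ1.le ι a e he (hcount δ hδ hδ1 ι e he hsep)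
  have e1 : max (max (((n : ℝ) - 1) / ((k : ℝ) - 1) - 1) (β / ((k : ℝ) - 1))) 0 =
      max ((n : ℝ) - k) β / ((k : ℝ) - 1) := by
    have e2 : ((n : ℝ) - 1) / ((k : ℝ) - 1) - 1 = ((n : ℝ) - k) / ((k : ℝ) - 1) := by
      field_simp
      ring
    rw [e2, max_eq_left, ← max_div_div_right hk1.le]
    exact (div_nonneg hβ hk1.le).trans (le_max_right _ _)
  rwa [e1] at h

end Fam

end Pool.Agent.H565.MK
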