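import Pool.Agent.H565.MK.Cor
set_option autoImplicit false

/-!
# The inequality for families whose bushes spread in a low-dimensional way along subspaces
-/

namespace Pool.Agent.H565.MK
open MeasureTheory Finset Metric
open scoped ENNReal

section Spr

variable {n : ℕ}

/-- The directions have dimension at most `α` at the scales `≥ δ`, with multiplicities. -/
def DimLe {ι : Type} (α A δ : ℝ) (e : ι → E n) : Prop :=
  ∀ (i : ι) (ρ : ℝ), δ ≤ ρ → (Nat.card {j // ‖e j - e i‖ ≤ ρ} : ℝ) ≤ A * (ρ / δ) ^ α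

/-- The integral form for the exponent `1 + 1/(k-1)`. -/
theorem spread_int {k : ℕ} (hk : 2 ≤ k) (hkn : k ≤ n) (α β A B : ℝ) (hα : 0 ≤ α) (hβ : 0 ≤ β)
    (hA : 0 ≤ A) (hB : 1 ≤ B) :
    ∃ C : ℝ, 1 ≤ C ∧ ∀ δ : ℝ, 0 < δ → δ < 1 →
      ∀ (ι : Type) [Fintype ι] (a e : ι → E n), (∀ i, ‖e i‖ = 1) →
      DimLe α A δ e → Spread k β B δ a e →
      ∫⁻ x, mult δ a e x ^ (1 + 1 / ((k : ℝ) - 1)) ≤
        ENNReal.ofReal (C * Real.exp (C * √(Real.log (1 / δ))) *
          (1 / δ) ^ (max (max (α / ((k : ℝ) - 1) - 1) (β / ((k : ℝ) - 1))) 0) *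
          (δ ^ (n - 1) * Fintype.card ι)) := by
  have hk2 : (2 : ℝ) ≤ k := by exact_mod_cast hk
  have hk1 : (0 : ℝ) < (k : ℝ) - 1 := by linarith
  have hn1 : 1 ≤ n := by omega
  have hsn : 1 ≤ √(n : ℝ) := by
    rw [Real.one_le_sqrt]
    exact_mod_cast hn1
  have hsnβ : 1 ≤ √(n : ℝ) ^ β := Real.one_le_rpow hsn hβ
  have hB' : 1 ≤ B * √(n : ℝ) ^ β := by nlinarith
  obtain ⟨C₁, hC₁, hC⟩ := mult_le (n := n) hk hkn α β A (B * √(n : ℝ) ^ β) hα hβ hA hB'
  obtain ⟨C₂, hC₂, hbest⟩ := best_K C₁ hC₁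
  refine ⟨C₂, hC₂, ?_⟩
  intro δ hδ hδ1 ι _ a e he hdim hsp
  obtain ⟨K, hK, hKL⟩ := hbest δ hδ hδ1.le
  have hK1 : 1 ≤ K := by
    have : (1 : ℝ) ≤ K := hC₁.trans hK
    exact_mod_cast this
  have h := hC K hK δ hδ hδ1.le ι a e he hdim
  have hp1 : 0 < 1 / ((k : ℝ) - 1) := by positivity
  simp only [flatMult_eq_zero hn1 hK1 hβ (by linarith) a e hsp, ENNReal.zero_rpow_of_pos hp1,
    mul_zero, lintegral_const, zero_mul, add_zero] at h
  refine h.trans ?_
  have hcard : ENNReal.ofReal (δ ^ (n - 1)) * Fintype.card ι =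
      ENNReal.ofReal (δ ^ (n - 1) * Fintype.card ι) := by
    rw [ENNReal.ofReal_mul (by positivity), ENNReal.ofReal_natCast]
  rw [hcard, ← ENNReal.ofReal_mul (by positivity)]
  refine ENNReal.ofReal_le_ofReal ?_
  refine mul_le_mul_of_nonneg_right ?_ (by positivity)
  exact mul_le_mul_of_nonneg_right hKL (by positivity)

/-- The norm form for all exponents. -/
theorem spread_norm {k : ℕ} (hk : 2 ≤ k) (hkn : k ≤ n) (α β A B : ℝ) (hα : 0 ≤ α) (hβ : 0 ≤ β)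
    (hA : 0 ≤ A) (hB : 1 ≤ B) :
    ∃ C : ℝ, 1 ≤ C ∧ ∀ δ : ℝ, 0 < δ → δ < 1 →
      ∀ (ι : Type) [Fintype ι] (a e : ι → E n), (∀ i, ‖e i‖ = 1) →
      DimLe α A δ e → Spread k β B δ a e →
      ∀ q : ℝ, (k : ℝ) / ((k : ℝ) - 1) ≤ q →
      eLpNorm (fun x => ∑ i, (tube δ (a i) (e i)).indicator (fun _ => (1 : ℝ)) x)
          (ENNReal.ofReal q) volume ≤
        ENNReal.ofReal (C * Real.exp (C * √(Real.log (1 / δ))) *
          (1 / δ) ^ (max (max (α / ((k : ℝ) - 1) - 1) (β / ((k : ℝ) - 1))) 0 / q) *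
          δ ^ (((n : ℝ) - 1) / q) *
          (Fintype.card ι : ℝ) ^ (1 - 1 / (q * ((k : ℝ) - 1)))) := by
  have hk2 : (2 : ℝ) ≤ k := by exact_mod_cast hk
  have hk1 : (0 : ℝ) < (k : ℝ) - 1 := by linarith
  have hn1 : 1 ≤ n := by omega
  obtain ⟨C, hC1, hC⟩ := spread_int (n := n) hk hkn α β A B hα hβ hA hB
  refine ⟨C, hC1, ?_⟩
  intro δ hδ hδ1 ι _ a e he hsep hsp q hq
  have e0 : (k : ℝ) / ((k : ℝ) - 1) = 1 + 1 / ((k : ℝ) - 1) := by
    field_simp
    ring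
  rw [e0] at hq
  have hp0 : 0 < 1 / ((k : ℝ) - 1) := by positivity
  have hq0 : 0 < q := by linarith
  have hq1 : 1 ≤ q := by linarith
  have e3 : ∀ x, ‖∑ i, (tube δ (a i) (e i)).indicator (fun _ => (1 : ℝ)) x‖ₑ =
      mult δ a e x := by
    intro x
    unfold mult
    rw [Real.enorm_of_nonneg (Finset.sum_nonneg fun i _ =>
      Set.indicator_nonneg (fun _ _ => zero_le_one) _),
      ENNReal.ofReal_sum_of_nonneg fun i _ => Set.indicator_nonneg (fun _ _ => zero_le_one) _]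
    refine Finset.sum_congr rfl fun i _ => ?_
    by_cases hx : x ∈ tube δ (a i) (e i)
    · rw [Set.indicator_of_mem hx, Set.indicator_of_mem hx, ENNReal.ofReal_one]
    · rw [Set.indicator_of_notMem hx, Set.indicator_of_notMem hx, ENNReal.ofReal_zero]
  rw [eLpNorm_eq_lintegral_rpow_enorm_toReal (by
    rw [ne_eq, ENNReal.ofReal_eq_zero, not_le]; exact hq0) ENNReal.ofReal_ne_top,
    ENNReal.toReal_ofReal hq0.le]
  simp only [e3]
  rw [one_div, ENNReal.rpow_inv_le_iff hq0, ENNReal.ofReal_rpow_of_nonneg (by positivity) hq0.le]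
  refine (larger_exp δ a e (by linarith) hq).trans ?_
  have h1 := hC δ hδ hδ1 ι a e he hsep hsp
  refine (mul_le_mul_right h1 _).trans ?_
  obtain ⟨D, hD⟩ : ∃ D, D = max (max (α / ((k : ℝ) - 1) - 1) (β / ((k : ℝ) - 1))) 0 := ⟨_, rfl⟩
  obtain ⟨S, hS⟩ : ∃ S, S = √(Real.log (1 / δ)) := ⟨_, rfl⟩
  have hS0 : 0 ≤ S := by rw [hS]; positivity
  rw [← hD, ← hS]
  rw [← ENNReal.ofReal_natCast (Fintype.card ι), ENNReal.ofReal_rpow_of_nonneg (by positivity)
    (by linarith), ← ENNReal.ofReal_mul (by positivity)]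
  refine ENNReal.ofReal_le_ofReal ?_
  obtain ⟨N, hN⟩ : ∃ N : ℝ, N = Fintype.card ι := ⟨_, rfl⟩
  have hN0 : 0 ≤ N := by rw [hN]; positivity
  rw [← hN]
  have hδi : 0 < 1 / δ := by positivity
  have e5 : (C * Real.exp (C * S) * (1 / δ) ^ (D / q) * δ ^ (((n : ℝ) - 1) / q) *
      N ^ (1 - 1 / (q * ((k : ℝ) - 1)))) ^ q =
      C ^ q * Real.exp (C * S) ^ q * (1 / δ) ^ D * δ ^ (n - 1) *
        N ^ (q - 1 / ((k : ℝ) - 1)) := by
    rw [Real.mul_rpow (by positivity) (by positivity), Real.mul_rpow (by positivity) (by positivity),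
      Real.mul_rpow (by positivity) (by positivity), Real.mul_rpow (by positivity) (by positivity),
      ← Real.rpow_mul hδi.le, ← Real.rpow_mul hδ.le, ← Real.rpow_mul hN0]
    have e6 : D / q * q = D := by field_simp
    have e7 : ((n : ℝ) - 1) / q * q = ((n - 1 : ℕ) : ℝ) := by
      rw [Nat.cast_sub hn1]
      push_cast
      field_simp
    have e8 : (1 - 1 / (q * ((k : ℝ) - 1))) * q = q - 1 / ((k : ℝ) - 1) := by field_simp
    rw [e6, e7, e8, Real.rpow_natCast]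
  rw [e5]
  have e9 : N ^ (q - (1 + 1 / ((k : ℝ) - 1))) * N ≤ N ^ (q - 1 / ((k : ℝ) - 1)) := by
    rcases hN0.eq_or_lt with h0 | h0
    · rw [← h0, mul_zero]
      positivity
    · refine le_of_eq ?_
      nth_rewrite 2 [← Real.rpow_one N]
      rw [← Real.rpow_add h0]
      congr 1
      ring
  have e10 : C * Real.exp (C * S) ≤ C ^ q * Real.exp (C * S) ^ q := by
    rw [← Real.mul_rpow (by positivity) (by positivity)]
    have h2 : 1 ≤ C * Real.exp (C * S) := by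
      have := Real.one_le_exp (mul_nonneg (by linarith : 0 ≤ C) hS0)
      nlinarith
    calc C * Real.exp (C * S) = (C * Real.exp (C * S)) ^ (1 : ℝ) := (Real.rpow_one _).symm
      _ ≤ _ := Real.rpow_le_rpow_of_exponent_le h2 hq1
  calc N ^ (q - (1 + 1 / ((k : ℝ) - 1))) *
        (C * Real.exp (C * S) * (1 / δ) ^ D * (δ ^ (n - 1) * N))
      = (C * Real.exp (C * S)) * ((1 / δ) ^ D * δ ^ (n - 1)) *
        (N ^ (q - (1 + 1 / ((k : ℝ) - 1))) * N) := by ring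
    _ ≤ (C ^ q * Real.exp (C * S) ^ q) * ((1 / δ) ^ D * δ ^ (n - 1)) *
        N ^ (q - 1 / ((k : ℝ) - 1)) := by
        refine mul_le_mul (mul_le_mul_of_nonneg_right e10 (by positivity)) e9 (by positivity)
          (by positivity)
    _ = _ := by ring

/-- The general inequality with a larger constant. -/
theorem ineq_mono {K : ℕ} {δ C C' D : ℝ} (hC : 1 ≤ C) (hCC : C ≤ C') (hK : C ≤ K)
    (hδ : 0 < δ) (hδ1 : δ < 1) (R S : ℝ≥0∞)
    (h : R ≤ ENNReal.ofReal ((K : ℝ) ^ C * C ^ (Real.log (1 / δ) / Real.log K) *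
          (1 / δ) ^ D) * S) :
    R ≤ ENNReal.ofReal ((K : ℝ) ^ C' * C' ^ (Real.log (1 / δ) / Real.log K) *
          (1 / δ) ^ D) * S := by
  refine h.trans (mul_le_mul_left (ENNReal.ofReal_le_ofReal ?_) _)
  have hv1 : 1 ≤ 1 / δ := by rw [le_div_iff₀ hδ]; linarith
  have hK1 : (1 : ℝ) ≤ K := by linarith
  refine mul_le_mul_of_nonneg_right ?_ (by positivity)
  refine mul_le_mul (Real.rpow_le_rpow_of_exponent_le hK1 hCC)
    (Real.rpow_le_rpow (by linarith) hCC ?_) (by positivity) (by positivity)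
  exact div_nonneg (Real.log_nonneg hv1) (Real.log_nonneg hK1)

end Spr

end Pool.Agent.H565.MK
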