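import Pool.Agent.H565.MK.Core4
import Pool.Agent.H565.MK.Spr
set_option autoImplicit false

/-!
# The inequalities on a set
-/

namespace Pool.Agent.H565.MK
open MeasureTheory Finset Metric
open scoped ENNReal

section Fam2

variable {n : ℕ}

/-- **The inequality for direction sets of dimension `α`, on a set `G`.** -/
theorem mult_leG {k : ℕ} (hk : 2 ≤ k) (hkn : k ≤ n) (α β A B : ℝ) (hα : 0 ≤ α) (hβ : 0 ≤ β)
    (hA : 0 ≤ A) (hB : 1 ≤ B) :
    ∃ C : ℝ, 1 ≤ C ∧ ∀ K : ℕ, C ≤ K → ∀ δ : ℝ, 0 < δ → δ ≤ 1 →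
      ∀ (ι : Type) [Fintype ι] (a e : ι → E n), (∀ i, ‖e i‖ = 1) → DimLe α A δ e →
      ∀ G : Set (E n),
      ∫⁻ x in G, mult δ a e x ^ (1 + 1 / ((k : ℝ) - 1)) ≤
        ENNReal.ofReal ((K : ℝ) ^ C * C ^ (Real.log (1 / δ) / Real.log K) *
          (1 / δ) ^ (max (max (α / ((k : ℝ) - 1) - 1) (β / ((k : ℝ) - 1))) 0)) *
          (ENNReal.ofReal (δ ^ (n - 1)) * Fintype.card ι +
            ∫⁻ x in G, mult δ a e x *
              flatMult k K (B * (K : ℝ) ^ β) δ a e x ^ (1 / ((k : ℝ) - 1))) := by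
  obtain ⟨C, hC1, hC⟩ := core2G hk hkn α β A B hα hβ hA hB
  refine ⟨C, hC1, ?_⟩
  intro K hK δ hδ hδ1 ι _ a e he hDim G
  have hK1 : 1 ≤ K := by
    have : (1 : ℝ) ≤ K := hC1.trans hK
    exact_mod_cast this
  have h := hC K hK δ hδ hδ1 ι a e he hDim G (fun _ => 1) (fun _ => by simp)
    (flF k K (B * (K : ℝ) ^ β) δ e) (fun S m hm τ V hV s P hs hP hW =>
      flat_fl hK1 _ δ e S m hm τ V hV s P hs hP hW)
  have hcard : ∀ x, ((thr δ a e x).card : ℝ≥0∞) = mult δ a e x := by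
    intro x
    rw [← sum_thr_one, Finset.sum_const, nsmul_eq_mul, mul_one]
  simp only [ENNReal.one_rpow, Finset.sum_const, Finset.card_univ, nsmul_eq_mul, mul_one, hcard]
    at h
  simp only [flatMult_eq]
  exact h

/-- At the points of `G` the directions near subspaces of dimension `< k` have dimension at most
`β`. -/
def SpreadOn {ι : Type} (G : Set (E n)) (k : ℕ) (β B δ : ℝ) (a e : ι → E n) : Prop :=
  ∀ x ∈ G, ∀ (y : E n) (V : Submodule ℝ (E n)), Module.finrank ℝ V < k → ∀ r ρ : ℝ, δ ≤ r →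
    r ≤ ρ → Covered e {i | x ∈ tube δ (a i) (e i) ∧ ‖e i - y‖ ≤ ρ ∧ infDist (e i) V ≤ r} r
      (B * (ρ / r) ^ β)

theorem flatMult_eq_zeroG {ι : Type} {k K : ℕ} (hn : 1 ≤ n) (hK : 1 ≤ K) {β B δ : ℝ}
    (hB : 0 ≤ B) (a e : ι → E n) (x : E n)
    (h : ∀ (y : E n) (V : Submodule ℝ (E n)), Module.finrank ℝ V < k → ∀ r ρ : ℝ, δ ≤ r →
      r ≤ ρ → Covered e {i | x ∈ tube δ (a i) (e i) ∧ ‖e i - y‖ ≤ ρ ∧ infDist (e i) V ≤ r} r
      (B * (ρ / r) ^ β)) :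
    flatMult k K (B * √n ^ β * (K : ℝ) ^ β) δ a e x = 0 := by
  have hK1 : (1 : ℝ) ≤ K := by exact_mod_cast hK
  have hK0 : (0 : ℝ) < K := by linarith
  have hsn : 1 ≤ √(n : ℝ) := by
    rw [Real.one_le_sqrt]
    exact_mod_cast hn
  unfold flatMult
  simp only [ENNReal.iSup_eq_zero]
  intro y m hδ hf
  exfalso
  obtain ⟨V, hV, _, hnc⟩ := hf
  apply hnc
  by_cases hne : ∃ i₀, i₀ ∈ near e (bush δ a e x y (1 / (K : ℝ) ^ m)) V (1 / (K : ℝ) ^ (m + 1))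
  · obtain ⟨i₀, hi₀⟩ := hne
    have hle : 1 / (K : ℝ) ^ (m + 1) ≤ √n * (1 / (K : ℝ) ^ m) := by
      have h1 : 1 / (K : ℝ) ^ (m + 1) ≤ 1 / (K : ℝ) ^ m := by
        apply one_div_le_one_div_of_le (by positivity)
        exact pow_le_pow_right₀ hK1 (by omega)
      have h2 : 0 < 1 / (K : ℝ) ^ m := by positivity
      nlinarith
    obtain ⟨Z, hZ, hZ2⟩ := h (e i₀) V hV (1 / (K : ℝ) ^ (m + 1)) (√n * (1 / (K : ℝ) ^ m)) hδ hle
    refine ⟨Z, hZ.trans (le_of_eq ?_), fun i hi => hZ2 i ⟨hi.1.1, ?_, hi.2⟩⟩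
    · have e1 : √n * (1 / (K : ℝ) ^ m) / (1 / (K : ℝ) ^ (m + 1)) = √n * K := by
        rw [pow_succ]
        field_simp
      rw [e1, Real.mul_rpow (by positivity) hK0.le]
      ring
    · refine norm_le_of_coord _ _ (by positivity) fun l => ?_
      have h3 := hi.1.2 l
      have h4 := hi₀.1.2 l
      rw [PiLp.sub_apply, abs_le]
      constructor <;> linarith [h3.1, h3.2, h4.1, h4.2]
  · refine ⟨∅, by simp; positivity, fun i hi => absurd ⟨i, hi⟩ hne⟩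

theorem flatMult_anti {ι : Type} {k K : ℕ} {N N' : ℝ} (h : N ≤ N') (δ : ℝ) (a e : ι → E n)
    (x : E n) : flatMult k K N' δ a e x ≤ flatMult k K N δ a e x := by
  unfold flatMult
  refine iSup_mono fun y => iSup_mono fun m => iSup_mono fun _ => iSup_mono' fun hf => ?_
  obtain ⟨V, hV1, hV2, hV3⟩ := hf
  refine ⟨⟨V, hV1, hV2, fun hc => hV3 ?_⟩, le_rfl⟩
  obtain ⟨Z, hZ, hZ2⟩ := hc
  exact ⟨Z, hZ.trans h, hZ2⟩

/-- The set of the points at which a multiset of tubes is given is a finite union of measurable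
sets; functions of the set of tubes through a point are measurable. -/
theorem lintegral_zero_on {ι : Type} [Fintype ι] {k : ℕ} (hk : 2 ≤ k) (K : ℕ) (N δ : ℝ)
    (a e : ι → E n) (G : Set (E n)) (h : ∀ x ∈ G, flatMult k K N δ a e x = 0) :
    ∫⁻ x in G, mult δ a e x * flatMult k K N δ a e x ^ (1 / ((k : ℝ) - 1)) = 0 := by
  have hk2 : (2 : ℝ) ≤ k := by exact_mod_cast hk
  have hp1 : 0 < 1 / ((k : ℝ) - 1) := by
    have : (0 : ℝ) < (k : ℝ) - 1 := by linarith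
    positivity
  have hm : Measurable fun x => mult δ a e x * flatMult k K N δ a e x ^ (1 / ((k : ℝ) - 1)) :=
    (measurable_mult δ a e).mul ((measurable_flatMult k K N δ a e).pow_const _)
  rw [lintegral_eq_zero_iff hm]
  rw [Filter.EventuallyEq, ae_iff]
  have hms : MeasurableSet {x : E n | ¬ mult δ a e x * flatMult k K N δ a e x ^ (1 / ((k : ℝ) - 1)) =
      (0 : E n → ℝ≥0∞) x} := (hm (measurableSet_singleton 0)).compl
  rw [Measure.restrict_apply hms]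
  have : {x : E n | ¬ mult δ a e x * flatMult k K N δ a e x ^ (1 / ((k : ℝ) - 1)) =
      (0 : E n → ℝ≥0∞) x} ∩ G = ∅ := by
    ext x
    simp only [Set.mem_inter_iff, Set.mem_ofPred_eq, Set.mem_empty_iff_false, iff_false, not_and,
      Pi.zero_apply]
    intro h1 h2
    apply h1
    rw [h x h2, ENNReal.zero_rpow_of_pos hp1, mul_zero]
  rw [this, measure_empty]

/-- The inequality with a small power of `δ` in the hypothesis and in the conclusion. -/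
theorem spread_epsG {k : ℕ} (hk : 2 ≤ k) (hkn : k ≤ n) (β : ℝ) (hβ : 0 ≤ β) (ε : ℝ) (hε : 0 < ε) :
    ∃ η : ℝ, 0 < η ∧ ∀ B : ℝ, 0 ≤ B → ∃ C : ℝ, 0 < C ∧ ∀ δ : ℝ, 0 < δ → δ < 1 →
      ∀ (ι : Type) [Fintype ι] (a e : ι → E n), (∀ i, ‖e i‖ = 1) →
      (∀ i j, i ≠ j → δ ≤ ‖e i - e j‖) →
      ∀ G : Set (E n), SpreadOn G k β (B * δ ^ (-η)) δ a e →
      ∫⁻ x in G, mult δ a e x ^ (1 + 1 / ((k : ℝ) - 1)) ≤
        ENNReal.ofReal (C * δ ^ (-(max ((n : ℝ) - k) β / ((k : ℝ) - 1) + ε)) *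
          (δ ^ (n - 1) * Fintype.card ι)) := by
  have hk2 : (2 : ℝ) ≤ k := by exact_mod_cast hk
  have hk1 : (0 : ℝ) < (k : ℝ) - 1 := by linarith
  have hknr : (k : ℝ) ≤ n := by exact_mod_cast hkn
  have hn1 : 1 ≤ n := by omega
  have hsn : 0 < √(n : ℝ) := Real.sqrt_pos.2 (by exact_mod_cast hn1)
  obtain ⟨τ, hτ⟩ : ∃ τ : ℝ, τ = ε / 2 := ⟨_, rfl⟩
  have hτ0 : 0 < τ := by rw [hτ]; positivity
  obtain ⟨A₀, hA₀, hcount⟩ := count_dirs (n := n) hn1
  obtain ⟨C, hC1, hC⟩ := mult_leG (n := n) hk hkn ((n : ℝ) - 1) (β + τ) A₀ 1 (by linarith)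
    (by linarith) (by linarith) le_rfl
  have e1 : max (max (((n : ℝ) - 1) / ((k : ℝ) - 1) - 1) ((β + τ) / ((k : ℝ) - 1))) 0 =
      max ((n : ℝ) - k) (β + τ) / ((k : ℝ) - 1) := by
    have e2 : ((n : ℝ) - 1) / ((k : ℝ) - 1) - 1 = ((n : ℝ) - k) / ((k : ℝ) - 1) := by
      field_simp
      ring
    rw [e2, max_eq_left, ← max_div_div_right hk1.le]
    exact (div_nonneg (by linarith) hk1.le).trans (le_max_right _ _)
  rw [e1] at hC
  have hC0 : 0 < C := by linarith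
  obtain ⟨η', hη'⟩ : ∃ η' : ℝ, η' = ε / (4 * C) := ⟨_, rfl⟩
  have hη'0 : 0 < η' := by rw [hη']; positivity
  have hη'C : η' * C = ε / 4 := by rw [hη']; field_simp
  refine ⟨η' * (τ / 2), by positivity, ?_⟩
  intro B hB
  obtain ⟨A, hA⟩ : ∃ A : ℝ, A = B * √(n : ℝ) ^ β := ⟨_, rfl⟩
  have hA0 : 0 ≤ A := by rw [hA]; positivity
  obtain ⟨K₀, hK₀⟩ : ∃ K₀ : ℕ, K₀ = ⌈C⌉₊ + ⌈A ^ (2 / τ)⌉₊ + 2 := ⟨_, rfl⟩
  have hK₀r : (K₀ : ℝ) = ⌈C⌉₊ + ⌈A ^ (2 / τ)⌉₊ + 2 := by rw [hK₀]; push_cast; ring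
  refine ⟨((K₀ : ℝ) + 2) ^ C * C ^ (1 / η'), by positivity, ?_⟩
  intro δ hδ hδ1 ι _ a e he hsep G hsp
  obtain ⟨v, hv⟩ : ∃ v, v = 1 / δ := ⟨_, rfl⟩
  have hv1 : 1 < v := by rw [hv, lt_div_iff₀ hδ]; linarith
  have hv0 : 0 < v := by linarith
  have hδv : ∀ s : ℝ, δ ^ (-s) = v ^ s := by
    intro s
    rw [hv, one_div, Real.inv_rpow hδ.le, Real.rpow_neg hδ.le]
  have hvη : 1 ≤ v ^ η' := Real.one_le_rpow hv1.le hη'0.le
  obtain ⟨K, hK⟩ : ∃ K : ℕ, K = K₀ + ⌈v ^ η'⌉₊ := ⟨_, rfl⟩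
  have hKr : (K : ℝ) = K₀ + ⌈v ^ η'⌉₊ := by rw [hK]; push_cast; ring
  have c1 : (0 : ℝ) ≤ ⌈C⌉₊ := Nat.cast_nonneg _
  have c2 : (0 : ℝ) ≤ ⌈A ^ (2 / τ)⌉₊ := Nat.cast_nonneg _
  have c3 : (0 : ℝ) ≤ ⌈v ^ η'⌉₊ := Nat.cast_nonneg _
  have c4 := Nat.le_ceil C
  have c5 := Nat.le_ceil (A ^ (2 / τ))
  have c6 := Nat.le_ceil (v ^ η')
  have hKC : C ≤ K := by rw [hKr, hK₀r]; linarith
  have hKA : A ^ (2 / τ) ≤ K := by rw [hKr, hK₀r]; linarith
  have hKv : v ^ η' ≤ K := by rw [hKr, hK₀r]; linarith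
  have hK2 : (2 : ℝ) ≤ K := by rw [hKr, hK₀r]; linarith
  have hK0 : (0 : ℝ) < K := by linarith
  have hKle : (K : ℝ) ≤ (K₀ + 2) * v ^ η' := by
    have h1 := (Nat.ceil_lt_add_one (by linarith : 0 ≤ v ^ η')).le
    have h2 : (0 : ℝ) ≤ K₀ := Nat.cast_nonneg _
    rw [hKr]
    nlinarith
  have hK1 : 1 ≤ K := by
    have : (1 : ℝ) ≤ K := by linarith
    exact_mod_cast this
  -- the threshold
  have hthr : B * δ ^ (-(η' * (τ / 2))) * √(n : ℝ) ^ β * (K : ℝ) ^ β ≤ 1 * (K : ℝ) ^ (β + τ) := by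
    have h1 : A ≤ (K : ℝ) ^ (τ / 2) := by
      calc A = (A ^ (2 / τ)) ^ (τ / 2) := by
            rw [← Real.rpow_mul hA0]
            have : 2 / τ * (τ / 2) = 1 := by field_simp
            rw [this, Real.rpow_one]
        _ ≤ _ := Real.rpow_le_rpow (by positivity) hKA (by positivity)
    have h2 : v ^ (η' * (τ / 2)) ≤ (K : ℝ) ^ (τ / 2) := by
      rw [Real.rpow_mul hv0.le]
      exact Real.rpow_le_rpow (by positivity) hKv (by positivity)
    rw [hδv, one_mul]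
    calc B * v ^ (η' * (τ / 2)) * √(n : ℝ) ^ β * (K : ℝ) ^ β
        = (A * v ^ (η' * (τ / 2))) * (K : ℝ) ^ β := by rw [hA]; ring
      _ ≤ ((K : ℝ) ^ (τ / 2) * (K : ℝ) ^ (τ / 2)) * (K : ℝ) ^ β := by
          refine mul_le_mul_of_nonneg_right (mul_le_mul h1 h2 (by positivity) (by positivity))
            (by positivity)
      _ = (K : ℝ) ^ (β + τ) := by
          rw [← Real.rpow_add hK0, ← Real.rpow_add hK0]
          congr 1
          ring
  have hzero : ∀ x ∈ G, flatMult k K (1 * (K : ℝ) ^ (β + τ)) δ a e x = 0 := by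
    intro x hx
    refine nonpos_iff_eq_zero.1 ((flatMult_anti hthr δ a e x).trans (le_of_eq ?_))
    exact flatMult_eq_zeroG hn1 hK1 (by positivity) a e x (hsp x hx)
  have h := hC K hKC δ hδ hδ1.le ι a e he (hcount δ hδ hδ1 ι e he hsep) G
  rw [lintegral_zero_on hk K _ δ a e G hzero, add_zero] at h
  refine h.trans ?_
  have hcard : ENNReal.ofReal (δ ^ (n - 1)) * Fintype.card ι =
      ENNReal.ofReal (δ ^ (n - 1) * Fintype.card ι) := by
    rw [ENNReal.ofReal_mul (by positivity), ENNReal.ofReal_natCast]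
  rw [hcard, ← ENNReal.ofReal_mul (by positivity)]
  refine ENNReal.ofReal_le_ofReal (mul_le_mul_of_nonneg_right ?_ (by positivity))
  rw [← hv, hδv]
  have hlv : 0 < Real.log v := Real.log_pos hv1
  have hlK : η' * Real.log v ≤ Real.log K := by
    rw [← Real.log_rpow hv0]
    exact Real.log_le_log (by positivity) hKv
  have hlK0 : 0 < Real.log K := lt_of_lt_of_le (by positivity) hlK
  have hX : Real.log v / Real.log K ≤ 1 / η' := by
    rw [div_le_div_iff₀ hlK0 hη'0]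
    linarith
  have hmax : max ((n : ℝ) - k) (β + τ) / ((k : ℝ) - 1) ≤
      max ((n : ℝ) - k) β / ((k : ℝ) - 1) + ε / 2 := by
    rw [div_le_iff₀ hk1, add_mul, div_mul_cancel₀ _ hk1.ne']
    have h1 : 1 ≤ (k : ℝ) - 1 := by linarith
    have h2 : τ ≤ ε / 2 * ((k : ℝ) - 1) := by
      rw [hτ]
      nlinarith
    refine max_le ?_ ?_
    · have := le_max_left ((n : ℝ) - k) β
      linarith
    · have := le_max_right ((n : ℝ) - k) β
      linarith
  calc (K : ℝ) ^ C * C ^ (Real.log v / Real.log K) *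
        v ^ (max ((n : ℝ) - k) (β + τ) / ((k : ℝ) - 1))
      ≤ (((K₀ : ℝ) + 2) ^ C * v ^ (ε / 4)) * C ^ (1 / η') *
        v ^ (max ((n : ℝ) - k) β / ((k : ℝ) - 1) + ε / 2) := by
        refine mul_le_mul (mul_le_mul ?_ ?_ (by positivity) (by positivity)) ?_
          (by positivity) (by positivity)
        · calc (K : ℝ) ^ C ≤ ((K₀ + 2) * v ^ η') ^ C := Real.rpow_le_rpow hK0.le hKle hC0.le
            _ = ((K₀ : ℝ) + 2) ^ C * v ^ (ε / 4) := by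
              rw [Real.mul_rpow (by positivity) (by positivity), ← Real.rpow_mul hv0.le, hη'C]
        · exact Real.rpow_le_rpow_of_exponent_le hC1 hX
        · exact Real.rpow_le_rpow_of_exponent_le hv1.le hmax
    _ = ((K₀ : ℝ) + 2) ^ C * C ^ (1 / η') *
        v ^ (ε / 4 + (max ((n : ℝ) - k) β / ((k : ℝ) - 1) + ε / 2)) := by
        rw [Real.rpow_add hv0 (ε / 4)]
        ring
    _ ≤ ((K₀ : ℝ) + 2) ^ C * C ^ (1 / η') *
        v ^ (max ((n : ℝ) - k) β / ((k : ℝ) - 1) + ε) := by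
        refine mul_le_mul_of_nonneg_left ?_ (by positivity)
        exact Real.rpow_le_rpow_of_exponent_le hv1.le (by linarith)

end Fam2

end Pool.Agent.H565.MK
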