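import Pool.Agent.H565.MK.Ext
import Pool.Agent.H565.MK.Cells
set_option autoImplicit false

/-!
# The multilinear estimate for tubes, on the whole space
-/

namespace Pool.Agent.H565.MK
open MeasureTheory Finset Metric
open scoped ENNReal

section Glob

variable {n : ℕ}

/-- The `δ`-tube with centre `a` and direction `e` (a unit vector). -/
def tube (δ : ℝ) (a e : E n) : Set (E n) :=
  {y | |inner ℝ (y - a) e| ≤ 1 / 2 ∧ ‖(y - a) - (inner ℝ (y - a) e) • e‖ ≤ δ}

theorem measurableSet_tube (δ : ℝ) (a e : E n) : MeasurableSet (tube δ a e) := by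
  have h1 : Continuous fun y : E n => inner ℝ (y - a) e := by fun_prop
  have h2 : Continuous fun y : E n => (y - a) - (inner ℝ (y - a) e) • e := by fun_prop
  exact (measurableSet_le h1.abs.measurable measurable_const).inter
    (measurableSet_le h2.norm.measurable measurable_const)

theorem tube_subset_cyl (δ : ℝ) (a e : E n) : tube δ a e ⊆ cyl δ a e := fun _ h => h.2

theorem tube_subset_ball {δ : ℝ} (hδ1 : δ ≤ 1) (a e : E n) (he : ‖e‖ = 1) :
    tube δ a e ⊆ closedBall a 2 := by
  intro y hy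
  rw [mem_closedBall, dist_eq_norm]
  have h1 : y - a = (inner ℝ (y - a) e) • e + ((y - a) - (inner ℝ (y - a) e) • e) := by abel
  rw [h1]
  refine (norm_add_le _ _).trans ?_
  rw [norm_smul, he, mul_one, Real.norm_eq_abs]
  linarith [hy.1, hy.2]

/-- Multilinear Kakeya for caps, with the index set `Fin k`. -/
theorem ml_fin {k : ℕ} (hk : 2 ≤ k) (hkn : k ≤ n) (w : Fin k → E n) (ρ θ D : ℝ) (hρ : 0 < ρ)
    (hθ0 : 0 < θ) (hθρ : θ ≤ ρ) (hD : 1 ≤ D)
    (hθ : ∀ (lam : Fin k → ℝ) (j : Fin k), θ * |lam j| ≤ ‖∑ l, lam l • w l‖)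
    (hw1 : ∀ j, ‖w j‖ = 1) (hwd : ∀ j l, ‖w j - w l‖ ≤ D * ρ)
    {ι : Type} (a e : ι → E n) (P : Fin k → Finset ι) (c : ι → ℝ≥0∞) (γ δ : ℝ) (hδ : 0 < δ)
    (hγ : 0 < γ) (hγ2 : γ ≤ 1 / 2)
    (hP : ∀ j, ∀ i ∈ P j, ‖e i - w j‖ ≤ γ * θ / 2) (z : E n) (M : ℕ)
    (hM : (2 / γ) ^ M * δ ≤ 1) (hM2 : 1 ≤ (2 / γ) ^ (M + 1) * δ) :
    ∫⁻ x in closedBall z 1, ∏ j, (∑ i ∈ P j, c i *
      (cyl δ (a i) (e i)).indicator (fun _ => (1 : ℝ≥0∞)) x) ^ (1 / ((k : ℝ) - 1)) ≤
      ENNReal.ofReal ((n.factorial : ℝ) * D ^ n * ρ ^ (n - 1) * (6 ^ M) ^ n *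
        (12 * δ / (γ * θ)) ^ n) *
        ∏ j, (∑ i ∈ P j, c i) ^ (1 / ((k : ℝ) - 1)) := by
  set φ : Fin k ↪ Fin n := Fin.castLEEmb hkn with hφ
  set J : Finset (Fin n) := univ.map φ with hJ
  have hJc : J.card = k := by rw [hJ, Finset.card_map, Finset.card_univ, Fintype.card_fin]
  set ψ : Fin n → Fin k := fun l => if h : (l : ℕ) < k then ⟨l, h⟩ else ⟨0, by omega⟩ with hψ
  have hψφ : ∀ j, ψ (φ j) = j := by
    intro j
    simp [hψ, hφ]
  have hJm : ∀ l ∈ J, ∃ j, φ j = l := by
    intro l hl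
    rw [hJ, Finset.mem_map] at hl
    obtain ⟨j, _, hj⟩ := hl
    exact ⟨j, hj⟩
  have h1 := ml_caps J (by rw [hJc]; exact hk) (fun l => w (ψ l)) ρ θ D hρ hθ0 hθρ hD ?_ ?_ ?_
    a e (fun l => P (ψ l)) c γ δ hδ hγ hγ2 ?_ z M hM hM2
  · rw [hJc] at h1
    simp only [hJ, Finset.prod_map, hψφ] at h1
    exact h1
  · intro lam l hl
    obtain ⟨j, rfl⟩ := hJm l hl
    rw [hJ, Finset.sum_map]
    simp only [hψφ]
    exact hθ (fun j => lam (φ j)) j
  · intro l _
    exact hw1 _
  · intro l _ l' _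
    exact hwd _ _
  · intro l _ i hi
    exact hP _ i hi

/-- The averaging over unit balls. -/
theorem avg_ball (f : E n → ℝ≥0∞) (hf : Measurable f) :
    volume (closedBall (0 : E n) 1) * ∫⁻ x, f x = ∫⁻ z : E n, ∫⁻ x in closedBall z 1, f x := by
  have hmeas : Measurable (fun q : E n × E n =>
      {q : E n × E n | dist q.2 q.1 ≤ 1}.indicator (fun q => f q.2) q) := by
    refine (hf.comp measurable_snd).indicator ?_
    exact measurableSet_le (measurable_snd.dist measurable_fst) measurable_const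
  have h1 : ∀ c : E n, ∫⁻ y in closedBall c 1, f y =
      ∫⁻ y, {q : E n × E n | dist q.2 q.1 ≤ 1}.indicator (fun q => f q.2) (c, y) := by
    intro c
    rw [← lintegral_indicator measurableSet_closedBall]
    refine lintegral_congr fun y => ?_
    by_cases hy : dist y c ≤ 1
    · rw [Set.indicator_of_mem (show y ∈ closedBall c 1 from hy), Set.indicator_of_mem]
      exact hy
    · rw [Set.indicator_of_notMem (show y ∉ closedBall c 1 from hy), Set.indicator_of_notMem]
      exact hy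
  simp only [h1]
  rw [lintegral_lintegral_swap hmeas.aemeasurable, ← lintegral_const_mul _ hf]
  refine lintegral_congr fun y => ?_
  have h2 : ∫⁻ c, {q : E n × E n | dist q.2 q.1 ≤ 1}.indicator (fun q => f q.2) (c, y) =
      ∫⁻ c in closedBall y 1, f y := by
    rw [← lintegral_indicator measurableSet_closedBall]
    refine lintegral_congr fun c => ?_
    by_cases hc : dist c y ≤ 1
    · rw [Set.indicator_of_mem (show c ∈ closedBall y 1 from hc), Set.indicator_of_mem]
      show dist y c ≤ 1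
      rwa [dist_comm]
    · rw [Set.indicator_of_notMem (show c ∉ closedBall y 1 from hc), Set.indicator_of_notMem]
      show ¬ dist y c ≤ 1
      rwa [dist_comm]
  rw [h2, setLIntegral_const, mul_comm]
  congr 1
  rw [Measure.addHaar_closedBall _ _ zero_le_one, Measure.addHaar_closedBall _ _ zero_le_one]

/-- **The multilinear estimate for tubes on the whole space.** -/
theorem ml_glob {k : ℕ} (hk : 2 ≤ k) (hkn : k ≤ n) (w : Fin k → E n) (ρ θ D : ℝ) (hρ : 0 < ρ)
    (hθ0 : 0 < θ) (hθρ : θ ≤ ρ) (hD : 1 ≤ D)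
    (hθ : ∀ (lam : Fin k → ℝ) (j : Fin k), θ * |lam j| ≤ ‖∑ l, lam l • w l‖)
    (hw1 : ∀ j, ‖w j‖ = 1) (hwd : ∀ j l, ‖w j - w l‖ ≤ D * ρ)
    {ι : Type} (a e : ι → E n) (he : ∀ i, ‖e i‖ = 1) (T : Finset ι) (P : Fin k → Finset ι)
    (hPT : ∀ j, P j ⊆ T) (c : ι → ℝ≥0∞) (γ δ : ℝ) (hδ : 0 < δ) (hδ1 : δ ≤ 1)
    (hγ : 0 < γ) (hγ2 : γ ≤ 1 / 2)
    (hP : ∀ j, ∀ i ∈ P j, ‖e i - w j‖ ≤ γ * θ / 2) (M : ℕ)
    (hM : (2 / γ) ^ M * δ ≤ 1) (hM2 : 1 ≤ (2 / γ) ^ (M + 1) * δ) :
    ∫⁻ x, ∏ j, (∑ i ∈ P j, c i *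
      (tube δ (a i) (e i)).indicator (fun _ => (1 : ℝ≥0∞)) x) ^ (1 / ((k : ℝ) - 1)) ≤
      ENNReal.ofReal ((n.factorial : ℝ) * D ^ n * ρ ^ (n - 1) * (6 ^ M) ^ n *
        (12 * δ / (γ * θ)) ^ n * 3 ^ n) * ((T.card : ℝ≥0∞) ^ (1 / ((k : ℝ) - 1)) *
        ∑ i ∈ T, c i ^ (1 + 1 / ((k : ℝ) - 1))) := by
  classical
  have hk2 : (2 : ℝ) ≤ k := by exact_mod_cast hk
  have hk1 : (0 : ℝ) < (k : ℝ) - 1 := by linarith
  have hp0 : (0 : ℝ) < 1 / ((k : ℝ) - 1) := by positivity
  have hpk' : (k : ℝ) * (1 / ((k : ℝ) - 1)) = 1 + 1 / ((k : ℝ) - 1) := by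
    field_simp
    ring
  have hml := fun z => ml_fin hk hkn w ρ θ D hρ hθ0 hθρ hD hθ hw1 hwd a e
    (fun j => (P j).filter (fun i => z ∈ closedBall (a i) 3)) c γ δ hδ hγ hγ2
    (fun j i hi => hP j i (Finset.filter_subset _ _ hi)) z M hM hM2
  generalize 1 / ((k : ℝ) - 1) = p at hp0 hpk' hml ⊢
  set X : ℝ := (n.factorial : ℝ) * D ^ n * ρ ^ (n - 1) * (6 ^ M) ^ n *
        (12 * δ / (γ * θ)) ^ n with hX
  have hX0 : 0 ≤ X := by positivity
  set g : E n → ℝ≥0∞ := fun x => ∏ j, (∑ i ∈ P j, c i *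
      (tube δ (a i) (e i)).indicator (fun _ => (1 : ℝ≥0∞)) x) ^ p with hg
  have hgm : Measurable g := by
    refine Finset.measurable_fun_prod _ fun j _ => Measurable.pow_const ?_ _
    exact Finset.measurable_fun_sum _ fun i _ =>
      (measurable_const.indicator (measurableSet_tube _ _ _)).const_mul _
  have h1 : ∀ z, ∫⁻ x in closedBall z 1, g x ≤ ENNReal.ofReal X *
      (∑ i ∈ T, c i * (closedBall (a i) 3).indicator (fun _ => (1 : ℝ≥0∞)) z) ^ (1 + p) := by
    intro z
    calc ∫⁻ x in closedBall z 1, g x ≤ ∫⁻ x in closedBall z 1, ∏ j,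
          (∑ i ∈ (P j).filter (fun i => z ∈ closedBall (a i) 3), c i *
          (cyl δ (a i) (e i)).indicator (fun _ => (1 : ℝ≥0∞)) x) ^ p := by
          refine setLIntegral_mono' measurableSet_closedBall fun x hx => ?_
          refine Finset.prod_le_prod' fun j _ => ENNReal.rpow_le_rpow ?_ hp0.le
          rw [Finset.sum_filter]
          refine Finset.sum_le_sum fun i _ => ?_
          by_cases hxt : x ∈ tube δ (a i) (e i)
          · have hz : z ∈ closedBall (a i) 3 := by
              have h2 := tube_subset_ball hδ1 (a i) (e i) (he i) hxt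
              rw [mem_closedBall] at h2 hx ⊢
              calc dist z (a i) ≤ dist z x + dist x (a i) := dist_triangle _ _ _
                _ ≤ 3 := by rw [dist_comm z x]; linarith
            rw [if_pos hz, Set.indicator_of_mem hxt,
              Set.indicator_of_mem (tube_subset_cyl _ _ _ hxt)]
          · rw [Set.indicator_of_notMem hxt, mul_zero]
            exact zero_le
      _ ≤ ENNReal.ofReal X * ∏ j, (∑ i ∈ (P j).filter (fun i => z ∈ closedBall (a i) 3), c i) ^ p :=
          hml z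
      _ ≤ ENNReal.ofReal X * ∏ _j : Fin k,
          (∑ i ∈ T, c i * (closedBall (a i) 3).indicator (fun _ => (1 : ℝ≥0∞)) z) ^ p := by
          gcongr with j _
          rw [Finset.sum_filter]
          refine (Finset.sum_le_sum_of_subset (hPT j)).trans ?_
          refine Finset.sum_le_sum fun i _ => ?_
          split_ifs with hz
          · rw [Set.indicator_of_mem hz, mul_one]
          · exact zero_le
      _ = _ := by
          rw [Finset.prod_const, Finset.card_univ, Fintype.card_fin, ← ENNReal.rpow_natCast,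
            ← ENNReal.rpow_mul, mul_comm p, hpk']
  have h2 : volume (closedBall (0 : E n) 1) * ∫⁻ x, g x ≤ volume (closedBall (0 : E n) 1) *
      (ENNReal.ofReal (X * 3 ^ n) * ((T.card : ℝ≥0∞) ^ p * ∑ i ∈ T, c i ^ (1 + p))) := by
    rw [avg_ball g hgm]
    calc ∫⁻ z : E n, ∫⁻ x in closedBall z 1, g x ≤ ∫⁻ z : E n, ENNReal.ofReal X *
          ((T.card : ℝ≥0∞) ^ p * ∑ i ∈ T, c i ^ (1 + p) *
            (closedBall (a i) 3).indicator (fun _ => (1 : ℝ≥0∞)) z) := by
          refine lintegral_mono fun z => (h1 z).trans ?_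
          gcongr
          refine (ENNReal.rpow_sum_le_const_mul_sum_rpow _ _ (by linarith)).trans ?_
          rw [add_sub_cancel_left]
          gcongr with i _
          rw [ENNReal.mul_rpow_of_nonneg _ _ (by linarith)]
          gcongr
          by_cases hz : z ∈ closedBall (a i) 3
          · rw [Set.indicator_of_mem hz, ENNReal.one_rpow]
          · rw [Set.indicator_of_notMem hz, ENNReal.zero_rpow_of_pos (by linarith)]
      _ = ENNReal.ofReal X * ((T.card : ℝ≥0∞) ^ p * ∑ i ∈ T, c i ^ (1 + p) *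
            volume (closedBall (a i) 3)) := by
          have hm : ∀ i, Measurable
              ((closedBall (a i) 3).indicator (fun _ => (1 : ℝ≥0∞))) := fun i =>
            measurable_const.indicator measurableSet_closedBall
          rw [lintegral_const_mul, lintegral_const_mul, lintegral_finsetSum]
          · congr 2
            refine Finset.sum_congr rfl fun i _ => ?_
            rw [lintegral_const_mul _ (hm i), lintegral_indicator_const measurableSet_closedBall,
              one_mul]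
          · exact fun i _ => (hm i).const_mul _
          · exact Finset.measurable_fun_sum _ fun i _ => (hm i).const_mul _
          · exact (Finset.measurable_fun_sum _ fun i _ => (hm i).const_mul _).const_mul _
      _ = _ := by
          have h3 : ∀ x : E n, volume (closedBall x 3) =
              ENNReal.ofReal (3 ^ n) * volume (closedBall (0 : E n) 1) := by
            intro x
            rw [Measure.addHaar_closedBall _ _ (by norm_num : (0 : ℝ) ≤ 3),
              Measure.addHaar_closedBall _ _ zero_le_one, finrank_euclideanSpace_fin]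
            simp
          simp only [h3]
          rw [← Finset.sum_mul, ENNReal.ofReal_mul hX0]
          ring
  refine (ENNReal.mul_le_mul_iff_right ?_ ?_).1 h2
  · exact (measure_closedBall_pos volume 0 one_pos).ne'
  · exact measure_closedBall_lt_top.ne

end Glob

end Pool.Agent.H565.MK
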