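import Mathlib
set_option autoImplicit false

/-!
# Greedy choice of transversal vectors
-/

namespace Pool.Agent.H565.MK
open Finset

section Greedy

variable {F : Type*} [NormedAddCommGroup F] [InnerProductSpace ℝ F] [FiniteDimensional ℝ F]

/-- Either the vectors of a finite set are close to a subspace of dimension `< k`, or there is a
greedy sequence of length `k`. -/
theorem greedy_dual (S : Finset F) (h : ℝ) (hh : 0 < h) (k : ℕ) :
    (∃ V : Submodule ℝ F, Module.finrank ℝ V < k ∧ ∀ x ∈ S, Metric.infDist x V ≤ h) ∨
    (S = ∅) ∨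
    ∃ (e ν : Fin k → F), (∀ j, e j ∈ S) ∧ (∀ j, ‖ν j‖ ≤ 1 / h) ∧
      (∀ j, inner ℝ (e j) (ν j) = (1 : ℝ)) ∧ (∀ i j, i < j → inner ℝ (e i) (ν j) = (0 : ℝ)) ∧
      (∀ x ∈ S, ∀ j, |inner ℝ x (ν j)| ≤ 1) := by
  induction k with
  | zero => exact Or.inr (Or.inr ⟨Fin.elim0, Fin.elim0, fun j => j.elim0, fun j => j.elim0,
      fun j => j.elim0, fun i => i.elim0, fun x _ j => j.elim0⟩)
  | succ k ih =>
    rcases ih with ⟨V, hV, hx⟩ | hS | ⟨e, ν, he, hν, h1, h0, hb⟩
    · exact Or.inl ⟨V, by omega, hx⟩
    · exact Or.inr (Or.inl hS)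
    · by_cases hSe : S = ∅
      · exact Or.inr (Or.inl hSe)
      have hSn : S.Nonempty := Finset.nonempty_iff_ne_empty.2 hSe
      set V : Submodule ℝ F := Submodule.span ℝ (Set.range e) with hV
      have hVr : Module.finrank ℝ V < k + 1 := by
        have := finrank_range_le_card (R := ℝ) e
        rw [Fintype.card_fin] at this
        exact Nat.lt_succ_of_le this
      obtain ⟨x, hxS, hmax⟩ := Finset.exists_max_image S (fun y => ‖y - V.starProjection y‖) hSn
      set D : ℝ := ‖x - V.starProjection x‖ with hD
      have hdist : ∀ y : F, Metric.infDist y V ≤ ‖y - V.starProjection y‖ := by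
        intro y
        rw [← dist_eq_norm]
        exact Metric.infDist_le_dist_of_mem (V.starProjection_apply_mem y)
      by_cases hDh : D ≤ h
      · exact Or.inl ⟨V, hVr, fun y hy => (hdist y).trans ((hmax y hy).trans hDh)⟩
      · push Not at hDh
        have hD0 : 0 < D := hh.trans hDh
        refine Or.inr (Or.inr ?_)
        set r : F := x - V.starProjection x with hr
        have hrV : ∀ y ∈ V, inner ℝ y r = (0 : ℝ) := by
          intro y hy
          exact (Submodule.mem_orthogonal V _).1 (V.sub_starProjection_mem_orthogonal x) y hy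
        have hinner : ∀ y : F, inner ℝ y r = inner ℝ (y - V.starProjection y) r := by
          intro y
          rw [inner_sub_left, hrV _ (V.starProjection_apply_mem y), sub_zero]
        have hxr : inner ℝ x r = D ^ 2 := by
          rw [hinner x, ← hr, real_inner_self_eq_norm_sq]
        refine ⟨Fin.snoc e x, Fin.snoc ν ((1 / D ^ 2) • r), ?_, ?_, ?_, ?_, ?_⟩
        · intro j
          refine Fin.lastCases ?_ (fun j => ?_) j
          · simpa using hxS
          · simpa using he j
        · intro j
          refine Fin.lastCases ?_ (fun j => ?_) j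
          · rw [Fin.snoc_last, norm_smul, Real.norm_eq_abs, abs_of_pos (by positivity), ← hD]
            rw [div_mul_eq_mul_div, one_mul, pow_two, div_mul_cancel_right₀ hD0.ne', one_div]
            exact inv_anti₀ hh hDh.le
          · simpa using hν j
        · intro j
          refine Fin.lastCases ?_ (fun j => ?_) j
          · rw [Fin.snoc_last, Fin.snoc_last, real_inner_smul_right, hxr]
            field_simp
          · simpa using h1 j
        · intro i j hij
          revert hij
          refine Fin.lastCases ?_ (fun j => ?_) j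
          · refine Fin.lastCases ?_ (fun i => ?_) i
            · intro hij
              exact absurd hij (lt_irrefl _)
            · intro _
              rw [Fin.snoc_last, Fin.snoc_castSucc, real_inner_smul_right,
                hrV _ (Submodule.subset_span (Set.mem_range_self i)), mul_zero]
          · refine Fin.lastCases ?_ (fun i => ?_) i
            · intro hij
              exact absurd hij (not_lt.2 (Fin.le_last _))
            · intro hij
              rw [Fin.snoc_castSucc, Fin.snoc_castSucc]
              exact h0 i j (by simpa using hij)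
        · intro y hy j
          refine Fin.lastCases ?_ (fun j => ?_) j
          · rw [Fin.snoc_last, real_inner_smul_right, hinner y, abs_mul,
              abs_of_pos (by positivity : (0 : ℝ) < 1 / D ^ 2)]
            have h3 := abs_real_inner_le_norm (y - V.starProjection y) r
            rw [← hD] at h3
            have h4 : |inner ℝ (y - V.starProjection y) r| ≤ D * D :=
              h3.trans (by gcongr; exact hmax y hy)
            calc 1 / D ^ 2 * |inner ℝ (y - V.starProjection y) r| ≤ 1 / D ^ 2 * (D * D) := by
                  gcongr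
              _ = 1 := by field_simp
          · simpa using hb y hy j

/-- The transversality of the greedy sequence. -/
theorem greedy_bound {k : ℕ} (e ν : Fin k → F) (h : ℝ) (hh : 0 < h) (hν : ∀ j, ‖ν j‖ ≤ 1 / h)
    (h1 : ∀ j, inner ℝ (e j) (ν j) = (1 : ℝ)) (h0 : ∀ i j, i < j → inner ℝ (e i) (ν j) = (0 : ℝ))
    (hb : ∀ i j, |inner ℝ (e i) (ν j)| ≤ 1) (lam : Fin k → ℝ) (j : Fin k) :
    h * |lam j| ≤ 2 ^ (k - 1 - (j : ℕ)) * ‖∑ l, lam l • e l‖ := by
  have hk : (j : ℕ) < k := j.2
  induction hm : k - 1 - (j : ℕ) using Nat.strong_induction_on generalizing j with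
  | _ m ih =>
    set X : F := ∑ l, lam l • e l with hX
    have e1 : inner ℝ X (ν j) = ∑ l, lam l * inner ℝ (e l) (ν j) := by
      rw [hX, sum_inner]
      exact Finset.sum_congr rfl fun l _ => real_inner_smul_left _ _ _
    have e2 : ∑ l, lam l * inner ℝ (e l) (ν j) =
        lam j + ∑ l ∈ Finset.univ.filter (fun l => j < l), lam l * inner ℝ (e l) (ν j) := by
      rw [← Finset.add_sum_erase Finset.univ _ (Finset.mem_univ j), h1 j, mul_one]
      congr 1
      symm
      apply Finset.sum_subset
      · intro l hl
        rw [Finset.mem_filter] at hl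
        exact Finset.mem_erase.2 ⟨hl.2.ne', Finset.mem_univ _⟩
      · intro l hl hl2
        rw [Finset.mem_filter, not_and] at hl2
        have h3 : l < j := lt_of_le_of_ne (not_lt.1 (hl2 (Finset.mem_univ _)))
          (Finset.ne_of_mem_erase hl)
        rw [h0 l j h3, mul_zero]
    have e3 : |inner ℝ X (ν j)| ≤ ‖X‖ * (1 / h) :=
      (abs_real_inner_le_norm _ _).trans (by gcongr; exact hν j)
    have e4 : ∀ l ∈ Finset.univ.filter (fun l => j < l),
        h * |lam l * inner ℝ (e l) (ν j)| ≤ 2 ^ (k - 1 - (l : ℕ)) * ‖X‖ := by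
      intro l hl
      rw [Finset.mem_filter] at hl
      have hjl : (j : ℕ) < (l : ℕ) := hl.2
      have := ih (k - 1 - (l : ℕ)) (by omega) l l.2 rfl
      refine le_trans ?_ this
      rw [abs_mul]
      have := hb l j
      calc h * (|lam l| * |inner ℝ (e l) (ν j)|) ≤ h * (|lam l| * 1) := by gcongr
        _ = h * |lam l| := by ring
    have e5 : ∑ l ∈ Finset.univ.filter (fun l => j < l), (2 : ℝ) ^ (k - 1 - (l : ℕ)) ≤
        2 ^ m - 1 := by
      have : ∑ l ∈ Finset.univ.filter (fun l => j < l), (2 : ℝ) ^ (k - 1 - (l : ℕ)) =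
          ∑ i ∈ Finset.range m, (2 : ℝ) ^ i := by
        refine Finset.sum_bij (fun l _ => k - 1 - (l : ℕ)) ?_ ?_ ?_ ?_
        · intro l hl
          rw [Finset.mem_filter] at hl
          have hjl : (j : ℕ) < (l : ℕ) := hl.2
          have := l.2
          rw [Finset.mem_range]
          omega
        · intro l hl l' hl' hll
          have := l.2
          have := l'.2
          ext
          omega
        · intro i hi
          rw [Finset.mem_range] at hi
          refine ⟨⟨k - 1 - i, by omega⟩, ?_, ?_⟩
          · rw [Finset.mem_filter]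
            refine ⟨Finset.mem_univ _, ?_⟩
            show (j : ℕ) < k - 1 - i
            omega
          · show k - 1 - (k - 1 - i) = i
            omega
        · intro l _
          rfl
      rw [this, geom_sum_eq (by norm_num)]
      norm_num
    have e6 : lam j = inner ℝ X (ν j) -
        ∑ l ∈ Finset.univ.filter (fun l => j < l), lam l * inner ℝ (e l) (ν j) := by
      rw [e1, e2]
      ring
    calc h * |lam j| ≤ h * (|inner ℝ X (ν j)| +
          ∑ l ∈ Finset.univ.filter (fun l => j < l), |lam l * inner ℝ (e l) (ν j)|) := by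
          gcongr
          rw [e6]
          refine (abs_sub _ _).trans ?_
          gcongr
          exact Finset.abs_sum_le_sum_abs _ _
      _ = h * |inner ℝ X (ν j)| +
          ∑ l ∈ Finset.univ.filter (fun l => j < l), h * |lam l * inner ℝ (e l) (ν j)| := by
          rw [mul_add, Finset.mul_sum]
      _ ≤ h * (‖X‖ * (1 / h)) + ∑ l ∈ Finset.univ.filter (fun l => j < l),
          2 ^ (k - 1 - (l : ℕ)) * ‖X‖ := by
          exact add_le_add (mul_le_mul_of_nonneg_left e3 hh.le) (Finset.sum_le_sum e4)
      _ = ‖X‖ + (∑ l ∈ Finset.univ.filter (fun l => j < l), (2 : ℝ) ^ (k - 1 - (l : ℕ))) * ‖X‖ := by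
          rw [Finset.sum_mul]
          congr 1
          field_simp
      _ ≤ ‖X‖ + (2 ^ m - 1) * ‖X‖ := by gcongr
      _ = 2 ^ m * ‖X‖ := by ring

/-- **The greedy dichotomy.** -/
theorem greedy (S : Finset F) (hS : S.Nonempty) (h : ℝ) (hh : 0 < h) (k : ℕ) :
    (∃ V : Submodule ℝ F, Module.finrank ℝ V < k ∧ ∀ x ∈ S, Metric.infDist x V ≤ h) ∨
    ∃ e : Fin k → F, (∀ j, e j ∈ S) ∧ ∀ (lam : Fin k → ℝ) (j : Fin k),
      h / 2 ^ k * |lam j| ≤ ‖∑ l, lam l • e l‖ := by
  rcases greedy_dual S h hh k with h1 | h1 | ⟨e, ν, he, hν, h1, h0, hb⟩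
  · exact Or.inl h1
  · exact absurd h1 hS.ne_empty
  · refine Or.inr ⟨e, he, fun lam j => ?_⟩
    have h2 := greedy_bound e ν h hh hν h1 h0 (fun i j => hb _ (he i) j) lam j
    rw [div_mul_eq_mul_div, div_le_iff₀ (by positivity)]
    refine h2.trans ?_
    rw [mul_comm]
    gcongr
    · norm_num
    · omega

end Greedy

end Pool.Agent.H565.MK
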