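import Pool.Agent.H565.MK.Spr
import Pool.Graph.R_seed8.W605.HD.Cov
set_option autoImplicit false

/-!
# Tools for the discretisation of sets with many segments
-/

namespace Pool.Agent.H565.MK
open MeasureTheory Finset Metric
open scoped ENNReal Pointwise

/-- Maximal separated subsets. -/
theorem max_sep {X : Type*} [PseudoMetricSpace X] (S : Set X) (hS : TotallyBounded S) {r : ℝ}
    (hr : 0 < r) :
    ∃ Y : Finset X, (∀ y ∈ Y, y ∈ S) ∧ (∀ y ∈ Y, ∀ y' ∈ Y, y ≠ y' → r ≤ dist y y') ∧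
      ∀ x ∈ S, ∃ y ∈ Y, dist x y ≤ r := by
  classical
  by_contra hcon
  push Not at hcon
  have key : ∀ k : ℕ, ∃ Y : Finset X, (∀ y ∈ Y, y ∈ S) ∧
      (∀ y ∈ Y, ∀ y' ∈ Y, y ≠ y' → r ≤ dist y y') ∧ Y.card = k := by
    intro k
    induction k with
    | zero => exact ⟨∅, by simp, by simp, rfl⟩
    | succ k ih =>
      obtain ⟨Y, hY, hsep, hk⟩ := ih
      obtain ⟨y, hy, hyY⟩ := hcon Y hY hsep
      have hyY' : y ∉ Y := by
        intro h
        have := hyY y h
        rw [dist_self] at this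
        linarith
      refine ⟨insert y Y, ?_, ?_, by rw [Finset.card_insert_of_notMem hyY', hk]⟩
      · intro x hx
        rcases Finset.mem_insert.1 hx with h1 | hx
        · rw [h1]; exact hy
        · exact hY x hx
      · intro x hx x' hx' hne
        rcases Finset.mem_insert.1 hx with h1 | hx
        · rcases Finset.mem_insert.1 hx' with h2 | hx'
          · exact absurd (h1.trans h2.symm) hne
          · rw [h1]; exact (hyY x' hx').le
        · rcases Finset.mem_insert.1 hx' with h2 | hx'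
          · rw [h2, dist_comm]; exact (hyY x hx).le
          · exact hsep x hx x' hx' hne
  obtain ⟨t, ht, hcov⟩ := Metric.totallyBounded_iff.1 hS (r / 2) (by positivity)
  obtain ⟨Y, hY, hsep, hk⟩ := key (ht.toFinset.card + 1)
  have hex : ∀ y ∈ Y, ∃ z ∈ ht.toFinset, dist y z < r / 2 := by
    intro y hy
    obtain ⟨z, hz, hyz⟩ := Set.mem_iUnion₂.1 (hcov (hY y hy))
    exact ⟨z, ht.mem_toFinset.2 hz, hyz⟩
  choose! f hf1 hf2 using hex
  obtain ⟨y, hy, y', hy', hne, hff⟩ := Finset.exists_ne_map_eq_of_card_lt_of_maps_to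
    (by rw [hk]; omega : ht.toFinset.card < Y.card) hf1
  have h1 := hsep y hy y' hy' hne
  have h2 := hf2 y hy
  have h3 := hf2 y' hy'
  rw [← hff] at h3
  have h4 := dist_triangle_right y y' (f y)
  linarith

variable {n : ℕ}

/-- The surface measure of a cap. -/
theorem cap_measure (hn : 1 ≤ n) {δ : ℝ} (hδ : 0 < δ) (hδ1 : δ ≤ 1)
    (e : sphere (0 : E n) 1) :
    (volume : Measure (E n)).toSphere {e' | dist e' e ≤ δ} ≤
      ENNReal.ofReal (n * ((n.factorial : ℝ) * 6 ^ n) * δ ^ (n - 1)) := by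
  have hm : MeasurableSet {e' : sphere (0 : E n) 1 | dist e' e ≤ δ} :=
    (isClosed_le (continuous_id.dist continuous_const) continuous_const).measurableSet
  rw [Measure.toSphere_apply' _ hm, finrank_euclideanSpace_fin]
  have he : ‖(e : E n)‖ = 1 := by simpa using e.2
  have hsub : Set.Ioo (0 : ℝ) 1 • ((↑) '' {e' : sphere (0 : E n) 1 | dist e' e ≤ δ}) ⊆
      tube δ ((1 / 2 : ℝ) • (e : E n)) e := by
    rintro x ⟨r, hr, y, ⟨e', he', rfl⟩, rfl⟩
    have he'1 : ‖(e' : E n)‖ = 1 := by simpa using e'.2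
    have hd : ‖(e' : E n) - e‖ ≤ δ := by
      have h1 : dist e' e ≤ δ := he'
      rwa [Subtype.dist_eq, dist_eq_norm] at h1
    have hin : inner ℝ (e' : E n) (e : E n) = 1 - ‖(e' : E n) - e‖ ^ 2 / 2 := by
      have h2 := norm_sub_sq_real (e' : E n) (e : E n)
      rw [he, he'1] at h2
      linarith
    have hee : inner ℝ (e : E n) (e : E n) = (1 : ℝ) := by
      rw [real_inner_self_eq_norm_sq, he, one_pow]
    have hin0 : 0 ≤ inner ℝ (e' : E n) (e : E n) := by
      rw [hin]
      nlinarith [norm_nonneg ((e' : E n) - e)]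
    have hin1 : inner ℝ (e' : E n) (e : E n) ≤ 1 := by
      rw [hin]
      nlinarith [sq_nonneg ‖(e' : E n) - e‖]
    have hI : inner ℝ (r • (e' : E n) - (1 / 2 : ℝ) • (e : E n)) (e : E n) =
        r * inner ℝ (e' : E n) (e : E n) - 1 / 2 := by
      rw [inner_sub_left, inner_smul_left, inner_smul_left, hee]
      simp
    constructor
    · change |inner ℝ (r • (e' : E n) - (1 / 2 : ℝ) • (e : E n)) (e : E n)| ≤ 1 / 2
      rw [hI, abs_le]
      have h5 : r * inner ℝ (e' : E n) (e : E n) ≤ 1 := by nlinarith [hr.1, hr.2]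
      have h6 : 0 ≤ r * inner ℝ (e' : E n) (e : E n) := mul_nonneg hr.1.le hin0
      constructor <;> linarith
    · change ‖r • (e' : E n) - (1 / 2 : ℝ) • (e : E n) -
        (inner ℝ (r • (e' : E n) - (1 / 2 : ℝ) • (e : E n)) (e : E n)) • (e : E n)‖ ≤ δ
      rw [hI]
      have h7 : r • (e' : E n) - (1 / 2 : ℝ) • (e : E n) -
          (r * inner ℝ (e' : E n) (e : E n) - 1 / 2) • (e : E n) =
          r • ((e' : E n) - (inner ℝ (e' : E n) (e : E n)) • (e : E n)) := by
        rw [sub_smul, smul_sub, smul_smul]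
        abel
      rw [h7, norm_smul, Real.norm_eq_abs, abs_of_pos hr.1]
      have h8 : ‖(e' : E n) - (inner ℝ (e' : E n) (e : E n)) • (e : E n)‖ ≤ δ := by
        have h9 : ‖(e' : E n) - (inner ℝ (e' : E n) (e : E n)) • (e : E n)‖ ^ 2 =
            1 - (inner ℝ (e' : E n) (e : E n)) ^ 2 := by
          rw [norm_sub_sq_real, he'1, norm_smul, he, inner_smul_right, Real.norm_eq_abs, mul_one,
            sq_abs]
          ring
        have h10 : ‖(e' : E n) - (inner ℝ (e' : E n) (e : E n)) • (e : E n)‖ ^ 2 ≤ δ ^ 2 := by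
          rw [h9]
          have h11 : 1 - (inner ℝ (e' : E n) (e : E n)) ^ 2 ≤ ‖(e' : E n) - e‖ ^ 2 := by
            rw [hin]
            nlinarith [sq_nonneg (‖(e' : E n) - e‖ ^ 2)]
          have h12 : ‖(e' : E n) - e‖ ^ 2 ≤ δ ^ 2 :=
            pow_le_pow_left₀ (norm_nonneg _) hd 2
          linarith
        exact (pow_le_pow_iff_left₀ (norm_nonneg _) hδ.le two_ne_zero).1 h10
      calc r * ‖(e' : E n) - (inner ℝ (e' : E n) (e : E n)) • (e : E n)‖ ≤ 1 * δ :=
            mul_le_mul hr.2.le h8 (norm_nonneg _) zero_le_one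
        _ = δ := one_mul _
  refine (mul_le_mul_right ((measure_mono hsub).trans
    (volume_tube hn hδ hδ1 _ _ he)) _).trans ?_
  rw [← ENNReal.ofReal_natCast, ← ENNReal.ofReal_mul (by positivity)]
  refine ENNReal.ofReal_le_ofReal (le_of_eq (by ring))

/-- The number of the elements of a maximal separated subset. -/
theorem sep_card (hn : 1 ≤ n) {δ x : ℝ} (hδ : 0 < δ) (hδ1 : δ ≤ 1)
    (W : Set (sphere (0 : E n) 1)) (Y : Finset (sphere (0 : E n) 1))
    (hY : ∀ x ∈ W, ∃ y ∈ Y, dist x y ≤ δ)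
    (hW : ENNReal.ofReal x ≤ (volume : Measure (E n)).toSphere W) :
    x ≤ (n * ((n.factorial : ℝ) * 6 ^ n)) * (δ ^ (n - 1) * Y.card) := by
  have h1 : W ⊆ ⋃ y ∈ Y, {e' | dist e' y ≤ δ} := by
    intro w hw
    obtain ⟨y, hy, hwy⟩ := hY w hw
    exact Set.mem_iUnion₂.2 ⟨y, hy, hwy⟩
  have h2 := hW.trans ((measure_mono h1).trans (measure_biUnion_finset_le Y _))
  have h3 := h2.trans (Finset.sum_le_sum fun y _ => cap_measure hn hδ hδ1 y)
  rw [Finset.sum_const, nsmul_eq_mul, ← ENNReal.ofReal_natCast,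
    ← ENNReal.ofReal_mul (by positivity)] at h3
  have h4 := (ENNReal.ofReal_le_ofReal_iff (by positivity)).1 h3
  refine h4.trans (le_of_eq (by ring))

/-- A tube meets the neighbourhood of a large part of its axis in a large set. -/
theorem tube_inter (hn : 1 ≤ n) : ∃ c : ℝ, 0 < c ∧ ∀ (δ : ℝ), 0 < δ → ∀ (a e : E n), ‖e‖ = 1 →
    ∀ (F : Set ℝ) (G : Set (E n)), (∀ t ∈ F, |t| ≤ 1 / 2) →
    (∀ t ∈ F, ball (a + t • e) (δ / 2) ⊆ G) → ∀ m : ℝ, 4 * δ ≤ m → ENNReal.ofReal m ≤ volume F →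
      ENNReal.ofReal (c * m * δ ^ (n - 1)) ≤ volume (tube δ a e ∩ G) := by
  have hn0 : 0 < n := by omega
  have : Nonempty (Fin n) := ⟨⟨0, hn0⟩⟩
  obtain ⟨v, hv⟩ : ∃ v : ℝ, v = (volume (ball (0 : E n) 1)).toReal := ⟨_, rfl⟩
  have hvt : volume (ball (0 : E n) 1) ≠ ⊤ := measure_ball_lt_top.ne
  have hvp : 0 < v := by
    rw [hv]
    exact ENNReal.toReal_pos (measure_ball_pos _ _ one_pos).ne' hvt
  refine ⟨v / (4 * 2 ^ n), by positivity, ?_⟩
  intro δ hδ a e he F G hF hG m hm hFm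
  -- the part of `F` away from the ends
  obtain ⟨F', hF'⟩ : ∃ F' : Set ℝ, F' = {t | t ∈ F ∧ |t| ≤ 1 / 2 - δ / 2} := ⟨_, rfl⟩
  have hFF : F ⊆ F' ∪ (Set.Icc (1 / 2 - δ / 2) (1 / 2) ∪ Set.Icc (-(1 / 2)) (-(1 / 2 - δ / 2))) := by
    intro t ht
    by_cases h1 : |t| ≤ 1 / 2 - δ / 2
    · left
      rw [hF']
      exact ⟨ht, h1⟩
    · right
      rw [not_le, lt_abs] at h1
      have h2 := abs_le.1 (hF t ht)
      rcases h1 with h1 | h1
      · left
        exact ⟨h1.le, h2.2⟩
      · right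
        exact ⟨h2.1, by linarith⟩
  have hF'm : ENNReal.ofReal (m / 2) ≤ volume F' := by
    have h1 := hFm.trans ((measure_mono hFF).trans (measure_union_le _ _))
    have h2 : volume (Set.Icc (1 / 2 - δ / 2) (1 / 2) ∪ Set.Icc (-(1 / 2)) (-(1 / 2 - δ / 2))) ≤
        ENNReal.ofReal (m / 2) := by
      refine (measure_union_le _ _).trans ?_
      rw [Real.volume_Icc, Real.volume_Icc, ← ENNReal.ofReal_add (by linarith) (by linarith)]
      exact ENNReal.ofReal_le_ofReal (by linarith)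
    have h3 : ENNReal.ofReal (m / 2) + ENNReal.ofReal (m / 2) ≤
        volume F' + ENNReal.ofReal (m / 2) := by
      rw [← ENNReal.ofReal_add (by linarith) (by linarith), add_halves]
      exact h1.trans (add_le_add_right h2 _)
    exact (ENNReal.add_le_add_iff_right ENNReal.ofReal_ne_top).1 h3
  have htb : TotallyBounded F' := by
    refine (totallyBounded_Icc (-(1 / 2 : ℝ)) (1 / 2)).subset ?_
    intro t ht
    rw [hF'] at ht
    exact abs_le.1 (hF t ht.1)
  obtain ⟨Y, hY1, hY2, hY3⟩ := max_sep F' htb hδ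
  have hcard : m / 2 ≤ 2 * δ * Y.card := by
    have h1 : F' ⊆ ⋃ y ∈ Y, Set.Icc (y - δ) (y + δ) := by
      intro t ht
      obtain ⟨y, hy, hty⟩ := hY3 t ht
      rw [Real.dist_eq, abs_le] at hty
      exact Set.mem_iUnion₂.2 ⟨y, hy, ⟨by linarith, by linarith⟩⟩
    have h2 := hF'm.trans ((measure_mono h1).trans (measure_biUnion_finset_le Y _))
    simp only [Real.volume_Icc] at h2
    have h3 : ∀ y : ℝ, y + δ - (y - δ) = 2 * δ := fun y => by ring
    simp only [h3, Finset.sum_const, nsmul_eq_mul] at h2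
    rw [← ENNReal.ofReal_natCast, ← ENNReal.ofReal_mul (by positivity)] at h2
    have h4 := (ENNReal.ofReal_le_ofReal_iff (by positivity)).1 h2
    linarith
  -- the disjoint balls
  have hsub : (⋃ y ∈ Y, ball (a + y • e) (δ / 2)) ⊆ tube δ a e ∩ G := by
    intro x hx
    obtain ⟨y, hy, hxy⟩ := Set.mem_iUnion₂.1 hx
    have hyF := hY1 y hy
    rw [hF'] at hyF
    refine ⟨?_, hG y hyF.1 hxy⟩
    obtain ⟨w, hw⟩ : ∃ w : E n, w = x - (a + y • e) := ⟨_, rfl⟩
    have hwn : ‖w‖ < δ / 2 := by rw [hw, ← dist_eq_norm]; exact hxy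
    have hxa : x - a = y • e + w := by rw [hw]; abel
    have hee : inner ℝ e e = (1 : ℝ) := by rw [real_inner_self_eq_norm_sq, he, one_pow]
    have hwe : |inner ℝ w e| ≤ ‖w‖ := by
      have := abs_real_inner_le_norm w e
      rwa [he, mul_one] at this
    have hI : inner ℝ (x - a) e = y + inner ℝ w e := by
      rw [hxa, inner_add_left, inner_smul_left, hee]
      simp
    constructor
    · change |inner ℝ (x - a) e| ≤ 1 / 2
      rw [hI]
      refine (abs_add_le _ _).trans ?_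
      linarith [hyF.2]
    · change ‖(x - a) - (inner ℝ (x - a) e) • e‖ ≤ δ
      have h5 : (x - a) - (inner ℝ (x - a) e) • e = w - (inner ℝ w e) • e := by
        rw [hI, hxa, add_smul]
        abel
      rw [h5]
      refine (norm_sub_le _ _).trans ?_
      rw [norm_smul, he, mul_one, Real.norm_eq_abs]
      linarith
  have hdisj : (Y : Set ℝ).PairwiseDisjoint fun y => ball (a + y • e) (δ / 2) := by
    intro y hy y' hy' hne
    have h1 := hY2 y hy y' hy' hne
    refine ball_disjoint_ball ?_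
    rw [dist_add_left, dist_eq_norm, ← sub_smul, norm_smul, he, mul_one, ← dist_eq_norm]
    linarith
  refine le_trans ?_ (measure_mono hsub)
  rw [measure_biUnion_finset hdisj (fun y _ => measurableSet_ball)]
  have hball : ∀ y ∈ Y, volume (ball (a + y • e) (δ / 2)) = ENNReal.ofReal ((δ / 2) ^ n * v) := by
    intro y _
    rw [Measure.addHaar_ball _ _ (by positivity), finrank_euclideanSpace_fin,
      ENNReal.ofReal_mul (by positivity), hv, ENNReal.ofReal_toReal hvt]
  rw [Finset.sum_congr rfl hball, Finset.sum_const, nsmul_eq_mul, ← ENNReal.ofReal_natCast,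
    ← ENNReal.ofReal_mul (by positivity)]
  refine ENNReal.ofReal_le_ofReal ?_
  obtain ⟨d, rfl⟩ : ∃ d, n = d + 1 := ⟨n - 1, by omega⟩
  rw [Nat.add_sub_cancel, div_pow, pow_succ δ d]
  have h6 : m ≤ 4 * δ * Y.card := by linarith
  calc v / (4 * 2 ^ (d + 1)) * m * δ ^ d ≤ v / (4 * 2 ^ (d + 1)) * (4 * δ * Y.card) * δ ^ d := by
        refine mul_le_mul_of_nonneg_right (mul_le_mul_of_nonneg_left h6 (by positivity))
          (by positivity)
    _ = _ := by
        field_simp

end Pool.Agent.H565.MK
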