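import Pool.Agent.H565.MK.HT1
set_option autoImplicit false

/-!
# Hausdorff dimension from inequalities for the tubes of a given selection of segments
-/

namespace Pool.Agent.H565.MK
open MeasureTheory Finset Metric
open scoped ENNReal NNReal Pointwise

variable {n : ℕ}

theorem holder_pow {p : ℝ} (hp : 0 < p) (f : E n → ℝ≥0∞) (hf : Measurable f) (G : Set (E n)) :
    (∫⁻ x in G, f x) ^ (1 + p) ≤ volume G ^ p * ∫⁻ x in G, f x ^ (1 + p) := by
  have h1p : 0 < 1 + p := by linarith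
  have hpq : ((1 + p) / p).HolderConjugate (1 + p) := by
    rw [Real.holderConjugate_iff]
    constructor
    · rw [lt_div_iff₀ hp]; linarith
    · field_simp
      ring
  have h := ENNReal.lintegral_mul_le_Lp_mul_Lq (volume.restrict G) hpq
    (f := fun _ => (1 : ℝ≥0∞)) (g := f) aemeasurable_const hf.aemeasurable
  have h2 := ENNReal.rpow_le_rpow h h1p.le
  rw [ENNReal.mul_rpow_of_nonneg _ _ h1p.le, ← ENNReal.rpow_mul, ← ENNReal.rpow_mul] at h2
  have e1 : 1 / ((1 + p) / p) * (1 + p) = p := by field_simp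
  have e2 : 1 / (1 + p) * (1 + p) = 1 := by field_simp
  rw [e1, e2, ENNReal.rpow_one] at h2
  simp only [Pi.mul_apply, one_mul, ENNReal.one_rpow, lintegral_const, one_mul,
    Measure.restrict_apply MeasurableSet.univ, Set.univ_inter] at h2
  exact h2

theorem int_mult_on {ι : Type} [Fintype ι] (δ : ℝ) (a e : ι → E n) (G : Set (E n)) :
    ∫⁻ x in G, mult δ a e x = ∑ i, volume (tube δ (a i) (e i) ∩ G) := by
  unfold mult
  rw [lintegral_finsetSum]
  · refine Finset.sum_congr rfl fun i _ => ?_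
    rw [lintegral_indicator_const (measurableSet_tube _ _ _), one_mul,
      Measure.restrict_apply (measurableSet_tube _ _ _)]
  · exact fun i _ => measurable_const.indicator (measurableSet_tube _ _ _)

/-- The final numerical contradiction. -/
theorem num_contra {p γ ε α η s c2 x1 x2 C C3 C4 M D L : ℝ} {k : ℕ} (hp : 0 < p)
    (hc2 : 0 < c2) (hx1 : 0 < x1) (hx2 : 0 < x2) (hC : 0 < C) (hC3 : 0 < C3) (hC4 : 0 < C4)
    (hs : p * α - p * D + γ + ε + (1 + 2 * p) * η ≤ -s)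
    (hL : L = -((1 + p) * (Real.log c2 + Real.log x2) + p * (Real.log x1 - Real.log C4)) +
      (p * Real.log C3 + p * α * Real.log 2 + Real.log C))
    (hk : L < k * (s * Real.log 2))
    (hN : x1 * Real.exp (-(k * η * Real.log 2)) ≤ C4 * M)
    (hA : (c2 * (x2 * Real.exp (-(k * η * Real.log 2))) * M) ^ (1 + p) ≤
      (C3 * (2 : ℝ) ^ (α * (k + 1)) * Real.exp (-(k * D * Real.log 2))) ^ p *
        (C * Real.exp (k * (γ + ε) * Real.log 2) * M)) : False := by
  have hM : 0 < M := by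
    by_contra h
    rw [not_lt] at h
    have h1 : 0 < x1 * Real.exp (-(k * η * Real.log 2)) := by positivity
    nlinarith
  have h1 := Real.log_le_log (by positivity) hN
  rw [Real.log_mul hx1.ne' (Real.exp_pos _).ne', Real.log_exp, Real.log_mul hC4.ne' hM.ne'] at h1
  have h2 := Real.log_le_log (by positivity) hA
  rw [Real.log_rpow (by positivity), Real.log_mul (by positivity) hM.ne',
    Real.log_mul hc2.ne' (by positivity), Real.log_mul hx2.ne' (Real.exp_pos _).ne', Real.log_exp,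
    Real.log_mul (by positivity) (by positivity), Real.log_rpow (by positivity),
    Real.log_mul (by positivity) (by positivity), Real.log_mul hC3.ne' (by positivity),
    Real.log_rpow (by norm_num), Real.log_exp, Real.log_mul (by positivity) hM.ne',
    Real.log_mul hC.ne' (by positivity), Real.log_exp] at h2
  have h3 := mul_le_mul_of_nonneg_left h1 hp.le
  have hlog2 : 0 < Real.log 2 := Real.log_pos (by norm_num)
  have h4 : (k : ℝ) * Real.log 2 * (p * α - p * D + γ + ε + (1 + 2 * p) * η) ≤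
      (k : ℝ) * Real.log 2 * (-s) := mul_le_mul_of_nonneg_left hs (by positivity)
  rw [hL] at hk
  nlinarith

/-- **Lower bounds for the Hausdorff dimension of a set with segments in many directions, from
inequalities for the tubes around these segments.** -/
theorem haus_of_tubes (hn : 1 ≤ n) (p γ : ℝ) (hp : 0 < p) (U : Set (E n))
    (a : E n → E n) (K : Set (E n)) (hU1 : ∀ e ∈ U, ‖e‖ = 1)
    (hseg : ∀ e ∈ U, 0 < volume {t : ℝ | |t| ≤ 1 / 2 ∧ a e + t • e ∈ K})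
    (hU : (volume : Measure (E n)).toSphere {e : sphere (0 : E n) 1 | (e : E n) ∈ U} ≠ 0)
    (H : ∃ C : ℝ, 0 < C ∧ ∀ δ : ℝ, 0 < δ → δ < 1 →
      ∀ (ι : Type) [Fintype ι] (e : ι → E n), (∀ i, e i ∈ U) →
      (∀ i j, i ≠ j → δ ≤ ‖e i - e j‖) →
      ∀ G : Set (E n), (∀ x ∈ G, ∃ z ∈ K, dist x z < 2 * δ) →
      ∫⁻ x in G, mult δ (fun i => a (e i)) e x ^ (1 + p) ≤
        ENNReal.ofReal (C * δ ^ (-γ) * (δ ^ (n - 1) * Fintype.card ι))) :
    ENNReal.ofReal (n - γ / p) ≤ dimH K := by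
  classical
  by_contra hcon
  rw [not_le] at hcon
  obtain ⟨α, hα1, hα2⟩ := ENNReal.lt_iff_exists_nnreal_btwn.1 hcon
  have hα0 : (0 : ℝ) ≤ α := NNReal.coe_nonneg α
  have hα3 : (α : ℝ) < n - γ / p := by
    have h1 : ENNReal.ofReal (α : ℝ) < ENNReal.ofReal (n - γ / p) := by
      rwa [ENNReal.ofReal_coe_nnreal]
    exact (ENNReal.ofReal_lt_ofReal_iff_of_nonneg hα0).1 h1
  obtain ⟨s, hs⟩ : ∃ s : ℝ, s = n - γ / p - α := ⟨_, rfl⟩
  have hs0 : 0 < s := by rw [hs]; linarith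
  have hps : p * s = p * n - γ - p * α := by
    rw [hs]
    field_simp
  have hps0 : 0 < p * s := by positivity
  obtain ⟨C, hC0, hC⟩ := H
  have hlog2 : 0 < Real.log 2 := Real.log_pos (by norm_num)
  obtain ⟨η, hη⟩ : ∃ η : ℝ, η = min (1 / 2) (p * s / (4 * (1 + 2 * p))) := ⟨_, rfl⟩
  have hη0 : 0 < η := by rw [hη]; exact lt_min (by norm_num) (by positivity)
  have hη2 : η ≤ 1 / 2 := by rw [hη]; exact min_le_left _ _
  have hη3 : (1 + 2 * p) * η ≤ p * s / 4 := by
    have h1 : η ≤ p * s / (4 * (1 + 2 * p)) := by rw [hη]; exact min_le_right _ _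
    calc (1 + 2 * p) * η ≤ (1 + 2 * p) * (p * s / (4 * (1 + 2 * p))) :=
          mul_le_mul_of_nonneg_left h1 (by positivity)
      _ = p * s / 4 := by field_simp
  obtain ⟨ρ, hρ⟩ : ∃ ρ : ℝ, ρ = Real.exp (-(η * Real.log 2)) := ⟨_, rfl⟩
  have hρ0 : 0 < ρ := by rw [hρ]; exact Real.exp_pos _
  have hρ1 : ρ < 1 := by
    rw [hρ, Real.exp_lt_one_iff]
    have : 0 < η * Real.log 2 := by positivity
    linarith
  have hρk : ∀ k : ℕ, ρ ^ k = Real.exp (-(k * η * Real.log 2)) := by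
    intro k
    rw [hρ, ← Real.exp_nat_mul]
    congr 1
    ring
  -- directions with a fixed lower bound for the length
  let μ := (volume : Measure (E n)).toSphere
  let E0 : E n → Set ℝ := fun e => {t : ℝ | |t| ≤ 1 / 2 ∧ a e + t • e ∈ K}
  let W : ℕ → Set (sphere (0 : E n) 1) := fun m =>
    {e | (e : E n) ∈ U ∧ ((m + 1 : ℕ) : ℝ≥0∞)⁻¹ ≤ volume (E0 e)}
  have hcovW : {e : sphere (0 : E n) 1 | (e : E n) ∈ U} ⊆ ⋃ m, W m := by
    intro e he
    obtain ⟨m, hm⟩ := ENNReal.exists_inv_nat_lt (hseg e he).ne'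
    refine Set.mem_iUnion.2 ⟨m, he, le_trans ?_ hm.le⟩
    apply ENNReal.inv_le_inv.2
    exact_mod_cast Nat.le_succ m
  obtain ⟨m, hm⟩ : ∃ m, μ (W m) ≠ 0 := by
    by_contra hcon
    push Not at hcon
    exact hU (measure_mono_null hcovW (measure_iUnion_null hcon))
  obtain ⟨y1, hy1⟩ : ∃ y : ℝ, y = (μ (W m)).toReal := ⟨_, rfl⟩
  have hWt : μ (W m) ≠ ⊤ := measure_ne_top _ _
  have hy1pos : 0 < y1 := by rw [hy1]; exact ENNReal.toReal_pos hm hWt
  have hy1V : ENNReal.ofReal y1 ≤ μ (W m) := by rw [hy1]; exact ENNReal.ofReal_toReal_le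
  obtain ⟨y2, hy2⟩ : ∃ y : ℝ, y = 1 / ((m + 1 : ℕ) : ℝ) := ⟨_, rfl⟩
  have hy2pos : 0 < y2 := by rw [hy2]; positivity
  have hy2V : ∀ e ∈ W m, ENNReal.ofReal y2 ≤ volume (E0 e) := by
    intro e he
    have h1 : ENNReal.ofReal y2 = ((m + 1 : ℕ) : ℝ≥0∞)⁻¹ := by
      rw [hy2, one_div, ENNReal.ofReal_inv_of_pos (by positivity), ENNReal.ofReal_natCast]
    rw [h1]
    exact he.2
  have h1ρ : 0 < 1 - ρ := by linarith
  obtain ⟨x1, hx1⟩ : ∃ x : ℝ, x = y1 * (1 - ρ) / 2 := ⟨_, rfl⟩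
  obtain ⟨x2, hx2⟩ : ∃ x : ℝ, x = y2 * (1 - ρ) / 2 := ⟨_, rfl⟩
  have hx1pos : 0 < x1 := by rw [hx1]; positivity
  have hx2pos : 0 < x2 := by rw [hx2]; positivity
  -- the constants
  obtain ⟨c2, hc2, htube⟩ := tube_inter (n := n) hn
  obtain ⟨C4, hC4⟩ : ∃ C4 : ℝ, C4 = n * ((n.factorial : ℝ) * 6 ^ n) := ⟨_, rfl⟩
  have hn0 : (0 : ℝ) < n := by exact_mod_cast hn
  have hC4pos : 0 < C4 := by
    rw [hC4]
    have : (0 : ℝ) < n.factorial := by exact_mod_cast n.factorial_pos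
    positivity
  have : Nonempty (Fin n) := ⟨⟨0, by omega⟩⟩
  obtain ⟨v, hv⟩ : ∃ v : ℝ, v = (volume (ball (0 : E n) 1)).toReal := ⟨_, rfl⟩
  have hvt : volume (ball (0 : E n) 1) ≠ ⊤ := measure_ball_lt_top.ne
  have hvp : 0 < v := by
    rw [hv]
    exact ENNReal.toReal_pos (measure_ball_pos _ _ one_pos).ne' hvt
  obtain ⟨C3, hC3⟩ : ∃ C3 : ℝ, C3 = 2 ^ n * v := ⟨_, rfl⟩
  have hC3pos : 0 < C3 := by rw [hC3]; positivity
  obtain ⟨L, hL⟩ : ∃ L : ℝ, L = -((1 + p) * (Real.log c2 + Real.log x2) +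
      p * (Real.log x1 - Real.log C4)) +
      (p * Real.log C3 + p * α * Real.log 2 + Real.log C) := ⟨_, rfl⟩
  obtain ⟨k0, hk0, hk0', hk01⟩ : ∃ k0 : ℕ, L < k0 * (p * s / 4 * Real.log 2) ∧
      Real.log (4 / x2) ≤ k0 * (Real.log 2 / 2) ∧ 1 ≤ k0 := by
    obtain ⟨m1, hm1⟩ := exists_nat_gt (L / (p * s / 4 * Real.log 2))
    obtain ⟨m2, hm2⟩ := exists_nat_gt (Real.log (4 / x2) / (Real.log 2 / 2))
    have hpos : 0 < p * s / 4 * Real.log 2 := by positivity
    rw [div_lt_iff₀ hpos] at hm1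
    rw [div_lt_iff₀ (by positivity)] at hm2
    refine ⟨m1 + m2 + 1, ?_, ?_, by omega⟩
    · push_cast
      have : (0 : ℝ) ≤ m2 := Nat.cast_nonneg _
      nlinarith
    · push_cast
      have : (0 : ℝ) ≤ m1 := Nat.cast_nonneg _
      nlinarith
  obtain ⟨t, κ, ht1, ht2, ht3, ht4⟩ := Pool.Agent.W605.HD.cover K α hα1 k0
  let F : ℕ → E n → Set ℝ := fun k e =>
    {τ | |τ| ≤ 1 / 2 ∧ ∃ i, κ i = k ∧ a e + τ • e ∈ t i ∩ K}
  have hcovE : ∀ e, E0 e ⊆ ⋃ k, F k e := by
    intro e τ hτ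
    obtain ⟨i, hi⟩ := Set.mem_iUnion.1 (ht1 hτ.2)
    exact Set.mem_iUnion.2 ⟨κ i, hτ.1, i, rfl, hi, hτ.2⟩
  obtain ⟨k, hk⟩ := Pool.Agent.W605.HD.pigeon μ (W m) (fun k => {e | e ∈ W m ∧
    ENNReal.ofReal (x2 * ρ ^ k) ≤ volume (F k e)}) (by
      intro e he
      obtain ⟨k, hk⟩ := Pool.Agent.W605.HD.pigeon volume (E0 e) (fun k => F k e) (hcovE e) y2 ρ
        hy2pos hρ0 hρ1 (hy2V e he)
      rw [← hx2] at hk
      exact Set.mem_iUnion.2 ⟨k, he, hk⟩) y1 ρ hy1pos hρ0 hρ1 hy1V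
  rw [← hx1] at hk
  have hx1k : 0 < x1 * ρ ^ k := by positivity
  have hx2k : 0 < x2 * ρ ^ k := by positivity
  obtain ⟨V, hV⟩ : ∃ V : Set (sphere (0 : E n) 1), V = {e | e ∈ W m ∧
    ENNReal.ofReal (x2 * ρ ^ k) ≤ volume (F k e)} := ⟨_, rfl⟩
  rw [← hV] at hk
  -- `k0 ≤ k`
  have hkk0 : k0 ≤ k := by
    have hne : V.Nonempty := by
      apply nonempty_of_measure_ne_zero (μ := μ)
      intro h
      rw [h, nonpos_iff_eq_zero, ENNReal.ofReal_eq_zero] at hk
      linarith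
    obtain ⟨e, he⟩ := hne
    rw [hV] at he
    have hne2 : (F k e).Nonempty := by
      apply nonempty_of_measure_ne_zero (μ := volume)
      intro h
      have h2 := he.2
      rw [h, nonpos_iff_eq_zero, ENNReal.ofReal_eq_zero] at h2
      linarith
    obtain ⟨τ, -, i, hi, -⟩ := hne2
    rw [← hi]
    exact ht2 i
  have hkk0r : (k0 : ℝ) ≤ k := by exact_mod_cast hkk0
  -- the sets of scale `k`
  have hfin : {i : ℕ | κ i = k}.Finite := by
    by_contra hinf
    obtain ⟨m, hm⟩ := exists_nat_gt ((2 : ℝ) ^ ((α : ℝ) * (k + 1)))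
    obtain ⟨S, hS1, hS2⟩ := Set.Infinite.exists_subset_card_eq hinf m
    have h1 := ht4 k S (fun i hi => hS1 hi)
    rw [hS2] at h1
    linarith
  have hI : ∀ i, i ∈ hfin.toFinset ↔ κ i = k := by
    intro i
    rw [Set.Finite.mem_toFinset]
    rfl
  have hIcard := ht4 k hfin.toFinset fun i hi => (hI i).1 hi
  obtain ⟨δ, hδ⟩ : ∃ δ : ℝ, δ = (1 / 2 : ℝ) ^ k := ⟨_, rfl⟩
  have hδ0 : 0 < δ := by rw [hδ]; positivity
  have hδ1 : δ < 1 := by
    rw [hδ]
    exact pow_lt_one₀ (by norm_num) (by norm_num) (by omega)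
  have hδe : δ = Real.exp (-(k * Real.log 2)) := by
    rw [hδ, one_div, inv_pow, ← Real.rpow_natCast, Real.rpow_def_of_pos (by norm_num), Real.exp_neg]
    congr 2
    ring
  -- the union of balls
  have hex : ∀ i : ℕ, ∃ x : E n, (t i ∩ K).Nonempty → x ∈ t i ∩ K := by
    intro i
    by_cases h : (t i ∩ K).Nonempty
    · exact ⟨h.some, fun _ => h.some_mem⟩
    · exact ⟨0, fun h' => absurd h' h⟩
  choose z hz using hex
  obtain ⟨I, hIdef⟩ : ∃ I : Finset ℕ, I = hfin.toFinset.filter (fun i => (t i ∩ K).Nonempty) :=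
    ⟨_, rfl⟩
  have hIcard' : (I.card : ℝ) ≤ (2 : ℝ) ^ ((α : ℝ) * (k + 1)) := by
    refine le_trans ?_ hIcard
    rw [hIdef]
    exact_mod_cast Finset.card_filter_le _ _
  obtain ⟨G, hG⟩ : ∃ G : Set (E n), G = ⋃ i ∈ I, ball (z i) (2 * δ) := ⟨_, rfl⟩
  have hGK : ∀ x ∈ G, ∃ z ∈ K, dist x z < 2 * δ := by
    intro x hx
    rw [hG] at hx
    obtain ⟨i, hi, hxi⟩ := Set.mem_iUnion₂.1 hx
    rw [hIdef, Finset.mem_filter] at hi
    exact ⟨z i, (hz i hi.2).2, hxi⟩
  have hGvol : volume G ≤ ENNReal.ofReal (C3 * (2 : ℝ) ^ ((α : ℝ) * (k + 1)) *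
      Real.exp (-(k * n * Real.log 2))) := by
    rw [hG]
    refine (measure_biUnion_finset_le _ _).trans ?_
    have hball : ∀ i ∈ I, volume (ball (z i) (2 * δ)) =
        ENNReal.ofReal ((2 * δ) ^ n * v) := by
      intro i _
      rw [Measure.addHaar_ball _ _ (by positivity), finrank_euclideanSpace_fin,
        ENNReal.ofReal_mul (by positivity), hv, ENNReal.ofReal_toReal hvt]
    rw [Finset.sum_congr rfl hball, Finset.sum_const, nsmul_eq_mul, ← ENNReal.ofReal_natCast,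
      ← ENNReal.ofReal_mul (by positivity)]
    refine ENNReal.ofReal_le_ofReal ?_
    have hδn : δ ^ n = Real.exp (-(k * n * Real.log 2)) := by
      rw [hδe, ← Real.exp_nat_mul]
      congr 1
      ring
    calc (I.card : ℝ) * ((2 * δ) ^ n * v)
        ≤ (2 : ℝ) ^ ((α : ℝ) * (k + 1)) * ((2 * δ) ^ n * v) :=
          mul_le_mul_of_nonneg_right hIcard' (by positivity)
      _ = _ := by
          rw [mul_pow, hδn, hC3]
          ring
  -- the directions
  have hVtb : TotallyBounded V := isCompact_univ.totallyBounded.subset (Set.subset_univ _)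
  obtain ⟨Y, hY1, hY2, hY3⟩ := max_sep V hVtb hδ0
  have hYcard := sep_card hn hδ0 hδ1.le V Y hY3 hk
  have hYU : ∀ e : {e // e ∈ Y}, ((e : sphere (0 : E n) 1) : E n) ∈ U := by
    intro e
    have h1 := hY1 e e.2
    rw [hV] at h1
    exact h1.1.1
  have hHC := hC δ hδ0 hδ1 {e // e ∈ Y} (fun e => ((e : sphere (0 : E n) 1) : E n)) hYU (by
    intro i j hij
    have h1 := hY2 i i.2 j j.2 (fun h => hij (Subtype.ext h))
    rwa [Subtype.dist_eq, dist_eq_norm] at h1) G hGK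
  have hcardY : (Fintype.card {e // e ∈ Y} : ℝ) = Y.card := by
    rw [Fintype.card_coe]
  rw [hcardY] at hHC
  -- the lower bound
  have hlow : ENNReal.ofReal (c2 * (x2 * ρ ^ k) * (δ ^ (n - 1) * Y.card)) ≤
      ∫⁻ x in G, mult δ (fun i : {e // e ∈ Y} => a ((i : sphere (0 : E n) 1) : E n))
        (fun e => ((e : sphere (0 : E n) 1) : E n)) x := by
    rw [int_mult_on]
    have h1 : ∀ i : {e // e ∈ Y}, ENNReal.ofReal (c2 * (x2 * ρ ^ k) * δ ^ (n - 1)) ≤
        volume (tube δ (a ((i : sphere (0 : E n) 1) : E n)) ((i : sphere (0 : E n) 1) : E n) ∩ G) := by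
      intro i
      have h2 := hY1 i i.2
      rw [hV] at h2
      refine htube δ hδ0 _ _ (hU1 _ (hYU i)) (F k ((i : sphere (0 : E n) 1) : E n)) G
        (fun τ hτ => hτ.1) ?_ (x2 * ρ ^ k) ?_ h2.2
      · rintro τ ⟨-, j, hj, hjt⟩ y hy
        rw [hG]
        refine Set.mem_iUnion₂.2 ⟨j, ?_, ?_⟩
        · rw [hIdef, Finset.mem_filter]
          exact ⟨(hI j).2 hj, ⟨_, hjt⟩⟩
        have h3 := ht3 j _ hjt.1 _ (hz j ⟨_, hjt⟩).1
        rw [hj, ← hδ] at h3
        rw [mem_ball] at hy ⊢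
        calc dist y (z j) ≤ dist y (a ((i : sphere (0 : E n) 1) : E n) +
              τ • ((i : sphere (0 : E n) 1) : E n)) +
              dist (a ((i : sphere (0 : E n) 1) : E n) +
              τ • ((i : sphere (0 : E n) 1) : E n)) (z j) := dist_triangle _ _ _
          _ < 2 * δ := by linarith
      · -- `4 δ ≤ x2 ρ ^ k`
        have h3 : Real.log (4 * δ) ≤ Real.log (x2 * ρ ^ k) := by
          rw [Real.log_mul (by norm_num) hδ0.ne', Real.log_mul hx2pos.ne' (by positivity), hρk,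
            Real.log_exp, hδe, Real.log_exp]
          rw [Real.log_div (by norm_num) hx2pos.ne'] at hk0'
          have h4 : (k0 : ℝ) * (Real.log 2 / 2) ≤ k * (Real.log 2 / 2) :=
            mul_le_mul_of_nonneg_right hkk0r (by positivity)
          have h5 : (k : ℝ) * η * Real.log 2 ≤ k * (1 / 2) * Real.log 2 :=
            mul_le_mul_of_nonneg_right (mul_le_mul_of_nonneg_left hη2 (Nat.cast_nonneg _))
              hlog2.le
          linarith
        exact (Real.log_le_log_iff (by positivity) hx2k).1 h3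
    calc ENNReal.ofReal (c2 * (x2 * ρ ^ k) * (δ ^ (n - 1) * Y.card))
        = ∑ _i : {e // e ∈ Y}, ENNReal.ofReal (c2 * (x2 * ρ ^ k) * δ ^ (n - 1)) := by
          rw [Finset.sum_const, Finset.card_univ, nsmul_eq_mul, Fintype.card_coe,
            ← ENNReal.ofReal_natCast, ← ENNReal.ofReal_mul (by positivity)]
          congr 1
          ring
      _ ≤ _ := Finset.sum_le_sum fun i _ => h1 i
  -- Hölder
  have hH := holder_pow hp (mult δ (fun i : {e // e ∈ Y} => a ((i : sphere (0 : E n) 1) : E n))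
        (fun e => ((e : sphere (0 : E n) 1) : E n))) (measurable_mult _ _ _) G
  have hA := (ENNReal.rpow_le_rpow hlow (by linarith : 0 ≤ 1 + p)).trans (hH.trans
    (mul_le_mul' (ENNReal.rpow_le_rpow hGvol hp.le) hHC))
  rw [ENNReal.ofReal_rpow_of_nonneg (by positivity) (by linarith),
    ENNReal.ofReal_rpow_of_nonneg (by positivity) hp.le, ← ENNReal.ofReal_mul (by positivity)] at hA
  have hA2 := (ENNReal.ofReal_le_ofReal_iff (by positivity)).1 hA
  have hδγ : δ ^ (-γ) = Real.exp (k * (γ + 0) * Real.log 2) := by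
    rw [Real.rpow_def_of_pos hδ0, hδe, Real.log_exp]
    congr 1
    ring
  rw [hδγ, hρk] at hA2
  rw [hρk, ← hC4] at hYcard
  refine num_contra (γ := γ) (ε := 0) (α := α) (η := η) (s := p * s / 4) (D := n)
    (M := δ ^ (n - 1) * Y.card) (k := k) hp hc2 hx1pos hx2pos hC0 hC3pos hC4pos ?_ hL ?_ hYcard hA2
  · linarith
  · refine hk0.trans_le ?_
    exact mul_le_mul_of_nonneg_right hkk0r (by positivity)

end Pool.Agent.H565.MK
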