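import Pool.Agent.H565.MK.HT2
import Pool.Agent.H565.MK.Fam2
set_option autoImplicit false

/-!
# Sets whose bushes spread in a low-dimensional way along subspaces
-/

namespace Pool.Agent.H565.MK
open MeasureTheory Finset Metric
open scoped ENNReal NNReal Pointwise

variable {n : ℕ}

/-- Balls are covered by a bounded number of balls of a third of the radius. -/
theorem refine_cover (n : ℕ) : ∃ N₀ : ℕ, 1 ≤ N₀ ∧ ∀ r : ℝ, 0 < r → ∀ x : E n,
    ∃ Z : Finset (E n), Z.card ≤ N₀ ∧ ∀ y, ‖y - x‖ ≤ 3 * r → ∃ z ∈ Z, ‖y - z‖ ≤ r := by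
  classical
  obtain ⟨t₀, -, hfin, ht⟩ := (isCompact_closedBall (0 : E n) 3).finite_cover_balls one_pos
  obtain ⟨t, rfl⟩ := hfin.exists_finset_coe
  refine ⟨t.card + 1, by omega, ?_⟩
  intro r hr x
  refine ⟨t.image (fun z => x + r • (z : E n)), Finset.card_image_le.trans (by omega), ?_⟩
  intro y hy
  have h1 : r⁻¹ • (y - x) ∈ closedBall (0 : E n) 3 := by
    rw [mem_closedBall_zero_iff, norm_smul, Real.norm_eq_abs, abs_of_pos (inv_pos.2 hr)]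
    rw [inv_mul_le_iff₀ hr]
    linarith
  obtain ⟨z, hz, hzy⟩ := Set.mem_iUnion₂.1 (ht h1)
  refine ⟨x + r • (z : E n), Finset.mem_image_of_mem _ hz, ?_⟩
  have h2 : y - (x + r • (z : E n)) = r • (r⁻¹ • (y - x) - z) := by
    rw [smul_sub, smul_smul, mul_inv_cancel₀ hr.ne', one_smul]
    abel
  rw [h2, norm_smul, Real.norm_eq_abs, abs_of_pos hr]
  have h3 : ‖r⁻¹ • (y - x) - (z : E n)‖ < 1 := by
    rw [← dist_eq_norm]
    exact hzy
  nlinarith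

/-- At the point `x`, the directions of the segments (with centres `a e` and directions `e ∈ U`)
that pass near `x` are at most `β`-dimensional along the subspaces of dimension less than `k`. -/
def SpreadAt (U : Set (E n)) (a : E n → E n) (k : ℕ) (β : ℝ) (x : E n) : Prop :=
  ∀ η : ℝ, 0 < η → ∃ C : ℝ, ∀ δ : ℝ, 0 < δ → δ < 1 →
    ∀ (y : E n) (V : Submodule ℝ (E n)), Module.finrank ℝ V < k →
    ∀ r ρ : ℝ, δ ≤ r → r ≤ ρ →
    ∃ Z : Finset (E n), (Z.card : ℝ) ≤ C * δ ^ (-η) * (ρ / r) ^ β ∧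
      ∀ e ∈ U, (∃ t : ℝ, |t| ≤ 1 / 2 ∧ ‖x - (a e + t • e)‖ ≤ δ) → ‖e - y‖ ≤ ρ →
        infDist e V ≤ r → ∃ z ∈ Z, ‖e - z‖ ≤ r

/-- The points at which the condition holds for one `η` with the constant `C`. -/
def Good (U : Set (E n)) (a : E n → E n) (k : ℕ) (β η : ℝ) (C : ℕ) : Set (E n) :=
  {x | ∀ δ : ℝ, 0 < δ → δ < 1 →
    ∀ (y : E n) (V : Submodule ℝ (E n)), Module.finrank ℝ V < k →
    ∀ r ρ : ℝ, δ ≤ r → r ≤ ρ →
    ∃ Z : Finset (E n), (Z.card : ℝ) ≤ C * δ ^ (-η) * (ρ / r) ^ β ∧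
      ∀ e ∈ U, (∃ t : ℝ, |t| ≤ 1 / 2 ∧ ‖x - (a e + t • e)‖ ≤ δ) → ‖e - y‖ ≤ ρ →
        infDist e V ≤ r → ∃ z ∈ Z, ‖e - z‖ ≤ r}

theorem good_of_spreadAt {U : Set (E n)} {a : E n → E n} {k : ℕ} {β : ℝ} {x : E n}
    (h : SpreadAt U a k β x) {η : ℝ} (hη : 0 < η) : ∃ C : ℕ, x ∈ Good U a k β η C := by
  obtain ⟨C, hC⟩ := h η hη
  refine ⟨⌈C⌉₊, ?_⟩
  intro δ hδ hδ1 y V hV r ρ hr hrρ
  obtain ⟨Z, hZ, hZ2⟩ := hC δ hδ hδ1 y V hV r ρ hr hrρ
  refine ⟨Z, hZ.trans ?_, hZ2⟩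
  have hr0 : 0 < r := by linarith
  have h3 : 0 ≤ (ρ / r) ^ β := Real.rpow_nonneg (div_nonneg (by linarith) hr0.le) _
  exact mul_le_mul_of_nonneg_right (mul_le_mul_of_nonneg_right (Nat.le_ceil _)
    (by positivity)) h3

/-- Near good points the bushes spread little. -/
theorem spreadOn_good (U : Set (E n)) (a : E n → E n) (hU1 : ∀ e ∈ U, ‖e‖ = 1) {k : ℕ} {β η : ℝ}
    (hβ : 0 ≤ β) (hη : 0 < η) (C N₀ : ℕ)
    (hN₀ : ∀ r : ℝ, 0 < r → ∀ x : E n,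
    ∃ Z : Finset (E n), Z.card ≤ N₀ ∧ ∀ y, ‖y - x‖ ≤ 3 * r → ∃ z ∈ Z, ‖y - z‖ ≤ r)
    {δ : ℝ} (hδ : 0 < δ) (hδ1 : δ < 1) {ι : Type} (e : ι → E n)
    (he : ∀ i, e i ∈ U) (G : Set (E n)) (hG : ∀ x ∈ G, ∃ z ∈ Good U a k β η C, dist x z < 2 * δ) :
    SpreadOn G k β (N₀ * (C + 1) * δ ^ (-η)) δ (fun i => a (e i)) e := by
  classical
  intro x hx y V hV r ρ hr hrρ
  have hr0 : 0 < r := by linarith
  have hρ0 : 0 < ρ := by linarith
  have hδη : 1 ≤ δ ^ (-η) := by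
    rw [Real.rpow_neg hδ.le]
    exact (one_le_inv₀ (by positivity)).2 (Real.rpow_le_one hδ.le hδ1.le hη.le)
  have hρr : 1 ≤ (ρ / r) ^ β := Real.one_le_rpow ((one_le_div hr0).2 hrρ) hβ
  have hC0 : (0 : ℝ) ≤ C := Nat.cast_nonneg _
  have hN00 : (0 : ℝ) ≤ N₀ := Nat.cast_nonneg _
  by_cases h3 : 3 * δ < 1
  · obtain ⟨z, hz, hxz⟩ := hG x hx
    obtain ⟨Z, hZ, hZ2⟩ := hz (3 * δ) (by positivity) h3 y V hV (3 * r) (3 * ρ) (by linarith)
      (by linarith)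
    have hex : ∀ w : E n, ∃ Z' : Finset (E n), Z'.card ≤ N₀ ∧ ∀ y, ‖y - w‖ ≤ 3 * r →
        ∃ z ∈ Z', ‖y - z‖ ≤ r := fun w => hN₀ r hr0 w
    choose Zw hZw1 hZw2 using hex
    refine ⟨Z.biUnion Zw, ?_, ?_⟩
    · have h4 : ((Z.biUnion Zw).card : ℝ) ≤ Z.card * N₀ := by
        have := Finset.card_biUnion_le_card_mul Z Zw N₀ (fun w _ => hZw1 w)
        exact_mod_cast this
      have h5 : (3 * δ) ^ (-η) ≤ δ ^ (-η) := by
        rw [Real.rpow_neg (by positivity), Real.rpow_neg hδ.le]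
        apply inv_anti₀ (by positivity)
        exact Real.rpow_le_rpow hδ.le (by linarith) hη.le
      have h6 : 3 * ρ / (3 * r) = ρ / r := by field_simp
      rw [h6] at hZ
      calc ((Z.biUnion Zw).card : ℝ) ≤ Z.card * N₀ := h4
        _ ≤ (C * (3 * δ) ^ (-η) * (ρ / r) ^ β) * N₀ := by gcongr
        _ ≤ ((C + 1) * δ ^ (-η) * (ρ / r) ^ β) * N₀ := by
            gcongr
            linarith
        _ = _ := by ring
    · rintro i ⟨hi1, hi2, hi3⟩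
      obtain ⟨w, hw, hwe⟩ := hZ2 (e i) (he i) ⟨inner ℝ (x - a (e i)) (e i), hi1.1, by
        have h7 : z - (a (e i) + (inner ℝ (x - a (e i)) (e i) : ℝ) • e i) =
            (z - x) + ((x - a (e i)) - (inner ℝ (x - a (e i)) (e i) : ℝ) • e i) := by abel
        rw [h7]
        refine (norm_add_le _ _).trans ?_
        rw [← dist_eq_norm, dist_comm]
        have := hi1.2
        linarith⟩ (by linarith) (by linarith)
      obtain ⟨w', hw', hw'e⟩ := hZw2 w (e i) hwe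
      exact ⟨w', Finset.mem_biUnion.2 ⟨w, hw, hw'⟩, hw'e⟩
  · rw [not_lt] at h3
    obtain ⟨Z, hZ, hZ2⟩ := hN₀ r hr0 0
    refine ⟨Z, ?_, ?_⟩
    · have h4 : (Z.card : ℝ) ≤ N₀ := by exact_mod_cast hZ
      calc (Z.card : ℝ) ≤ N₀ * 1 * 1 * 1 := by linarith
        _ ≤ N₀ * (C + 1) * δ ^ (-η) * (ρ / r) ^ β := by
          gcongr
          linarith
    · rintro i ⟨hi1, hi2, hi3⟩
      obtain ⟨w, hw, hwe⟩ := hZ2 (e i) (by rw [sub_zero, hU1 _ (he i)]; linarith)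
      exact ⟨w, hw, hwe⟩

/-- **The dimension of sets whose bushes, at almost all points, spread in an at most
`β`-dimensional way along the subspaces of dimension `< k`.** -/
theorem haus_pointwise {k : ℕ} (hk : 2 ≤ k) (hkn : k ≤ n) (β : ℝ) (hβ : 0 ≤ β) (U K : Set (E n))
    (a : E n → E n) (hU1 : ∀ e ∈ U, ‖e‖ = 1)
    (hU : (volume : Measure (E n)).toSphere {e : sphere (0 : E n) 1 | (e : E n) ∈ U} ≠ 0)
    (hseg : ∀ e ∈ U, 0 < volume {t : ℝ | |t| ≤ 1 / 2 ∧ a e + t • e ∈ K ∧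
      SpreadAt U a k β (a e + t • e)}) :
    ENNReal.ofReal (min (k : ℝ) (n - β)) ≤ dimH K := by
  classical
  have hk2 : (2 : ℝ) ≤ k := by exact_mod_cast hk
  have hk1 : (0 : ℝ) < (k : ℝ) - 1 := by linarith
  obtain ⟨N₀, hN₀1, hN₀⟩ := refine_cover n
  -- the bound with a loss
  have key : ∀ ε : ℝ, 0 < ε →
      ENNReal.ofReal (min (k : ℝ) (n - β) - ε * ((k : ℝ) - 1)) ≤ dimH K := by
    intro ε hε
    obtain ⟨η, hη, hEps⟩ := spread_epsG (n := n) hk hkn β hβ ε hε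
    -- one constant
    have hcov : {e : sphere (0 : E n) 1 | (e : E n) ∈ U} ⊆ ⋃ C : ℕ,
        {e : sphere (0 : E n) 1 | (e : E n) ∈ {e | e ∈ U ∧
          0 < volume {t : ℝ | |t| ≤ 1 / 2 ∧ a e + t • e ∈ K ∩ Good U a k β η C}}} := by
      intro e he
      by_contra hcon
      rw [Set.mem_iUnion, not_exists] at hcon
      refine (hseg e he).ne' (measure_mono_null ?_ (measure_iUnion_null
        (s := fun C : ℕ => {t : ℝ | |t| ≤ 1 / 2 ∧ a e + t • (e : E n) ∈ K ∩ Good U a k β η C})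
        fun C => ?_))
      · rintro t ⟨ht1, ht2, ht3⟩
        obtain ⟨C, hC⟩ := good_of_spreadAt ht3 hη
        exact Set.mem_iUnion.2 ⟨C, ht1, ht2, hC⟩
      · by_contra h
        exact hcon C ⟨he, pos_iff_ne_zero.2 h⟩
    obtain ⟨C, hC⟩ : ∃ C : ℕ, (volume : Measure (E n)).toSphere
        {e : sphere (0 : E n) 1 | (e : E n) ∈ {e | e ∈ U ∧
          0 < volume {t : ℝ | |t| ≤ 1 / 2 ∧ a e + t • e ∈ K ∩ Good U a k β η C}}} ≠ 0 := by
      by_contra hcon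
      push Not at hcon
      exact hU (measure_mono_null hcov (measure_iUnion_null hcon))
    obtain ⟨C₁, hC₁, hE⟩ := hEps (N₀ * (C + 1)) (by positivity)
    have h := haus_of_tubes (n := n) (by omega) (1 / ((k : ℝ) - 1))
      (max ((n : ℝ) - k) β / ((k : ℝ) - 1) + ε) (by positivity) {e | e ∈ U ∧
          0 < volume {t : ℝ | |t| ≤ 1 / 2 ∧ a e + t • e ∈ K ∩ Good U a k β η C}} a
      (K ∩ Good U a k β η C) (fun e he => hU1 e he.1) (fun e he => he.2) hC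
      ⟨C₁, hC₁, fun δ hδ hδ1 ι _ e he hsep G hG => hE δ hδ hδ1 ι (fun i => a (e i)) e
        (fun i => hU1 _ (he i).1) hsep G
        (spreadOn_good U a hU1 hβ hη C N₀ hN₀ hδ hδ1 e (fun i => (he i).1) G
          (fun x hx => (hG x hx).imp fun z hz => ⟨hz.1.2, hz.2⟩))⟩
    refine le_trans (ENNReal.ofReal_le_ofReal (le_of_eq ?_))
      (h.trans (dimH_mono Set.inter_subset_left))
    have e1 : (max ((n : ℝ) - k) β / ((k : ℝ) - 1) + ε) / (1 / ((k : ℝ) - 1)) =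
        max ((n : ℝ) - k) β + ε * ((k : ℝ) - 1) := by
      field_simp
    rw [e1]
    rcases le_total ((n : ℝ) - k) β with h1 | h1
    · rw [max_eq_right h1, min_eq_right (by linarith)]
      ring
    · rw [max_eq_left h1, min_eq_left (by linarith)]
      ring
  by_contra hcon
  rw [not_le] at hcon
  obtain ⟨α, hα1, hα2⟩ := ENNReal.lt_iff_exists_nnreal_btwn.1 hcon
  have hα0 : (0 : ℝ) ≤ α := NNReal.coe_nonneg α
  have hα3 : (α : ℝ) < min (k : ℝ) (n - β) := by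
    have h1 : ENNReal.ofReal (α : ℝ) < ENNReal.ofReal (min (k : ℝ) (n - β)) := by
      rwa [ENNReal.ofReal_coe_nnreal]
    exact (ENNReal.ofReal_lt_ofReal_iff_of_nonneg hα0).1 h1
  have h2 := key ((min (k : ℝ) (n - β) - α) / ((k : ℝ) - 1))
    (div_pos (by linarith) hk1)
  rw [div_mul_cancel₀ _ hk1.ne', sub_sub_cancel, ENNReal.ofReal_coe_nnreal] at h2
  exact absurd (h2.trans_lt hα1) (lt_irrefl _)

end Pool.Agent.H565.MK
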