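import Pool.Agent.H565.MK.Prep
set_option autoImplicit false

/-!
# Integration of the broad–narrow inequality
-/

namespace Pool.Agent.H565.MK
open MeasureTheory Finset Metric
open scoped ENNReal

section Integ

variable {n : ℕ} {ι : Type} [Fintype ι]

/-- The bound for the transversal part. -/
noncomputable def XX (n k K : ℕ) (δ : ℝ) (m M' : ℕ) : ℝ :=
  (n.factorial : ℝ) * √n ^ n * (1 / (K : ℝ) ^ m) ^ (n - 1) * (6 ^ M') ^ n *
        (12 * δ / ((2 ^ (k + 1) * √n / K) * (1 / (K : ℝ) ^ (m + 1) / 2 ^ k))) ^ n * 3 ^ n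

theorem int_br {k : ℕ} (hk : 2 ≤ k) (hkn : k ≤ n) {K : ℕ} (hK : 1 ≤ K)
    (hKn : 2 ^ (k + 2) * √n ≤ K) (a e : ι → E n) (he : ∀ i, ‖e i‖ = 1) (c : ι → ℝ≥0∞) {δ : ℝ}
    (hδ : 0 < δ) (hδ1 : δ ≤ 1) (m M' : ℕ) (hM : (2 / (2 ^ (k + 1) * √n / K)) ^ M' * δ ≤ 1)
    (hM2 : 1 ≤ (2 / (2 ^ (k + 1) * √n / K)) ^ (M' + 1) * δ) (B : ℕ)
    (hB : ∀ τ, (univ.filter (fun i => cell K e m i = τ)).card ≤ B) :
    ∫⁻ x, Br (cell K e) e (fun m => 1 / (K : ℝ) ^ (m + 1)) k c (1 / ((k : ℝ) - 1))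
      (thr δ a e x) m ≤ (((K ^ 2) ^ n) ^ k : ℕ) * (ENNReal.ofReal (XX n k K δ m M') *
        ((B : ℝ≥0∞) ^ (1 / ((k : ℝ) - 1)) * ∑ i, c i ^ (1 + 1 / ((k : ℝ) - 1)))) := by
  classical
  have hk2 : (2 : ℝ) ≤ k := by exact_mod_cast hk
  have hk1 : (0 : ℝ) < (k : ℝ) - 1 := by linarith
  have hp0 : (0 : ℝ) < 1 / ((k : ℝ) - 1) := by positivity
  have hn1 : 1 ≤ n := by omega
  have hsn : 1 ≤ √(n : ℝ) := by
    rw [Real.one_le_sqrt]
    exact_mod_cast hn1
  have hKr : (1 : ℝ) ≤ K := by exact_mod_cast hK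
  have hK0 : (0 : ℝ) < K := by linarith
  set γ : ℝ := 2 ^ (k + 1) * √n / K with hγ
  have hγ0 : 0 < γ := by positivity
  have hγ2 : γ ≤ 1 / 2 := by
    rw [hγ, div_le_iff₀ hK0]
    have : (2 : ℝ) ^ (k + 2) = 2 ^ (k + 1) * 2 := by rw [pow_succ]
    rw [this] at hKn
    linarith
  set p : ℝ := 1 / ((k : ℝ) - 1) with hp
  have hmain : ∀ τ, ∀ σ ∈ adm (cell K e) e (fun m => 1 / (K : ℝ) ^ (m + 1)) k m τ,
      ∫⁻ x, ∏ j, (∑ i ∈ (thr δ a e x).filter
        (fun i => cell K e m i = τ ∧ cell K e (m + 2) i = σ j), c i) ^ p ≤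
      ENNReal.ofReal (XX n k K δ m M') * ((B : ℝ≥0∞) ^ p *
        ∑ i ∈ univ.filter (fun i => cell K e m i = τ), c i ^ (1 + p)) := by
    intro τ σ hσ
    unfold adm at hσ
    rw [Finset.mem_filter] at hσ
    obtain ⟨_, t, ht, htr⟩ := hσ
    have h1 := ml_glob hk hkn (fun j => e (t j)) (1 / (K : ℝ) ^ m)
      (1 / (K : ℝ) ^ (m + 1) / 2 ^ k) (√n) (by positivity) (by positivity) ?_ hsn ?_
      (fun j => he _) ?_ a e he (univ.filter (fun i => cell K e m i = τ))
      (fun j => univ.filter (fun i => cell K e m i = τ ∧ cell K e (m + 2) i = σ j)) ?_ c γ δ hδ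
      hδ1 hγ0 hγ2 ?_ M' hM hM2
    · simp only [sum_thr]
      refine h1.trans ?_
      unfold XX
      rw [← hγ]
      gcongr
      exact hB τ
    · rw [div_div, pow_succ]
      apply one_div_le_one_div_of_le (by positivity)
      have h2k : (1 : ℝ) ≤ 2 ^ k := one_le_pow₀ (by norm_num)
      calc (K : ℝ) ^ m = (K : ℝ) ^ m * 1 * 1 := by ring
        _ ≤ (K : ℝ) ^ m * K * 2 ^ k := by gcongr
    · intro lam j
      exact htr lam j
    · intro j l
      exact cell_dist hK e m _ _ ((ht j).1.trans (ht l).1.symm)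
    · intro j i hi
      rw [Finset.mem_filter] at hi ⊢
      exact ⟨hi.1, hi.2.1⟩
    · intro j i hi
      rw [Finset.mem_filter] at hi
      refine (cell_dist hK e (m + 2) _ _ (hi.2.2.trans (ht j).2.symm)).trans (le_of_eq ?_)
      rw [hγ]
      field_simp
      ring
  have hcard : ∀ τ, (adm (cell K e) e (fun m => 1 / (K : ℝ) ^ (m + 1)) k m τ).card ≤
      ((K ^ 2) ^ n) ^ k := by
    intro τ
    unfold adm
    refine (Finset.card_filter_le _ _).trans ?_
    rw [Fintype.card_piFinset, Finset.prod_const, Finset.card_univ, Fintype.card_fin]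
    exact Nat.pow_le_pow_left (cell_card hK e m τ) k
  calc ∫⁻ x, Br (cell K e) e (fun m => 1 / (K : ℝ) ^ (m + 1)) k c p (thr δ a e x) m
      = ∑ τ ∈ univ.image (cell K e m),
        ∑ σ ∈ adm (cell K e) e (fun m => 1 / (K : ℝ) ^ (m + 1)) k m τ,
        ∫⁻ x, ∏ j, (∑ i ∈ (thr δ a e x).filter
          (fun i => cell K e m i = τ ∧ cell K e (m + 2) i = σ j), c i) ^ p := by
        unfold Br
        rw [lintegral_finsetSum]
        · refine Finset.sum_congr rfl fun τ _ => ?_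
          rw [lintegral_finsetSum]
          intro σ _
          exact measurable_thr δ a e (fun S => ∏ j, (∑ i ∈ S.filter
            (fun i => cell K e m i = τ ∧ cell K e (m + 2) i = σ j), c i) ^ p)
        · intro τ _
          exact measurable_thr δ a e (fun S => ∑ σ ∈ adm (cell K e) e
            (fun m => 1 / (K : ℝ) ^ (m + 1)) k m τ, ∏ j, (∑ i ∈ S.filter
            (fun i => cell K e m i = τ ∧ cell K e (m + 2) i = σ j), c i) ^ p)
    _ ≤ ∑ τ ∈ univ.image (cell K e m),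
        ∑ _σ ∈ adm (cell K e) e (fun m => 1 / (K : ℝ) ^ (m + 1)) k m τ,
        ENNReal.ofReal (XX n k K δ m M') * ((B : ℝ≥0∞) ^ p *
        ∑ i ∈ univ.filter (fun i => cell K e m i = τ), c i ^ (1 + p)) :=
        Finset.sum_le_sum fun τ _ => Finset.sum_le_sum fun σ hσ => hmain τ σ hσ
    _ ≤ ∑ τ ∈ univ.image (cell K e m), (((K ^ 2) ^ n) ^ k : ℕ) *
        (ENNReal.ofReal (XX n k K δ m M') * ((B : ℝ≥0∞) ^ p *
        ∑ i ∈ univ.filter (fun i => cell K e m i = τ), c i ^ (1 + p))) := by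
        refine Finset.sum_le_sum fun τ _ => ?_
        rw [Finset.sum_const, nsmul_eq_mul]
        gcongr
        exact_mod_cast hcard τ
    _ = _ := by
        rw [← Finset.mul_sum, ← Finset.mul_sum, ← Finset.mul_sum, Finset.sum_fiberwise_of_maps_to
          (fun i _ => Finset.mem_image_of_mem (cell K e m) (Finset.mem_univ i))
          (fun i => c i ^ (1 + p))]

theorem int_ph {K : ℕ} (a e : ι → E n) (c : ι → ℝ≥0∞) {δ p : ℝ} (hp : 0 < p)
    (m : ℕ) (B : ℕ) (hB : ∀ τ, (univ.filter (fun i => cell K e m i = τ)).card ≤ B) (V : ℝ≥0∞)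
    (hV : ∀ i, volume (tube δ (a i) (e i)) ≤ V) :
    ∫⁻ x, Ph (cell K e) c (1 + p) (thr δ a e x) m ≤ (B : ℝ≥0∞) ^ p * (V * ∑ i, c i ^ (1 + p)) := by
  classical
  have hm : ∀ i, Measurable ((tube δ (a i) (e i)).indicator (fun _ => (1 : ℝ≥0∞))) := fun i =>
    measurable_const.indicator (measurableSet_tube _ _ _)
  have h1 : ∀ x, Ph (cell K e) c (1 + p) (thr δ a e x) m ≤ (B : ℝ≥0∞) ^ p *
      ∑ i, c i ^ (1 + p) * (tube δ (a i) (e i)).indicator (fun _ => (1 : ℝ≥0∞)) x := by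
    intro x
    unfold Ph
    simp only [sum_thr]
    calc ∑ τ ∈ univ.image (cell K e m), (∑ i ∈ univ.filter (fun i => cell K e m i = τ),
          c i * (tube δ (a i) (e i)).indicator (fun _ => (1 : ℝ≥0∞)) x) ^ (1 + p)
        ≤ ∑ τ ∈ univ.image (cell K e m), (B : ℝ≥0∞) ^ p *
          ∑ i ∈ univ.filter (fun i => cell K e m i = τ),
          c i ^ (1 + p) * (tube δ (a i) (e i)).indicator (fun _ => (1 : ℝ≥0∞)) x := by
          refine Finset.sum_le_sum fun τ _ => ?_
          refine (ENNReal.rpow_sum_le_const_mul_sum_rpow _ _ (by linarith)).trans ?_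
          rw [add_sub_cancel_left]
          gcongr with i _
          · exact hB τ
          · rw [ENNReal.mul_rpow_of_nonneg _ _ (by linarith)]
            gcongr
            by_cases hx : x ∈ tube δ (a i) (e i)
            · rw [Set.indicator_of_mem hx, ENNReal.one_rpow]
            · rw [Set.indicator_of_notMem hx, ENNReal.zero_rpow_of_pos (by linarith)]
      _ = _ := by
          rw [← Finset.mul_sum, Finset.sum_fiberwise_of_maps_to
            (fun i _ => Finset.mem_image_of_mem (cell K e m) (Finset.mem_univ i))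
            (fun i => c i ^ (1 + p) * (tube δ (a i) (e i)).indicator (fun _ => (1 : ℝ≥0∞)) x)]
  refine (lintegral_mono h1).trans ?_
  rw [lintegral_const_mul, lintegral_finsetSum]
  · gcongr
    rw [Finset.mul_sum]
    refine Finset.sum_le_sum fun i _ => ?_
    rw [lintegral_const_mul _ (hm i), lintegral_indicator_const (measurableSet_tube _ _ _),
      one_mul, mul_comm]
    gcongr
    exact hV i
  · exact fun i _ => (hm i).const_mul _
  · exact Finset.measurable_fun_sum _ fun i _ => (hm i).const_mul _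

theorem iter (φ b : ℕ → ℝ≥0∞) (f L : ℝ≥0∞) (M : ℕ)
    (h : ∀ m < M, φ m ≤ b m + f + L * φ (m + 1)) :
    φ 0 ≤ ∑ m ∈ range M, L ^ m * (b m + f) + L ^ M * φ M := by
  induction M with
  | zero => simp
  | succ M ih =>
    refine (ih (fun m hm => h m (by omega))).trans ?_
    rw [Finset.sum_range_succ, add_assoc]
    gcongr
    calc L ^ M * φ M ≤ L ^ M * (b M + f + L * φ (M + 1)) := by
          gcongr
          exact h M (by omega)
      _ = _ := by rw [pow_succ]; ring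

end Integ

end Pool.Agent.H565.MK
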