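import Mathlib
set_option autoImplicit false

/-!
# A Loomis–Whitney inequality for sums of boxes

`J` is a set of `k ≥ 2` of the coordinates of `I → ℝ`; the function `f j`, `j ∈ J`, does not depend
on the coordinate `j`.
-/

namespace Pool.Agent.H565.MK
open MeasureTheory Finset
open scoped ENNReal

/-- The measures. -/
noncomputable abbrev vols (I : Type) : I → Measure ℝ := fun _ => volume

section LW

variable {I : Type} [Fintype I] [DecidableEq I]

theorem lw_step (J : Finset I) (hJ : 2 ≤ J.card) (f : I → (I → ℝ) → ℝ≥0∞)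
    (hf : ∀ i, Measurable (f i)) (hi : ∀ i x t, f i (Function.update x i t) = f i x)
    (s : Finset I) : s ⊆ J → ∀ x : I → ℝ,
    lmarginal (vols I) s
      (fun y => ∏ i ∈ J, f i y ^ ((1 : ℝ) / ((J.card : ℝ) - 1))) x ≤
      ∏ i ∈ J, (lmarginal (vols I) (s.erase i) (f i) x)
        ^ ((1 : ℝ) / ((J.card : ℝ) - 1)) := by
  have hn1 : (0 : ℝ) < (J.card : ℝ) - 1 := by
    have : (2 : ℝ) ≤ J.card := by exact_mod_cast hJ
    linarith
  have hp0 : (0 : ℝ) ≤ (1 : ℝ) / ((J.card : ℝ) - 1) := by positivity
  generalize hp : (1 : ℝ) / ((J.card : ℝ) - 1) = p at hp0 ⊢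
  have hF : Measurable (fun y => ∏ i ∈ J, f i y ^ p) :=
    Finset.measurable_fun_prod _ fun i _ => (hf i).pow_const _
  induction s using Finset.induction_on with
  | empty =>
    intro _ x
    simp [lmarginal_empty]
  | insert j s hj ih =>
    intro hsJ x
    have hjJ : j ∈ J := hsJ (Finset.mem_insert_self _ _)
    have hsJ' : s ⊆ J := fun a ha => hsJ (Finset.mem_insert_of_mem ha)
    rw [lmarginal_insert _ hF hj]
    have h1 : ∀ t, lmarginal (vols I) s (f j) (Function.update x j t)
        = lmarginal (vols I) s (f j) x := by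
      intro t
      rw [lmarginal_update_of_notMem (hf j) hj]
      have h2 : (f j ∘ fun y => Function.update y j t) = f j := by
        funext y
        exact hi j y t
      rw [h2]
    have hmeas : ∀ i, Measurable fun t : ℝ =>
        lmarginal (vols I) (s.erase i) (f i) (Function.update x j t) :=
      fun i => ((hf i).lmarginal _).comp (measurable_update _)
    calc ∫⁻ t, lmarginal (vols I) s (fun y => ∏ i ∈ J, f i y ^ p)
          (Function.update x j t)
        ≤ ∫⁻ t, ∏ i ∈ J, (lmarginal (vols I) (s.erase i) (f i)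
          (Function.update x j t)) ^ p := lintegral_mono fun t => ih hsJ' _
      _ = ∫⁻ t, (lmarginal (vols I) s (f j) x) ^ p *
          ∏ i ∈ J.erase j, (lmarginal (vols I) (s.erase i) (f i)
          (Function.update x j t)) ^ p := by
            congr 1
            funext t
            rw [← Finset.mul_prod_erase J _ hjJ]
            congr 1
            rw [Finset.erase_eq_of_notMem hj, h1 t]
      _ = (lmarginal (vols I) s (f j) x) ^ p *
          ∫⁻ t, ∏ i ∈ J.erase j, (lmarginal (vols I) (s.erase i)
            (f i) (Function.update x j t)) ^ p := by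
            rw [lintegral_const_mul]
            exact Finset.measurable_fun_prod _ fun i _ => (hmeas i).pow_const _
      _ ≤ (lmarginal (vols I) s (f j) x) ^ p *
          ∏ i ∈ J.erase j, (∫⁻ t, lmarginal (vols I) (s.erase i)
            (f i) (Function.update x j t)) ^ p := by
            gcongr
            apply ENNReal.lintegral_prod_norm_pow_le
            · intro i _
              exact (hmeas i).aemeasurable
            · rw [Finset.sum_const, Finset.card_erase_of_mem hjJ, nsmul_eq_mul, ← hp,
                Nat.cast_sub (by omega), Nat.cast_one]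
              field_simp
            · intro i _
              exact hp0
      _ = ∏ i ∈ J, (lmarginal (vols I) ((insert j s).erase i) (f i) x) ^ p := by
            rw [← Finset.mul_prod_erase J
              (fun i => (lmarginal (vols I) ((insert j s).erase i) (f i) x)
                ^ p) hjJ]
            congr 1
            · rw [Finset.erase_insert hj]
            · apply Finset.prod_congr rfl
              intro i hij
              have hne : i ≠ j := Finset.ne_of_mem_erase hij
              rw [Finset.erase_insert_of_ne (Ne.symm hne),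
                lmarginal_insert _ (hf i) (fun h => hj (Finset.mem_of_mem_erase h))]

/-- The inequality in terms of bounds for the marginals. -/
theorem lw_bound (J : Finset I) (hJ : 2 ≤ J.card) (f : I → (I → ℝ) → ℝ≥0∞)
    (hf : ∀ i, Measurable (f i)) (hi : ∀ i x t, f i (Function.update x i t) = f i x)
    (N : I → ℝ≥0∞) (R : ℝ≥0∞)
    (hN : ∀ j ∈ J, ∀ s : Finset I, j ∉ s → ∀ x, lmarginal (vols I) s (f j) x ≤ N j * R ^ s.card) :
    ∫⁻ x, ∏ j ∈ J, f j x ^ ((1 : ℝ) / ((J.card : ℝ) - 1)) ≤
      R ^ (Fintype.card I) * ∏ j ∈ J, N j ^ ((1 : ℝ) / ((J.card : ℝ) - 1)) := by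
  have hk2 : (2 : ℝ) ≤ J.card := by exact_mod_cast hJ
  have hn1 : (0 : ℝ) < (J.card : ℝ) - 1 := by linarith
  have hk0 : (0 : ℝ) < (J.card : ℝ) := by linarith
  have hstep := lw_step J hJ f hf hi J (Finset.Subset.refl _)
  have hp0 : (0 : ℝ) < (1 : ℝ) / ((J.card : ℝ) - 1) := by positivity
  have hkp' : (J.card : ℝ) * ((1 : ℝ) / ((J.card : ℝ) - 1)) = 1 + (1 : ℝ) / ((J.card : ℝ) - 1) := by
    field_simp
    ring
  generalize hp : (1 : ℝ) / ((J.card : ℝ) - 1) = p at hp0 hstep hkp' ⊢
  have hF : Measurable (fun y => ∏ i ∈ J, f i y ^ p) :=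
    Finset.measurable_fun_prod _ fun i _ => (hf i).pow_const _
  have hpk : p * (J.card : ℝ) = 1 + p := by rw [mul_comm]; exact hkp'
  set h : I → (I → ℝ) → ℝ≥0∞ := fun j => lmarginal (vols I) (J.erase j) (f j) with hh
  have hhm : ∀ j, Measurable (h j) := fun j => (hf j).lmarginal _
  have e0 : ∫⁻ x, ∏ j ∈ J, f j x ^ p = lmarginal (vols I) Finset.univ
      (fun y => ∏ i ∈ J, f i y ^ p) 0 := by
    rw [lmarginal_univ]
    rfl
  rw [e0]
  have hdis : Disjoint (Jᶜ) J := disjoint_compl_left
  have e1 : (Finset.univ : Finset I) = Jᶜ ∪ J := by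
    ext i
    simp only [Finset.mem_union, Finset.mem_compl, Finset.mem_univ, true_iff]
    exact (em (i ∈ J)).symm
  rw [e1, lmarginal_union _ _ hF hdis]
  have e2 : lmarginal (vols I) Jᶜ (lmarginal (vols I) J fun y => ∏ i ∈ J, f i y ^ p) 0 ≤
      lmarginal (vols I) Jᶜ (fun x => ∏ j ∈ J, (h j x ^ (1 + p)) ^ (1 / (J.card : ℝ))) 0 := by
    apply lmarginal_mono
    intro x
    refine (hstep x).trans (le_of_eq ?_)
    refine Finset.prod_congr rfl fun j _ => ?_
    rw [← ENNReal.rpow_mul]
    congr 1
    rw [← hpk]
    field_simp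
  refine e2.trans ?_
  have e3 : lmarginal (vols I) Jᶜ (fun x => ∏ j ∈ J, (h j x ^ (1 + p)) ^ (1 / (J.card : ℝ))) 0 ≤
      ∏ j ∈ J, (lmarginal (vols I) Jᶜ (fun x => h j x ^ (1 + p)) 0) ^ (1 / (J.card : ℝ)) := by
    unfold lmarginal
    apply ENNReal.lintegral_prod_norm_pow_le
    · intro i _
      exact (((hhm i).pow_const _).comp measurable_updateFinset).aemeasurable
    · rw [Finset.sum_const, nsmul_eq_mul]
      field_simp
    · intro i _
      positivity
  refine e3.trans ?_
  have e4 : ∀ j ∈ J, (lmarginal (vols I) Jᶜ (fun x => h j x ^ (1 + p)) 0) ^ (1 / (J.card : ℝ)) ≤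
      N j ^ p * (R ^ (Fintype.card I)) ^ (1 / (J.card : ℝ)) := by
    intro j hj
    have hC : ∀ x, h j x ≤ N j * R ^ (J.card - 1) := by
      intro x
      have := hN j hj (J.erase j) (Finset.notMem_erase j J) x
      rwa [Finset.card_erase_of_mem hj] at this
    have s1 : lmarginal (vols I) Jᶜ (fun x => h j x ^ (1 + p)) 0 ≤
        lmarginal (vols I) Jᶜ (fun x => (N j * R ^ (J.card - 1)) ^ p * h j x) 0 := by
      apply lmarginal_mono
      intro x
      simp only
      rw [ENNReal.rpow_add_of_nonneg _ _ zero_le_one hp0.le, ENNReal.rpow_one, mul_comm]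
      gcongr
      exact hC x
    have s2 : lmarginal (vols I) Jᶜ (fun x => (N j * R ^ (J.card - 1)) ^ p * h j x) 0 =
        (N j * R ^ (J.card - 1)) ^ p * lmarginal (vols I) Jᶜ (h j) 0 := by
      unfold lmarginal
      rw [lintegral_const_mul]
      exact (hhm j).comp measurable_updateFinset
    have s3 : lmarginal (vols I) Jᶜ (h j) 0 ≤ N j * R ^ (Fintype.card I - 1) := by
      have hdis2 : Disjoint (Jᶜ) (J.erase j) :=
        Finset.disjoint_of_subset_right (Finset.erase_subset _ _) hdis
      rw [hh, ← lmarginal_union _ _ (hf j) hdis2]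
      have e5 : Jᶜ ∪ J.erase j = Finset.univ.erase j := by
        ext i
        simp only [Finset.mem_union, Finset.mem_compl, Finset.mem_erase, Finset.mem_univ, and_true]
        constructor
        · rintro (h1 | h1)
          · rintro rfl
            exact h1 hj
          · exact h1.1
        · intro h1
          by_cases h2 : i ∈ J
          · exact Or.inr ⟨h1, h2⟩
          · exact Or.inl h2
      rw [e5]
      have := hN j hj (Finset.univ.erase j) (Finset.notMem_erase j _) 0
      rwa [Finset.card_erase_of_mem (Finset.mem_univ j), Finset.card_univ] at this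
    have hcardI : 1 ≤ Fintype.card I := Fintype.card_pos_iff.2 ⟨j⟩
    calc (lmarginal (vols I) Jᶜ (fun x => h j x ^ (1 + p)) 0) ^ (1 / (J.card : ℝ))
        ≤ ((N j * R ^ (J.card - 1)) ^ p * (N j * R ^ (Fintype.card I - 1))) ^ (1 / (J.card : ℝ)) := by
          gcongr
          rw [s2] at s1
          refine s1.trans ?_
          gcongr
      _ = N j ^ p * (R ^ (Fintype.card I)) ^ (1 / (J.card : ℝ)) := by
          have t1 : (N j * R ^ (J.card - 1)) ^ p * (N j * R ^ (Fintype.card I - 1)) =
              N j ^ (1 + p) * R ^ (Fintype.card I) := by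
            rw [ENNReal.mul_rpow_of_nonneg _ _ hp0.le,
              ENNReal.rpow_add_of_nonneg _ _ zero_le_one hp0.le, ENNReal.rpow_one]
            have t2 : (R ^ (J.card - 1)) ^ p = R := by
              rw [← ENNReal.rpow_natCast, ← ENNReal.rpow_mul]
              have : ((J.card - 1 : ℕ) : ℝ) * p = 1 := by
                rw [← hp, Nat.cast_sub (by omega), Nat.cast_one]
                field_simp
              rw [this, ENNReal.rpow_one]
            rw [t2]
            have t3 : R ^ (Fintype.card I) = R * R ^ (Fintype.card I - 1) := by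
              rw [← pow_succ']
              congr 1
              omega
            rw [t3]
            ring
          rw [t1, ENNReal.mul_rpow_of_nonneg _ _ (by positivity), ← ENNReal.rpow_mul]
          congr 2
          rw [← hpk]
          field_simp
  refine (Finset.prod_le_prod' e4).trans (le_of_eq ?_)
  rw [Finset.prod_mul_distrib, Finset.prod_const, mul_comm]
  congr 1
  rw [← ENNReal.rpow_natCast, ← ENNReal.rpow_mul]
  have : 1 / (J.card : ℝ) * (J.card : ℝ) = 1 := by field_simp
  rw [this, ENNReal.rpow_one]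

/-- The box `|x i - m i| ≤ r` for `i ≠ j`. -/
def box (j : I) (m : I → ℝ) (r : ℝ) : Set (I → ℝ) := {x | ∀ i, i ≠ j → |x i - m i| ≤ r}

omit [Fintype I] [DecidableEq I] in
theorem measurableSet_box [Countable I] (j : I) (m : I → ℝ) (r : ℝ) :
    MeasurableSet (box j m r) := by
  have e : box j m r = ⋂ i, ⋂ (_ : i ≠ j), {x : I → ℝ | |x i - m i| ≤ r} := by
    ext x
    simp [box]
  rw [e]
  refine MeasurableSet.iInter fun i => MeasurableSet.iInter fun _ => ?_
  exact measurableSet_le (((measurable_pi_apply i).sub_const _).norm) measurable_const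

theorem lmarginal_box (j : I) (m : I → ℝ) (r : ℝ) (s : Finset I) (hs : j ∉ s) (x : I → ℝ) :
    lmarginal (vols I) s ((box j m r).indicator (fun _ => (1 : ℝ≥0∞))) x ≤
      ENNReal.ofReal (2 * r) ^ s.card := by
  unfold lmarginal
  have h1 : ∀ y : (∀ _ : s, ℝ), (box j m r).indicator (fun _ => (1 : ℝ≥0∞))
      (Function.updateFinset x s y) ≤
      (Set.pi Set.univ (fun i : s => Set.Icc (m i - r) (m i + r))).indicator
        (fun _ => (1 : ℝ≥0∞)) y := by
    intro y
    by_cases hy : Function.updateFinset x s y ∈ box j m r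
    · have hy' : y ∈ Set.pi Set.univ (fun i : s => Set.Icc (m i - r) (m i + r)) := by
        intro i _
        have hne : (i : I) ≠ j := fun h => hs (h ▸ i.2)
        have := hy i hne
        rw [Function.updateFinset, dif_pos i.2] at this
        rw [abs_le] at this
        constructor <;> simp only [Subtype.coe_eta] at this ⊢ <;> linarith [this.1, this.2]
      rw [Set.indicator_of_mem hy, Set.indicator_of_mem hy']
    · rw [Set.indicator_of_notMem hy]
      exact zero_le
  refine (lintegral_mono h1).trans ?_
  rw [lintegral_indicator_const (MeasurableSet.univ_pi fun i => measurableSet_Icc), one_mul,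
    Measure.pi_pi]
  simp only [vols, Real.volume_Icc]
  rw [Finset.prod_congr rfl (g := fun _ => ENNReal.ofReal (2 * r)) (fun i _ => by
    congr 1
    ring)]
  simp

/-- **The Loomis–Whitney inequality** for `|J| ≥ 2` families of boxes with weights. -/
theorem lw_box (J : Finset I) (hJ : 2 ≤ J.card) {ι : Type} (P : I → Finset ι) (c : ι → I → ℝ≥0∞)
    (m : ι → I → I → ℝ) (r : ℝ) :
    ∫⁻ x, ∏ j ∈ J, (∑ i ∈ P j, c i j * (box j (m i j) r).indicator (fun _ => (1 : ℝ≥0∞)) x)
        ^ ((1 : ℝ) / ((J.card : ℝ) - 1)) ≤
      ENNReal.ofReal (2 * r) ^ (Fintype.card I) *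
        ∏ j ∈ J, (∑ i ∈ P j, c i j) ^ ((1 : ℝ) / ((J.card : ℝ) - 1)) := by
  have hmb : ∀ (i : ι) (j : I), Measurable
      ((box j (m i j) r).indicator (fun _ => (1 : ℝ≥0∞))) := fun i j =>
    measurable_const.indicator (measurableSet_box j _ r)
  refine lw_bound J hJ (fun j x => ∑ i ∈ P j, c i j *
    (box j (m i j) r).indicator (fun _ => (1 : ℝ≥0∞)) x) ?_ ?_ (fun j => ∑ i ∈ P j, c i j)
    (ENNReal.ofReal (2 * r)) ?_
  · intro j
    exact Finset.measurable_fun_sum _ fun i _ => (hmb i j).const_mul _
  · intro j x t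
    refine Finset.sum_congr rfl fun i _ => ?_
    have e : Function.update x j t ∈ box j (m i j) r ↔ x ∈ box j (m i j) r := by
      unfold box
      simp only [Set.mem_ofPred_eq]
      refine forall_congr' fun l => ?_
      refine imp_congr_right fun hl => ?_
      rw [Function.update_of_ne hl]
    by_cases hx : x ∈ box j (m i j) r
    · rw [Set.indicator_of_mem hx, Set.indicator_of_mem (e.2 hx)]
    · rw [Set.indicator_of_notMem hx, Set.indicator_of_notMem (fun h => hx (e.1 h))]
  · intro j _ s hs x
    have e1 : lmarginal (vols I) s (fun x => ∑ i ∈ P j, c i j *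
        (box j (m i j) r).indicator (fun _ => (1 : ℝ≥0∞)) x) x =
        ∑ i ∈ P j, c i j *
          lmarginal (vols I) s ((box j (m i j) r).indicator (fun _ => (1 : ℝ≥0∞))) x := by
      unfold lmarginal
      rw [lintegral_finsetSum]
      · refine Finset.sum_congr rfl fun i _ => ?_
        rw [lintegral_const_mul]
        exact (hmb i j).comp measurable_updateFinset
      · intro i _
        exact ((hmb i j).comp measurable_updateFinset).const_mul _
    rw [e1, Finset.sum_mul]
    refine Finset.sum_le_sum fun i _ => ?_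
    gcongr
    exact lmarginal_box j (m i j) r s hs x

end LW

end Pool.Agent.H565.MK
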