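import Pool.Agent.H565.MK.Axis
set_option autoImplicit false

/-!
# The multilinear Kakeya estimate for transversal caps
-/

namespace Pool.Agent.H565.MK
open MeasureTheory Finset Metric
open scoped ENNReal

/-- The space. -/
abbrev E (n : ℕ) : Type := EuclideanSpace ℝ (Fin n)

/-- The (infinite) cylinder. -/
def cyl {n : ℕ} (δ : ℝ) (a e : E n) : Set (E n) := {y | ‖(y - a) - (inner ℝ (y - a) e) • e‖ ≤ δ}

section Lin

variable {n : ℕ}

/-- The determinant of a family of vectors. -/
noncomputable def dt (v : Fin n → E n) : ℝ := (Matrix.of fun j l => v j l).det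

/-- The coordinate map for a basis. -/
theorem exists_coord (v : Fin n → E n) (θ : ℝ) (hθ0 : 0 < θ)
    (hθ : ∀ (lam : Fin n → ℝ) (j : Fin n), θ * |lam j| ≤ ‖∑ l, lam l • v l‖) :
    ∃ A : E n →ₗ[ℝ] (Fin n → ℝ), Measurable A ∧
      (∀ lam : Fin n → ℝ, A (∑ l, lam l • v l) = lam) ∧
      (∀ (x : E n) (l : Fin n), |A x l| ≤ ‖x‖ / θ) ∧
      (∀ G : (Fin n → ℝ) → ℝ≥0∞, Measurable G →
        ∫⁻ x : E n, G (A x) = ENNReal.ofReal |dt v| * ∫⁻ y, G y) := by
  classical
  set Mx : Matrix (Fin n) (Fin n) ℝ := (Matrix.of fun j l => v j l).transpose with hMx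
  have hdet : dt v = Mx.det := by
    rw [hMx, Matrix.det_transpose]
    rfl
  have hmul : ∀ lam : Fin n → ℝ, Mx.mulVec lam = WithLp.ofLp (∑ l, lam l • v l) := by
    intro lam
    funext i
    simp only [hMx, Matrix.mulVec, dotProduct, Matrix.transpose_apply, Matrix.of_apply,
      WithLp.ofLp_sum, WithLp.ofLp_smul, Finset.sum_apply, Pi.smul_apply, smul_eq_mul]
    exact Finset.sum_congr rfl fun l _ => mul_comm _ _
  have hdet0 : Mx.det ≠ 0 := by
    intro h0
    obtain ⟨lam, hlam, h1⟩ := Matrix.exists_mulVec_eq_zero_iff.2 h0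
    rw [hmul] at h1
    have h2 : ∑ l, lam l • v l = 0 := by
      ext i
      exact congrFun h1 i
    apply hlam
    funext j
    have h3 := hθ lam j
    rw [h2, norm_zero] at h3
    have h4 : |lam j| ≤ 0 := by
      by_contra h5
      push Not at h5
      have := mul_pos hθ0 h5
      linarith
    simpa using h4
  have hunit : IsUnit Mx.det := isUnit_iff_ne_zero.2 hdet0
  set A : E n →ₗ[ℝ] (Fin n → ℝ) :=
    (Matrix.toLin' Mx⁻¹).comp (WithLp.linearEquiv 2 ℝ (Fin n → ℝ)).toLinearMap with hA
  have hAx : ∀ x : E n, A x = Mx⁻¹.mulVec (WithLp.ofLp x) := by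
    intro x
    rw [hA]
    simp only [LinearMap.comp_apply, Matrix.toLin'_apply]
    rfl
  have hA1 : ∀ lam : Fin n → ℝ, A (∑ l, lam l • v l) = lam := by
    intro lam
    rw [hAx, ← hmul, Matrix.mulVec_mulVec, Matrix.nonsing_inv_mul _ hunit, Matrix.one_mulVec]
  have hA2 : ∀ x : E n, ∑ l, A x l • v l = x := by
    intro x
    have h1 : WithLp.ofLp (∑ l, A x l • v l) = WithLp.ofLp x := by
      rw [← hmul, hAx, Matrix.mulVec_mulVec, Matrix.mul_nonsing_inv _ hunit, Matrix.one_mulVec]
    ext i
    exact congrFun h1 i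
  have hAm : Measurable A := A.continuous_of_finiteDimensional.measurable
  refine ⟨A, hAm, hA1, ?_, ?_⟩
  · intro x l
    have := hθ (A x) l
    rw [hA2] at this
    rw [le_div_iff₀ hθ0]
    linarith
  · intro G hG
    have h1 : ∫⁻ x : E n, G (A x) = ∫⁻ y : Fin n → ℝ, G (Mx⁻¹.mulVec y) := by
      have hmp := EuclideanSpace.volume_preserving_symm_measurableEquiv_toLp (Fin n)
      have h2 := hmp.lintegral_comp_emb (MeasurableEquiv.measurableEmbedding _)
        (fun y : Fin n → ℝ => G (Mx⁻¹.mulVec y))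
      rw [← h2]
      refine lintegral_congr fun x => ?_
      rw [hAx]
      rfl
    have hdi : Mx⁻¹.det ≠ 0 := by
      rw [Matrix.det_nonsing_inv]
      simpa using hdet0
    have h3 := Real.map_matrix_volume_pi_eq_smul_volume_pi hdi
    have h4 : ∫⁻ y : Fin n → ℝ, G (Mx⁻¹.mulVec y) = ∫⁻ y, G y ∂(Measure.map
        (Matrix.toLin' Mx⁻¹) volume) := by
      rw [lintegral_map hG]
      · rfl
      · exact (Matrix.toLin' Mx⁻¹).continuous_of_finiteDimensional.measurable
    rw [h1, h4, h3, lintegral_smul_measure]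
    have h5 : |(Mx⁻¹.det)⁻¹| = |dt v| := by
      rw [Matrix.det_nonsing_inv, hdet]
      simp
    rw [h5, smul_eq_mul]

/-- **Multilinear Kakeya**, for a basis. -/
theorem ml_basis (J : Finset (Fin n)) (hJ : 2 ≤ J.card) (v : Fin n → E n) (θ : ℝ) (hθ0 : 0 < θ)
    (hθ : ∀ (lam : Fin n → ℝ) (j : Fin n), θ * |lam j| ≤ ‖∑ l, lam l • v l‖)
    {ι : Type} (a e : ι → E n) (P : Fin n → Finset ι) (c : ι → ℝ≥0∞) (γ δ : ℝ) (hδ : 0 < δ)
    (hγ : 0 < γ) (hγ2 : γ ≤ 1 / 2)
    (hP : ∀ j ∈ J, ∀ i ∈ P j, ‖e i - v j‖ ≤ γ * θ / 2) (z : E n) (M : ℕ) :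
    ∫⁻ x in closedBall z 1, ∏ j ∈ J, (∑ i ∈ P j, c i *
      (cyl δ (a i) (e i)).indicator (fun _ => (1 : ℝ≥0∞)) x) ^ ((1 : ℝ) / ((J.card : ℝ) - 1)) ≤
      ENNReal.ofReal (|dt v| * ((3 * γ) ^ (n * M) *
        (2 * (1 / θ + ((2 / γ) ^ M - 1) * (2 * δ / θ))) ^ n)) *
        ∏ j ∈ J, (∑ i ∈ P j, c i) ^ ((1 : ℝ) / ((J.card : ℝ) - 1)) := by
  classical
  have hk2 : (2 : ℝ) ≤ J.card := by exact_mod_cast hJ
  have hp0 : (0 : ℝ) < (1 : ℝ) / ((J.card : ℝ) - 1) := by
    have : (0 : ℝ) < (J.card : ℝ) - 1 := by linarith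
    positivity
  obtain ⟨A, hAm, hA1, hA2, hA3⟩ := exists_coord v θ hθ0 hθ
  have hAv : ∀ j, A (v j) = Pi.single j 1 := by
    intro j
    have h1 := hA1 (Pi.single j 1)
    rw [Finset.sum_eq_single j] at h1
    · rwa [Pi.single_eq_same, one_smul] at h1
    · intro l _ hl
      rw [Pi.single_eq_of_ne hl, zero_smul]
    · intro h
      exact absurd (Finset.mem_univ j) h
  set P' : Fin n → Finset ι := fun j => if j ∈ J then P j else ∅ with hP'
  -- slopes
  set u : Fin n → ι → Fin n → ℝ := fun j i l =>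
    if j ∈ J ∧ i ∈ P j then A (e i) l / A (e i) j else 0 with hu
  set b : Fin n → ι → Fin n → ℝ := fun j i l => A (a i - z) l - u j i l * A (a i - z) j with hb
  have hAe : ∀ j ∈ J, ∀ i ∈ P j, (∀ l, l ≠ j → |A (e i) l| ≤ γ / 2) ∧ 3 / 4 ≤ A (e i) j := by
    intro j hj i hi
    have h1 : ∀ l, |A (e i - v j) l| ≤ γ / 2 := by
      intro l
      refine (hA2 _ l).trans ?_
      rw [div_le_iff₀ hθ0]
      have := hP j hj i hi
      linarith
    have h2 : ∀ l, A (e i - v j) l = A (e i) l - (Pi.single j 1 : Fin n → ℝ) l := by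
      intro l
      rw [map_sub, hAv j, Pi.sub_apply]
    constructor
    · intro l hl
      have := h1 l
      rwa [h2, Pi.single_eq_of_ne hl, sub_zero] at this
    · have := h1 j
      rw [h2, Pi.single_eq_same, abs_le] at this
      linarith [this.1]
  have huγ : ∀ j i l, l ≠ j → |u j i l| ≤ γ := by
    intro j i l hl
    simp only [hu]
    split_ifs with h
    · obtain ⟨h1, h2⟩ := hAe j h.1 i h.2
      rw [abs_div, div_le_iff₀ (by rw [abs_of_pos (by linarith)]; linarith), abs_of_pos
        (by linarith : (0 : ℝ) < A (e i) j)]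
      have := h1 l hl
      nlinarith
    · simpa using hγ.le
  have hax := axis J hJ P' c b u γ hγ hγ2 huγ 0 M (2 * δ / θ) (1 / θ) (by positivity)
    (by positivity)
  rw [Fintype.card_fin] at hax
  set G : (Fin n → ℝ) → ℝ≥0∞ := (closedBall (0 : Fin n → ℝ) (1 / θ)).indicator
    (mprod J P' c b u (2 * δ / θ)) with hG
  have hGm : Measurable G :=
    (measurable_mprod J P' c b u (2 * δ / θ)).indicator measurableSet_closedBall
  have key : ∀ x : E n, (closedBall z 1).indicator (fun x => ∏ j ∈ J, (∑ i ∈ P j, c i *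
      (cyl δ (a i) (e i)).indicator (fun _ => (1 : ℝ≥0∞)) x) ^ ((1 : ℝ) / ((J.card : ℝ) - 1))) x ≤
      G (A (x - z)) := by
    intro x
    by_cases hx : x ∈ closedBall z 1
    · rw [Set.indicator_of_mem hx]
      have hxn : ‖x - z‖ ≤ 1 := by
        rw [← dist_eq_norm]
        exact hx
      have hxG : A (x - z) ∈ closedBall (0 : Fin n → ℝ) (1 / θ) := by
        rw [mem_closedBall, dist_zero_right, pi_norm_le_iff_of_nonneg (by positivity)]
        intro l
        rw [Real.norm_eq_abs]
        exact (hA2 _ l).trans (by gcongr)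
      rw [hG, Set.indicator_of_mem hxG]
      unfold mprod
      refine Finset.prod_le_prod' fun j hj => ENNReal.rpow_le_rpow ?_ hp0.le
      simp only [hP', if_pos hj]
      refine Finset.sum_le_sum fun i hi => ?_
      gcongr
      by_cases hxc : x ∈ cyl δ (a i) (e i)
      · have hmem : A (x - z) ∈ tub j (b j i) (u j i) (2 * δ / θ) := by
          intro l hl
          obtain ⟨h1, h2⟩ := hAe j hj i hi
          set t : ℝ := inner ℝ (x - a i) (e i) with ht
          set w : E n := (x - a i) - t • e i with hw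
          have hwn : ‖w‖ ≤ δ := hxc
          have hwl : ∀ l, |A w l| ≤ δ / θ := fun l => (hA2 w l).trans (by gcongr)
          have hdec : x - z = (a i - z) + t • e i + w := by
            rw [hw]
            abel
          have hAd : ∀ l, A (x - z) l = A (a i - z) l + t * A (e i) l + A w l := by
            intro l
            rw [hdec]
            simp only [map_add, map_smul, Pi.add_apply, Pi.smul_apply, smul_eq_mul]
          have hul : u j i l = A (e i) l / A (e i) j := by
            simp only [hu]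
            rw [if_pos ⟨hj, hi⟩]
          have hu1 := huγ j i l hl
          have hne : A (e i) j ≠ 0 := by
            intro h0
            rw [h0] at h2
            linarith
          have hmulu : u j i l * A (e i) j = A (e i) l := by
            rw [hul]
            field_simp
          have e1 : A (x - z) l - b j i l - u j i l * A (x - z) j =
              A w l - u j i l * A w j := by
            rw [hAd l, hAd j]
            simp only [hb]
            linear_combination (-t) * hmulu
          rw [e1]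
          calc |A w l - u j i l * A w j| ≤ |A w l| + |u j i l * A w j| := abs_sub _ _
            _ = |A w l| + |u j i l| * |A w j| := by rw [abs_mul]
            _ ≤ δ / θ + 1 * (δ / θ) := by
                gcongr
                · exact hwl l
                · linarith
                · exact hwl j
            _ = 2 * δ / θ := by ring
        rw [Set.indicator_of_mem hxc, Set.indicator_of_mem hmem]
      · rw [Set.indicator_of_notMem hxc]
        exact zero_le
    · rw [Set.indicator_of_notMem hx]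
      exact zero_le
  calc ∫⁻ x in closedBall z 1, ∏ j ∈ J, (∑ i ∈ P j, c i *
      (cyl δ (a i) (e i)).indicator (fun _ => (1 : ℝ≥0∞)) x) ^ ((1 : ℝ) / ((J.card : ℝ) - 1))
      ≤ ∫⁻ x, G (A (x - z)) := by
        rw [← lintegral_indicator measurableSet_closedBall]
        exact lintegral_mono key
    _ = ∫⁻ x, G (A x) := lintegral_sub_right_eq_self (fun x => G (A x)) z
    _ = ENNReal.ofReal |dt v| * ∫⁻ y, G y := hA3 G hGm
    _ ≤ ENNReal.ofReal |dt v| * (ENNReal.ofReal ((3 * γ) ^ (n * M) *
        (2 * (1 / θ + ((2 / γ) ^ M - 1) * (2 * δ / θ))) ^ n) *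
        ∏ j ∈ J, (∑ i ∈ P' j, c i) ^ ((1 : ℝ) / ((J.card : ℝ) - 1))) := by
        rw [hG, lintegral_indicator measurableSet_closedBall]
        gcongr
    _ = _ := by
        rw [← mul_assoc, ← ENNReal.ofReal_mul (abs_nonneg _)]
        congr 1
        refine Finset.prod_congr rfl fun j hj => ?_
        simp only [hP', if_pos hj]

end Lin

end Pool.Agent.H565.MK
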