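import Pool.Agent.H565.MK.Glob
set_option autoImplicit false

/-!
# Cells of directions, volumes of tubes, measurability
-/

namespace Pool.Agent.H565.MK
open MeasureTheory Finset Metric
open scoped ENNReal

section Prep

variable {n : ℕ} {ι : Type}

/-- The cell of level `m` of the direction `e i`. -/
noncomputable def cell (K : ℕ) (e : ι → E n) (m : ℕ) (i : ι) : Fin n → ℤ :=
  fun l => ⌊(K : ℝ) ^ m * e i l⌋

theorem norm_le_of_coord (x : E n) (r : ℝ) (hr : 0 ≤ r) (h : ∀ l, |x l| ≤ r) :
    ‖x‖ ≤ √n * r := by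
  rw [EuclideanSpace.norm_eq]
  have h1 : ∑ l, ‖x l‖ ^ 2 ≤ n * r ^ 2 := by
    calc ∑ l, ‖x l‖ ^ 2 ≤ ∑ _l : Fin n, r ^ 2 := by
          refine Finset.sum_le_sum fun l _ => ?_
          rw [Real.norm_eq_abs]
          gcongr
          exact h l
      _ = n * r ^ 2 := by simp
  calc √(∑ l, ‖x l‖ ^ 2) ≤ √(n * r ^ 2) := Real.sqrt_le_sqrt h1
    _ = √n * r := by rw [Real.sqrt_mul (by positivity), Real.sqrt_sq hr]

theorem coord_le_norm (x : E n) (l : Fin n) : |x l| ≤ ‖x‖ := by
  have := PiLp.norm_apply_le x l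
  rwa [Real.norm_eq_abs] at this

theorem cell_dist {K : ℕ} (hK : 1 ≤ K) (e : ι → E n) (m : ℕ) (i j : ι)
    (h : cell K e m i = cell K e m j) : ‖e i - e j‖ ≤ √n * (1 / (K : ℝ) ^ m) := by
  have hK0 : (0 : ℝ) < (K : ℝ) ^ m := by positivity
  refine norm_le_of_coord _ _ (by positivity) fun l => ?_
  have h1 := congrFun h l
  unfold cell at h1
  have h2 := Int.abs_sub_lt_one_of_floor_eq_floor h1
  rw [← mul_sub, abs_mul, abs_of_pos hK0] at h2
  rw [le_div_iff₀ hK0, PiLp.sub_apply, mul_comm]
  exact h2.le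

theorem cell_card [Fintype ι] {K : ℕ} (hK : 1 ≤ K) (e : ι → E n) (m : ℕ) (τ : Fin n → ℤ) :
    ((univ.filter (fun i => cell K e m i = τ)).image (cell K e (m + 2))).card ≤ (K ^ 2) ^ n := by
  classical
  have h1 : (univ.filter (fun i => cell K e m i = τ)).image (cell K e (m + 2)) ⊆
      Fintype.piFinset (fun l : Fin n => Finset.Ico ((K : ℤ) ^ 2 * τ l) ((K : ℤ) ^ 2 * τ l + (K : ℤ) ^ 2)) := by
    intro σ hσ
    obtain ⟨i, hi, rfl⟩ := Finset.mem_image.1 hσ
    rw [Finset.mem_filter] at hi
    rw [Fintype.mem_piFinset]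
    intro l
    have h2 := congrFun hi.2 l
    unfold cell at h2 ⊢
    rw [Int.floor_eq_iff] at h2
    rw [Finset.mem_Ico]
    have e1 : (K : ℝ) ^ (m + 2) * e i l = (K : ℝ) ^ 2 * ((K : ℝ) ^ m * e i l) := by ring
    have hK2 : (0 : ℝ) ≤ (K : ℝ) ^ 2 := by positivity
    constructor
    · rw [Int.le_floor, e1]
      push_cast
      exact mul_le_mul_of_nonneg_left h2.1 hK2
    · rw [Int.floor_lt, e1]
      push_cast
      have : (0 : ℝ) < (K : ℝ) ^ 2 := by positivity
      nlinarith [h2.2]
  refine (Finset.card_le_card h1).trans (le_of_eq ?_)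
  rw [Fintype.card_piFinset]
  simp only [Int.card_Ico, add_sub_cancel_left, Finset.prod_const, Finset.card_univ,
    Fintype.card_fin]
  norm_cast

theorem cell_cover [Fintype ι] {K : ℕ} (hK : 1 ≤ K) (e : ι → E n) (m : ℕ) (P : Finset ι)
    (Z : Finset (E n)) (h : ∀ i ∈ P, ∃ z ∈ Z, ‖e i - z‖ ≤ 1 / (K : ℝ) ^ m) :
    (P.image (cell K e m)).card ≤ Z.card * 3 ^ n := by
  classical
  have hK0 : (0 : ℝ) < (K : ℝ) ^ m := by positivity
  have h1 : P.image (cell K e m) ⊆ Z.biUnion (fun z => Fintype.piFinset (fun l : Fin n =>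
      Finset.Icc (⌊(K : ℝ) ^ m * z l⌋ - 1) (⌊(K : ℝ) ^ m * z l⌋ + 1))) := by
    intro σ hσ
    obtain ⟨i, hi, rfl⟩ := Finset.mem_image.1 hσ
    obtain ⟨z, hz, hd⟩ := h i hi
    rw [Finset.mem_biUnion]
    refine ⟨z, hz, ?_⟩
    rw [Fintype.mem_piFinset]
    intro l
    have h2 := (coord_le_norm (e i - z) l).trans hd
    rw [le_div_iff₀ hK0, PiLp.sub_apply] at h2
    have h3 : |(K : ℝ) ^ m * e i l - (K : ℝ) ^ m * z l| ≤ 1 := by
      rw [← mul_sub, abs_mul, abs_of_pos hK0, mul_comm]
      exact h2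
    rw [abs_le] at h3
    have h4 := Int.floor_le ((K : ℝ) ^ m * z l)
    have h5 := Int.lt_floor_add_one ((K : ℝ) ^ m * z l)
    rw [Finset.mem_Icc]
    unfold cell
    constructor
    · rw [Int.le_floor]
      push_cast
      linarith [h3.1]
    · rw [← Int.lt_add_one_iff, Int.floor_lt]
      push_cast
      linarith [h3.2]
  refine (Finset.card_le_card h1).trans (Finset.card_biUnion_le.trans ?_)
  rw [← smul_eq_mul, ← Finset.sum_const]
  refine Finset.sum_le_sum fun z _ => le_of_eq ?_
  rw [Fintype.card_piFinset]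
  have h6 : ∀ l : Fin n, (Finset.Icc (⌊(K : ℝ) ^ m * z l⌋ - 1) (⌊(K : ℝ) ^ m * z l⌋ + 1)).card = 3 := by
    intro l
    rw [Int.card_Icc]
    omega
  simp only [h6, Finset.prod_const, Finset.card_univ, Fintype.card_fin]

theorem cell_zero_card [Fintype ι] (K : ℕ) (e : ι → E n) (he : ∀ i, ‖e i‖ = 1) :
    (univ.image (cell K e 0)).card ≤ 3 ^ n := by
  classical
  have h1 : univ.image (cell K e 0) ⊆ Fintype.piFinset (fun _ : Fin n =>
      Finset.Icc (-1 : ℤ) 1) := by
    intro σ hσ
    obtain ⟨i, _, rfl⟩ := Finset.mem_image.1 hσ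
    rw [Fintype.mem_piFinset]
    intro l
    have h2 := (coord_le_norm (e i) l).trans (le_of_eq (he i))
    rw [abs_le] at h2
    rw [Finset.mem_Icc]
    unfold cell
    rw [pow_zero, one_mul]
    constructor
    · rw [Int.le_floor]
      push_cast
      linarith [h2.1]
    · rw [← Int.lt_add_one_iff, Int.floor_lt]
      push_cast
      linarith [h2.2]
  refine (Finset.card_le_card h1).trans (le_of_eq ?_)
  rw [Fintype.card_piFinset]
  simp

/-- The tubes through `x`. -/
noncomputable def thr [Fintype ι] (δ : ℝ) (a e : ι → E n) (x : E n) : Finset ι := by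
  classical
  exact univ.filter (fun i => x ∈ tube δ (a i) (e i))

theorem mem_thr [Fintype ι] (δ : ℝ) (a e : ι → E n) (x : E n) (i : ι) :
    i ∈ thr δ a e x ↔ x ∈ tube δ (a i) (e i) := by
  classical
  unfold thr
  simp

theorem measurable_thr [Fintype ι] (δ : ℝ) (a e : ι → E n) (Φ : Finset ι → ℝ≥0∞) :
    Measurable fun x => Φ (thr δ a e x) := by
  classical
  let _ : MeasurableSpace (Finset ι) := ⊤
  have h1 : Measurable (thr δ a e) := by
    refine measurable_to_countable' fun S => ?_
    have e1 : thr δ a e ⁻¹' {S} = ⋂ i, if i ∈ S then tube δ (a i) (e i)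
        else (tube δ (a i) (e i))ᶜ := by
      ext x
      simp only [Set.mem_preimage, Set.mem_singleton_iff, Set.mem_iInter]
      rw [Finset.ext_iff]
      refine forall_congr' fun i => ?_
      rw [mem_thr]
      split_ifs with h
      · simp [h]
      · simp [h]
    rw [e1]
    refine MeasurableSet.iInter fun i => ?_
    split_ifs
    · exact measurableSet_tube _ _ _
    · exact (measurableSet_tube _ _ _).compl
  exact (measurable_from_top (f := Φ)).comp h1

theorem sum_thr [Fintype ι] (δ : ℝ) (a e : ι → E n) (c : ι → ℝ≥0∞) (x : E n)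
    (P : ι → Prop) [DecidablePred P] :
    ∑ i ∈ (thr δ a e x).filter P, c i =
      ∑ i ∈ univ.filter P, c i * (tube δ (a i) (e i)).indicator (fun _ => (1 : ℝ≥0∞)) x := by
  classical
  have e1 : (thr δ a e x).filter P = (univ.filter P).filter (fun i => x ∈ tube δ (a i) (e i)) := by
    ext i
    simp only [Finset.mem_filter, mem_thr, Finset.mem_univ, true_and]
    exact and_comm
  rw [e1, Finset.sum_filter]
  refine Finset.sum_congr rfl fun i _ => ?_
  split_ifs with h
  · rw [Set.indicator_of_mem h, mul_one]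
  · rw [Set.indicator_of_notMem h, mul_zero]

/-- The volume of a tube. -/
theorem volume_tube (hn : 1 ≤ n) {δ : ℝ} (hδ : 0 < δ) (hδ1 : δ ≤ 1) (a e : E n) (he : ‖e‖ = 1) :
    volume (tube δ a e) ≤ ENNReal.ofReal ((n.factorial : ℝ) * 6 ^ n * δ ^ (n - 1)) := by
  classical
  obtain ⟨m, rfl⟩ : ∃ m, n = m + 1 := ⟨n - 1, by omega⟩
  obtain ⟨v, hv1, hv2, hv3⟩ := exists_ext (n := m + 1) {0} (fun _ => e) 1 1 one_pos le_rfl
    (by
      intro lam j hj
      rw [Finset.mem_singleton] at hj
      subst hj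
      rw [Finset.sum_singleton, norm_smul, he, mul_one, one_mul, Real.norm_eq_abs])
  have hdt := dt_le {0} 0 (Finset.mem_singleton_self 0) v 1 1 one_pos le_rfl
    (by rw [hv1 0 (Finset.mem_singleton_self 0), he])
    (fun j hj => by
      rw [Finset.mem_singleton] at hj
      subst hj
      simp) hv2
  rw [one_pow, one_pow, mul_one, mul_one] at hdt
  obtain ⟨A, hAm, hA1, hA2, hA3⟩ := exists_coord v 1 one_pos hv3
  have hAv : A e = Pi.single 0 1 := by
    have h1 := hA1 (Pi.single 0 1)
    rw [Finset.sum_eq_single 0] at h1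
    · rwa [Pi.single_eq_same, one_smul, hv1 0 (Finset.mem_singleton_self 0)] at h1
    · intro l _ hl
      rw [Pi.single_eq_of_ne hl, zero_smul]
    · intro h
      exact absurd (Finset.mem_univ 0) h
  set Bx : Set (Fin (m + 1) → ℝ) := Set.pi Set.univ
    (fun l => Set.Icc (-(if l = 0 then 3 / 2 else δ)) (if l = 0 then 3 / 2 else δ)) with hBx
  have hBm : MeasurableSet Bx := MeasurableSet.univ_pi fun _ => measurableSet_Icc
  have h1 : ∀ x, (tube δ a e).indicator (fun _ => (1 : ℝ≥0∞)) x ≤
      Bx.indicator (fun _ => (1 : ℝ≥0∞)) (A (x - a)) := by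
    intro x
    by_cases hx : x ∈ tube δ a e
    · have h2 : A (x - a) ∈ Bx := by
        intro l _
        set t : ℝ := inner ℝ (x - a) e with ht
        set w : E (m + 1) := (x - a) - t • e with hw
        have hwn : ‖w‖ ≤ δ := hx.2
        have htn : |t| ≤ 1 / 2 := hx.1
        have hwl : |A w l| ≤ δ := by
          refine (hA2 w l).trans ?_
          rwa [div_one]
        have hdec : x - a = t • e + w := by
          rw [hw]
          abel
        have hAd : A (x - a) l = t * (Pi.single 0 1 : Fin (m + 1) → ℝ) l + A w l := by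
          rw [hdec, map_add, map_smul, hAv]
          rfl
        rw [abs_le] at hwl htn
        rw [Set.mem_Icc, hAd]
        by_cases hl : l = 0
        · subst hl
          rw [if_pos rfl, Pi.single_eq_same]
          constructor <;> linarith [hwl.1, hwl.2, htn.1, htn.2]
        · rw [if_neg hl, Pi.single_eq_of_ne hl]
          constructor <;> linarith [hwl.1, hwl.2]
      rw [Set.indicator_of_mem hx, Set.indicator_of_mem h2]
    · rw [Set.indicator_of_notMem hx]
      exact zero_le
  calc volume (tube δ a e) = ∫⁻ x, (tube δ a e).indicator (fun _ => (1 : ℝ≥0∞)) x := by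
        rw [lintegral_indicator_const (measurableSet_tube _ _ _), one_mul]
    _ ≤ ∫⁻ x, Bx.indicator (fun _ => (1 : ℝ≥0∞)) (A (x - a)) := lintegral_mono h1
    _ = ∫⁻ x, Bx.indicator (fun _ => (1 : ℝ≥0∞)) (A x) :=
        lintegral_sub_right_eq_self (fun x => Bx.indicator (fun _ => (1 : ℝ≥0∞)) (A x)) a
    _ = ENNReal.ofReal |dt v| * ∫⁻ y, Bx.indicator (fun _ => (1 : ℝ≥0∞)) y :=
        hA3 _ (measurable_const.indicator hBm)
    _ = ENNReal.ofReal |dt v| * volume Bx := by rw [lintegral_indicator_const hBm, one_mul]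
    _ ≤ ENNReal.ofReal |dt v| * ENNReal.ofReal (3 * (2 * δ) ^ m) := by
        gcongr
        refine le_of_eq ?_
        rw [hBx, volume_pi_pi]
        simp only [Real.volume_Icc]
        rw [Fin.prod_univ_succ, if_pos rfl, ENNReal.ofReal_mul (by norm_num),
          ENNReal.ofReal_pow (by positivity)]
        congr 1
        · norm_num
        · rw [Finset.prod_congr rfl (g := fun _ => ENNReal.ofReal (2 * δ))]
          · simp
          · intro l _
            rw [if_neg (Fin.succ_ne_zero l)]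
            congr 1
            ring
    _ ≤ _ := by
        rw [← ENNReal.ofReal_mul (abs_nonneg _)]
        refine ENNReal.ofReal_le_ofReal ?_
        rw [Nat.add_sub_cancel]
        calc |dt v| * (3 * (2 * δ) ^ m) ≤ ((m + 1).factorial : ℝ) * (3 * (2 * δ) ^ m) := by gcongr
          _ = ((m + 1).factorial : ℝ) * (3 * 2 ^ m) * δ ^ m := by rw [mul_pow]; ring
          _ ≤ ((m + 1).factorial : ℝ) * 6 ^ (m + 1) * δ ^ m := by
              gcongr
              rw [pow_succ, mul_comm]
              gcongr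
              · norm_num
              · norm_num

end Prep

end Pool.Agent.H565.MK
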