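import Pool.Agent.H565.MK.Fam2
set_option autoImplicit false

/-!
# The norm inequality on a set of points at which the bushes spread little
-/

namespace Pool.Agent.H565.MK
open MeasureTheory Finset Metric
open scoped ENNReal

section Spr2

variable {n : ℕ}

/-- Larger exponents. -/
theorem larger_expG {ι : Type} [Fintype ι] (δ : ℝ) (a e : ι → E n) (G : Set (E n)) {q₀ q : ℝ}
    (hq0 : 0 < q₀) (hq : q₀ ≤ q) :
    ∫⁻ x in G, mult δ a e x ^ q ≤
      (Fintype.card ι : ℝ≥0∞) ^ (q - q₀) * ∫⁻ x in G, mult δ a e x ^ q₀ := by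
  rw [← lintegral_const_mul _ ((measurable_mult δ a e).pow_const _)]
  refine lintegral_mono fun x => ?_
  have h1 : mult δ a e x ^ q = mult δ a e x ^ (q - q₀) * mult δ a e x ^ q₀ := by
    rw [← ENNReal.rpow_add_of_nonneg _ _ (by linarith) hq0.le]
    congr 1
    ring
  rw [h1]
  exact mul_le_mul_left (ENNReal.rpow_le_rpow (mult_ne_top δ a e x) (sub_nonneg.2 hq)) _

/-- The integral form for the exponent `1 + 1/(k-1)`. -/
theorem spread_intG {k : ℕ} (hk : 2 ≤ k) (hkn : k ≤ n) (α β A B : ℝ) (hα : 0 ≤ α) (hβ : 0 ≤ β)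
    (hA : 0 ≤ A) (hB : 1 ≤ B) :
    ∃ C : ℝ, 1 ≤ C ∧ ∀ δ : ℝ, 0 < δ → δ < 1 →
      ∀ (ι : Type) [Fintype ι] (a e : ι → E n), (∀ i, ‖e i‖ = 1) →
      DimLe α A δ e → ∀ G : Set (E n), SpreadOn G k β B δ a e →
      ∫⁻ x in G, mult δ a e x ^ (1 + 1 / ((k : ℝ) - 1)) ≤
        ENNReal.ofReal (C * Real.exp (C * √(Real.log (1 / δ))) *
          (1 / δ) ^ (max (max (α / ((k : ℝ) - 1) - 1) (β / ((k : ℝ) - 1))) 0) *
          (δ ^ (n - 1) * Fintype.card ι)) := by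
  have hk2 : (2 : ℝ) ≤ k := by exact_mod_cast hk
  have hk1 : (0 : ℝ) < (k : ℝ) - 1 := by linarith
  have hn1 : 1 ≤ n := by omega
  have hsn : 1 ≤ √(n : ℝ) := by
    rw [Real.one_le_sqrt]
    exact_mod_cast hn1
  have hsnβ : 1 ≤ √(n : ℝ) ^ β := Real.one_le_rpow hsn hβ
  have hB' : 1 ≤ B * √(n : ℝ) ^ β := by nlinarith
  obtain ⟨C₁, hC₁, hC⟩ := mult_leG (n := n) hk hkn α β A (B * √(n : ℝ) ^ β) hα hβ hA hB'
  obtain ⟨C₂, hC₂, hbest⟩ := best_K C₁ hC₁
  refine ⟨C₂, hC₂, ?_⟩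
  intro δ hδ hδ1 ι _ a e he hdim G hsp
  obtain ⟨K, hK, hKL⟩ := hbest δ hδ hδ1.le
  have hK1 : 1 ≤ K := by
    have : (1 : ℝ) ≤ K := hC₁.trans hK
    exact_mod_cast this
  have h := hC K hK δ hδ hδ1.le ι a e he hdim G
  rw [lintegral_zero_on hk K _ δ a e G (fun x hx =>
    flatMult_eq_zeroG hn1 hK1 (by linarith) a e x (hsp x hx)), add_zero] at h
  refine h.trans ?_
  have hcard : ENNReal.ofReal (δ ^ (n - 1)) * Fintype.card ι =
      ENNReal.ofReal (δ ^ (n - 1) * Fintype.card ι) := by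
    rw [ENNReal.ofReal_mul (by positivity), ENNReal.ofReal_natCast]
  rw [hcard, ← ENNReal.ofReal_mul (by positivity)]
  refine ENNReal.ofReal_le_ofReal ?_
  refine mul_le_mul_of_nonneg_right ?_ (by positivity)
  exact mul_le_mul_of_nonneg_right hKL (by positivity)

/-- The norm form for all exponents. -/
theorem spread_normG {k : ℕ} (hk : 2 ≤ k) (hkn : k ≤ n) (α β A B : ℝ) (hα : 0 ≤ α) (hβ : 0 ≤ β)
    (hA : 0 ≤ A) (hB : 1 ≤ B) :
    ∃ C : ℝ, 1 ≤ C ∧ ∀ δ : ℝ, 0 < δ → δ < 1 →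
      ∀ (ι : Type) [Fintype ι] (a e : ι → E n), (∀ i, ‖e i‖ = 1) →
      DimLe α A δ e → ∀ G : Set (E n), SpreadOn G k β B δ a e →
      ∀ q : ℝ, (k : ℝ) / ((k : ℝ) - 1) ≤ q →
      eLpNorm (fun x => ∑ i, (tube δ (a i) (e i)).indicator (fun _ => (1 : ℝ)) x)
          (ENNReal.ofReal q) (volume.restrict G) ≤
        ENNReal.ofReal (C * Real.exp (C * √(Real.log (1 / δ))) *
          (1 / δ) ^ (max (max (α / ((k : ℝ) - 1) - 1) (β / ((k : ℝ) - 1))) 0 / q) *
          δ ^ (((n : ℝ) - 1) / q) *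
          (Fintype.card ι : ℝ) ^ (1 - 1 / (q * ((k : ℝ) - 1)))) := by
  have hk2 : (2 : ℝ) ≤ k := by exact_mod_cast hk
  have hk1 : (0 : ℝ) < (k : ℝ) - 1 := by linarith
  have hn1 : 1 ≤ n := by omega
  obtain ⟨C, hC1, hC⟩ := spread_intG (n := n) hk hkn α β A B hα hβ hA hB
  refine ⟨C, hC1, ?_⟩
  intro δ hδ hδ1 ι _ a e he hsep G hsp q hq
  have e0 : (k : ℝ) / ((k : ℝ) - 1) = 1 + 1 / ((k : ℝ) - 1) := by
    field_simp
    ring
  rw [e0] at hq
  have hp0 : 0 < 1 / ((k : ℝ) - 1) := by positivity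
  have hq0 : 0 < q := by linarith
  have hq1 : 1 ≤ q := by linarith
  have e3 : ∀ x, ‖∑ i, (tube δ (a i) (e i)).indicator (fun _ => (1 : ℝ)) x‖ₑ =
      mult δ a e x := by
    intro x
    unfold mult
    rw [Real.enorm_of_nonneg (Finset.sum_nonneg fun i _ =>
      Set.indicator_nonneg (fun _ _ => zero_le_one) _),
      ENNReal.ofReal_sum_of_nonneg fun i _ => Set.indicator_nonneg (fun _ _ => zero_le_one) _]
    refine Finset.sum_congr rfl fun i _ => ?_
    by_cases hx : x ∈ tube δ (a i) (e i)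
    · rw [Set.indicator_of_mem hx, Set.indicator_of_mem hx, ENNReal.ofReal_one]
    · rw [Set.indicator_of_notMem hx, Set.indicator_of_notMem hx, ENNReal.ofReal_zero]
  rw [eLpNorm_eq_lintegral_rpow_enorm_toReal (by
    rw [ne_eq, ENNReal.ofReal_eq_zero, not_le]; exact hq0) ENNReal.ofReal_ne_top,
    ENNReal.toReal_ofReal hq0.le]
  simp only [e3]
  rw [one_div, ENNReal.rpow_inv_le_iff hq0, ENNReal.ofReal_rpow_of_nonneg (by positivity) hq0.le]
  refine (larger_expG δ a e G (by linarith) hq).trans ?_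
  have h1 := hC δ hδ hδ1 ι a e he hsep G hsp
  refine (mul_le_mul_right h1 _).trans ?_
  obtain ⟨D, hD⟩ : ∃ D, D = max (max (α / ((k : ℝ) - 1) - 1) (β / ((k : ℝ) - 1))) 0 := ⟨_, rfl⟩
  obtain ⟨S, hS⟩ : ∃ S, S = √(Real.log (1 / δ)) := ⟨_, rfl⟩
  have hS0 : 0 ≤ S := by rw [hS]; positivity
  rw [← hD, ← hS]
  rw [← ENNReal.ofReal_natCast (Fintype.card ι), ENNReal.ofReal_rpow_of_nonneg (by positivity)
    (by linarith), ← ENNReal.ofReal_mul (by positivity)]
  refine ENNReal.ofReal_le_ofReal ?_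
  obtain ⟨N, hN⟩ : ∃ N : ℝ, N = Fintype.card ι := ⟨_, rfl⟩
  have hN0 : 0 ≤ N := by rw [hN]; positivity
  rw [← hN]
  have hδi : 0 < 1 / δ := by positivity
  have e5 : (C * Real.exp (C * S) * (1 / δ) ^ (D / q) * δ ^ (((n : ℝ) - 1) / q) *
      N ^ (1 - 1 / (q * ((k : ℝ) - 1)))) ^ q =
      C ^ q * Real.exp (C * S) ^ q * (1 / δ) ^ D * δ ^ (n - 1) *
        N ^ (q - 1 / ((k : ℝ) - 1)) := by
    rw [Real.mul_rpow (by positivity) (by positivity), Real.mul_rpow (by positivity) (by positivity),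
      Real.mul_rpow (by positivity) (by positivity), Real.mul_rpow (by positivity) (by positivity),
      ← Real.rpow_mul hδi.le, ← Real.rpow_mul hδ.le, ← Real.rpow_mul hN0]
    have e6 : D / q * q = D := by field_simp
    have e7 : ((n : ℝ) - 1) / q * q = ((n - 1 : ℕ) : ℝ) := by
      rw [Nat.cast_sub hn1]
      push_cast
      field_simp
    have e8 : (1 - 1 / (q * ((k : ℝ) - 1))) * q = q - 1 / ((k : ℝ) - 1) := by field_simp
    rw [e6, e7, e8, Real.rpow_natCast]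
  rw [e5]
  have e9 : N ^ (q - (1 + 1 / ((k : ℝ) - 1))) * N ≤ N ^ (q - 1 / ((k : ℝ) - 1)) := by
    rcases hN0.eq_or_lt with h0 | h0
    · rw [← h0, mul_zero]
      positivity
    · refine le_of_eq ?_
      nth_rewrite 2 [← Real.rpow_one N]
      rw [← Real.rpow_add h0]
      congr 1
      ring
  have e10 : C * Real.exp (C * S) ≤ C ^ q * Real.exp (C * S) ^ q := by
    rw [← Real.mul_rpow (by positivity) (by positivity)]
    have h2 : 1 ≤ C * Real.exp (C * S) := by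
      have := Real.one_le_exp (mul_nonneg (by linarith : 0 ≤ C) hS0)
      nlinarith
    calc C * Real.exp (C * S) = (C * Real.exp (C * S)) ^ (1 : ℝ) := (Real.rpow_one _).symm
      _ ≤ _ := Real.rpow_le_rpow_of_exponent_le h2 hq1
  calc N ^ (q - (1 + 1 / ((k : ℝ) - 1))) *
        (C * Real.exp (C * S) * (1 / δ) ^ D * (δ ^ (n - 1) * N))
      = (C * Real.exp (C * S)) * ((1 / δ) ^ D * δ ^ (n - 1)) *
        (N ^ (q - (1 + 1 / ((k : ℝ) - 1))) * N) := by ring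
    _ ≤ (C ^ q * Real.exp (C * S) ^ q) * ((1 / δ) ^ D * δ ^ (n - 1)) *
        N ^ (q - 1 / ((k : ℝ) - 1)) := by
        refine mul_le_mul (mul_le_mul_of_nonneg_right e10 (by positivity)) e9 (by positivity)
          (by positivity)
    _ = _ := by ring

end Spr2

end Pool.Agent.H565.MK
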